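import Pool.Agent.Q255.FM.RL

set_option autoImplicit false

/-!
Asymptotics of the diagonal sums.
-/

open Filter MeasureTheory Metric Set Topology
open Pool.Agent.H306R2

namespace Pool.Agent.Q255.FM

noncomputable section

theorem kar {κ : ℝ} (hκ : 0 < κ) (φ : ℝ → ℝ) (hφ : Continuous φ) (M : ℝ) (hM : 0 ≤ M)
    (h0 : ∀ u : ℝ, M ≤ u → φ u = 0) :
    Summable (fun m : ℕ => dv κ m ^ 2 / m * φ (Real.log m / 1)) ∧
    Tendsto (fun L : ℝ => (∑' m : ℕ, dv κ m ^ 2 / m * φ (Real.log m / L)) / L ^ (κ ^ 2))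
      atTop (𝓝 (aF κ * ∫ u : ℝ, gd (κ ^ 2) u * φ u)) := by
  set e : Fin 1 → ℝ := fun _ => κ with he
  have he0 : ∀ i, 0 < e i := fun _ => hκ
  have hsum : ∑ i, e i = κ := by simp [he]
  have H := wt_KH e he0 one_pos
  rw [hsum] at H
  have hw : ∀ m : ℕ, wt κ e (fun _ => m) = dv κ m ^ 2 / m := by
    intro m
    unfold wt
    simp [he]
    ring
  have hpos : ∀ (L : ℝ) (m : ℕ), pos L (fun _ : Fin 1 => m) 0 = Real.log m / L := fun L m => rfl
  have hM0 : ∀ u : Fin 1 → ℝ, (∀ i, 0 ≤ u i) → (∃ i, M ≤ u i) → φ (u 0) = 0 := by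
    rintro u - ⟨i, hi⟩
    rw [Subsingleton.elim i 0] at hi
    exact h0 _ hi
  have hc : Continuous (fun u : Fin 1 → ℝ => φ (u 0)) := hφ.comp (continuous_apply 0)
  constructor
  · have h := tf_summable H (fun u => φ (u 0)) hc M hM0 hM (L := 1) one_pos
    have h2 := (Equiv.funUnique (Fin 1) ℕ).symm.summable_iff.mpr h
    refine h2.congr fun m => ?_
    simp only [Function.comp]
    have e1 : (Equiv.funUnique (Fin 1) ℕ).symm m = fun _ => m := rfl
    rw [e1, hw, hpos]
  · have hk := karamata H (κ ^ 2) (aF κ) (aF_pos hκ).le (fun i => κ * e i)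
      (fun i => mul_pos hκ (he0 i)) (fun s hs => by
        have := wt_tendsto e he0 one_pos s hs
        rw [hsum] at this
        exact this) (fun u => φ (u 0)) hc M hM0 hM
    have e3 : ∫ u : Fin 1 → ℝ, Gd (fun i => κ * e i) u * φ (u 0) = ∫ u : ℝ, gd (κ ^ 2) u * φ u := by
      have h1 := (volume_preserving_funUnique (Fin 1) ℝ).integral_comp'
        (fun u : ℝ => gd (κ ^ 2) u * φ u)
      rw [← h1]
      refine integral_congr_ae (Eventually.of_forall fun u => ?_)
      simp only [Gd, he, Finset.univ_unique, Finset.prod_singleton]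
      rw [← sq]
      rfl
    rw [e3] at hk
    refine hk.congr fun L => ?_
    congr 1
    rw [← (Equiv.funUnique (Fin 1) ℕ).symm.tsum_eq]
    refine tsum_congr fun m => ?_
    have e1 : (Equiv.funUnique (Fin 1) ℕ).symm m = fun _ => m := rfl
    rw [e1, hw, hpos]

/-- the limit function `κ² ∫_0^1 u^{κ²-1} e^{-2cu} du`, up to `Γ(κ²+1)` -/
def Ph (κ c : ℝ) : ℝ := ∫ u : ℝ, gd (κ ^ 2) u * (ct 1 u * Real.exp (-(2 * c * u)))

lemma cm_sq {n : ℕ} {N : ℝ} (hN : 1 < N) (c : ℝ) {m : ℕ} (hm : 1 ≤ m) :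
    cm n (1 / 2 + c / Real.log N) m ^ 2 =
      dv (1 / (n : ℝ)) m ^ 2 / m * Real.exp (-(2 * c * (Real.log m / Real.log N))) := by
  have hm0 : (0 : ℝ) < m := by exact_mod_cast hm
  have hl : 0 < Real.log N := Real.log_pos hN
  unfold cm
  rw [mul_pow, ← Real.rpow_natCast ((m : ℝ) ^ _), ← Real.rpow_mul hm0.le, div_mul_eq_mul_div, mul_div_assoc]
  congr 1
  rw [Real.rpow_def_of_pos hm0]
  have : (m : ℝ) = Real.exp (Real.log m) := (Real.exp_log hm0).symm
  conv_rhs => rw [this]
  rw [← Real.exp_sub, Real.log_exp]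
  congr 1
  push_cast
  field_simp
  ring

lemma summable_cut {κ : ℝ} (φ : ℝ → ℝ) {M L : ℝ} (hL : 0 < L)
    (h0 : ∀ u : ℝ, M ≤ u → φ u = 0) :
    Summable (fun m : ℕ => dv κ m ^ 2 / m * φ (Real.log m / L)) := by
  refine summable_of_ne_finset_zero (s := Finset.range (⌈Real.exp (M * L)⌉₊ + 1)) fun m hm => ?_
  rw [Finset.mem_range, not_lt] at hm
  have h1 : Real.exp (M * L) ≤ m := by
    have : (⌈Real.exp (M * L)⌉₊ : ℝ) ≤ m := by exact_mod_cast (by omega)
    exact (Nat.le_ceil _).trans this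
  have h2 : M * L ≤ Real.log m := by
    rw [Real.le_log_iff_exp_le (lt_of_lt_of_le (Real.exp_pos _) h1)]
    exact h1
  rw [h0 _ (by rw [le_div_iff₀ hL]; exact h2), mul_zero]

lemma Ph_integrable {κ : ℝ} (hκ : 0 < κ) (c : ℝ) :
    Integrable (fun u : ℝ => gd (κ ^ 2) u * (ct 1 u * Real.exp (-(2 * c * u)))) := by
  have h := gd_ct_integrable (m := κ ^ 2) (by positivity) 1
  have h2 : Integrable (fun u : ℝ => (gd (κ ^ 2) u * ct 1 u) * Real.exp (2 * |c|)) := h.mul_const _
  refine h2.mono' ?_ ?_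
  · exact (((gd_meas _).mul ((ct_meas 1).mul (by fun_prop)))).aestronglyMeasurable
  · filter_upwards with u
    have g0 := gd_nonneg (m := κ ^ 2) (by positivity) u
    have c0 := ct_nonneg 1 u
    rw [Real.norm_of_nonneg (by positivity), ← mul_assoc]
    by_cases hu : 0 < u ∧ u ≤ 1
    · apply mul_le_mul_of_nonneg_left _ (by positivity)
      apply Real.exp_le_exp.mpr
      have := neg_abs_le c
      have := abs_nonneg c
      nlinarith [hu.1, hu.2]
    · rw [not_and_or, not_lt, not_le] at hu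
      rcases hu with hu | hu
      · have : gd (κ ^ 2) u = 0 := by unfold gd; rw [if_neg (by linarith)]
        rw [this]; simp
      · have : ct 1 u = 0 := by unfold ct; rw [if_neg (by linarith)]
        rw [this]; simp

/-- comparison of smooth and sharp cut-offs -/
lemma cut_diff {κ : ℝ} (hκ : 0 < κ) (c : ℝ) {β δ : ℝ} (hδ : 0 < δ) (hδ1 : δ ≤ 1)
    (hβ1 : 1 - δ ≤ β) (hβ2 : β ≤ 1) :
    |(∫ u : ℝ, gd (κ ^ 2) u * (Real.exp (-(2 * c * u)) * sc β δ u)) - Ph κ c| ≤
      Real.exp (4 * |c|) * (((1 + δ) ^ (κ ^ 2) - (1 - δ) ^ (κ ^ 2)) / Real.Gamma (κ ^ 2 + 1)) := by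
  have hm : 0 < κ ^ 2 := by positivity
  have i1 := gd_ct_integrable hm (1 + δ)
  have i2 := gd_ct_integrable hm (1 - δ)
  have i3 := gd_ct_integrable hm 1
  have hpt : ∀ u : ℝ, |gd (κ ^ 2) u * (Real.exp (-(2 * c * u)) * sc β δ u) -
      gd (κ ^ 2) u * (ct 1 u * Real.exp (-(2 * c * u)))| ≤
      Real.exp (4 * |c|) * (gd (κ ^ 2) u * ct (1 + δ) u - gd (κ ^ 2) u * ct (1 - δ) u) := by
    intro u
    have g0 := gd_nonneg hm u
    have e : gd (κ ^ 2) u * (Real.exp (-(2 * c * u)) * sc β δ u) -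
      gd (κ ^ 2) u * (ct 1 u * Real.exp (-(2 * c * u))) =
      (gd (κ ^ 2) u * Real.exp (-(2 * c * u))) * (sc β δ u - ct 1 u) := by ring
    rw [e, abs_mul, abs_of_nonneg (by positivity)]
    by_cases h0 : u ≤ 0
    · have : gd (κ ^ 2) u = 0 := by unfold gd; rw [if_neg (by linarith)]
      rw [this]; simp
    push Not at h0
    by_cases h1 : u ≤ 1 - δ
    · have h2 : sc β δ u = 1 := sc_eq_one hδ (by linarith)
      have h3 : ct 1 u = 1 := by unfold ct; rw [if_pos (by linarith)]
      have h4 : ct (1 + δ) u = 1 := by unfold ct; rw [if_pos (by linarith)]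
      have h5 : ct (1 - δ) u = 1 := by unfold ct; rw [if_pos h1]
      rw [h2, h3, h4, h5]; simp
    push Not at h1
    by_cases h6 : u ≤ 1 + δ
    · have h4 : ct (1 + δ) u = 1 := by unfold ct; rw [if_pos (by linarith)]
      have h5 : ct (1 - δ) u = 0 := by unfold ct; rw [if_neg (by linarith)]
      rw [h4, h5, mul_one, mul_zero, sub_zero]
      have h7 : |sc β δ u - ct 1 u| ≤ 1 := by
        rw [abs_le]
        have := sc_nonneg β δ u
        have := sc_le_one β δ u
        have := ct_nonneg 1 u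
        have := ct_le_one 1 u
        constructor <;> linarith
      have h8 : Real.exp (-(2 * c * u)) ≤ Real.exp (4 * |c|) := by
        apply Real.exp_le_exp.mpr
        have h9 := neg_abs_le c
        have h10 := abs_nonneg c
        nlinarith
      calc gd (κ ^ 2) u * Real.exp (-(2 * c * u)) * |sc β δ u - ct 1 u|
          ≤ gd (κ ^ 2) u * Real.exp (4 * |c|) * 1 := by gcongr
        _ = _ := by ring
    · push Not at h6
      have h2 : sc β δ u = 0 := sc_eq_zero hδ (by linarith)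
      have h3 : ct 1 u = 0 := by unfold ct; rw [if_neg (by linarith)]
      have h4 : ct (1 + δ) u = 0 := by unfold ct; rw [if_neg (by linarith)]
      have h5 : ct (1 - δ) u = 0 := by unfold ct; rw [if_neg (by linarith)]
      rw [h2, h3, h4, h5]; simp
  have hint1 : Integrable (fun u : ℝ => gd (κ ^ 2) u * (Real.exp (-(2 * c * u)) * sc β δ u)) := by
    have hb : Integrable (fun u : ℝ => (gd (κ ^ 2) u * ct (1 + δ) u) * Real.exp (4 * |c|)) :=
      i1.mul_const _
    refine hb.mono' ?_ ?_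
    · exact ((gd_meas _).mul ((by fun_prop : Measurable fun u : ℝ => Real.exp (-(2 * c * u))).mul
        (sc_cont β δ).measurable)).aestronglyMeasurable
    · filter_upwards with u
      have g0 := gd_nonneg hm u
      have s0 := sc_nonneg β δ u
      rw [Real.norm_of_nonneg (by positivity)]
      by_cases h0 : u ≤ 0
      · have : gd (κ ^ 2) u = 0 := by unfold gd; rw [if_neg (by linarith)]
        rw [this]; simp
      push Not at h0
      by_cases h6 : u ≤ 1 + δ
      · have h4 : ct (1 + δ) u = 1 := by unfold ct; rw [if_pos (by linarith)]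
        rw [h4, mul_one]
        have h8 : Real.exp (-(2 * c * u)) ≤ Real.exp (4 * |c|) := by
          apply Real.exp_le_exp.mpr
          have h9 := neg_abs_le c
          have h10 := abs_nonneg c
          nlinarith
        have h9 := sc_le_one β δ u
        calc gd (κ ^ 2) u * (Real.exp (-(2 * c * u)) * sc β δ u)
            ≤ gd (κ ^ 2) u * (Real.exp (4 * |c|) * 1) := by gcongr
          _ = _ := by ring
      · push Not at h6
        have h2 : sc β δ u = 0 := sc_eq_zero hδ (by linarith)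
        have h4 : ct (1 + δ) u = 0 := by unfold ct; rw [if_neg (by linarith)]
        rw [h2, h4]; simp
  unfold Ph
  rw [← integral_sub hint1 (Ph_integrable hκ c)]
  refine (abs_integral_le_integral_abs).trans ?_
  have h2 := integral_mono ((hint1.sub (Ph_integrable hκ c)).abs) ((i1.sub i2).const_mul (Real.exp (4 * |c|)))
    hpt
  refine h2.trans (le_of_eq ?_)
  have h3 : ∫ a : ℝ, Real.exp (4 * |c|) * ((fun u => gd (κ ^ 2) u * ct (1 + δ) u) -
      (fun u => gd (κ ^ 2) u * ct (1 - δ) u)) a = Real.exp (4 * |c|) *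
      ((∫ u, gd (κ ^ 2) u * ct (1 + δ) u) - ∫ u, gd (κ ^ 2) u * ct (1 - δ) u) := by
    rw [integral_const_mul]
    congr 1
    exact integral_sub i1 i2
  rw [h3, gd_ct_integral hm, gd_ct_integral hm, max_eq_left (by linarith), max_eq_left (by linarith)]
  ring

/-- asymptotics of the diagonal -/
theorem DD_tendsto {n : ℕ} (hn : 0 < n) (c : ℝ) :
    Tendsto (fun N : ℝ => DD n N (1 / 2 + c / Real.log N) / Real.log N ^ ((1 / (n : ℝ)) ^ 2)) atTop
      (𝓝 (aF (1 / (n : ℝ)) * Ph (1 / (n : ℝ)) c)) := by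
  have hn0 : (0 : ℝ) < n := by exact_mod_cast hn
  set κ : ℝ := 1 / (n : ℝ) with hκ
  have hκ0 : 0 < κ := by positivity
  have haF := aF_pos hκ0
  -- error of the smoothing
  have herr : Tendsto (fun δ : ℝ => aF κ * (Real.exp (4 * |c|) *
      (((1 + δ) ^ (κ ^ 2) - (1 - δ) ^ (κ ^ 2)) / Real.Gamma (κ ^ 2 + 1)))) (𝓝[>] 0) (𝓝 0) := by
    have hcont : ContinuousAt (fun δ : ℝ => aF κ * (Real.exp (4 * |c|) *
      (((1 + δ) ^ (κ ^ 2) - (1 - δ) ^ (κ ^ 2)) / Real.Gamma (κ ^ 2 + 1)))) 0 := by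
      refine ContinuousAt.mul continuousAt_const (ContinuousAt.mul continuousAt_const
        (ContinuousAt.div_const (ContinuousAt.sub ?_ ?_) _))
      · exact ContinuousAt.rpow_const (by fun_prop) (Or.inl (by norm_num))
      · exact ContinuousAt.rpow_const (by fun_prop) (Or.inl (by norm_num))
    have := hcont.tendsto.mono_left (nhdsWithin_le_nhds (s := Ioi 0))
    simpa using this
  rw [Metric.tendsto_atTop]
  intro ε hε
  have h1 := (herr.eventually (gt_mem_nhds (show (0 : ℝ) < ε / 2 by linarith))).and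
    (Ioo_mem_nhdsGT (show (0 : ℝ) < 1 by norm_num))
  obtain ⟨δ, hδ1, hδ2⟩ := h1.exists
  have hδ0 : 0 < δ := hδ2.1
  have hδ3 : δ ≤ 1 := hδ2.2.le
  set φp : ℝ → ℝ := fun u => Real.exp (-(2 * c * u)) * sc 1 δ u with hφp
  set φm : ℝ → ℝ := fun u => Real.exp (-(2 * c * u)) * sc (1 - δ) δ u with hφm
  have hpc : Continuous φp := by
    have := sc_cont 1 δ
    fun_prop
  have hmc : Continuous φm := by
    have := sc_cont (1 - δ) δ
    fun_prop
  have hp0 : ∀ u : ℝ, 1 + δ ≤ u → φp u = 0 := fun u hu => by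
    simp only [hφp]; rw [sc_eq_zero hδ0 hu, mul_zero]
  have hm0 : ∀ u : ℝ, 1 ≤ u → φm u = 0 := fun u hu => by
    simp only [hφm]; rw [sc_eq_zero hδ0 (by linarith), mul_zero]
  have kp := (kar hκ0 φp hpc (1 + δ) (by linarith) hp0).2
  have km := (kar hκ0 φm hmc 1 (by norm_num) hm0).2
  have dp := cut_diff hκ0 c hδ0 hδ3 (β := 1) (by linarith) le_rfl
  have dm := cut_diff hκ0 c hδ0 hδ3 (β := 1 - δ) le_rfl (by linarith)
  have hlim : Tendsto Real.log atTop atTop := Real.tendsto_log_atTop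
  have kp' := (kp.comp hlim).eventually (gt_mem_nhds (show aF κ * ∫ u : ℝ, gd (κ ^ 2) u * φp u <
    aF κ * (∫ u : ℝ, gd (κ ^ 2) u * φp u) + ε / 2 by linarith))
  have km' := (km.comp hlim).eventually (lt_mem_nhds (show aF κ * (∫ u : ℝ, gd (κ ^ 2) u * φm u) - ε / 2 <
    aF κ * ∫ u : ℝ, gd (κ ^ 2) u * φm u by linarith))
  obtain ⟨N0, hN0⟩ := eventually_atTop.1 ((kp'.and km').and (eventually_gt_atTop (1 : ℝ)))
  refine ⟨N0, fun N hN => ?_⟩
  obtain ⟨⟨hA, hB⟩, hN1⟩ := hN0 N hN
  simp only [Function.comp] at hA hB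
  have hl : 0 < Real.log N := Real.log_pos hN1
  have hlp : 0 < Real.log N ^ (κ ^ 2) := Real.rpow_pos_of_pos hl _
  -- the diagonal as a series
  have hDD : DD n N (1 / 2 + c / Real.log N) = ∑' m : ℕ, dv κ m ^ 2 / m *
      (ct 1 (Real.log m / Real.log N) * Real.exp (-(2 * c * (Real.log m / Real.log N)))) := by
    rw [tsum_eq_sum (s := Finset.Icc 1 ⌊N⌋₊)]
    · unfold DD
      refine Finset.sum_congr rfl fun m hm => ?_
      rw [Finset.mem_Icc] at hm
      rw [cm_sq hN1 c hm.1]
      have hmN : (m : ℝ) ≤ N := (Nat.le_floor_iff (by linarith)).mp hm.2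
      have hm0 : (0 : ℝ) < m := by exact_mod_cast hm.1
      have : ct 1 (Real.log m / Real.log N) = 1 := by
        unfold ct
        rw [if_pos]
        rw [div_le_one hl]
        exact Real.log_le_log hm0 hmN
      rw [this, one_mul]
    · intro m hm
      rw [Finset.mem_Icc, not_and_or] at hm
      rcases Nat.eq_zero_or_pos m with h0 | h0
      · subst h0; simp
      · rcases hm with h | h
        · omega
        · have hmN : N < m := Nat.lt_of_floor_lt (by omega)
          have : ct 1 (Real.log m / Real.log N) = 0 := by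
            unfold ct
            rw [if_neg]
            rw [not_le, one_lt_div hl]
            exact Real.log_lt_log (by linarith) hmN
          rw [this]; simp
  have hnn : ∀ m : ℕ, 0 ≤ dv κ m ^ 2 / (m : ℝ) := fun m => by positivity
  have hsc : Summable (fun m : ℕ => dv κ m ^ 2 / m *
      (ct 1 (Real.log m / Real.log N) * Real.exp (-(2 * c * (Real.log m / Real.log N))))) := by
    refine summable_cut (fun u => ct 1 u * Real.exp (-(2 * c * u))) (M := 2) hl fun u hu => ?_
    have : ct 1 u = 0 := by unfold ct; rw [if_neg (by linarith)]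
    rw [this, zero_mul]
  have hup : DD n N (1 / 2 + c / Real.log N) ≤ ∑' m : ℕ, dv κ m ^ 2 / m * φp (Real.log m / Real.log N) := by
    rw [hDD]
    refine hsc.tsum_le_tsum (fun m => ?_) (summable_cut φp (M := 1 + δ) hl hp0)
    apply mul_le_mul_of_nonneg_left _ (hnn m)
    simp only [hφp]
    rw [mul_comm]
    apply mul_le_mul_of_nonneg_left (ct_le_sc hδ0 _) (Real.exp_pos _).le
  have hdn : ∑' m : ℕ, dv κ m ^ 2 / m * φm (Real.log m / Real.log N) ≤ DD n N (1 / 2 + c / Real.log N) := by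
    rw [hDD]
    refine (summable_cut φm (M := 1) hl hm0).tsum_le_tsum (fun m => ?_) hsc
    apply mul_le_mul_of_nonneg_left _ (hnn m)
    simp only [hφm]
    rw [mul_comm]
    apply mul_le_mul_of_nonneg_right _ (Real.exp_pos _).le
    have := sc_le_ct (a := 1 - δ) hδ0 (Real.log m / Real.log N)
    rwa [show 1 - δ + δ = 1 by ring] at this
  rw [Real.dist_eq, abs_lt]
  have hA' := (div_le_div_of_nonneg_right hup hlp.le).trans_lt hA
  have hB' := hB.trans_le (div_le_div_of_nonneg_right hdn hlp.le)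
  have dp' := mul_le_mul_of_nonneg_left dp haF.le
  have dm' := mul_le_mul_of_nonneg_left dm haF.le
  rw [← abs_of_pos haF, ← abs_mul, mul_sub, abs_of_pos haF, abs_le] at dp' dm'
  constructor
  · linarith [dm'.1]
  · linarith [dp'.2]

end

end Pool.Agent.Q255.FM
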