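import Pool.Agent.Q255.FM.Win2

set_option autoImplicit false

/-!
From windows to `[0, T]`.
-/

open Filter MeasureTheory Metric Set Topology
open Pool.Agent.H306R2

namespace Pool.Agent.Q255.FM

noncomputable section

lemma rpow_sub_le {m x h : ℝ} (hm : 0 ≤ m) (hm1 : m ≤ 1) (hh : 0 ≤ h) (hx : h ≤ x) :
    x ^ m ≤ (x - h) ^ m + h ^ m := by
  have := Real.rpow_add_le_add_rpow (show 0 ≤ x - h by linarith) hh hm hm1
  rwa [sub_add_cancel] at this

lemma dyadic_lower {f : ℝ → ℝ} {m A T0 : ℝ} (hT0 : 2 ≤ T0) (hm : 0 ≤ m) (hm1 : m ≤ 1) (hA : 0 ≤ A)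
    (hf : ∀ T, 0 ≤ T → 0 ≤ f T)
    (h : ∀ T, T0 ≤ T → A * (T * Real.log T ^ m) ≤ f (2 * T) - f T) :
    ∃ K : ℝ, ∀ T, T0 ≤ T → A * (T * Real.log T ^ m - K * T) ≤ f T := by
  set K : ℝ := max 2 (Real.log (2 * T0) ^ m) with hK
  have hK2 : 2 ≤ K := le_max_left _ _
  refine ⟨K, ?_⟩
  have key : ∀ k : ℕ, ∀ T, T0 ≤ T → T ≤ 2 ^ k * (2 * T0) → A * (T * Real.log T ^ m - K * T) ≤ f T := by
    intro k
    induction k with
    | zero =>
      intro T hT hT2
      rw [pow_zero, one_mul] at hT2
      have h1 : Real.log T ^ m ≤ K := by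
        refine le_trans ?_ (le_max_right _ _)
        exact Real.rpow_le_rpow (Real.log_nonneg (by linarith))
          (Real.log_le_log (by linarith) hT2) hm
      have h2 : T * Real.log T ^ m - K * T ≤ 0 := by nlinarith
      have h3 : A * (T * Real.log T ^ m - K * T) ≤ 0 := mul_nonpos_of_nonneg_of_nonpos hA h2
      linarith [hf T (by linarith)]
    | succ k ih =>
      intro T hT hT2
      by_cases hc : T ≤ 2 * T0
      · refine ih T hT (hc.trans ?_)
        have : (1 : ℝ) ≤ 2 ^ k := one_le_pow₀ (by norm_num)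
        nlinarith
      · push Not at hc
        have h1 : T0 ≤ T / 2 := by linarith
        have h2 : T / 2 ≤ 2 ^ k * (2 * T0) := by
          rw [pow_succ] at hT2
          linarith
        have h3 := ih (T / 2) h1 h2
        have h4 := h (T / 2) h1
        rw [show 2 * (T / 2) = T by ring] at h4
        have hl : Real.log (T / 2) = Real.log T - Real.log 2 := by
          rw [Real.log_div (by linarith) (by norm_num)]
        have hl2 : 0 ≤ Real.log 2 := Real.log_nonneg (by norm_num)
        have h5 : Real.log T ^ m ≤ Real.log (T / 2) ^ m + 1 := by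
          rw [hl]
          refine (rpow_sub_le hm hm1 hl2 (Real.log_le_log (by norm_num) (by linarith))).trans ?_
          have : Real.log 2 ^ m ≤ 1 := by
            apply Real.rpow_le_one hl2 _ hm
            have := Real.log_two_lt_d9
            linarith
          linarith
        have hT0' : 0 < T := by linarith
        have h6 : T * Real.log T ^ m ≤ T * (Real.log (T / 2) ^ m + 1) :=
          mul_le_mul_of_nonneg_left h5 hT0'.le
        have h7 : T * Real.log T ^ m - K * T ≤
            (T / 2 * Real.log (T / 2) ^ m - K * (T / 2)) + T / 2 * Real.log (T / 2) ^ m := by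
          nlinarith
        have h8 := mul_le_mul_of_nonneg_left h7 hA
        rw [mul_add] at h8
        linarith
  intro T hT
  obtain ⟨k, hk⟩ := pow_unbounded_of_one_lt (T / (2 * T0)) (show (1 : ℝ) < 2 by norm_num)
  refine key k T hT ?_
  rw [div_lt_iff₀ (by linarith)] at hk
  exact hk.le

lemma dyadic_upper {f : ℝ → ℝ} {m A T0 : ℝ} (hT0 : 2 ≤ T0) (hm : 0 ≤ m) (hA : 0 ≤ A)
    (hf : Monotone f)
    (h : ∀ T, T0 ≤ T → f (2 * T) - f T ≤ A * (T * Real.log T ^ m)) :
    ∀ T, T0 ≤ T → f T ≤ f (2 * T0) + A * (T * Real.log T ^ m) := by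
  have key : ∀ k : ℕ, ∀ T, T0 ≤ T → T ≤ 2 ^ k * (2 * T0) → f T ≤ f (2 * T0) + A * (T * Real.log T ^ m) := by
    intro k
    induction k with
    | zero =>
      intro T hT hT2
      rw [pow_zero, one_mul] at hT2
      have h1 := hf hT2
      have h2 : 0 ≤ Real.log T ^ m := Real.rpow_nonneg (Real.log_nonneg (by linarith)) _
      have h3 : 0 ≤ A * (T * Real.log T ^ m) := by
        have : 0 ≤ T := by linarith
        positivity
      linarith
    | succ k ih =>
      intro T hT hT2
      by_cases hc : T ≤ 2 * T0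
      · refine ih T hT (hc.trans ?_)
        have : (1 : ℝ) ≤ 2 ^ k := one_le_pow₀ (by norm_num)
        nlinarith
      · push Not at hc
        have h1 : T0 ≤ T / 2 := by linarith
        have h2 : T / 2 ≤ 2 ^ k * (2 * T0) := by
          rw [pow_succ] at hT2
          linarith
        have h3 := ih (T / 2) h1 h2
        have h4 := h (T / 2) h1
        rw [show 2 * (T / 2) = T by ring] at h4
        have h5 : Real.log (T / 2) ^ m ≤ Real.log T ^ m :=
          Real.rpow_le_rpow (Real.log_nonneg (by linarith))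
            (Real.log_le_log (by linarith) (by linarith)) hm
        have hT0' : 0 < T := by linarith
        have h7 : T / 2 * Real.log (T / 2) ^ m + T / 2 * Real.log (T / 2) ^ m ≤
            T * Real.log T ^ m := by nlinarith
        have h8 := mul_le_mul_of_nonneg_left h7 hA
        rw [mul_add] at h8
        linarith
  intro T hT
  obtain ⟨k, hk⟩ := pow_unbounded_of_one_lt (T / (2 * T0)) (show (1 : ℝ) < 2 by norm_num)
  refine key k T hT ?_
  rw [div_lt_iff₀ (by linarith)] at hk
  exact hk.le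

/-- the moment on `[0, T]` -/
def MM (n : ℕ) (T : ℝ) : ℝ := ∫ t in (0 : ℝ)..T, ‖riemannZeta (1 / 2 + t * Complex.I)‖ ^ (2 / (n : ℝ))

lemma MM_sub (n : ℕ) (T : ℝ) : MM n (2 * T) - MM n T =
    ∫ t in T..(T + T), ‖riemannZeta (1 / 2 + t * Complex.I)‖ ^ (2 / (n : ℝ)) := by
  unfold MM
  have hc := zeta_half_continuous (2 / (n : ℝ)) (by positivity)
  rw [intervalIntegral.integral_interval_sub_left (hc.intervalIntegrable _ _)
    (hc.intervalIntegrable _ _), two_mul]

lemma MM_mono (n : ℕ) : Monotone (MM n) := by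
  intro S T hST
  have hc := zeta_half_continuous (2 / (n : ℝ)) (by positivity)
  have h1 : MM n T - MM n S =
      ∫ t in S..T, ‖riemannZeta (1 / 2 + t * Complex.I)‖ ^ (2 / (n : ℝ)) := by
    unfold MM
    rw [intervalIntegral.integral_interval_sub_left (hc.intervalIntegrable _ _)
      (hc.intervalIntegrable _ _)]
  have h2 : 0 ≤ ∫ t in S..T, ‖riemannZeta (1 / 2 + t * Complex.I)‖ ^ (2 / (n : ℝ)) :=
    intervalIntegral.integral_nonneg hST fun t _ => by positivity
  linarith

lemma MM_nonneg (n : ℕ) {T : ℝ} (hT : 0 ≤ T) : 0 ≤ MM n T :=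
  intervalIntegral.integral_nonneg hT fun t _ => by positivity

theorem moments_lower {n : ℕ} (hn : 2 ≤ n) {x0 a b y : ℝ} (hx0 : 0 < x0) (ha : 0 < a) (hab : a < b)
    (hcond : x0 ^ (1 - a / b) * (FF n b + Real.exp (-(2 / (n : ℝ) * b)) * (x0 + 1)) ^ (a / b) <
      FF n a - Real.exp (-(2 / (n : ℝ) * a)) * (x0 + 1)) (hy : y < x0) :
    ∀ᶠ T : ℝ in atTop, y * AA n * (T * Real.log T ^ ((1 / (n : ℝ)) ^ 2)) ≤ MM n T := by
  have hn' : 0 < n := by omega
  have hA := AA_pos hn'
  set m : ℝ := (1 / (n : ℝ)) ^ 2 with hm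
  have hm0 : 0 < m := by positivity
  have hm1 : m ≤ 1 := by
    have hn2 : (2 : ℝ) ≤ n := by exact_mod_cast hn
    rw [hm]
    apply pow_le_one₀ (by positivity)
    rw [div_le_one (by linarith)]
    linarith
  obtain ⟨y1, hy1, hy2⟩ := exists_between (show max y 0 < x0 from max_lt hy hx0)
  have hyy : y < y1 := lt_of_le_of_lt (le_max_left _ _) hy1
  have hy10 : 0 < y1 := lt_of_le_of_lt (le_max_right _ _) hy1
  obtain ⟨B, hB, hw⟩ := win_lower hn hx0 ha hab hcond hy2
  have hlogB : ∀ᶠ T : ℝ in atTop, Real.log T ^ B ≤ T := by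
    have h := (isLittleO_log_rpow_rpow_atTop B (show (0 : ℝ) < 1 by norm_num)).bound
      (show (0 : ℝ) < 1 by norm_num)
    filter_upwards [h, eventually_gt_atTop 1] with T hT hT1
    have hl : 0 ≤ Real.log T := Real.log_nonneg hT1.le
    rw [Real.norm_of_nonneg (by positivity), Real.norm_of_nonneg (by positivity), one_mul,
      Real.rpow_one] at hT
    exact hT
  obtain ⟨T1, hT1⟩ := eventually_atTop.1 (hw.and hlogB)
  have hstep : ∀ T, max T1 2 ≤ T → y1 * AA n * (T * Real.log T ^ m) ≤ MM n (2 * T) - MM n T := by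
    intro T hT
    have h1 := hT1 T ((le_max_left _ _).trans hT)
    rw [MM_sub]
    exact h1.1 T h1.2 le_rfl
  obtain ⟨K, hK⟩ := dyadic_lower (f := MM n) (le_max_right T1 2) hm0.le hm1 (by positivity)
    (fun T hT => MM_nonneg n hT) hstep
  have hlim : ∀ᶠ T : ℝ in atTop, y1 * K ≤ (y1 - y) * Real.log T ^ m := by
    have : Tendsto (fun T : ℝ => (y1 - y) * Real.log T ^ m) atTop atTop :=
      ((tendsto_rpow_atTop hm0).comp Real.tendsto_log_atTop).const_mul_atTop (by linarith)
    exact this.eventually_ge_atTop _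
  filter_upwards [hlim, eventually_ge_atTop (max T1 2)] with T h1 h2
  have h3 := hK T h2
  have hT0 : 0 < T := by
    have := (le_max_right T1 2).trans h2
    linarith
  refine le_trans ?_ h3
  have h4 : 0 ≤ AA n * T := by positivity
  have h5 := mul_le_mul_of_nonneg_left h1 h4
  nlinarith

theorem moments_upper {n : ℕ} (hn : 2 ≤ n) {β' c d C : ℝ} (hβ1 : 1 < β')
    (hβ' : β' < 2) (hc : 0 < c) (hd : 0 < d)
    (hC : Real.exp (1 / (n : ℝ) * c * β') * jc n β' c d < C) :
    ∀ᶠ T : ℝ in atTop, MM n T ≤ C * AA n * (T * Real.log T ^ ((1 / (n : ℝ)) ^ 2)) := by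
  have hn' : 0 < n := by omega
  have hA := AA_pos hn'
  set m : ℝ := (1 / (n : ℝ)) ^ 2 with hm
  have hm0 : 0 < m := by positivity
  obtain ⟨C1, hC1, hC1C⟩ := exists_between hC
  have hw := win_upper hn (β := 1) (by norm_num) (by linarith) hβ' hc hd hC1
  obtain ⟨T1, hT1⟩ := eventually_atTop.1 hw
  set T0 := max T1 2 with hT0
  have hC10 : 0 ≤ C1 := by
    have h1 := hT1 T0 (le_max_left _ _) T0 (by rw [Real.rpow_one]) le_rfl
    have h2 : 0 ≤ ∫ t in T0..(T0 + T0), ‖riemannZeta (1 / 2 + t * Complex.I)‖ ^ (2 / (n : ℝ)) := by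
      apply intervalIntegral.integral_nonneg _ fun t _ => by positivity
      have : 2 ≤ T0 := le_max_right _ _
      linarith
    have hT2 : 2 ≤ T0 := le_max_right _ _
    have h3 : 0 < AA n * (T0 * Real.log T0 ^ ((1 / (n : ℝ)) ^ 2)) := by
      have : 0 < Real.log T0 := Real.log_pos (by linarith)
      have : 0 < T0 := by linarith
      positivity
    by_contra hneg
    push Not at hneg
    nlinarith
  have hstep : ∀ T, T0 ≤ T → MM n (2 * T) - MM n T ≤ C1 * AA n * (T * Real.log T ^ m) := by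
    intro T hT
    rw [MM_sub]
    exact hT1 T ((le_max_left _ _).trans hT) T (by rw [Real.rpow_one]) le_rfl
  have hup := dyadic_upper (f := MM n) (le_max_right T1 2) hm0.le (by positivity) (MM_mono n) hstep
  have hlim : ∀ᶠ T : ℝ in atTop, MM n (2 * T0) ≤ ((C - C1) * AA n) * (Real.log T ^ m) := by
    have : Tendsto (fun T : ℝ => ((C - C1) * AA n) * (Real.log T ^ m)) atTop atTop :=
      ((tendsto_rpow_atTop hm0).comp Real.tendsto_log_atTop).const_mul_atTop
        (mul_pos (by linarith) hA)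
    exact this.eventually_ge_atTop _
  filter_upwards [hlim, eventually_ge_atTop T0] with T h1 h2
  have h3 := hup T h2
  have hT2 : 2 ≤ T := (le_max_right T1 2).trans h2
  have hl : 0 ≤ Real.log T ^ m := Real.rpow_nonneg (Real.log_nonneg (by linarith)) _
  have h4 : ((C - C1) * AA n) * (Real.log T ^ m) ≤ ((C - C1) * AA n) * (T * Real.log T ^ m) := by
    have : 0 ≤ (C - C1) * AA n := mul_nonneg (by linarith) hA.le
    apply mul_le_mul_of_nonneg_left _ this
    nlinarith
  linarith

end

end Pool.Agent.Q255.FM
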