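import Pool.Agent.Q255.FM.AS
import Pool.Agent.H345R2.Chi

set_option autoImplicit false

/-!
The functional equation close to the critical line.
-/

open Filter MeasureTheory Metric Set Topology
open Pool.Agent.H306R2
open H345 H345.Chi

namespace Pool.Agent.Q255.FM

noncomputable section

/-- sharp upper bound for `XX` to the right of the critical line -/
theorem XX_upper {s : ℂ} (h0 : 1 / 2 ≤ s.re) (h2 : s.re ≤ 4) (h1 : 12 ≤ s.im) :
    ‖XX s‖ ≤ (s.im / (2 * Real.pi)) ^ (s.re - 1 / 2) * Real.exp (14 / s.im * (s.re - 1 / 2)) := by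
  set t := s.im with ht
  have ht0 : 0 < t := by linarith
  have hπ := Real.pi_pos
  set w : ℝ := t / (2 * Real.pi) with hw
  have hw0 : 0 < w := by positivity
  let P : ℝ → ℂ := fun x => (x : ℂ) + (t : ℂ) * Complex.I
  have hPre : ∀ x, (P x).re = x := by intro x; simp [P]
  have hPim : ∀ x, (P x).im = t := by intro x; simp [P]
  have hPs : P s.re = s := by
    apply Complex.ext
    · simp [P]
    · simp [P, ht]
  let F : ℝ → ℂ := fun x => XX (P x) * Complex.exp (-(((x - 1 / 2) * Real.log w : ℝ) : ℂ))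
  have hFd : ∀ x, 0 < x → HasDerivAt F (F x * (L2 (P x) - (Real.log w : ℂ))) x := by
    intro x hx
    have d1 := hasDerivAt_XX (s := P x) (by rw [hPre]; exact hx) (by rw [hPim]; linarith)
    have d2 : HasDerivAt P 1 x := by
      have := (hasDerivAt_id x).ofReal_comp.add_const ((t : ℂ) * Complex.I)
      simpa [P] using this
    have d3 := d1.comp x d2
    have d4 : HasDerivAt (fun x : ℝ => -(((x - 1 / 2) * Real.log w : ℝ) : ℂ)) (-(Real.log w : ℂ)) x := by
      have h6 : HasDerivAt (fun x : ℝ => (((x - 1 / 2) * Real.log w : ℝ) : ℂ)) (Real.log w : ℂ) x := by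
        have := (((hasDerivAt_id x).sub_const (1 / 2)).mul_const (Real.log w)).ofReal_comp
        simpa using this
      exact h6.neg
    have d5 := d3.mul d4.cexp
    refine HasDerivAt.congr_deriv d5 ?_
    simp only [F, Function.comp]
    ring
  have hLx : ∀ x, 1 / 2 ≤ x → x ≤ 4 → ‖L2 (P x) - (Real.log w : ℂ)‖ ≤ 14 / t := by
    intro x hx1 hx2
    have := L2_close (s := P x) (by rw [hPre]; linarith) (by rw [hPre]; exact hx2)
      (by rw [hPim]; exact h1)
    rwa [hPim] at this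
  have hF0 : ‖F (1 / 2)‖ = 1 := by
    have e1 : P (1 / 2) = 1 / 2 + (t : ℂ) * Complex.I := by simp [P]
    simp only [F]
    rw [e1, norm_mul, norm_XX_half]
    simp
  have gF := norm_le_gronwallBound_of_norm_deriv_right_le (f := F)
    (f' := fun x => F x * (L2 (P x) - (Real.log w : ℂ))) (δ := 1) (K := 14 / t) (ε := 0)
    (a := 1 / 2) (b := 4)
    (fun x hx => (hFd x (by linarith [hx.1])).continuousAt.continuousWithinAt)
    (fun x hx => (hFd x (by linarith [hx.1])).hasDerivWithinAt) hF0.le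
    (fun x hx => by
      rw [norm_mul, add_zero, mul_comm]
      exact mul_le_mul_of_nonneg_right (hLx x hx.1 hx.2.le) (norm_nonneg _)) s.re ⟨h0, h2⟩
  rw [gronwallBound_ε0, one_mul] at gF
  have hFs : ‖F s.re‖ = ‖XX s‖ / w ^ (s.re - 1 / 2) := by
    simp only [F]
    rw [hPs, norm_mul, Complex.norm_exp]
    have e2 : (-(((s.re - 1 / 2) * Real.log w : ℝ) : ℂ)).re = -((s.re - 1 / 2) * Real.log w) := by
      rw [Complex.neg_re, Complex.ofReal_re]
    rw [e2, Real.exp_neg, Real.rpow_def_of_pos hw0, mul_comm (Real.log w)]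
    exact (div_eq_mul_inv _ _).symm
  have hwp : 0 < w ^ (s.re - 1 / 2) := Real.rpow_pos_of_pos hw0 _
  rw [hFs, div_le_iff₀ hwp] at gF
  linarith

/-- `ζ` to the left of the critical line -/
theorem zeta_left {δ y : ℝ} (h0 : 0 ≤ δ) (h2 : δ ≤ 1 / 4) (h1 : 12 ≤ y) :
    ‖riemannZeta (((1 / 2 - δ : ℝ) : ℂ) + y * Complex.I)‖ ≤
      (y / (2 * Real.pi)) ^ δ * Real.exp (14 / y * δ) *
        ‖riemannZeta (((1 / 2 + δ : ℝ) : ℂ) + y * Complex.I)‖ := by
  set s : ℂ := ((1 / 2 + δ : ℝ) : ℂ) + y * Complex.I with hs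
  have hre : s.re = 1 / 2 + δ := re_line _ _
  have him : s.im = y := im_line _ _
  have hc : (starRingEnd ℂ) s = ((1 / 2 + δ : ℝ) : ℂ) - y * Complex.I := by
    rw [hs, map_add, map_mul, Complex.conj_ofReal, Complex.conj_ofReal, Complex.conj_I]
    ring
  have e1 : ((1 / 2 - δ : ℝ) : ℂ) + y * Complex.I = 1 - (starRingEnd ℂ) s := by
    rw [hc]; push_cast; ring
  have h3 := zeta_fe ((starRingEnd ℂ) s) (by
    intro m hm
    have := congrArg Complex.im hm
    rw [Complex.conj_im, him] at this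
    simp at this
    linarith) (by
    intro hm
    have := congrArg Complex.im hm
    rw [Complex.conj_im, him] at this
    simp at this
    linarith)
  rw [e1, h3, XX_conj, riemannZeta_conj, ← map_mul, Complex.norm_conj, norm_mul]
  have h4 := XX_upper (s := s) (by rw [hre]; linarith) (by rw [hre]; linarith) (by rw [him]; exact h1)
  rw [hre, him, show 1 / 2 + δ - 1 / 2 = δ by ring] at h4
  exact mul_le_mul_of_nonneg_right h4 (norm_nonneg _)

/-- Gaussian tail with polynomial factor -/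
theorem tail_poly (τ H R : ℝ) (hH : 0 < H) (hR : 0 ≤ R) :
    ∫ y in (Ioc (τ - R) (τ + R))ᶜ, (1 + |y|) ^ 2 * gw τ H y ≤
      4 * (1 + |τ|) ^ 2 * (1 + 4 * H ^ 2) * Real.exp (-(R ^ 2 / (2 * H ^ 2))) ∧
    Integrable (fun y => (1 + |y|) ^ 2 * gw τ H y) := by
  have hint := integral_gauss H hH τ (1 / 4) (by norm_num)
  have hpos : 0 < H * Real.sqrt Real.pi := by positivity
  -- pointwise bound
  have hpt : ∀ y : ℝ, (1 + |y|) ^ 2 * gw τ H y ≤ ((1 + |τ|) ^ 2 * (2 * (1 + 4 * H ^ 2))) *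
      (Real.exp (-((1 / 2) * ((y - τ) ^ 2 / H ^ 2))) *
        (Real.exp (-((1 / 4) * ((y - τ) ^ 2 / H ^ 2))) / (H * Real.sqrt Real.pi))) := by
    intro y
    set u := |y - τ| with hu
    have hu0 : 0 ≤ u := abs_nonneg _
    have hsq : (y - τ) ^ 2 = u ^ 2 := (sq_abs _).symm
    have h4 : 1 + |y| ≤ (1 + |τ|) * (1 + u) := by
      have : |y| ≤ |τ| + u := by
        have : y = τ + (y - τ) := by ring
        calc |y| = |τ + (y - τ)| := by rw [← this]
          _ ≤ _ := abs_add_le _ _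
      nlinarith [abs_nonneg τ]
    have h5 : (1 + |y|) ^ 2 ≤ (1 + |τ|) ^ 2 * (1 + u) ^ 2 := by
      rw [← mul_pow]
      gcongr
    have h6 : (1 + u) ^ 2 ≤ 2 * (1 + 4 * H ^ 2) * Real.exp ((1 / 4) * (u ^ 2 / H ^ 2)) := by
      have h7 := Real.add_one_le_exp ((1 / 4) * (u ^ 2 / H ^ 2))
      have h8 : (1 + u) ^ 2 ≤ 2 * (1 + u ^ 2) := by nlinarith [sq_nonneg (u - 1)]
      have h9 : 1 + u ^ 2 ≤ (1 + 4 * H ^ 2) * ((1 / 4) * (u ^ 2 / H ^ 2) + 1) := by
        have : (1 + 4 * H ^ 2) * ((1 / 4) * (u ^ 2 / H ^ 2) + 1) = 1 + u ^ 2 + 4 * H ^ 2 +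
            (1 / 4) * (u ^ 2 / H ^ 2) := by
          field_simp
          ring
        rw [this]
        have : 0 ≤ (1 / 4) * (u ^ 2 / H ^ 2) := by positivity
        nlinarith [sq_nonneg H]
      have h10 : 0 ≤ 1 + 4 * H ^ 2 := by positivity
      nlinarith
    unfold gw
    rw [hsq]
    have e1 : Real.exp (-(u ^ 2 / H ^ 2)) = Real.exp (-((1 / 2) * (u ^ 2 / H ^ 2))) *
        (Real.exp (-((1 / 4) * (u ^ 2 / H ^ 2))) * Real.exp (-((1 / 4) * (u ^ 2 / H ^ 2)))) := by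
      rw [← Real.exp_add, ← Real.exp_add]
      congr 1
      ring
    have e2 : Real.exp ((1 / 4) * (u ^ 2 / H ^ 2)) * Real.exp (-((1 / 4) * (u ^ 2 / H ^ 2))) = 1 := by
      rw [← Real.exp_add]; simp
    rw [e1]
    set E1 := Real.exp (-((1 / 2) * (u ^ 2 / H ^ 2)))
    set E2 := Real.exp (-((1 / 4) * (u ^ 2 / H ^ 2)))
    have hE1 : 0 < E1 := Real.exp_pos _
    have hE2 : 0 < E2 := Real.exp_pos _
    calc (1 + |y|) ^ 2 * (E1 * (E2 * E2) / (H * Real.sqrt Real.pi))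
        ≤ ((1 + |τ|) ^ 2 * (2 * (1 + 4 * H ^ 2) * Real.exp ((1 / 4) * (u ^ 2 / H ^ 2)))) *
            (E1 * (E2 * E2) / (H * Real.sqrt Real.pi)) := by
          apply mul_le_mul_of_nonneg_right _ (by positivity)
          exact h5.trans (mul_le_mul_of_nonneg_left h6 (by positivity))
      _ = ((1 + |τ|) ^ 2 * (2 * (1 + 4 * H ^ 2))) * (Real.exp ((1 / 4) * (u ^ 2 / H ^ 2)) * E2) *
            (E1 * (E2 / (H * Real.sqrt Real.pi))) := by ring
      _ = _ := by rw [e2]; ring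
  have hcont : Continuous (fun y => (1 + |y|) ^ 2 * gw τ H y) := by
    have := gw_continuous τ H
    fun_prop
  have hint2 : Integrable (fun y : ℝ => Real.exp (-((1 / 4) * ((y - τ) ^ 2 / H ^ 2))) /
      (H * Real.sqrt Real.pi)) := hint.1.div_const _
  have hI : Integrable (fun y => (1 + |y|) ^ 2 * gw τ H y) := by
    refine (hint2.const_mul ((1 + |τ|) ^ 2 * (2 * (1 + 4 * H ^ 2)))).mono'
      hcont.aestronglyMeasurable (Eventually.of_forall fun y => ?_)
    rw [Real.norm_of_nonneg (mul_nonneg (by positivity) (gw_nonneg τ H y hH))]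
    refine (hpt y).trans ?_
    apply mul_le_mul_of_nonneg_left _ (by positivity)
    have h1 : Real.exp (-((1 / 2) * ((y - τ) ^ 2 / H ^ 2))) ≤ 1 := by
      rw [Real.exp_le_one_iff]
      have : 0 ≤ (1 / 2) * ((y - τ) ^ 2 / H ^ 2) := by positivity
      linarith
    have h2 : 0 ≤ Real.exp (-((1 / 4) * ((y - τ) ^ 2 / H ^ 2))) / (H * Real.sqrt Real.pi) := by positivity
    nlinarith
  refine ⟨?_, hI⟩
  have h1 : ∫ y in (Ioc (τ - R) (τ + R))ᶜ, (1 + |y|) ^ 2 * gw τ H y ≤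
      ∫ y in (Ioc (τ - R) (τ + R))ᶜ, ((1 + |τ|) ^ 2 * (2 * (1 + 4 * H ^ 2)) *
        Real.exp (-(R ^ 2 / (2 * H ^ 2)))) *
        (Real.exp (-((1 / 4) * ((y - τ) ^ 2 / H ^ 2))) / (H * Real.sqrt Real.pi)) := by
    refine setIntegral_mono_on hI.integrableOn (hint2.const_mul _).integrableOn
      measurableSet_Ioc.compl fun y hy => (hpt y).trans ?_
    have ht2 : R ^ 2 ≤ (y - τ) ^ 2 := by
      rw [Set.mem_compl_iff, Set.mem_Ioc, not_and_or, not_lt, not_le] at hy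
      rcases hy with h | h
      · nlinarith
      · nlinarith
    rw [mul_assoc ((1 + |τ|) ^ 2 * (2 * (1 + 4 * H ^ 2)))]
    apply mul_le_mul_of_nonneg_left _ (by positivity)
    apply mul_le_mul_of_nonneg_right _ (by positivity)
    apply Real.exp_le_exp.mpr
    have h3 : R ^ 2 / H ^ 2 ≤ (y - τ) ^ 2 / H ^ 2 := by gcongr
    have h4 : R ^ 2 / (2 * H ^ 2) = (R ^ 2 / H ^ 2) / 2 := by field_simp
    rw [h4]
    linarith
  refine h1.trans ?_
  rw [integral_const_mul]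
  have h2 : ∫ y in (Ioc (τ - R) (τ + R))ᶜ,
      (Real.exp (-((1 / 4) * ((y - τ) ^ 2 / H ^ 2))) / (H * Real.sqrt Real.pi)) ≤ 2 := by
    calc _ ≤ ∫ y, (Real.exp (-((1 / 4) * ((y - τ) ^ 2 / H ^ 2))) / (H * Real.sqrt Real.pi)) :=
          setIntegral_le_integral hint2 (Eventually.of_forall fun y => by positivity)
      _ = 2 := by
          rw [integral_div, hint.2]
          have : Real.sqrt (1 / 4) = 1 / 2 := by
            rw [show (1 / 4 : ℝ) = (1 / 2) ^ 2 by norm_num, Real.sqrt_sq (by norm_num)]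
          rw [this]
          field_simp
  calc _ ≤ ((1 + |τ|) ^ 2 * (2 * (1 + 4 * H ^ 2)) * Real.exp (-(R ^ 2 / (2 * H ^ 2)))) * 2 :=
        mul_le_mul_of_nonneg_left h2 (by positivity)
    _ = _ := by ring

/-- comparison of the integrals on the lines `1/2 - δ` and `1/2 + δ` -/
theorem J_left {n : ℕ} (hn : 2 ≤ n) {τ H δ : ℝ} (hτ : 24 ≤ τ) (hH : 1 ≤ H) (h0 : 0 ≤ δ)
    (h2 : δ ≤ 1 / 4) :
    VV (fJ n τ H) (2 / (n : ℝ)) (1 / 2 - δ) ≤
      (τ ^ δ * (Real.exp (28 / τ) * (1 - 4 / τ)⁻¹)) ^ (2 / (n : ℝ)) *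
        VV (fJ n τ H) (2 / (n : ℝ)) (1 / 2 + δ) +
      1000 * (1 + τ) ^ 2 * (1 + 4 * H ^ 2) * Real.exp (-(τ ^ 2 / (8 * H ^ 2))) := by
  have hn' : 0 < n := by omega
  have hn2 : (2 : ℝ) ≤ n := by exact_mod_cast hn
  set p : ℝ := 2 / (n : ℝ) with hp
  have hp0 : 0 < p := by positivity
  have hp1 : p ≤ 1 := by rw [hp, div_le_one (by linarith)]; exact hn2
  have hH0 : 0 < H := by linarith
  have hτ0 : 0 < τ := by linarith
  have hgood := good_fJ hn' τ H hH0 (a := 1 / 4) (b := 1) (by norm_num) (by norm_num)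
  have i1 := hgood.integrable (x := 1 / 2 - δ) ⟨by linarith, by linarith⟩
  have i2 := hgood.integrable (x := 1 / 2 + δ) ⟨by linarith, by linarith⟩
  set I : Set ℝ := Ioc (τ - τ / 2) (τ + τ / 2) with hI
  have htail := tail_poly τ H (τ / 2) hH0 (by linarith)
  have e0 : (τ / 2) ^ 2 / (2 * H ^ 2) = τ ^ 2 / (8 * H ^ 2) := by field_simp; ring
  rw [e0, abs_of_pos hτ0] at htail
  set K : ℝ := τ ^ δ * (Real.exp (28 / τ) * (1 - 4 / τ)⁻¹) with hK
  have h4τ : 0 < 1 - 4 / τ := by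
    have : 4 / τ < 1 := by rw [div_lt_one hτ0]; linarith
    linarith
  have hK0 : 0 < K := by positivity
  have hJn : ∀ x y : ℝ, ‖fJ n τ H ((x : ℂ) + y * Complex.I)‖ ^ p =
      ‖zr ((x : ℂ) + y * Complex.I)‖ ^ p * (Real.exp ((x - 1 / 2) ^ 2 / H ^ 2) * gw τ H y) := by
    intro x y
    unfold fJ
    rw [norm_mul, Real.mul_rpow (norm_nonneg _) (norm_nonneg _), norm_wn n hn' τ H hH0]
  have hexp : Real.exp (δ ^ 2 / H ^ 2) ≤ 2 := by
    have h3 : δ ^ 2 / H ^ 2 ≤ 1 / 16 := by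
      rw [div_le_iff₀ (by positivity)]
      nlinarith
    have h4 := Real.exp_le_exp.mpr h3
    have h5 : Real.exp (1 / 16) ≤ 2 := by
      have := Real.exp_one_lt_d9
      have h6 : Real.exp (1 / 16) ≤ Real.exp (1 / 2) := Real.exp_le_exp.mpr (by norm_num)
      have h7 : Real.exp (1 / 2) ^ 2 = Real.exp 1 := by
        rw [← Real.exp_nat_mul]; norm_num
      nlinarith [Real.exp_pos (1 / 2)]
    linarith
  -- bulk
  have hbulk : ∀ y ∈ I, ‖fJ n τ H (((1 / 2 - δ : ℝ) : ℂ) + y * Complex.I)‖ ^ p ≤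
      K ^ p * ‖fJ n τ H (((1 / 2 + δ : ℝ) : ℂ) + y * Complex.I)‖ ^ p := by
    intro y hy
    have hy1 : τ / 2 < y := by have := hy.1; linarith
    have hy2 : y ≤ 3 * τ / 2 := by have := hy.2; linarith
    have hy12 : 12 ≤ y := by linarith
    rw [hJn, hJn]
    have ex : (1 / 2 - δ - 1 / 2) ^ 2 = (1 / 2 + δ - 1 / 2) ^ 2 := by ring
    rw [ex, ← mul_assoc (K ^ p), ← Real.mul_rpow hK0.le (norm_nonneg _)]
    apply mul_le_mul_of_nonneg_right _ (by have := gw_nonneg τ H y hH0; positivity)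
    apply Real.rpow_le_rpow (norm_nonneg _) _ hp0.le
    set s1 : ℂ := ((1 / 2 - δ : ℝ) : ℂ) + y * Complex.I with hs1
    set s2 : ℂ := ((1 / 2 + δ : ℝ) : ℂ) + y * Complex.I with hs2
    have r1 : 0 < s1.re := by rw [hs1, re_line]; linarith
    have r2 : 0 < s2.re := by rw [hs2, re_line]; linarith
    have n1 : s1 ≠ 1 := by
      intro h
      have := congrArg Complex.im h
      rw [hs1, im_line] at this
      simp at this
      linarith
    have n2 : s2 ≠ 1 := by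
      intro h
      have := congrArg Complex.im h
      rw [hs2, im_line] at this
      simp at this
      linarith
    rw [zr_eq r1 n1, zr_eq r2 n2, norm_mul, norm_mul]
    have z1 := zeta_left h0 h2 hy12
    have b1 := norm_rr_le r1
    have b2 := norm_rr_ge r2
    have b3 : 1 - 4 / τ ≤ ‖rr s2‖ := by
      refine le_trans ?_ b2
      have h8 := Complex.abs_im_le_norm (s2 + 1)
      have h9 : (s2 + 1).im = y := by rw [hs2]; simp
      rw [h9] at h8
      have h10 := le_abs_self y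
      have : 2 / ‖s2 + 1‖ ≤ 4 / τ := by
        rw [div_le_div_iff₀ (by linarith) hτ0]
        linarith
      linarith
    have b4 : (y / (2 * Real.pi)) ^ δ ≤ τ ^ δ := by
      apply Real.rpow_le_rpow (by positivity) _ h0
      rw [div_le_iff₀ (by positivity)]
      nlinarith [Real.pi_gt_three]
    have b5 : Real.exp (14 / y * δ) ≤ Real.exp (28 / τ) := by
      apply Real.exp_le_exp.mpr
      have : 14 / y ≤ 28 / τ := by
        rw [div_le_div_iff₀ (by linarith) hτ0]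
        linarith
      have h14 : 0 ≤ 14 / y := by positivity
      nlinarith
    have hz := norm_nonneg (riemannZeta s2)
    calc ‖riemannZeta s1‖ * ‖rr s1‖ ≤ ‖riemannZeta s1‖ * 1 := by gcongr
      _ ≤ (y / (2 * Real.pi)) ^ δ * Real.exp (14 / y * δ) * ‖riemannZeta s2‖ := by
          rw [mul_one]; exact z1
      _ ≤ τ ^ δ * Real.exp (28 / τ) * ‖riemannZeta s2‖ := by gcongr
      _ = τ ^ δ * Real.exp (28 / τ) * ((1 - 4 / τ)⁻¹ * (1 - 4 / τ)) * ‖riemannZeta s2‖ := by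
          rw [inv_mul_cancel₀ h4τ.ne', mul_one]
      _ ≤ τ ^ δ * Real.exp (28 / τ) * ((1 - 4 / τ)⁻¹ * ‖rr s2‖) * ‖riemannZeta s2‖ := by gcongr
      _ = K * (‖riemannZeta s2‖ * ‖rr s2‖) := by rw [hK]; ring
  -- tail
  have htl : ∀ y : ℝ, ‖fJ n τ H (((1 / 2 - δ : ℝ) : ℂ) + y * Complex.I)‖ ^ p ≤
      60 * ((1 + |y|) ^ 2 * gw τ H y) := by
    intro y
    rw [hJn]
    have g1 := zr_growth (a := 1 / 4) (b := 1) (by norm_num)
      (z := ((1 / 2 - δ : ℝ) : ℂ) + y * Complex.I) (by rw [re_line]; linarith)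
      (by rw [re_line]; linarith)
    rw [im_line] at g1
    norm_num at g1
    have hy0 := abs_nonneg y
    have g2 : ‖zr (((1 / 2 - δ : ℝ) : ℂ) + y * Complex.I)‖ ^ p ≤ 30 * (1 + |y|) ^ 2 := by
      have g3 : ‖zr (((1 / 2 - δ : ℝ) : ℂ) + y * Complex.I)‖ ≤ 30 * (1 + |y|) ^ 2 := by
        push_cast at g1 ⊢
        exact g1
      have g4 : (1 : ℝ) ≤ 30 * (1 + |y|) ^ 2 := by nlinarith
      calc _ ≤ (30 * (1 + |y|) ^ 2) ^ p := Real.rpow_le_rpow (norm_nonneg _) g3 hp0.le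
        _ ≤ (30 * (1 + |y|) ^ 2) ^ (1 : ℝ) := Real.rpow_le_rpow_of_exponent_le g4 hp1
        _ = _ := Real.rpow_one _
    have ex : (1 / 2 - δ - 1 / 2) ^ 2 = δ ^ 2 := by ring
    rw [ex]
    have hgw := gw_nonneg τ H y hH0
    calc _ ≤ (30 * (1 + |y|) ^ 2) * (2 * gw τ H y) := by gcongr
      _ = _ := by ring
  unfold VV
  rw [← integral_add_compl (measurableSet_Ioc : MeasurableSet I) i1]
  have p1 : ∫ y in I, ‖fJ n τ H (((1 / 2 - δ : ℝ) : ℂ) + y * Complex.I)‖ ^ p ≤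
      K ^ p * ∫ y : ℝ, ‖fJ n τ H (((1 / 2 + δ : ℝ) : ℂ) + y * Complex.I)‖ ^ p := by
    calc _ ≤ ∫ y in I, K ^ p * ‖fJ n τ H (((1 / 2 + δ : ℝ) : ℂ) + y * Complex.I)‖ ^ p :=
          setIntegral_mono_on i1.integrableOn (i2.const_mul _).integrableOn measurableSet_Ioc hbulk
      _ = K ^ p * ∫ y in I, ‖fJ n τ H (((1 / 2 + δ : ℝ) : ℂ) + y * Complex.I)‖ ^ p :=
          integral_const_mul _ _
      _ ≤ _ := by
          apply mul_le_mul_of_nonneg_left _ (by positivity)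
          exact setIntegral_le_integral i2 (Eventually.of_forall fun y => by positivity)
  have p2 : ∫ y in Iᶜ, ‖fJ n τ H (((1 / 2 - δ : ℝ) : ℂ) + y * Complex.I)‖ ^ p ≤
      1000 * (1 + τ) ^ 2 * (1 + 4 * H ^ 2) * Real.exp (-(τ ^ 2 / (8 * H ^ 2))) := by
    calc _ ≤ ∫ y in Iᶜ, 60 * ((1 + |y|) ^ 2 * gw τ H y) :=
          setIntegral_mono_on i1.integrableOn (htail.2.const_mul _).integrableOn
            measurableSet_Ioc.compl fun y _ => htl y
      _ = 60 * ∫ y in Iᶜ, (1 + |y|) ^ 2 * gw τ H y := integral_const_mul _ _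
      _ ≤ 60 * (4 * (1 + τ) ^ 2 * (1 + 4 * H ^ 2) * Real.exp (-(τ ^ 2 / (8 * H ^ 2)))) :=
          mul_le_mul_of_nonneg_left htail.1 (by norm_num)
      _ ≤ _ := by
          have : 0 ≤ (1 + τ) ^ 2 * (1 + 4 * H ^ 2) * Real.exp (-(τ ^ 2 / (8 * H ^ 2))) := by positivity
          nlinarith
  exact add_le_add p1 p2

end

end Pool.Agent.Q255.FM
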