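import Pool.Agent.Q255.FM.Win2

set_option autoImplicit false

/-!
Windows on a line `Re s = x`.
-/

open Filter MeasureTheory Metric Set Topology
open Pool.Agent.H306R2

namespace Pool.Agent.Q255.FM

noncomputable section

/-- `‖ζ(x+it) rr‖^{2/n}` -/
def FX (n : ℕ) (x t : ℝ) : ℝ := ‖zr ((x : ℂ) + t * Complex.I)‖ ^ (2 / (n : ℝ))

lemma FX_nonneg (n : ℕ) (x t : ℝ) : 0 ≤ FX n x t := by unfold FX; positivity

lemma FX_continuous {n : ℕ} {x : ℝ} (hx : 0 < x) : Continuous (FX n x) := by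
  unfold FX
  have h0 : ContinuousOn zr {z : ℂ | 0 < z.re} :=
    fun z hz => (zr_an hz).continuousAt.continuousWithinAt
  have h : ContinuousOn (fun z => ‖zr z‖) {z : ℂ | 0 < z.re} := h0.norm
  have h2 : Continuous (fun t : ℝ => ‖zr ((x : ℂ) + t * Complex.I)‖) :=
    h.comp_continuous (by fun_prop) (fun t => by simp only [mem_setOf_eq, re_line]; exact hx)
  exact h2.rpow_const (fun _ => Or.inr (by positivity))

lemma FX_growth {n : ℕ} (hn : 2 ≤ n) {x : ℝ} (hx : 1 / 4 ≤ x) (hx1 : x ≤ 1) (t : ℝ) :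
    FX n x t ≤ 30 * (1 + |t|) ^ 2 := by
  have hn2 : (2 : ℝ) ≤ n := by exact_mod_cast hn
  have hp1 : 2 / (n : ℝ) ≤ 1 := by rw [div_le_one (by linarith)]; exact hn2
  unfold FX
  have g1 := zr_growth (a := 1 / 4) (b := 1) (by norm_num)
    (z := (x : ℂ) + t * Complex.I) (by rw [re_line]; exact hx)
    (by rw [re_line]; exact hx1)
  rw [im_line] at g1
  have e : ((1 : ℝ) + 1) * (1 + 2) * (1 + 1 / (1 / 4)) = 30 := by norm_num
  rw [e] at g1
  have hy0 := abs_nonneg t
  have g4 : (1 : ℝ) ≤ 30 * (1 + |t|) ^ 2 := by nlinarith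
  calc _ ≤ (30 * (1 + |t|) ^ 2) ^ (2 / (n : ℝ)) :=
        Real.rpow_le_rpow (norm_nonneg _) g1 (by positivity)
    _ ≤ (30 * (1 + |t|) ^ 2) ^ (1 : ℝ) := Real.rpow_le_rpow_of_exponent_le g4 hp1
    _ = _ := Real.rpow_one _

lemma VV_line {n : ℕ} (hn : 0 < n) (x τ H : ℝ) (hH : 0 < H) :
    VV (fJ n τ H) (2 / (n : ℝ)) x = Real.exp ((x - 1 / 2) ^ 2 / H ^ 2) *
      ∫ t : ℝ, FX n x t * gw τ H t := by
  unfold VV
  rw [← integral_const_mul]
  refine integral_congr_ae (Eventually.of_forall fun t => ?_)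
  simp only
  unfold fJ FX
  rw [norm_mul, Real.mul_rpow (norm_nonneg _) (norm_nonneg _), norm_wn n hn τ H hH]
  ring

lemma FX_gw_integrable {n : ℕ} (hn : 2 ≤ n) {x : ℝ} (hx : 1 / 4 ≤ x) (hx1 : x ≤ 1) (τ H : ℝ)
    (hH : 0 < H) : Integrable (fun t => FX n x t * gw τ H t) := by
  have h := (tail_poly τ H 0 hH le_rfl).2
  refine (h.const_mul 30).mono' (((FX_continuous (by linarith)).mul
    (gw_continuous τ H)).aestronglyMeasurable) (Eventually.of_forall fun t => ?_)
  have h0 := gw_nonneg τ H t hH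
  rw [Real.norm_of_nonneg (mul_nonneg (FX_nonneg n x t) h0)]
  have := FX_growth hn hx hx1 t
  calc _ ≤ 30 * (1 + |t|) ^ 2 * gw τ H t := mul_le_mul_of_nonneg_right this h0
    _ = _ := by ring

lemma VV_line_le {n : ℕ} (hn : 2 ≤ n) {x : ℝ} (hx : 1 / 4 ≤ x) (hx1 : x ≤ 1) {τ H R : ℝ}
    (hH : 1 ≤ H) (hR : 0 ≤ R) :
    VV (fJ n τ H) (2 / (n : ℝ)) x ≤ Real.exp (1 / H ^ 2) * ((∫ t in (τ - R)..(τ + R), FX n x t * gw τ H t) +
      120 * (1 + |τ|) ^ 2 * (1 + 4 * H ^ 2) * Real.exp (-(R ^ 2 / (2 * H ^ 2)))) := by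
  have hH0 : 0 < H := by linarith
  have hi := FX_gw_integrable hn hx hx1 τ H hH0
  have hpos : 0 ≤ ∫ t : ℝ, FX n x t * gw τ H t :=
    integral_nonneg fun t => mul_nonneg (FX_nonneg n x t) (gw_nonneg τ H t hH0)
  rw [VV_line (by omega) x τ H hH0]
  have he : Real.exp ((x - 1 / 2) ^ 2 / H ^ 2) ≤ Real.exp (1 / H ^ 2) := by
    apply Real.exp_le_exp.mpr
    apply div_le_div_of_nonneg_right _ (by positivity)
    nlinarith
  refine (mul_le_mul_of_nonneg_right he hpos).trans ?_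
  apply mul_le_mul_of_nonneg_left _ (Real.exp_pos _).le
  rw [← integral_add_compl (measurableSet_Ioc : MeasurableSet (Ioc (τ - R) (τ + R))) hi,
    intervalIntegral.integral_of_le (by linarith)]
  have ht := tail_poly τ H R hH0 hR
  have : ∫ t in (Ioc (τ - R) (τ + R))ᶜ, FX n x t * gw τ H t ≤
      120 * (1 + |τ|) ^ 2 * (1 + 4 * H ^ 2) * Real.exp (-(R ^ 2 / (2 * H ^ 2))) := by
    calc _ ≤ ∫ t in (Ioc (τ - R) (τ + R))ᶜ, 30 * ((1 + |t|) ^ 2 * gw τ H t) := by
          refine setIntegral_mono_on hi.integrableOn (ht.2.const_mul _).integrableOn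
            measurableSet_Ioc.compl fun t _ => ?_
          have h0 := gw_nonneg τ H t hH0
          calc _ ≤ 30 * (1 + |t|) ^ 2 * gw τ H t :=
                mul_le_mul_of_nonneg_right (FX_growth hn hx hx1 t) h0
            _ = _ := by ring
      _ = 30 * ∫ t in (Ioc (τ - R) (τ + R))ᶜ, (1 + |t|) ^ 2 * gw τ H t := integral_const_mul _ _
      _ ≤ 30 * (4 * (1 + |τ|) ^ 2 * (1 + 4 * H ^ 2) * Real.exp (-(R ^ 2 / (2 * H ^ 2)))) :=
          mul_le_mul_of_nonneg_left ht.1 (by norm_num)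
      _ = _ := by ring
  linarith

/-- summation of windows, lower bound -/
theorem windowsX_lower {n : ℕ} {x : ℝ} (hx : 1 / 4 ≤ x) {T U R H J : ℝ} (hH : 0 < H) (hR : 0 ≤ R)
    (hRU : 2 * R ≤ U) (hJ : 0 ≤ J)
    (h : ∀ τ ∈ Icc (T + R) (T + U - R), J ≤ ∫ t in (τ - R)..(τ + R), FX n x t * gw τ H t) :
    (U - 2 * R) * J ≤ ∫ t in T..(T + U), FX n x t := by
  have h1 := window_sum (fun t => FX n x (T + t)) ((FX_continuous (by linarith)).comp (by fun_prop))
    (fun t => FX_nonneg n x _) (fun τ t => gw τ H t) (by unfold gw Function.uncurry; fun_prop)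
    (fun τ t => gw_nonneg τ H t hH) (by
      intro t
      have e : ∀ τ, gw τ H t = gw t H τ := fun τ => gw_symm τ H t
      simp_rw [e]
      rw [← ofReal_integral_eq_lintegral_ofReal (gw_integrable t H hH)
        (Eventually.of_forall fun τ => gw_nonneg t H τ hH), gw_integral t H hH]
      simp) U R (U - R) R J (by linarith) hR le_rfl (by linarith) hJ (by
      intro τ hτ
      have h2 := h (T + τ) ⟨by linarith [hτ.1], by linarith [hτ.2]⟩
      refine h2.trans (le_of_eq ?_)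
      have e1 : ∀ t : ℝ, gw τ H t = gw (T + τ) H (T + t) := by
        intro t; unfold gw; congr 4; ring
      simp_rw [e1]
      rw [intervalIntegral.integral_comp_add_left (fun t => FX n x t * gw (T + τ) H t) T]
      congr 1 <;> ring)
  rw [intervalIntegral.integral_comp_add_left (fun t => FX n x t) T, add_zero] at h1
  rw [show U - R - R = U - 2 * R by ring] at h1
  exact h1

/-- summation of windows, upper bound -/
theorem windowsX_upper {n : ℕ} (hn : 2 ≤ n) {x : ℝ} (hx : 1 / 4 ≤ x) (hx1 : x ≤ 1) {T U R H J : ℝ}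
    (hH : 0 < H) (hR : 0 ≤ R) (hU : 0 ≤ U) (hJ : 0 ≤ J)
    (h : ∀ τ ∈ Icc (T - R) (T + U + R), VV (fJ n τ H) (2 / (n : ℝ)) x ≤ J) :
    (1 - 2 * Real.exp (-(R ^ 2 / (2 * H ^ 2)))) * ∫ t in T..(T + U), FX n x t ≤ (U + 2 * R) * J := by
  set E := Real.exp (-(R ^ 2 / (2 * H ^ 2))) with hE
  set I : Set ℝ := Ioc T (T + U) with hI
  set K : Set ℝ := Ioc (T - R) (T + U + R) with hK
  have hmass : ∀ t ∈ I, 1 - 2 * E ≤ ∫ τ in K, gw τ H t := by
    intro t ht
    have h1 := gw_tail t H R hH hR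
    have h2 := integral_add_compl (measurableSet_Ioc : MeasurableSet (Ioc (t - R) (t + R)))
      (gw_integrable t H hH)
    rw [gw_integral t H hH] at h2
    have h3 : ∫ τ in Ioc (t - R) (t + R), gw t H τ ≤ ∫ τ in K, gw t H τ := by
      refine setIntegral_mono_set (gw_integrable t H hH).integrableOn
        (Eventually.of_forall fun τ => gw_nonneg t H τ hH) ?_
      refine HasSubset.Subset.eventuallyLE ?_
      exact Ioc_subset_Ioc (by linarith [ht.1]) (by linarith [ht.2])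
    have e : ∀ τ, gw τ H t = gw t H τ := fun τ => gw_symm τ H t
    simp_rw [e]
    linarith
  have hc2 : Continuous (fun q : ℝ × ℝ => FX n x q.1 * gw q.2 H q.1) := by
    have := FX_continuous (n := n) (x := x) (by linarith)
    unfold gw
    fun_prop
  have hint : Integrable (fun q : ℝ × ℝ => FX n x q.1 * gw q.2 H q.1)
      ((volume.restrict I).prod (volume.restrict K)) := by
    rw [Measure.prod_restrict]
    refine (hc2.continuousOn.integrableOn_compact (isCompact_Icc.prod isCompact_Icc)).mono_set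
      (Set.prod_mono Ioc_subset_Icc_self Ioc_subset_Icc_self)
  have hFi : IntegrableOn (FX n x) I :=
    ((FX_continuous (by linarith)).integrableOn_Icc).mono_set Ioc_subset_Icc_self
  rw [intervalIntegral.integral_of_le (by linarith)]
  calc (1 - 2 * E) * ∫ t in I, FX n x t = ∫ t in I, (1 - 2 * E) * FX n x t :=
        (integral_const_mul _ _).symm
    _ ≤ ∫ t in I, ∫ τ in K, FX n x t * gw τ H t := by
        refine setIntegral_mono_on (hFi.const_mul _) hint.integral_prod_left measurableSet_Ioc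
          fun t ht => ?_
        rw [integral_const_mul, mul_comm]
        exact mul_le_mul_of_nonneg_left (hmass t ht) (FX_nonneg n x t)
    _ = ∫ τ in K, ∫ t in I, FX n x t * gw τ H t := integral_integral_swap hint
    _ ≤ ∫ _τ in K, J := by
        refine setIntegral_mono_on hint.integral_prod_right (by simp [hK]) measurableSet_Ioc
          fun τ hτ => ?_
        refine le_trans ?_ (h τ ⟨hτ.1.le, hτ.2⟩)
        rw [VV_line (by omega) x τ H hH]
        have h5 : ∫ t in I, FX n x t * gw τ H t ≤ ∫ t : ℝ, FX n x t * gw τ H t :=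
          setIntegral_le_integral (FX_gw_integrable hn hx hx1 τ H hH)
            (Eventually.of_forall fun t => mul_nonneg (FX_nonneg n x t) (gw_nonneg τ H t hH))
        have h6 : 0 ≤ ∫ t : ℝ, FX n x t * gw τ H t :=
          integral_nonneg fun t => mul_nonneg (FX_nonneg n x t) (gw_nonneg τ H t hH)
        have h7 : 1 ≤ Real.exp ((x - 1 / 2) ^ 2 / H ^ 2) := Real.one_le_exp (by positivity)
        calc _ ≤ 1 * ∫ t : ℝ, FX n x t * gw τ H t := by rw [one_mul]; exact h5
          _ ≤ _ := mul_le_mul_of_nonneg_right h7 h6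
    _ = (U + 2 * R) * J := by
        rw [setIntegral_const, smul_eq_mul, hK, Real.volume_real_Ioc_of_le (by linarith)]
        ring

lemma FX_zeta {n : ℕ} {x : ℝ} (hx : 0 < x) (hx1 : x < 1) (t : ℝ) :
    FX n x t = ‖riemannZeta (x + t * Complex.I)‖ ^ (2 / (n : ℝ)) *
      ‖rr (x + t * Complex.I)‖ ^ (2 / (n : ℝ)) := by
  unfold FX
  rw [zr_eq (by rw [re_line]; exact hx), norm_mul, Real.mul_rpow (norm_nonneg _) (norm_nonneg _)]
  intro h
  have := congrArg Complex.re h
  rw [re_line, Complex.one_re] at this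
  linarith

lemma FX_le {n : ℕ} {x : ℝ} (hx : 0 < x) (hx1 : x < 1) (t : ℝ) :
    FX n x t ≤ ‖riemannZeta (x + t * Complex.I)‖ ^ (2 / (n : ℝ)) := by
  rw [FX_zeta hx hx1]
  have h1 := norm_rr_le (s := x + t * Complex.I) (by rw [re_line]; exact hx)
  have h2 : ‖rr (x + t * Complex.I)‖ ^ (2 / (n : ℝ)) ≤ 1 :=
    Real.rpow_le_one (norm_nonneg _) h1 (by positivity)
  calc _ ≤ ‖riemannZeta (x + t * Complex.I)‖ ^ (2 / (n : ℝ)) * 1 := by gcongr
    _ = _ := mul_one _

lemma FX_ge {n : ℕ} (hn : 2 ≤ n) {x : ℝ} (hx : 0 < x) (hx1 : x < 1) {T t : ℝ} (hT : 2 < T) (ht : T ≤ t) :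
    (1 - 2 / T) * ‖riemannZeta (x + t * Complex.I)‖ ^ (2 / (n : ℝ)) ≤ FX n x t := by
  have hn2 : (2 : ℝ) ≤ n := by exact_mod_cast hn
  have hp1 : 2 / (n : ℝ) ≤ 1 := by rw [div_le_one (by linarith)]; exact hn2
  rw [FX_zeta hx hx1]
  have h1 := norm_rr_le (s := x + t * Complex.I) (by rw [re_line]; exact hx)
  have h2 := norm_rr_ge (s := x + t * Complex.I) (by rw [re_line]; exact hx)
  have h3 : T ≤ ‖(x : ℂ) + (t : ℂ) * Complex.I + 1‖ := by
    have h8 := Complex.abs_im_le_norm ((x : ℂ) + (t : ℂ) * Complex.I + 1)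
    have h9 : ((x : ℂ) + (t : ℂ) * Complex.I + 1).im = t := by simp
    rw [h9] at h8
    have := le_abs_self t
    linarith
  have h4 : 1 - 2 / T ≤ ‖rr (x + t * Complex.I)‖ := by
    refine le_trans ?_ h2
    have : 2 / ‖(x : ℂ) + (t : ℂ) * Complex.I + 1‖ ≤ 2 / T :=
      div_le_div_of_nonneg_left (by norm_num) (by linarith) h3
    linarith
  have h5 : ‖rr (x + t * Complex.I)‖ ≤ ‖rr (x + t * Complex.I)‖ ^ (2 / (n : ℝ)) := by
    have := Real.rpow_le_rpow_of_exponent_ge' (norm_nonneg _) h1 (by positivity) hp1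
    rwa [Real.rpow_one] at this
  rw [mul_comm]
  apply mul_le_mul_of_nonneg_left (h4.trans h5) (by positivity)

lemma zeta_line_continuous {x : ℝ} (hx1 : x < 1) (p : ℝ) (hp : 0 ≤ p) :
    Continuous (fun t : ℝ => ‖riemannZeta (x + t * Complex.I)‖ ^ p) := by
  have h : Continuous (fun t : ℝ => riemannZeta (x + t * Complex.I)) := by
    rw [continuous_iff_continuousAt]
    intro t
    have h1 : ((x : ℂ) + (t : ℂ) * Complex.I) ≠ 1 := by
      intro h
      have := congrArg Complex.re h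
      rw [re_line, Complex.one_re] at this
      linarith
    exact ContinuousAt.comp (f := fun t : ℝ => (x : ℂ) + (t : ℂ) * Complex.I) (g := riemannZeta)
      (differentiableAt_riemannZeta h1).continuousAt (by fun_prop)
  exact h.norm.rpow_const (fun _ => Or.inr hp)

/-- the parameters for windows: `H = U / (log N)^3`, `R = U / log N`. -/
lemma win_params {η K β : ℝ} (hη : 0 < η) (hK : 0 < K) :
    ∀ᶠ N : ℝ in atTop, 4 ≤ Real.log N ∧ 1 < N ∧ ∀ T U : ℝ, N ^ (1 + η) ≤ U → U ≤ K * T →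
      2 * (T + U) ≤ N ^ β → 0 < T ∧ 0 < U ∧ 1 ≤ U / Real.log N ^ 3 ∧
      4 * N * Real.log N ≤ U / Real.log N ^ 3 ∧ U / Real.log N ≤ T / 2 ∧
      4 * (U / Real.log N ^ 3) * Real.log N ≤ T / 2 ∧
      (∀ τ : ℝ, T / 2 ≤ τ → τ ≤ 2 * (T + U) → Real.log τ ≤ β * Real.log N) := by
  have h1 : ∀ᶠ N : ℝ in atTop, 4 * N * Real.log N * Real.log N ^ 3 ≤ N ^ (1 + η) := by
    have h := (isLittleO_log_rpow_rpow_atTop 4 hη).bound (show (0 : ℝ) < 1 / 4 by norm_num)
    filter_upwards [h, eventually_gt_atTop 1] with N hN hN1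
    have hl : 0 ≤ Real.log N := Real.log_nonneg hN1.le
    rw [Real.norm_of_nonneg (by positivity), Real.norm_of_nonneg (by positivity)] at hN
    have e1 : Real.log N ^ (4 : ℝ) = Real.log N ^ 4 := by norm_cast
    rw [e1] at hN
    rw [Real.rpow_add (by linarith), Real.rpow_one]
    have : 4 * N * Real.log N * Real.log N ^ 3 = 4 * N * Real.log N ^ 4 := by ring
    rw [this]
    have h0 : 0 < N := by linarith
    nlinarith
  filter_upwards [h1, Real.tendsto_log_atTop.eventually_ge_atTop (max 4 (8 * K)),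
    eventually_gt_atTop 1] with N hN hlog hN1
  set l := Real.log N with hl
  have hl4 : 4 ≤ l := (le_max_left _ _).trans hlog
  have hlK : 8 * K ≤ l := (le_max_right _ _).trans hlog
  have hl0 : 0 < l := by linarith
  have hN0 : 0 < N := by linarith
  refine ⟨hl4, hN1, fun T U hU hUT hTU => ?_⟩
  have hU1 : 4 * N * l * l ^ 3 ≤ U := hN.trans hU
  have hU0 : 0 < U := lt_of_lt_of_le (by positivity) hU1
  have hT0 : 0 < T := by
    by_contra h
    push Not at h
    nlinarith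
  have h4 : 4 * N * l ≤ U / l ^ 3 := by rw [le_div_iff₀ (by positivity)]; exact hU1
  refine ⟨hT0, hU0, ?_, h4, ?_, ?_, ?_⟩
  · refine le_trans ?_ h4
    nlinarith
  · rw [div_le_iff₀ hl0]
    nlinarith
  · have e : 4 * (U / l ^ 3) * l = 4 * U / l ^ 2 := by field_simp
    rw [e, div_le_iff₀ (by positivity)]
    have h5 : 8 * K ≤ l ^ 2 := by nlinarith
    nlinarith
  · intro τ h5 h6
    have hτ : 0 < τ := by linarith
    have h7 : τ ≤ N ^ β := h6.trans hTU
    calc Real.log τ ≤ Real.log (N ^ β) := Real.log_le_log hτ h7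
      _ = β * l := Real.log_rpow hN0 β

end

end Pool.Agent.Q255.FM
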