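import Pool.Agent.Q255.FM.Ln1

set_option autoImplicit false

/-!
From local averages to intervals, on a line `Re s = x`.
-/

open Filter MeasureTheory Metric Set Topology
open Pool.Agent.H306R2

namespace Pool.Agent.Q255.FM

noncomputable section

lemma winR {U l : ℝ} (hl : 0 < l) (hU : 0 < U) :
    (U / l) ^ 2 / (2 * (U / l ^ 3) ^ 2) = l ^ 4 / 2 := by
  field_simp

lemma exp_l4_tendsto : Tendsto (fun N : ℝ => Real.exp (-(Real.log N ^ 4 / 2))) atTop (𝓝 0) := by
  apply Real.tendsto_exp_neg_atTop_nhds_zero.comp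
  apply Tendsto.atTop_div_const (by norm_num)
  exact (tendsto_pow_atTop (by norm_num)).comp Real.tendsto_log_atTop

theorem win_up {n : ℕ} (hn : 2 ≤ n) {η K β ε : ℝ} (hη : 0 < η) (hK : 0 < K) (hε : 0 < ε) :
    ∀ᶠ N : ℝ in atTop, ∀ T U x J : ℝ, 1 / 4 ≤ x → x < 1 → N ^ (1 + η) ≤ U → U ≤ K * T →
      2 * (T + U) ≤ N ^ β → 0 ≤ J →
      (∀ τ : ℝ, T / 2 ≤ τ → τ ≤ 2 * (T + U) →
        VV (fJ n τ (U / Real.log N ^ 3)) (2 / (n : ℝ)) x ≤ J) →
      ∫ t in T..(T + U), ‖riemannZeta (x + t * Complex.I)‖ ^ (2 / (n : ℝ)) ≤ (1 + ε) * (U * J) := by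
  have hconst : ∀ᶠ N : ℝ in atTop, 0 < (1 - 2 * Real.exp (-(Real.log N ^ 4 / 2))) * (1 - 2 * K / N) ∧
      0 < 1 - 2 * Real.exp (-(Real.log N ^ 4 / 2)) ∧
      1 + 2 / Real.log N ≤ (1 + ε) * ((1 - 2 * Real.exp (-(Real.log N ^ 4 / 2))) * (1 - 2 * K / N)) := by
    have h4 : Tendsto (fun N : ℝ => 2 * K / N) atTop (𝓝 0) := tendsto_const_nhds.div_atTop tendsto_id
    have h3 := exp_l4_tendsto
    have h5 : Tendsto (fun N : ℝ => (1 - 2 * Real.exp (-(Real.log N ^ 4 / 2))) * (1 - 2 * K / N))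
        atTop (𝓝 1) := by
      have := (((h3.const_mul 2).const_sub 1).mul (h4.const_sub 1))
      simpa using this
    have h7 : Tendsto (fun N : ℝ => (1 - 2 * Real.exp (-(Real.log N ^ 4 / 2)))) atTop (𝓝 1) := by
      have := ((h3.const_mul 2).const_sub 1)
      simpa using this
    have hi : Tendsto (fun N : ℝ => 1 + 2 / Real.log N) atTop (𝓝 1) := by
      have : Tendsto (fun N : ℝ => 2 / Real.log N) atTop (𝓝 0) :=
        tendsto_const_nhds.div_atTop Real.tendsto_log_atTop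
      simpa using this.const_add 1
    have h6 := h5.const_mul (1 + ε)
    rw [mul_one] at h6
    filter_upwards [h5.eventually_const_lt (show (0 : ℝ) < 1 by norm_num),
      h7.eventually_const_lt (show (0 : ℝ) < 1 by norm_num),
      hi.eventually_lt_const (show (1 : ℝ) < 1 + ε / 2 by linarith),
      h6.eventually_const_lt (show 1 + ε / 2 < 1 + ε by linarith)] with N a0 a3 a1 a2
    exact ⟨a0, a3, by linarith⟩
  filter_upwards [win_params (β := β) hη hK, hconst, eventually_gt_atTop (2 * K)] with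
    N hpar hc hNK T U x J hx hx1 hU hUT hTU hJ hV
  obtain ⟨hl4, hN1, hp⟩ := hpar
  obtain ⟨hT0, hU0, hH1, hH4, hR2, hHT, hlog⟩ := hp T U hU hUT hTU
  obtain ⟨hc0, hc3, hc1⟩ := hc
  set l := Real.log N with hl
  have hl0 : 0 < l := by linarith
  set H := U / l ^ 3 with hH
  set R := U / l with hR
  have hH0 : 0 < H := by linarith
  have hR0 : 0 < R := by positivity
  have hwin := windowsX_upper hn hx hx1.le (T := T) (U := U) (R := R) (H := H) (J := J) hH0 hR0.le
    hU0.le hJ (fun τ hτ => hV τ (by linarith [hτ.1]) (by linarith [hτ.2]))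
  rw [hR, hH, winR hl0 hU0] at hwin
  set E := Real.exp (-(l ^ 4 / 2)) with hE
  -- `T` is large
  have hNU : N ≤ U := by
    refine le_trans ?_ hU
    calc N = N ^ (1 : ℝ) := (Real.rpow_one N).symm
      _ ≤ N ^ (1 + η) := Real.rpow_le_rpow_of_exponent_le hN1.le (by linarith)
  have hNT : N ≤ K * T := hNU.trans hUT
  have hT2 : 2 < T := by
    have : K * 2 < K * T := by linarith
    exact lt_of_mul_lt_mul_left this hK.le
  have h2T : 2 / T ≤ 2 * K / N := by
    rw [div_le_div_iff₀ hT0 (by linarith)]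
    linarith
  have hfin : (1 - 2 / T) * ∫ t in T..(T + U), ‖riemannZeta (x + t * Complex.I)‖ ^ (2 / (n : ℝ)) ≤
      ∫ t in T..(T + U), FX n x t := by
    rw [← intervalIntegral.integral_const_mul]
    refine intervalIntegral.integral_mono_on (by linarith)
      (((zeta_line_continuous hx1 _ (by positivity)).const_mul _).intervalIntegrable _ _)
      ((FX_continuous (by linarith)).intervalIntegrable _ _) fun t ht => FX_ge hn (by linarith) hx1 hT2 ht.1
  set I := ∫ t in T..(T + U), ‖riemannZeta (x + t * Complex.I)‖ ^ (2 / (n : ℝ)) with hI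
  have hI0 : 0 ≤ I := intervalIntegral.integral_nonneg (by linarith) fun t _ => by positivity
  have h1 : ((1 - 2 * E) * (1 - 2 * K / N)) * I ≤ ((1 - 2 * E) * (1 - 2 * K / N)) * ((1 + ε) * (U * J)) := by
    calc ((1 - 2 * E) * (1 - 2 * K / N)) * I = (1 - 2 * E) * ((1 - 2 * K / N) * I) := by ring
      _ ≤ (1 - 2 * E) * ((1 - 2 / T) * I) := by
          apply mul_le_mul_of_nonneg_left _ hc3.le
          apply mul_le_mul_of_nonneg_right _ hI0
          linarith
      _ ≤ (1 - 2 * E) * ∫ t in T..(T + U), FX n x t := mul_le_mul_of_nonneg_left hfin hc3.le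
      _ ≤ (U + 2 * (U / l)) * J := hwin
      _ = (1 + 2 / l) * (U * J) := by field_simp
      _ ≤ ((1 + ε) * ((1 - 2 * E) * (1 - 2 * K / N))) * (U * J) := by
          apply mul_le_mul_of_nonneg_right hc1 (by positivity)
      _ = _ := by ring
  exact le_of_mul_le_mul_left h1 hc0

theorem win_lo {n : ℕ} (hn : 2 ≤ n) {η K β ε : ℝ} (hη : 0 < η) (hK : 0 < K) (hε : 0 < ε) :
    ∀ᶠ N : ℝ in atTop, ∀ T U x J : ℝ, 1 / 4 ≤ x → x < 1 → N ^ (1 + η) ≤ U → U ≤ K * T →
      2 * (T + U) ≤ N ^ β → 1 ≤ J →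
      (∀ τ : ℝ, T / 2 ≤ τ → τ ≤ 2 * (T + U) →
        J ≤ VV (fJ n τ (U / Real.log N ^ 3)) (2 / (n : ℝ)) x) →
      (1 - ε) * (U * J) ≤ ∫ t in T..(T + U), ‖riemannZeta (x + t * Complex.I)‖ ^ (2 / (n : ℝ)) := by
  -- it suffices to have `ε < 1`
  set k : ℕ := ⌈β⌉₊ with hk
  have htail : Tendsto (fun N : ℝ => 2400 * (N ^ (4 * k) * Real.exp (-(1 / 2 * Real.log N ^ 2))))
      atTop (𝓝 0) := by
    have := (small0 (4 * k) (b := 1 / 2) (by norm_num)).const_mul 2400
    simpa using this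
  have hconst : ∀ᶠ N : ℝ in atTop, (1 - min ε 1) ≤ (1 - 2 / Real.log N) *
      (Real.exp (-(1 / N ^ 2)) - 2400 * (N ^ (4 * k) * Real.exp (-(1 / 2 * Real.log N ^ 2)))) ∧
      0 < Real.exp (-(1 / N ^ 2)) - 2400 * (N ^ (4 * k) * Real.exp (-(1 / 2 * Real.log N ^ 2))) := by
    have h1 : Tendsto (fun N : ℝ => Real.exp (-(1 / N ^ 2))) atTop (𝓝 1) := by
      have h2 : Tendsto (fun N : ℝ => -(1 / N ^ 2)) atTop (𝓝 0) := by
        have : Tendsto (fun N : ℝ => 1 / N ^ 2) atTop (𝓝 0) :=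
          tendsto_const_nhds.div_atTop (tendsto_pow_atTop (by norm_num))
        simpa using this.neg
      have := (Real.continuous_exp.tendsto 0).comp h2
      simpa [Function.comp_def] using this
    have hi : Tendsto (fun N : ℝ => 1 - 2 / Real.log N) atTop (𝓝 1) := by
      have : Tendsto (fun N : ℝ => 2 / Real.log N) atTop (𝓝 0) :=
        tendsto_const_nhds.div_atTop Real.tendsto_log_atTop
      simpa using this.const_sub 1
    have h3 := h1.sub htail
    have h4 := hi.mul h3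
    rw [sub_zero] at h3 h4
    rw [mul_one] at h4
    filter_upwards [h4.eventually_const_lt (show 1 - min ε 1 < 1 by
        have : 0 < min ε 1 := lt_min hε one_pos
        linarith),
      h3.eventually_const_lt (show (0 : ℝ) < 1 by norm_num)] with N a1 a2
    exact ⟨a1.le, a2⟩
  filter_upwards [win_params (β := β) hη hK, hconst, eventually_ge_atTop (Real.exp 4)] with
    N hpar hc hNe T U x J hx hx1 hU hUT hTU hJ hV
  obtain ⟨hl4, hN1, hp⟩ := hpar
  obtain ⟨hT0, hU0, hH1, hH4, hR2, hHT, hlog⟩ := hp T U hU hUT hTU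
  obtain ⟨hc1, hc0⟩ := hc
  set l := Real.log N with hl
  have hl0 : 0 < l := by linarith
  set H := U / l ^ 3 with hH
  set R := U / l with hR
  have hH0 : 0 < H := by linarith
  have hR0 : 0 < R := by positivity
  have hN0 : 0 < N := by linarith
  set θ : ℝ := Real.exp (-(1 / N ^ 2)) - 2400 * (N ^ (4 * k) * Real.exp (-(1 / 2 * l ^ 2))) with hθ
  have hNH : N ≤ H := by nlinarith
  have hHU : H ≤ U := by
    rw [hH]
    apply div_le_self hU0.le
    nlinarith [sq_nonneg l]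
  have hkey : ∀ τ ∈ Icc (T + R) (T + U - R), θ * J ≤ ∫ t in (τ - R)..(τ + R), FX n x t * gw τ H t := by
    intro τ hτ
    have hτ1 : T / 2 ≤ τ := by linarith [hτ.1]
    have hτ2 : τ ≤ 2 * (T + U) := by linarith [hτ.2]
    have h1 := hV τ hτ1 hτ2
    have h2 := VV_line_le hn hx hx1.le (τ := τ) (H := H) (R := R) hH1 hR0.le
    have e1 : R ^ 2 / (2 * H ^ 2) = l ^ 4 / 2 := by rw [hR, hH, winR hl0 hU0]
    rw [e1] at h2
    set W := ∫ t in (τ - R)..(τ + R), FX n x t * gw τ H t with hW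
    -- tail
    have hτk : τ ≤ N ^ k := by
      refine hτ2.trans (hTU.trans ?_)
      rw [← Real.rpow_natCast]
      exact Real.rpow_le_rpow_of_exponent_le hN1.le (Nat.le_ceil β)
    have hHk : H ≤ N ^ k := by
      refine (hHU.trans (by linarith)).trans (hTU.trans ?_)
      rw [← Real.rpow_natCast]
      exact Real.rpow_le_rpow_of_exponent_le hN1.le (Nat.le_ceil β)
    have hτ0 : 0 < τ := by linarith
    have hNk : 1 ≤ N ^ k := by
      exact one_le_pow₀ hN1.le
    have ht : 120 * (1 + |τ|) ^ 2 * (1 + 4 * H ^ 2) * Real.exp (-(l ^ 4 / 2)) ≤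
        2400 * (N ^ (4 * k) * Real.exp (-(1 / 2 * l ^ 2))) := by
      rw [abs_of_pos hτ0]
      have e2 : Real.exp (-(l ^ 4 / 2)) ≤ Real.exp (-(1 / 2 * l ^ 2)) := by
        apply Real.exp_le_exp.mpr
        have : l ^ 2 ≤ l ^ 4 := pow_le_pow_right₀ (by linarith) (by norm_num)
        linarith
      have e3 : (1 + τ) ^ 2 * (1 + 4 * H ^ 2) ≤ 20 * N ^ (4 * k) := by
        have h5 : 1 + τ ≤ 2 * N ^ k := by linarith
        have h6 : 1 + 4 * H ^ 2 ≤ 5 * (N ^ k) ^ 2 := by nlinarith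
        calc _ ≤ (2 * N ^ k) ^ 2 * (5 * (N ^ k) ^ 2) := by gcongr
          _ = 20 * ((N ^ k) ^ 4) := by ring
          _ = _ := by rw [← pow_mul, mul_comm k 4]
      calc 120 * (1 + τ) ^ 2 * (1 + 4 * H ^ 2) * Real.exp (-(l ^ 4 / 2))
          = 120 * ((1 + τ) ^ 2 * (1 + 4 * H ^ 2)) * Real.exp (-(l ^ 4 / 2)) := by ring
        _ ≤ 120 * (20 * N ^ (4 * k)) * Real.exp (-(1 / 2 * l ^ 2)) := by gcongr
        _ = _ := by ring
    have hee : Real.exp (-(1 / N ^ 2)) * Real.exp (1 / H ^ 2) ≤ 1 := by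
      rw [← Real.exp_add, Real.exp_le_one_iff]
      have : 1 / H ^ 2 ≤ 1 / N ^ 2 := by
        apply one_div_le_one_div_of_le (by positivity)
        gcongr
      linarith
    have hW0 : 0 ≤ W + 120 * (1 + |τ|) ^ 2 * (1 + 4 * H ^ 2) * Real.exp (-(l ^ 4 / 2)) := by
      by_contra hneg
      push Not at hneg
      have : Real.exp (1 / H ^ 2) * (W + 120 * (1 + |τ|) ^ 2 * (1 + 4 * H ^ 2) *
          Real.exp (-(l ^ 4 / 2))) < 0 := mul_neg_of_pos_of_neg (Real.exp_pos _) hneg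
      linarith
    have h7 : Real.exp (-(1 / N ^ 2)) * J ≤
        W + 120 * (1 + |τ|) ^ 2 * (1 + 4 * H ^ 2) * Real.exp (-(l ^ 4 / 2)) := by
      calc Real.exp (-(1 / N ^ 2)) * J ≤ Real.exp (-(1 / N ^ 2)) * (Real.exp (1 / H ^ 2) *
            (W + 120 * (1 + |τ|) ^ 2 * (1 + 4 * H ^ 2) * Real.exp (-(l ^ 4 / 2)))) :=
            mul_le_mul_of_nonneg_left (h1.trans h2) (Real.exp_pos _).le
        _ = (Real.exp (-(1 / N ^ 2)) * Real.exp (1 / H ^ 2)) *
            (W + 120 * (1 + |τ|) ^ 2 * (1 + 4 * H ^ 2) * Real.exp (-(l ^ 4 / 2))) := by ring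
        _ ≤ 1 * (W + 120 * (1 + |τ|) ^ 2 * (1 + 4 * H ^ 2) * Real.exp (-(l ^ 4 / 2))) :=
            mul_le_mul_of_nonneg_right hee hW0
        _ = _ := one_mul _
    have h8 : 2400 * (N ^ (4 * k) * Real.exp (-(1 / 2 * l ^ 2))) ≤
        2400 * (N ^ (4 * k) * Real.exp (-(1 / 2 * l ^ 2))) * J := by
      have : 0 ≤ 2400 * (N ^ (4 * k) * Real.exp (-(1 / 2 * l ^ 2))) := by positivity
      nlinarith
    rw [hθ, sub_mul]
    linarith
  have h2R : 2 * R ≤ U := by
    rw [hR, ← mul_div_assoc, div_le_iff₀ hl0]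
    nlinarith
  have hwin := windowsX_lower hx (T := T) (U := U) (R := R) (H := H) (J := θ * J) hH0 hR0.le h2R
    (by positivity) hkey
  have hfin : ∫ t in T..(T + U), FX n x t ≤
      ∫ t in T..(T + U), ‖riemannZeta (x + t * Complex.I)‖ ^ (2 / (n : ℝ)) :=
    intervalIntegral.integral_mono_on (by linarith)
      ((FX_continuous (by linarith)).intervalIntegrable _ _)
      ((zeta_line_continuous hx1 _ (by positivity)).intervalIntegrable _ _)
      fun t _ => FX_le (by linarith) hx1 t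
  refine le_trans ?_ (hwin.trans hfin)
  have e5 : (U - 2 * R) * (θ * J) = ((1 - 2 / l) * θ) * (U * J) := by
    rw [hR]; field_simp
  rw [e5]
  apply mul_le_mul_of_nonneg_right _ (by positivity)
  refine le_trans ?_ hc1
  have := min_le_left ε 1
  linarith

end

end Pool.Agent.Q255.FM
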