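import Pool.Agent.Q255.FM.Loc3

set_option autoImplicit false

/-!
A second local upper bound, with constants that do not depend on the exponent.
-/

open Filter MeasureTheory Metric Set Topology
open Pool.Agent.H306R2

namespace Pool.Agent.Q255.FM

noncomputable section

theorem local_upper2 {n : ℕ} (hn : 2 ≤ n) {β c C : ℝ} (hc : 0 < c) (hC0 : 0 < C)
    (hC : Real.exp (1 / (n : ℝ) * c * β) * (FF n c / C + Real.exp (-(2 / (n : ℝ) * c)) * (1 + 1 / C)) < 1) :
    ∀ᶠ q : ℝ × ℝ × ℝ in F1 β, VV (fJ n q.2.2 q.2.1) (2 / (n : ℝ)) (1 / 2) ≤ C * UU n q.1 := by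
  have hn' : 0 < n := by omega
  set p : ℝ := 2 / (n : ℝ) with hp
  have hp0 : 0 < p := by positivity
  have hFc := FF_nonneg hn' c
  set b : ℝ → ℝ := fun ε => (FF n c + ε) / C + (1 + ε) * Real.exp (-(p * (c + 0))) * (1 + (1 + ε) / C) with hb
  set g : ℝ → ℝ := fun ε => ((1 + ε) * Real.exp (p * c * β) * b ε + ε / C) * b ε with hg
  have hbc : ContinuousAt b 0 := by fun_prop
  have hgc : ContinuousAt g 0 := by fun_prop
  have hb0 : b 0 = FF n c / C + Real.exp (-(p * c)) * (1 + 1 / C) := by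
    simp only [hb, add_zero, one_mul]
  have hbpos : 0 < b 0 := by rw [hb0]; positivity
  have hg0 : g 0 < 1 := by
    have e1 : g 0 = (Real.exp (1 / (n : ℝ) * c * β) * b 0) ^ 2 := by
      simp only [hg, add_zero, one_mul, zero_div]
      have e2 : Real.exp (p * c * β) = Real.exp (1 / (n : ℝ) * c * β) ^ 2 := by
        rw [← Real.exp_nat_mul, hp]
        congr 1
        push_cast
        ring
      rw [e2]; ring
    rw [e1, hb0]
    have h0 : 0 ≤ Real.exp (1 / (n : ℝ) * c * β) * (FF n c / C + Real.exp (-(p * c)) * (1 + 1 / C)) := by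
      positivity
    exact pow_lt_one₀ h0 hC (by norm_num)
  have hev : ∀ᶠ ε in 𝓝[>] (0 : ℝ), g ε < 1 :=
    (hgc.tendsto.mono_left nhdsWithin_le_nhds).eventually_lt_const hg0
  obtain ⟨ε, hgε, hε⟩ := (hev.and self_mem_nhdsWithin).exists
  have hε0 : 0 < ε := hε
  have hS0 := S_le hn 0 hε0
  rw [FF_zero hn'] at hS0
  have hle := F1_le β
  filter_upwards [hle F0_basic, hle (S_le hn c hε0), hle hS0,
    hle (tri hn 0), hle (tri hn c),
    hle (K_interp hn (c := c) (d := 0) (by linarith) hε0),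
    J_left' hn (β := β) hc hε0,
    hle (J_mid hn hc), hle (UU_ge n hn' 1), hle (UU_ge n hn' (1 / ε))] with q hq sc' s0 t0 tc
      kc jlc jm hU1 hUε
  obtain ⟨N, H, τ⟩ := q
  simp only [zero_div, add_zero, sub_zero] at hq sc' s0 t0 tc kc jlc jm hU1 hUε ⊢
  by_contra hcon
  push Not at hcon
  set U := UU n N with hU
  have hU0 : 0 < U := by linarith
  have hεU : 1 ≤ ε * U := by
    rw [div_le_iff₀ hε0] at hUε
    linarith
  set J0 := VV (fJ n τ H) p (1 / 2) with hJ0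
  set Jc := VV (fJ n τ H) p (1 / 2 + c / Real.log N) with hJc
  have hJ0pos : 0 < J0 := lt_trans (by positivity) hcon
  have hJc0 : 0 ≤ Jc := VV_nonneg _ _ _
  have hX : 1 ≤ J0 + (1 + ε) * U := by nlinarith
  have hK0 : VV (fK n N τ H) p (1 / 2) ≤ J0 + (1 + ε) * U := by
    have := t0.2.2
    linarith
  have kc' := kc _ hX hK0
  -- everything in terms of `J0`
  have hUJ : U ≤ J0 / C := by
    rw [le_div_iff₀ hC0]; linarith
  have hE1 := Real.exp_pos (-(p * c))
  have hE2 := Real.exp_pos (p * c * β)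
  have hbε : b ε = (FF n c + ε) / C + (1 + ε) * Real.exp (-(p * c)) * (1 + (1 + ε) / C) := by
    simp only [hb, add_zero]
  have hbε0 : 0 < b ε := by rw [hbε]; positivity
  have hJc1 : Jc ≤ b ε * J0 := by
    have h1 := tc.1
    have h2 : (FF n c + ε) * U ≤ (FF n c + ε) * (J0 / C) := by gcongr
    have h3 : (1 + ε) * Real.exp (-(p * c)) * (J0 + (1 + ε) * U) ≤
        (1 + ε) * Real.exp (-(p * c)) * (J0 + (1 + ε) * (J0 / C)) := by gcongr
    have h4 : b ε * J0 = (FF n c + ε) * (J0 / C) +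
        (1 + ε) * Real.exp (-(p * c)) * (J0 + (1 + ε) * (J0 / C)) := by
      rw [hbε]; field_simp
    rw [h4]
    linarith
  have hJmc : VV (fJ n τ H) p (1 / 2 - c / Real.log N) ≤
      ((1 + ε) * Real.exp (p * c * β) * b ε + ε / C) * J0 := by
    have h2 : (1 + ε) * Real.exp (p * c * β) * Jc ≤ (1 + ε) * Real.exp (p * c * β) * (b ε * J0) := by
      gcongr
    have h3 : ε ≤ ε / C * J0 := by
      have : ε * 1 ≤ ε * U := by gcongr
      have h5 : ε * U ≤ ε * (J0 / C) := by gcongr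
      calc ε = ε * 1 := by ring
        _ ≤ ε * (J0 / C) := this.trans h5
        _ = _ := by ring
    linarith
  have hfin := jm _ _ (by positivity) (by positivity) hJmc hJc1
  rw [Real.mul_rpow (by positivity) hJ0pos.le, Real.mul_rpow hbε0.le hJ0pos.le] at hfin
  have e3 : J0 ^ ((1 : ℝ) / 2) * J0 ^ ((1 : ℝ) / 2) = J0 := by
    rw [← Real.rpow_add hJ0pos]; norm_num
  have e4 : ((1 + ε) * Real.exp (p * c * β) * b ε + ε / C) ^ ((1 : ℝ) / 2) * J0 ^ ((1 : ℝ) / 2) *
      ((b ε) ^ ((1 : ℝ) / 2) * J0 ^ ((1 : ℝ) / 2)) = (g ε) ^ ((1 : ℝ) / 2) * J0 := by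
    have e5 : (g ε) ^ ((1 : ℝ) / 2) = ((1 + ε) * Real.exp (p * c * β) * b ε + ε / C) ^ ((1 : ℝ) / 2) *
        (b ε) ^ ((1 : ℝ) / 2) := by
      simp only [hg]
      rw [Real.mul_rpow (by positivity) hbε0.le]
    rw [e5]
    calc _ = (((1 + ε) * Real.exp (p * c * β) * b ε + ε / C) ^ ((1 : ℝ) / 2) *
        (b ε) ^ ((1 : ℝ) / 2)) * (J0 ^ ((1 : ℝ) / 2) * J0 ^ ((1 : ℝ) / 2)) := by ring
      _ = _ := by rw [e3]
  rw [e4] at hfin
  have hg0' : 0 ≤ g ε := by simp only [hg]; positivity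
  have h6 : (g ε) ^ ((1 : ℝ) / 2) < 1 := Real.rpow_lt_one hg0' hgε (by norm_num)
  nlinarith

end

end Pool.Agent.Q255.FM
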