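import Pool.Agent.Q255.FM.Loc3

set_option autoImplicit false

/-!
Numerical bounds.
-/

open Filter MeasureTheory Metric Set Topology
open Pool.Agent.H306R2

namespace Pool.Agent.Q255.FM

noncomputable section

lemma exp_tail {y : ℝ} (hy : 0 ≤ y) (N : ℕ) :
    Real.exp y - ∑ j ∈ Finset.range N, y ^ j / (j.factorial : ℝ) ≤
      y ^ N / (N.factorial : ℝ) * Real.exp y := by
  have hs := Real.summable_pow_div_factorial y
  have he : Real.exp y = ∑' j : ℕ, y ^ j / (j.factorial : ℝ) := by
    rw [Real.exp_eq_exp_ℝ, NormedSpace.exp_eq_tsum_div]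
  have h1 := hs.sum_add_tsum_nat_add N
  have h2 : ∑' i : ℕ, y ^ (i + N) / ((i + N).factorial : ℝ) ≤
      ∑' i : ℕ, y ^ N / (N.factorial : ℝ) * (y ^ i / (i.factorial : ℝ)) := by
    refine Summable.tsum_le_tsum (fun i => ?_) ((summable_nat_add_iff N).mpr hs) (hs.mul_left _)
    rw [div_mul_div_comm, ← pow_add, add_comm N i]
    apply div_le_div_of_nonneg_left (by positivity) (by positivity)
    have := Nat.le_of_dvd (Nat.factorial_pos _) (Nat.factorial_mul_factorial_dvd_factorial_add N i)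
    rw [add_comm N i] at this
    exact_mod_cast this
  rw [tsum_mul_left, ← he] at h2
  rw [← he] at h1
  linarith

/-- Taylor polynomial of the exponential -/
lemma exp_taylor (x : ℝ) (N : ℕ) :
    |Real.exp x - ∑ j ∈ Finset.range N, x ^ j / (j.factorial : ℝ)| ≤
      |x| ^ N / (N.factorial : ℝ) * Real.exp |x| := by
  have h := Complex.norm_exp_sub_sum_le_exp_norm_sub_sum (x : ℂ) N
  have e1 : Complex.exp (x : ℂ) - ∑ m ∈ Finset.range N, (x : ℂ) ^ m / (m.factorial : ℂ) =
      ((Real.exp x - ∑ j ∈ Finset.range N, x ^ j / (j.factorial : ℝ) : ℝ) : ℂ) := by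
    push_cast; ring
  rw [e1, Complex.norm_real, Complex.norm_real, Real.norm_eq_abs, Real.norm_eq_abs] at h
  exact h.trans (exp_tail (abs_nonneg x) N)

lemma FF_eq {n : ℕ} (hn : 0 < n) (c : ℝ) :
    FF n c = ((1 / (n : ℝ)) ^ 2) *
      ∫ u in (0 : ℝ)..1, u ^ ((1 / (n : ℝ)) ^ 2 - 1) * Real.exp (-(2 * c * u)) := by
  set m : ℝ := (1 / (n : ℝ)) ^ 2 with hm
  have hm0 : 0 < m := by positivity
  have hG := Real.Gamma_pos_of_pos hm0
  unfold FF Ph
  rw [← hm, Real.Gamma_add_one hm0.ne', mul_assoc]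
  congr 1
  have e : ∀ u : ℝ, gd m u * (ct 1 u * Real.exp (-(2 * c * u))) =
      (Ioc (0 : ℝ) 1).indicator (fun u => (1 / Real.Gamma m) * (u ^ (m - 1) * Real.exp (-(2 * c * u)))) u := by
    intro u
    unfold gd ct
    by_cases h1 : 0 < u <;> by_cases h2 : u ≤ 1 <;> simp [h1, h2, indicator]
    field_simp
  simp_rw [e]
  rw [integral_indicator measurableSet_Ioc, integral_const_mul,
    intervalIntegral.integral_of_le (by norm_num)]
  field_simp

lemma FF_taylor {n : ℕ} (hn : 0 < n) (c : ℝ) (N : ℕ) :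
    |FF n c - ∑ j ∈ Finset.range N, (-(2 * c)) ^ j / (j.factorial : ℝ) *
        ((1 / (n : ℝ)) ^ 2 / ((1 / (n : ℝ)) ^ 2 + j))| ≤
      |2 * c| ^ N / (N.factorial : ℝ) * Real.exp |2 * c| := by
  rw [FF_eq hn]
  set m : ℝ := (1 / (n : ℝ)) ^ 2 with hm
  have hm0 : 0 < m := by positivity
  set δ : ℝ := |2 * c| ^ N / (N.factorial : ℝ) * Real.exp |2 * c| with hδ
  have hδ0 : 0 ≤ δ := by positivity
  -- the polynomial integral
  have hint : ∀ j : ℕ, IntervalIntegrable (fun u : ℝ => u ^ (m - 1) * u ^ j) volume 0 1 := by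
    intro j
    exact (intervalIntegral.intervalIntegrable_rpow' (by linarith)).mul_continuousOn
      (by fun_prop)
  have hmom : ∀ j : ℕ, ∫ u in (0 : ℝ)..1, u ^ (m - 1) * u ^ j = 1 / (m + j) := by
    intro j
    have e : ∀ u ∈ Ioc (0 : ℝ) 1, u ^ (m - 1) * u ^ j = u ^ (m - 1 + j) := by
      intro u hu
      rw [Real.rpow_add hu.1, Real.rpow_natCast]
    rw [intervalIntegral.integral_of_le (by norm_num), setIntegral_congr_fun measurableSet_Ioc e,
      ← intervalIntegral.integral_of_le (by norm_num), integral_rpow (Or.inl (by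
        have : (0 : ℝ) ≤ j := Nat.cast_nonneg j
        linarith))]
    have h1 : m - 1 + j + 1 = m + j := by ring
    have h2 : 0 < m + j := by positivity
    rw [h1, Real.one_rpow, Real.zero_rpow h2.ne', sub_zero]
  have hsum : ∫ u in (0 : ℝ)..1, u ^ (m - 1) *
      (∑ j ∈ Finset.range N, (-(2 * c * u)) ^ j / (j.factorial : ℝ)) =
      ∑ j ∈ Finset.range N, (-(2 * c)) ^ j / (j.factorial : ℝ) * (1 / (m + j)) := by
    have e : ∀ u : ℝ, u ^ (m - 1) * (∑ j ∈ Finset.range N, (-(2 * c * u)) ^ j / (j.factorial : ℝ)) =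
        ∑ j ∈ Finset.range N, (-(2 * c)) ^ j / (j.factorial : ℝ) * (u ^ (m - 1) * u ^ j) := by
      intro u
      rw [Finset.mul_sum]
      refine Finset.sum_congr rfl fun j _ => ?_
      rw [show -(2 * c * u) = (-(2 * c)) * u by ring, mul_pow]
      ring
    simp_rw [e]
    rw [intervalIntegral.integral_finset_sum (fun j _ => (hint j).const_mul _)]
    refine Finset.sum_congr rfl fun j _ => ?_
    rw [intervalIntegral.integral_const_mul, hmom]
  have hsum2 : ∑ j ∈ Finset.range N, (-(2 * c)) ^ j / (j.factorial : ℝ) * (m / (m + j)) =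
      m * ∑ j ∈ Finset.range N, (-(2 * c)) ^ j / (j.factorial : ℝ) * (1 / (m + j)) := by
    rw [Finset.mul_sum]
    refine Finset.sum_congr rfl fun j _ => ?_
    ring
  rw [hsum2, ← hsum, ← mul_sub, ← intervalIntegral.integral_sub]
  · have e : ∀ u : ℝ, u ^ (m - 1) * Real.exp (-(2 * c * u)) -
        u ^ (m - 1) * (∑ j ∈ Finset.range N, (-(2 * c * u)) ^ j / (j.factorial : ℝ)) =
        u ^ (m - 1) * (Real.exp (-(2 * c * u)) -
          ∑ j ∈ Finset.range N, (-(2 * c * u)) ^ j / (j.factorial : ℝ)) := by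
      intro u; ring
    simp_rw [e]
    rw [abs_mul, abs_of_pos hm0]
    have h1 : |∫ u in (0 : ℝ)..1, u ^ (m - 1) * (Real.exp (-(2 * c * u)) -
          ∑ j ∈ Finset.range N, (-(2 * c * u)) ^ j / (j.factorial : ℝ))| ≤
        ∫ u in (0 : ℝ)..1, u ^ (m - 1) * δ := by
      rw [← Real.norm_eq_abs]
      refine intervalIntegral.norm_integral_le_of_norm_le (by norm_num) ?_ ?_
      · refine Filter.Eventually.of_forall fun u hu => ?_
        rw [norm_mul, Real.norm_of_nonneg (Real.rpow_nonneg hu.1.le _)]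
        apply mul_le_mul_of_nonneg_left _ (Real.rpow_nonneg hu.1.le _)
        rw [Real.norm_eq_abs]
        refine (exp_taylor _ N).trans ?_
        have h2 : |-(2 * c * u)| ≤ |2 * c| := by
          rw [abs_neg, abs_mul, abs_of_pos hu.1]
          calc |2 * c| * u ≤ |2 * c| * 1 := by
                apply mul_le_mul_of_nonneg_left hu.2 (abs_nonneg _)
            _ = |2 * c| := mul_one _
        rw [hδ]
        gcongr
      · exact (intervalIntegral.intervalIntegrable_rpow' (by linarith)).mul_const _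
    have h2 : ∫ u in (0 : ℝ)..1, u ^ (m - 1) * δ = 1 / m * δ := by
      rw [intervalIntegral.integral_mul_const]
      have := hmom 0
      simp only [pow_zero, mul_one, Nat.cast_zero, add_zero] at this
      rw [this]
    rw [h2] at h1
    calc m * _ ≤ m * (1 / m * δ) := mul_le_mul_of_nonneg_left h1 hm0.le
      _ = δ := by field_simp
  · exact (intervalIntegral.intervalIntegrable_rpow' (by linarith)).mul_continuousOn (by fun_prop)
  · exact (intervalIntegral.intervalIntegrable_rpow' (by linarith)).mul_continuousOn (by fun_prop)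

/-- upper bounds for the exponential of a positive number -/
lemma exp_le_three_pow {x : ℝ} {k : ℕ} (h : x ≤ k) : Real.exp x ≤ 3 ^ k := by
  have h1 : Real.exp x ≤ Real.exp k := Real.exp_le_exp.mpr h
  have h2 : Real.exp (k : ℝ) = Real.exp 1 ^ k := by
    rw [← Real.exp_nat_mul, mul_one]
  rw [h2] at h1
  refine h1.trans (pow_le_pow_left₀ (Real.exp_pos _).le ?_ k)
  have := Real.exp_one_lt_d9
  linarith

end

end Pool.Agent.Q255.FM
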