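import Pool.Agent.Q255.FM.Ln2
import Pool.Agent.Q255.FM.Loc4
import Pool.Agent.Q255.FM.Num
import Pool.Agent.Q255.FM.Dy

set_option autoImplicit false

/-!
Local averages near the critical line.
-/

open Filter MeasureTheory Metric Set Topology
open Pool.Agent.H306R2

namespace Pool.Agent.Q255.FM

noncomputable section

/-- `F_n(c) ± e^{-2c/n} κ` -/
def hiF (n : ℕ) (κ c : ℝ) : ℝ := FF n c + Real.exp (-(2 / (n : ℝ) * c)) * κ
def loF (n : ℕ) (κ c : ℝ) : ℝ := FF n c - Real.exp (-(2 / (n : ℝ) * c)) * κ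

/-- local averages on the lines `1/2 + c / log N` -/
def NearB (n : ℕ) (β κ : ℝ) : Prop := ∀ c ε : ℝ, 0 < c → 0 < ε → ∀ᶠ q : ℝ × ℝ × ℝ in F1 β,
      (loF n κ c - ε) * UU n q.1 ≤ VV (fJ n q.2.2 q.2.1) (2 / (n : ℝ)) (1 / 2 + c / Real.log q.1) ∧
      VV (fJ n q.2.2 q.2.1) (2 / (n : ℝ)) (1 / 2 + c / Real.log q.1) ≤ (hiF n κ c + ε) * UU n q.1

theorem local_line {n : ℕ} (hn : 2 ≤ n) {β C : ℝ} (hC : 0 < C)
    (hloc : ∀ᶠ q : ℝ × ℝ × ℝ in F1 β, VV (fJ n q.2.2 q.2.1) (2 / (n : ℝ)) (1 / 2) ≤ C * UU n q.1) :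
    NearB n β (C + 1) := by
  intro c ε hc hε
  have hn' : 0 < n := by omega
  set p : ℝ := 2 / (n : ℝ) with hp
  set g : ℝ → ℝ := fun e => e + (1 + e) * Real.exp (-(p * c)) * (C + 1 + e) -
    Real.exp (-(p * c)) * (C + 1) with hg
  have hgc : ContinuousAt g 0 := by fun_prop
  have hg0 : g 0 < ε := by
    simp only [hg]
    have : 0 + (1 + 0) * Real.exp (-(p * c)) * (C + 1 + 0) - Real.exp (-(p * c)) * (C + 1) = 0 := by ring
    linarith
  have hev : ∀ᶠ e in 𝓝[>] (0 : ℝ), g e < ε :=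
    (hgc.tendsto.mono_left nhdsWithin_le_nhds).eventually_lt_const hg0
  obtain ⟨e, hge, he⟩ := (hev.and self_mem_nhdsWithin).exists
  have he0 : 0 < e := he
  have hS0 := S_le hn 0 he0
  rw [FF_zero hn'] at hS0
  have hle := F1_le β
  filter_upwards [hle F0_basic, hle (S_ge hn c he0), hle (S_le hn c he0), hle hS0, hle (tri hn 0),
    hle (tri hn c), hle (K_interp hn (c := c) (d := 0) (by linarith) he0), hle (UU_ge n hn' 1), hloc]
    with q hq sg sl s0 t0 tc kc hU1 hJ
  obtain ⟨N, H, τ⟩ := q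
  simp only [zero_div, add_zero, sub_zero] at hq sg sl s0 t0 tc kc hU1 hJ ⊢
  set U := UU n N with hU
  have hU0 : 0 < U := by linarith
  have hX : 1 ≤ (C + 1 + e) * U := by nlinarith
  have hK0 : VV (fK n N τ H) p (1 / 2) ≤ (C + 1 + e) * U := by
    have := t0.2.2
    linarith
  have kc' := kc _ hX hK0
  have hgU : g e * U ≤ ε * U := mul_le_mul_of_nonneg_right hge.le hU0.le
  have e1 : (1 + e) * Real.exp (-(p * c)) * ((C + 1 + e) * U) =
      g e * U - e * U + Real.exp (-(p * c)) * (C + 1) * U := by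
    simp only [hg]; ring
  unfold hiF loF
  rw [← hp]
  constructor
  · have := tc.2.1
    have h1 : (FF n c - Real.exp (-(p * c)) * (C + 1) - ε) * U =
      (FF n c - e) * U + e * U - Real.exp (-(p * c)) * (C + 1) * U - ε * U := by ring
    rw [h1]
    linarith
  · have := tc.1
    have h1 : (FF n c + Real.exp (-(p * c)) * (C + 1) + ε) * U =
      (FF n c + e) * U - e * U + Real.exp (-(p * c)) * (C + 1) * U + ε * U := by ring
    rw [h1]
    linarith

/-- the constant obtained from the line `1/2 - d / log N` -/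
def kd (n : ℕ) (β d : ℝ) : ℝ :=
  Real.exp (-(2 / (n : ℝ) * d)) * (Real.exp (2 / (n : ℝ) * d * β) * jd n β d + FF n (-d))

theorem local_line_d {n : ℕ} (hn : 2 ≤ n) {β d κ : ℝ} (hβ : β < 2) (hd : 0 < d) (hκ : kd n β d < κ) :
    NearB n β κ := by
  intro c ε' hc hε'
  have hn' : 0 < n := by omega
  set p : ℝ := 2 / (n : ℝ) with hp
  have hp0 : 0 < p := by positivity
  set r : ℝ := Real.exp (-(p * (d + d))) * Real.exp (p * d * β) with hr
  have hr1 : r < 1 := by
    rw [hr, ← Real.exp_add, Real.exp_lt_one_iff]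
    have : 0 < p * d := by positivity
    nlinarith
  have hr0 : 0 < r := by positivity
  have hFd := FF_nonneg hn' d
  have hFmd := FF_nonneg hn' (-d)
  set A : ℝ → ℝ := fun ε => (FF n d + ε + (1 + ε) * Real.exp (-(p * (d + d))) * (FF n (-d) + 3 * ε)) /
    (1 - (1 + ε) ^ 2 * r) with hA
  set g : ℝ → ℝ := fun ε => (1 + ε) * Real.exp (-(p * d)) *
    ((1 + ε) * Real.exp (p * d * β) * A ε + FF n (-d) + 3 * ε) with hg
  have hden : (1 - (1 + (0 : ℝ)) ^ 2 * r) ≠ 0 := by
    have : 1 - (1 + (0 : ℝ)) ^ 2 * r = 1 - r := by ring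
    rw [this]; exact ne_of_gt (by linarith)
  have hAc : ContinuousAt A 0 := by
    refine ContinuousAt.div (by fun_prop) (by fun_prop) hden
  have hgc : ContinuousAt g 0 := by fun_prop
  have hA0 : A 0 = jd n β d := by
    simp only [hA, jd, hr, hp]
    norm_num
  have hg0 : g 0 = kd n β d := by
    simp only [hg, kd, hA0]
    rw [← hp]
    ring
  have hev : ∀ᶠ ε in 𝓝[>] (0 : ℝ), g ε < κ :=
    (hgc.tendsto.mono_left nhdsWithin_le_nhds).eventually_lt_const (by rw [hg0]; exact hκ)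
  have hev2 : ∀ᶠ ε in 𝓝[>] (0 : ℝ), 0 < 1 - (1 + ε) ^ 2 * r := by
    have hcont : ContinuousAt (fun ε : ℝ => 1 - (1 + ε) ^ 2 * r) 0 := by fun_prop
    have h0 : 0 < 1 - (1 + (0 : ℝ)) ^ 2 * r := by
      have : 1 - (1 + (0 : ℝ)) ^ 2 * r = 1 - r := by ring
      rw [this]; linarith
    exact (hcont.tendsto.mono_left nhdsWithin_le_nhds).eventually_const_lt h0
  obtain ⟨ε, ⟨hgε, hden2⟩, hεI⟩ := ((hev.and hev2).and (Ioo_mem_nhdsGT hε')).exists
  have hε0 : 0 < ε := hεI.1
  have hεε : ε < ε' := hεI.2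
  have hle := F1_le β
  filter_upwards [hle F0_basic, hle (S_le hn c hε0), hle (S_ge hn c hε0), hle (S_le hn d hε0),
    hle (S_le hn (-d) hε0),
    hle (tri hn c), hle (tri hn d), hle (tri hn (-d)),
    hle (K_interp hn (c := c) (d := d) (by linarith) hε0),
    hle (K_interp hn (c := d) (d := d) (by linarith) hε0),
    J_left' hn (β := β) hd hε0,
    hle (UU_ge n hn' 1), hle (UU_ge n hn' (1 / ε))] with q hq sc' sc2 sd smd tc td tmd
      kc kd' jld hU1 hUε
  obtain ⟨N, H, τ⟩ := q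
  simp only [neg_div, ← sub_eq_add_neg] at hq sc' sc2 sd smd tc td tmd kc kd' jld hU1 hUε ⊢
  set U := UU n N with hU
  have hU0 : 0 < U := by linarith
  have hεU : 1 ≤ ε * U := by
    rw [div_le_iff₀ hε0] at hUε
    linarith
  have hε1 : ε ≤ ε * U := by nlinarith
  set Jd := VV (fJ n τ H) p (1 / 2 + d / Real.log N) with hJd
  set Jmd := VV (fJ n τ H) p (1 / 2 - d / Real.log N) with hJmd
  set Jc := VV (fJ n τ H) p (1 / 2 + c / Real.log N) with hJc
  set Smd := VV (fS n N τ H) p (1 / 2 - d / Real.log N) with hSmd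
  set Kmd := VV (fK n N τ H) p (1 / 2 - d / Real.log N) with hKmd
  have hJd0 : 0 ≤ Jd := VV_nonneg _ _ _
  have hJc0 : 0 ≤ Jc := VV_nonneg _ _ _
  have hSmd0 : 0 ≤ Smd := VV_nonneg _ _ _
  have hE := Real.exp_pos (p * d * β)
  have hE2 := Real.exp_pos (-(p * (d + d)))
  have hE3 := Real.exp_pos (-(p * (c + d)))
  -- the bound for `Jd`
  have hX1 : 1 ≤ (1 + ε) * Real.exp (p * d * β) * Jd + ε + Smd + 1 := by
    have : 0 ≤ (1 + ε) * Real.exp (p * d * β) * Jd := by positivity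
    linarith
  have hK1 : Kmd ≤ (1 + ε) * Real.exp (p * d * β) * Jd + ε + Smd + 1 := by
    have := tmd.2.2
    linarith
  have kd'' := kd' _ hX1 hK1
  have hd1 := td.1
  have hJdle : Jd ≤ A ε * U := by
    simp only [hA]
    rw [div_mul_eq_mul_div, le_div_iff₀ hden2]
    have e1 : (1 + ε) * Real.exp (-(p * (d + d))) *
        ((1 + ε) * Real.exp (p * d * β) * Jd + ε + Smd + 1) =
        (1 + ε) ^ 2 * r * Jd + (1 + ε) * Real.exp (-(p * (d + d))) * (ε + Smd + 1) := by
      rw [hr]; ring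
    rw [e1] at kd''
    have e2 : (1 + ε) * Real.exp (-(p * (d + d))) * (ε + Smd + 1) ≤
        (1 + ε) * Real.exp (-(p * (d + d))) * ((FF n (-d) + 3 * ε) * U) := by
      apply mul_le_mul_of_nonneg_left _ (by positivity)
      linarith
    nlinarith
  have hAε : 0 ≤ A ε := by
    simp only [hA]
    positivity
  -- the bound for `Kc`
  have hX2 : 1 ≤ ((1 + ε) * Real.exp (p * d * β) * A ε + FF n (-d) + 3 * ε) * U := by
    have h1 : 0 ≤ ((1 + ε) * Real.exp (p * d * β) * A ε + FF n (-d) + 2 * ε) * U := by positivity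
    linarith
  have hK2 : Kmd ≤ ((1 + ε) * Real.exp (p * d * β) * A ε + FF n (-d) + 3 * ε) * U := by
    have h1 := tmd.2.2
    have h2 : (1 + ε) * Real.exp (p * d * β) * Jd ≤ (1 + ε) * Real.exp (p * d * β) * (A ε * U) := by
      gcongr
    linarith
  have kc' := kc _ hX2 hK2
  have hKc : VV (fK n N τ H) p (1 / 2 + c / Real.log N) ≤ Real.exp (-(p * c)) * κ * U := by
    have e3 : Real.exp (-(p * (c + d))) = Real.exp (-(p * c)) * Real.exp (-(p * d)) := by
      rw [← Real.exp_add]; congr 1; ring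
    have e4 : (1 + ε) * Real.exp (-(p * (c + d))) *
        (((1 + ε) * Real.exp (p * d * β) * A ε + FF n (-d) + 3 * ε) * U) =
        Real.exp (-(p * c)) * g ε * U := by
      rw [e3]; simp only [hg]; ring
    rw [e4] at kc'
    refine kc'.trans ?_
    have := Real.exp_pos (-(p * c))
    gcongr
  have hεε' : ε * U ≤ ε' * U := by gcongr
  unfold hiF loF
  rw [← hp]
  constructor
  · have h1 := tc.2.1
    have h2 : (FF n c - Real.exp (-(p * c)) * κ - ε') * U =
        (FF n c - ε) * U + ε * U - Real.exp (-(p * c)) * κ * U - ε' * U := by ring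
    rw [h2]
    linarith
  · have h1 := tc.1
    have h2 : (FF n c + Real.exp (-(p * c)) * κ + ε') * U =
        (FF n c + ε) * U - ε * U + Real.exp (-(p * c)) * κ * U + ε' * U := by ring
    rw [h2]
    linarith

/-- the constant of the uniform bound -/
def Y0 (n : ℕ) : ℝ := (Z2 ^ n) ^ (2 / (n : ℝ)) * Real.exp ((2 - 1 / 2) ^ 2)

lemma Y0_ge_one (n : ℕ) : 1 ≤ Y0 n := by
  unfold Y0
  have h1 : 1 ≤ (Z2 ^ n) ^ (2 / (n : ℝ)) :=
    Real.one_le_rpow (one_le_pow₀ Z2_ge_one) (by positivity)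
  have h2 : 1 ≤ Real.exp ((2 - 1 / 2) ^ 2) := Real.one_le_exp (by positivity)
  nlinarith

theorem local_unif {n : ℕ} (hn : 2 ≤ n) {β C : ℝ} (hC : 1 ≤ C)
    (hloc : ∀ᶠ q : ℝ × ℝ × ℝ in F1 β, VV (fJ n q.2.2 q.2.1) (2 / (n : ℝ)) (1 / 2) ≤ C * UU n q.1) :
    ∀ᶠ q : ℝ × ℝ × ℝ in F1 β, ∀ x : ℝ, 1 / 2 ≤ x → x ≤ 2 →
      VV (fJ n q.2.2 q.2.1) (2 / (n : ℝ)) x ≤ (C * Y0 n) * UU n q.1 := by
  have hn' : 0 < n := by omega
  have hle := F1_le β
  filter_upwards [hle F0_basic, hle (UU_ge n hn' 1), hloc] with q hq hU1 hJ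
  obtain ⟨N, H, τ⟩ := q
  simp only at hq hU1 hJ ⊢
  obtain ⟨h4, hl1, hH1, hNτ, hNH, hHτ⟩ := hq
  intro x hx hx2
  have hH0 : 0 < H := by linarith
  have hgood := good_fJ hn' τ H hH0 (a := 1 / 2) (b := 2) (by norm_num) (by norm_num)
  have hY1 := Y0_ge_one n
  have hr : VV (fJ n τ H) (2 / (n : ℝ)) 2 ≤ Y0 n := by
    refine (J_right hn' τ H hH0 (A := 2) le_rfl).trans ?_
    unfold Y0
    apply mul_le_mul_of_nonneg_left _ (by have := Z2_nonneg; positivity)
    apply Real.exp_le_exp.mpr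
    apply div_le_self (by positivity)
    nlinarith
  have hX1 : 1 ≤ C * UU n N := by nlinarith
  have h := hgood.three_lines (by norm_num) (by linarith : 0 < C * UU n N) (by linarith : 0 < Y0 n)
    hJ hr (x := x) ⟨hx, hx2⟩
  refine h.trans ?_
  have h1 : (C * UU n N) ^ ((2 - x) / (2 - 1 / 2)) ≤ C * UU n N := by
    calc _ ≤ (C * UU n N) ^ (1 : ℝ) := by
          apply Real.rpow_le_rpow_of_exponent_le hX1
          rw [div_le_one (by norm_num)]
          linarith
      _ = _ := Real.rpow_one _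
  have h2 : (Y0 n) ^ ((x - 1 / 2) / (2 - 1 / 2)) ≤ Y0 n := by
    calc _ ≤ (Y0 n) ^ (1 : ℝ) := by
          apply Real.rpow_le_rpow_of_exponent_le hY1
          rw [div_le_one (by norm_num)]
          linarith
      _ = _ := Real.rpow_one _
  calc _ ≤ (C * UU n N) * Y0 n := by gcongr
    _ = _ := by ring

lemma FF_lip {n : ℕ} (hn : 0 < n) {c d : ℝ} (hc : 0 ≤ c) (hd : 0 ≤ d) :
    |FF n c - FF n d| ≤ 2 * |c - d| := by
  rw [FF_eq hn, FF_eq hn]
  set m : ℝ := (1 / (n : ℝ)) ^ 2 with hm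
  have hm0 : 0 < m := by positivity
  have hi : ∀ a : ℝ, IntervalIntegrable (fun u : ℝ => u ^ (m - 1) * Real.exp (-(2 * a * u))) volume 0 1 :=
    fun a => (intervalIntegral.intervalIntegrable_rpow' (by linarith)).mul_continuousOn (by fun_prop)
  rw [← mul_sub, ← intervalIntegral.integral_sub (hi c) (hi d), abs_mul, abs_of_pos hm0]
  have h1 : |∫ u in (0 : ℝ)..1, (u ^ (m - 1) * Real.exp (-(2 * c * u)) -
      u ^ (m - 1) * Real.exp (-(2 * d * u)))| ≤ ∫ u in (0 : ℝ)..1, u ^ (m - 1) * (2 * |c - d|) := by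
    rw [← Real.norm_eq_abs]
    refine intervalIntegral.norm_integral_le_of_norm_le (by norm_num) ?_ ?_
    · refine Filter.Eventually.of_forall fun u hu => ?_
      rw [← mul_sub, norm_mul, Real.norm_of_nonneg (Real.rpow_nonneg hu.1.le _)]
      apply mul_le_mul_of_nonneg_left _ (Real.rpow_nonneg hu.1.le _)
      -- `|e^{-a} - e^{-b}| ≤ |a - b|` for `a, b ≥ 0`
      have key : ∀ a b : ℝ, 0 ≤ a → a ≤ b → Real.exp (-a) - Real.exp (-b) ≤ b - a := by
        intro a b ha hab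
        have h2 := Real.add_one_le_exp (-(b - a))
        have h3 : Real.exp (-b) = Real.exp (-a) * Real.exp (-(b - a)) := by
          rw [← Real.exp_add]; congr 1; ring
        have h4 : Real.exp (-a) ≤ 1 := Real.exp_le_one_iff.mpr (by linarith)
        have h5 := Real.exp_pos (-a)
        rw [h3]
        nlinarith
      rw [Real.norm_eq_abs]
      have hu0 := hu.1
      have hu1 := hu.2
      rcases le_total c d with h | h
      · have h6 := key (2 * c * u) (2 * d * u) (by positivity) (by nlinarith)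
        have h7 : Real.exp (-(2 * d * u)) ≤ Real.exp (-(2 * c * u)) := Real.exp_le_exp.mpr (by nlinarith)
        rw [abs_of_nonneg (by linarith), abs_of_nonpos (by linarith : c - d ≤ 0)]
        nlinarith
      · have h6 := key (2 * d * u) (2 * c * u) (by positivity) (by nlinarith)
        have h7 : Real.exp (-(2 * c * u)) ≤ Real.exp (-(2 * d * u)) := Real.exp_le_exp.mpr (by nlinarith)
        rw [abs_of_nonpos (by linarith), abs_of_nonneg (by linarith : 0 ≤ c - d)]
        nlinarith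
    · exact (intervalIntegral.intervalIntegrable_rpow' (by linarith)).mul_const _
  have h2 : ∫ u in (0 : ℝ)..1, u ^ (m - 1) * (2 * |c - d|) = 1 / m * (2 * |c - d|) := by
    rw [intervalIntegral.integral_mul_const, integral_rpow (Or.inl (by linarith))]
    rw [sub_add_cancel, Real.one_rpow, Real.zero_rpow hm0.ne', sub_zero]
  rw [h2] at h1
  calc m * _ ≤ m * (1 / m * (2 * |c - d|)) := mul_le_mul_of_nonneg_left h1 hm0.le
    _ = _ := by field_simp

lemma FF_continuousAt {n : ℕ} (hn : 0 < n) {c : ℝ} (hc : 0 < c) : ContinuousAt (FF n) c := by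
  rw [Metric.continuousAt_iff]
  intro ε hε
  refine ⟨min c (ε / 3), by positivity, fun x hx => ?_⟩
  rw [Real.dist_eq] at hx ⊢
  have h1 : |x - c| < c := lt_of_lt_of_le hx (min_le_left _ _)
  have h2 : |x - c| < ε / 3 := lt_of_lt_of_le hx (min_le_right _ _)
  rw [abs_lt] at h1
  have h3 := FF_lip hn (c := x) (d := c) (by linarith) hc.le
  linarith

end

end Pool.Agent.Q255.FM
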