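import Pool.Agent.Q255.FM.Ln3

set_option autoImplicit false

/-!
Intervals, near the critical line.
-/

open Filter MeasureTheory Metric Set Topology
open Pool.Agent.H306R2

namespace Pool.Agent.Q255.FM

noncomputable section

/-- the moment on `[0, T]` on the line `Re s = x` -/
def MX (n : ℕ) (x T : ℝ) : ℝ := ∫ t in (0 : ℝ)..T, ‖riemannZeta (x + t * Complex.I)‖ ^ (2 / (n : ℝ))

lemma MX_sub (n : ℕ) {x : ℝ} (hx1 : x < 1) (S T : ℝ) : MX n x T - MX n x S =
    ∫ t in S..T, ‖riemannZeta (x + t * Complex.I)‖ ^ (2 / (n : ℝ)) := by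
  unfold MX
  have hc := zeta_line_continuous hx1 (2 / (n : ℝ)) (by positivity)
  rw [intervalIntegral.integral_interval_sub_left (hc.intervalIntegrable _ _)
    (hc.intervalIntegrable _ _)]

lemma MX_mono (n : ℕ) {x : ℝ} (hx1 : x < 1) : Monotone (MX n x) := by
  intro S T hST
  have h1 := MX_sub n hx1 S T
  have h2 : 0 ≤ ∫ t in S..T, ‖riemannZeta (x + t * Complex.I)‖ ^ (2 / (n : ℝ)) :=
    intervalIntegral.integral_nonneg hST fun t _ => by positivity
  linarith

lemma MX_nonneg (n : ℕ) (x : ℝ) {T : ℝ} (hT : 0 ≤ T) : 0 ≤ MX n x T :=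
  intervalIntegral.integral_nonneg hT fun t _ => by positivity

lemma MX_bound (n : ℕ) (X : ℝ) (hX : 0 ≤ X) : ∃ B : ℝ, ∀ x : ℝ, 1 / 2 ≤ x → x ≤ 3 / 4 → MX n x X ≤ B := by
  have hcont : ContinuousOn (fun q : ℝ × ℝ => ‖riemannZeta ((q.1 : ℂ) + q.2 * Complex.I)‖ ^ (2 / (n : ℝ)))
      (Icc (1 / 2 : ℝ) (3 / 4) ×ˢ Icc (0 : ℝ) X) := by
    apply ContinuousOn.rpow_const _ (fun _ _ => Or.inr (by positivity))
    apply ContinuousOn.norm
    intro q hq
    have h1 : ((q.1 : ℂ) + (q.2 : ℂ) * Complex.I) ≠ 1 := by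
      intro h
      have := congrArg Complex.re h
      rw [re_line, Complex.one_re] at this
      linarith [hq.1.2]
    have h2 : ContinuousAt (fun q : ℝ × ℝ => (q.1 : ℂ) + (q.2 : ℂ) * Complex.I) q := by fun_prop
    exact (ContinuousAt.comp (f := fun q : ℝ × ℝ => (q.1 : ℂ) + (q.2 : ℂ) * Complex.I)
      (g := riemannZeta) (differentiableAt_riemannZeta h1).continuousAt h2).continuousWithinAt
  obtain ⟨B, hB⟩ := (isCompact_Icc.prod isCompact_Icc).exists_bound_of_continuousOn hcont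
  refine ⟨B * X, fun x h1 h2 => ?_⟩
  unfold MX
  calc ∫ t in (0 : ℝ)..X, ‖riemannZeta (x + t * Complex.I)‖ ^ (2 / (n : ℝ)) ≤ ∫ _t in (0 : ℝ)..X, B := by
        refine intervalIntegral.integral_mono_on hX
          ((zeta_line_continuous (by linarith) _ (by positivity)).intervalIntegrable _ _)
          (by simp) fun t ht => ?_
        have := hB (x, t) ⟨⟨h1, h2⟩, ht⟩
        exact (le_abs_self _).trans this
    _ = B * X := by simp [mul_comm]

/-- the local bound in windows -/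
lemma loc_to_win {n : ℕ} {η K β : ℝ} (hη : 0 < η) (hK : 0 < K) {P : ℝ → ℝ → ℝ → Prop}
    (h : ∀ᶠ q : ℝ × ℝ × ℝ in F1 β, P q.1 q.2.1 q.2.2) :
    ∀ᶠ N : ℝ in atTop, ∀ T U : ℝ, N ^ (1 + η) ≤ U → U ≤ K * T → 2 * (T + U) ≤ N ^ β →
      ∀ τ : ℝ, T / 2 ≤ τ → τ ≤ 2 * (T + U) → P N (U / Real.log N ^ 3) τ := by
  obtain ⟨N0, hN0⟩ := F1_iff (P := P) h
  filter_upwards [win_params (β := β) hη hK, eventually_ge_atTop N0] with N hpar hN T U hU hUT hTU τ h1 h2
  obtain ⟨hl4, hN1, hp⟩ := hpar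
  obtain ⟨hT0, hU0, hH1, hH4, hR2, hHT, hlog⟩ := hp T U hU hUT hTU
  exact hN0 N _ τ hN hH4 (hHT.trans h1) (hlog τ h1 h2)

lemma rpow_inv_tendsto {a : ℝ} (ha : 0 < a) : Tendsto (fun T : ℝ => T ^ (1 / a)) atTop atTop :=
  tendsto_rpow_atTop (by positivity)

lemma UU_le_log {n : ℕ} (hn : 0 < n) {N T : ℝ} (hN : 1 ≤ N) (hNT : N ≤ T) :
    UU n N ≤ AA n * Real.log T ^ ((1 / (n : ℝ)) ^ 2) := by
  rw [UU_eq]
  have hA := AA_pos hn
  have h1 : 0 ≤ Real.log N := Real.log_nonneg hN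
  have h2 : Real.log N ≤ Real.log T := Real.log_le_log (by linarith) hNT
  gcongr

theorem MX_unif {n : ℕ} (hn : 2 ≤ n) {β C : ℝ} (hβ : 1 < β) (hC : 1 ≤ C)
    (hloc : ∀ᶠ q : ℝ × ℝ × ℝ in F1 β, VV (fJ n q.2.2 q.2.1) (2 / (n : ℝ)) (1 / 2) ≤ C * UU n q.1) :
    ∃ C3 : ℝ, 0 < C3 ∧ ∀ᶠ T : ℝ in atTop, ∀ x : ℝ, 1 / 2 ≤ x → x ≤ 3 / 4 →
      MX n x T ≤ C3 * (T * Real.log T ^ ((1 / (n : ℝ)) ^ 2)) := by
  have hn' : 0 < n := by omega
  have hA := AA_pos hn'
  set m : ℝ := (1 / (n : ℝ)) ^ 2 with hm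
  have hm0 : 0 < m := by positivity
  have hY := Y0_ge_one n
  set η : ℝ := (β - 1) / 2 with hη
  have hη0 : 0 < η := by rw [hη]; linarith
  have h1 := loc_to_win (n := n) hη0 (show (0 : ℝ) < 1 by norm_num)
    (P := fun N H τ => ∀ x : ℝ, 1 / 2 ≤ x → x ≤ 2 →
      VV (fJ n τ H) (2 / (n : ℝ)) x ≤ (C * Y0 n) * UU n N) (local_unif hn hC hloc)
  have h2 := win_up hn (η := η) (K := 1) (β := β) (ε := 1) hη0 (by norm_num) (by norm_num)
  have hev := (rpow_inv_tendsto (show 0 < 1 + η by linarith)).eventually (h1.and h2)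
  have h4 : ∀ᶠ T : ℝ in atTop, 4 * T ≤ T ^ (β / (1 + η)) := by
    have hb : 0 < β / (1 + η) - 1 := by
      rw [sub_pos, one_lt_div (by linarith)]
      rw [hη]; linarith
    filter_upwards [(tendsto_rpow_atTop hb).eventually_ge_atTop 4, eventually_gt_atTop 0] with T hT hT0
    have : T ^ (β / (1 + η)) = T ^ (β / (1 + η) - 1) * T := by
      rw [Real.rpow_sub_one hT0.ne', div_mul_cancel₀ _ hT0.ne']
    rw [this]
    exact mul_le_mul_of_nonneg_right hT hT0.le
  obtain ⟨T1, hT1⟩ := eventually_atTop.1 (hev.and h4)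
  set T0 := max T1 2 with hT0
  obtain ⟨B, hB⟩ := MX_bound n (2 * T0) (by have := le_max_right T1 2; linarith)
  set A : ℝ := 2 * (C * Y0 n) * AA n with hAdef
  have hA0 : 0 < A := by positivity
  have hstep : ∀ x : ℝ, 1 / 2 ≤ x → x ≤ 3 / 4 → ∀ T, T0 ≤ T →
      MX n x (2 * T) - MX n x T ≤ A * (T * Real.log T ^ m) := by
    intro x hx hx2 T hT
    obtain ⟨⟨g1, g2⟩, g3⟩ := hT1 T ((le_max_left _ _).trans hT)
    have hT2 : 2 ≤ T := (le_max_right _ _).trans hT
    have hT0' : 0 < T := by linarith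
    set N := T ^ (1 / (1 + η)) with hN
    have hN1 : 1 ≤ N := Real.one_le_rpow (by linarith) (by positivity)
    have hNT : N ≤ T := by
      calc N ≤ T ^ (1 : ℝ) := Real.rpow_le_rpow_of_exponent_le (by linarith) (by
            rw [div_le_one (by linarith)]; linarith)
        _ = T := Real.rpow_one T
    have hNpow : N ^ (1 + η) = T := by
      rw [hN, ← Real.rpow_mul hT0'.le, one_div, inv_mul_cancel₀ (by linarith), Real.rpow_one]
    have hNβ : N ^ β = T ^ (β / (1 + η)) := by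
      rw [hN, ← Real.rpow_mul hT0'.le]
      congr 1; ring
    have hTT : 2 * (T + T) ≤ N ^ β := by rw [hNβ]; linarith
    have hU0 : 0 ≤ UU n N := by
      unfold UU
      have h1 := aF_pos (κ := 1 / (n : ℝ)) (by positivity)
      have h3 : 0 < Real.Gamma ((1 / (n : ℝ)) ^ 2 + 1) := Real.Gamma_pos_of_pos (by positivity)
      have := Real.log_nonneg hN1
      positivity
    have g4 := g2 T T x ((C * Y0 n) * UU n N) (by linarith) (by linarith) hNpow.le (by linarith) hTT
      (by positivity) (fun τ a1 a2 => g1 T T hNpow.le (by linarith) hTT τ a1 a2 x hx (by linarith))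
    rw [MX_sub n (by linarith), two_mul]
    refine g4.trans ?_
    have g5 := UU_le_log hn' hN1 hNT
    rw [← hm] at g5
    calc (1 + 1) * (T * (C * Y0 n * UU n N)) ≤
        (1 + 1) * (T * (C * Y0 n * (AA n * Real.log T ^ m))) := by gcongr
      _ = _ := by rw [hAdef]; ring
  refine ⟨A + 1, by positivity, ?_⟩
  have hlim : ∀ᶠ T : ℝ in atTop, B ≤ Real.log T ^ m :=
    ((tendsto_rpow_atTop hm0).comp Real.tendsto_log_atTop).eventually_ge_atTop _
  filter_upwards [hlim, eventually_ge_atTop T0] with T a1 a2 x hx hx2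
  have hup := dyadic_upper (f := MX n x) (le_max_right T1 2) hm0.le hA0.le
    (MX_mono n (by linarith)) (hstep x hx hx2) T a2
  have hB' := hB x hx hx2
  have hT2 : 2 ≤ T := (le_max_right T1 2).trans a2
  have hl : 0 ≤ Real.log T ^ m := Real.rpow_nonneg (Real.log_nonneg (by linarith)) _
  have h5 : B ≤ T * Real.log T ^ m := by nlinarith
  calc MX n x T ≤ B + A * (T * Real.log T ^ m) := by linarith
    _ ≤ T * Real.log T ^ m + A * (T * Real.log T ^ m) := by linarith
    _ = _ := by ring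

lemma hiF_nonneg {n : ℕ} (hn : 0 < n) {C : ℝ} (hC : 0 ≤ C) (c : ℝ) : 0 ≤ hiF n C c := by
  unfold hiF
  have := FF_nonneg hn c
  positivity

/-- windows: the two-sided bound on the line `1/2 + γ / log N` -/
theorem line_win {n : ℕ} (hn : 2 ≤ n) {η K β γ C ε : ℝ} (hη : 0 < η) (hK : 0 < K) (hγ : 0 < γ)
    (hC : 0 ≤ C) (hε : 0 < ε) (hε1 : ε ≤ 1) (hloc : NearB n β C) :
    ∀ᶠ N : ℝ in atTop, ∀ T U : ℝ, N ^ (1 + η) ≤ U → U ≤ K * T → 2 * (T + U) ≤ N ^ β →
      (1 - ε) * (loF n C γ - ε) * (U * UU n N) ≤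
        ∫ t in T..(T + U), ‖riemannZeta (((1 / 2 + γ / Real.log N : ℝ) : ℂ) + t * Complex.I)‖ ^ (2 / (n : ℝ)) ∧
      ∫ t in T..(T + U), ‖riemannZeta (((1 / 2 + γ / Real.log N : ℝ) : ℂ) + t * Complex.I)‖ ^ (2 / (n : ℝ)) ≤
        (1 + ε) * (hiF n C γ + ε) * (U * UU n N) := by
  have hn' : 0 < n := by omega
  have h1 := loc_to_win (n := n) hη hK
    (P := fun N H τ => (loF n C γ - ε) * UU n N ≤ VV (fJ n τ H) (2 / (n : ℝ)) (1 / 2 + γ / Real.log N) ∧
      VV (fJ n τ H) (2 / (n : ℝ)) (1 / 2 + γ / Real.log N) ≤ (hiF n C γ + ε) * UU n N)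
    (hloc γ ε hγ hε)
  have h2 := win_up hn (η := η) (K := K) (β := β) (ε := ε) hη hK hε
  have h3 := win_lo hn (η := η) (K := K) (β := β) (ε := ε) hη hK hε
  have h4 : ∀ᶠ N : ℝ in atTop, γ / Real.log N ≤ 1 / 4 :=
    (log_div_tendsto γ).eventually_le_const (by norm_num)
  have hup : ∀ᶠ N : ℝ in atTop, ∀ T U : ℝ, N ^ (1 + η) ≤ U → U ≤ K * T → 2 * (T + U) ≤ N ^ β →
      ∫ t in T..(T + U), ‖riemannZeta (((1 / 2 + γ / Real.log N : ℝ) : ℂ) + t * Complex.I)‖ ^ (2 / (n : ℝ)) ≤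
        (1 + ε) * (hiF n C γ + ε) * (U * UU n N) := by
    filter_upwards [h1, h2, h4, win_params (β := β) hη hK, (UU_tendsto hn').eventually_ge_atTop 1] with
      N g1 g2 g4 hpar hU1 T U hU hUT hTU
    obtain ⟨hl4, hN1, hp⟩ := hpar
    obtain ⟨hT0, hU0, hH1, hH4, hR2, hHT, hlog⟩ := hp T U hU hUT hTU
    have hγN : 0 < γ / Real.log N := by positivity
    have hF := hiF_nonneg hn' hC γ
    have := g2 T U (1 / 2 + γ / Real.log N) ((hiF n C γ + ε) * UU n N) (by linarith) (by linarith)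
      hU hUT hTU (by positivity) (fun τ a1 a2 => (g1 T U hU hUT hTU τ a1 a2).2)
    calc _ ≤ _ := this
      _ = _ := by ring
  by_cases hlo : loF n C γ - ε ≤ 0
  · filter_upwards [hup, win_params (β := β) hη hK, (UU_tendsto hn').eventually_ge_atTop 1] with
      N gup hpar hU1 T U hU hUT hTU
    obtain ⟨hl4, hN1, hp⟩ := hpar
    obtain ⟨hT0, hU0, hH1, hH4, hR2, hHT, hlog⟩ := hp T U hU hUT hTU
    refine ⟨?_, gup T U hU hUT hTU⟩
    refine le_trans ?_ (intervalIntegral.integral_nonneg (by linarith) fun t _ => by positivity)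
    apply mul_nonpos_of_nonpos_of_nonneg _ (by positivity)
    exact mul_nonpos_of_nonneg_of_nonpos (by linarith) hlo
  · push Not at hlo
    filter_upwards [hup, h1, h3, h4, win_params (β := β) hη hK,
      (UU_tendsto hn').eventually_ge_atTop (1 / (loF n C γ - ε))] with
      N gup g1 g3 g4 hpar hU1 T U hU hUT hTU
    obtain ⟨hl4, hN1, hp⟩ := hpar
    obtain ⟨hT0, hU0, hH1, hH4, hR2, hHT, hlog⟩ := hp T U hU hUT hTU
    have hγN : 0 < γ / Real.log N := by positivity
    refine ⟨?_, gup T U hU hUT hTU⟩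
    have hJ1 : 1 ≤ (loF n C γ - ε) * UU n N := by
      rw [div_le_iff₀ hlo] at hU1
      linarith
    have := g3 T U (1 / 2 + γ / Real.log N) ((loF n C γ - ε) * UU n N) (by linarith) (by linarith)
      hU hUT hTU hJ1 (fun τ a1 a2 => (g1 T U hU hUT hTU τ a1 a2).1)
    calc _ = (1 - ε) * (U * ((loF n C γ - ε) * UU n N)) := by ring
      _ ≤ _ := this

lemma hiF_cont {n : ℕ} (hn : 0 < n) (C : ℝ) {c : ℝ} (hc : 0 < c) : ContinuousAt (hiF n C) c := by
  unfold hiF
  exact (FF_continuousAt hn hc).add (by fun_prop)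

lemma loF_cont {n : ℕ} (hn : 0 < n) (C : ℝ) {c : ℝ} (hc : 0 < c) : ContinuousAt (loF n C) c := by
  unfold loF
  exact (FF_continuousAt hn hc).sub (by fun_prop)

/-- intervals `[T, T + U]`, `T^α ≤ U ≤ T`, on the line `1/2 + c / log U` -/
theorem near_win {n : ℕ} (hn : 2 ≤ n) {α β c C ε : ℝ} (hα : 0 < α) (hαβ : 1 < β * α) (hc : 0 < c)
    (hC : 0 ≤ C) (hε : 0 < ε) (hloc : NearB n β C) :
    ∀ᶠ T : ℝ in atTop, ∀ U : ℝ, T ^ α ≤ U → U ≤ T →
      (loF n C c - ε) * (AA n * (U * Real.log U ^ ((1 / (n : ℝ)) ^ 2))) ≤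
        ∫ t in T..(T + U), ‖riemannZeta (((1 / 2 + c / Real.log U : ℝ) : ℂ) + t * Complex.I)‖ ^ (2 / (n : ℝ)) ∧
      ∫ t in T..(T + U), ‖riemannZeta (((1 / 2 + c / Real.log U : ℝ) : ℂ) + t * Complex.I)‖ ^ (2 / (n : ℝ)) ≤
        (hiF n C c + ε) * (AA n * (U * Real.log U ^ ((1 / (n : ℝ)) ^ 2))) := by
  have hn' : 0 < n := by omega
  have hA := AA_pos hn'
  set m : ℝ := (1 / (n : ℝ)) ^ 2 with hm
  have hm0 : 0 < m := by positivity
  -- choice of the small parameter
  set f : ℝ → ℝ := fun s => (1 + s) * (hiF n C (c / (1 + s)) + s) * (1 / (1 + s)) ^ m with hf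
  set g : ℝ → ℝ := fun s => (1 - s) * (loF n C (c / (1 + s)) - s) * (1 / (1 + s)) ^ m with hg
  have hcc : ContinuousAt (fun s : ℝ => c / (1 + s)) 0 :=
    continuousAt_const.div (by fun_prop) (by norm_num)
  have hcc' : ContinuousAt (fun s : ℝ => (1 / (1 + s)) ^ m) 0 :=
    (continuousAt_const.div (by fun_prop) (by norm_num)).rpow_const (Or.inr hm0.le)
  have hc0 : c / (1 + 0) = c := by rw [add_zero, div_one]
  have hf0 : ContinuousAt f 0 := by
    have h1 : ContinuousAt (fun s : ℝ => hiF n C (c / (1 + s))) 0 :=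
      ContinuousAt.comp (f := fun s : ℝ => c / (1 + s)) (g := hiF n C)
        (by simp only [hc0]; exact hiF_cont hn' C hc) hcc
    exact ((continuousAt_const.add continuousAt_id).mul (h1.add continuousAt_id)).mul hcc'
  have hg0 : ContinuousAt g 0 := by
    have h1 : ContinuousAt (fun s : ℝ => loF n C (c / (1 + s))) 0 :=
      ContinuousAt.comp (f := fun s : ℝ => c / (1 + s)) (g := loF n C)
        (by simp only [hc0]; exact loF_cont hn' C hc) hcc
    exact ((continuousAt_const.sub continuousAt_id).mul (h1.sub continuousAt_id)).mul hcc'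
  have ef : f 0 = hiF n C c := by simp [hf]
  have eg : g 0 = loF n C c := by simp [hg]
  have hbc : ContinuousAt (fun s : ℝ => β * α / (1 + s)) 0 :=
    continuousAt_const.div (by fun_prop) (by norm_num)
  have hev1 := (hf0.tendsto.mono_left (nhdsWithin_le_nhds (s := Ioi 0))).eventually_lt_const
    (show f 0 < hiF n C c + ε by rw [ef]; linarith)
  have hev2 := (hg0.tendsto.mono_left (nhdsWithin_le_nhds (s := Ioi 0))).eventually_const_lt
    (show loF n C c - ε < g 0 by rw [eg]; linarith)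
  have hev3 := (hbc.tendsto.mono_left (nhdsWithin_le_nhds (s := Ioi 0))).eventually_const_lt
    (show 1 < β * α / (1 + 0) by rw [add_zero, div_one]; exact hαβ)
  obtain ⟨s, ⟨⟨⟨hs1, hs2⟩, hs3⟩, hsI⟩⟩ := (((hev1.and hev2).and hev3).and
    (Ioo_mem_nhdsGT (show (0 : ℝ) < 1 by norm_num))).exists
  have hs0 : 0 < s := hsI.1
  have hsl : s < 1 := hsI.2
  have hw := line_win hn (η := s) (K := 1) (β := β) (γ := c / (1 + s)) (C := C) (ε := s) hs0
    (by norm_num) (by positivity) hC hs0 hsl.le hloc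
  obtain ⟨N0, hN0⟩ := eventually_atTop.1 hw
  have hTT : ∀ᶠ T : ℝ in atTop, 4 * T ≤ T ^ (β * α / (1 + s)) := by
    have hb : 0 < β * α / (1 + s) - 1 := by linarith
    filter_upwards [(tendsto_rpow_atTop hb).eventually_ge_atTop 4, eventually_gt_atTop 0] with T hT hT0
    have : T ^ (β * α / (1 + s)) = T ^ (β * α / (1 + s) - 1) * T := by
      rw [Real.rpow_sub_one hT0.ne', div_mul_cancel₀ _ hT0.ne']
    rw [this]
    exact mul_le_mul_of_nonneg_right hT hT0.le
  have hβ0 : 0 < β := by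
    by_contra h
    push Not at h
    nlinarith
  filter_upwards [hTT, (tendsto_rpow_atTop (show 0 < α / (1 + s) by positivity)).eventually_ge_atTop N0,
    eventually_gt_atTop 1, (tendsto_rpow_atTop hα).eventually_gt_atTop 1] with T h4 hTN hT1 hTα U hU hUT
  have hT0 : 0 < T := by linarith
  have hU1 : 1 < U := lt_of_lt_of_le hTα hU
  have hU0 : 0 < U := by linarith
  set N := U ^ (1 / (1 + s)) with hN
  have hN0' : N0 ≤ N := by
    refine hTN.trans ?_
    rw [hN]
    calc T ^ (α / (1 + s)) = (T ^ α) ^ (1 / (1 + s)) := by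
          rw [← Real.rpow_mul hT0.le]; congr 1; ring
      _ ≤ U ^ (1 / (1 + s)) := Real.rpow_le_rpow (by positivity) hU (by positivity)
  have hNU : N ^ (1 + s) = U := by
    rw [hN, ← Real.rpow_mul hU0.le, one_div, inv_mul_cancel₀ (by linarith), Real.rpow_one]
  have hNβ : 2 * (T + U) ≤ N ^ β := by
    calc 2 * (T + U) ≤ 4 * T := by linarith
      _ ≤ T ^ (β * α / (1 + s)) := h4
      _ = (T ^ α) ^ (β / (1 + s)) := by rw [← Real.rpow_mul hT0.le]; congr 1; ring
      _ ≤ U ^ (β / (1 + s)) := Real.rpow_le_rpow (by positivity) hU (by positivity)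
      _ = N ^ β := by rw [hN, ← Real.rpow_mul hU0.le]; congr 1; ring
  have hlogN : Real.log N = Real.log U / (1 + s) := by
    rw [hN, Real.log_rpow hU0]; ring
  have hlU : 0 < Real.log U := Real.log_pos hU1
  have hline : c / (1 + s) / Real.log N = c / Real.log U := by
    rw [hlogN]; field_simp
  obtain ⟨r1, r2⟩ := hN0 N hN0' T U hNU.le (by linarith) hNβ
  rw [hline] at r1 r2
  have hUU : UU n N = AA n * ((1 / (1 + s)) ^ m * Real.log U ^ m) := by
    rw [UU_eq, hlogN, ← Real.mul_rpow (by positivity) hlU.le]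
    congr 2
    ring
  rw [hUU] at r1 r2
  have hpos : 0 ≤ AA n * (U * Real.log U ^ m) := by positivity
  constructor
  · refine le_trans ?_ r1
    calc (loF n C c - ε) * (AA n * (U * Real.log U ^ m)) ≤ g s * (AA n * (U * Real.log U ^ m)) :=
          mul_le_mul_of_nonneg_right hs2.le hpos
      _ = _ := by simp only [hg]; ring
  · refine le_trans r2 ?_
    calc _ = f s * (AA n * (U * Real.log U ^ m)) := by simp only [hf]; ring
      _ ≤ (hiF n C c + ε) * (AA n * (U * Real.log U ^ m)) :=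
          mul_le_mul_of_nonneg_right hs1.le hpos

/-- the interval `[0, T]`, on the line `1/2 + c / log T` -/
theorem near_zero {n : ℕ} (hn : 2 ≤ n) {β c C C' ε : ℝ} (hβ : 1 < β) (hc : 0 < c)
    (hC' : 1 ≤ C') (hC : 0 ≤ C) (hε : 0 < ε)
    (hloc' : ∀ᶠ q : ℝ × ℝ × ℝ in F1 β, VV (fJ n q.2.2 q.2.1) (2 / (n : ℝ)) (1 / 2) ≤ C' * UU n q.1)
    (hloc : NearB n β C) :
    ∀ᶠ T : ℝ in atTop,
      (loF n C c - ε) * (AA n * (T * Real.log T ^ ((1 / (n : ℝ)) ^ 2))) ≤ MX n (1 / 2 + c / Real.log T) T ∧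
      MX n (1 / 2 + c / Real.log T) T ≤
        (hiF n C c + ε) * (AA n * (T * Real.log T ^ ((1 / (n : ℝ)) ^ 2))) := by
  have hn' : 0 < n := by omega
  have hA := AA_pos hn'
  set m : ℝ := (1 / (n : ℝ)) ^ 2 with hm
  have hm0 : 0 < m := by positivity
  obtain ⟨C3, hC3, hunif⟩ := MX_unif hn hβ hC' hloc'
  -- choice of the small parameter
  set f : ℝ → ℝ := fun s => C3 / AA n * s + (1 + s) * (hiF n C (c / (1 + 2 * s)) + s) *
    (1 / (1 + 2 * s)) ^ m with hf
  set g : ℝ → ℝ := fun s => (1 - s) * (1 - s) * (loF n C (c / (1 + 2 * s)) - s) *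
    (1 / (1 + 2 * s)) ^ m with hg
  have hcc : ContinuousAt (fun s : ℝ => c / (1 + 2 * s)) 0 :=
    continuousAt_const.div (by fun_prop) (by norm_num)
  have hcc' : ContinuousAt (fun s : ℝ => (1 / (1 + 2 * s)) ^ m) 0 :=
    (continuousAt_const.div (by fun_prop) (by norm_num)).rpow_const (Or.inr hm0.le)
  have hc0 : c / (1 + 2 * 0) = c := by rw [mul_zero, add_zero, div_one]
  have hf0 : ContinuousAt f 0 := by
    have h1 : ContinuousAt (fun s : ℝ => hiF n C (c / (1 + 2 * s))) 0 :=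
      ContinuousAt.comp (f := fun s : ℝ => c / (1 + 2 * s)) (g := hiF n C)
        (by simp only [hc0]; exact hiF_cont hn' C hc) hcc
    exact (continuousAt_const.mul continuousAt_id).add
      (((continuousAt_const.add continuousAt_id).mul (h1.add continuousAt_id)).mul hcc')
  have hg0 : ContinuousAt g 0 := by
    have h1 : ContinuousAt (fun s : ℝ => loF n C (c / (1 + 2 * s))) 0 :=
      ContinuousAt.comp (f := fun s : ℝ => c / (1 + 2 * s)) (g := loF n C)
        (by simp only [hc0]; exact loF_cont hn' C hc) hcc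
    exact (((continuousAt_const.sub continuousAt_id).mul (continuousAt_const.sub continuousAt_id)).mul
      (h1.sub continuousAt_id)).mul hcc'
  have ef : f 0 = hiF n C c := by simp [hf]
  have eg : g 0 = loF n C c := by simp [hg]
  have hbc : ContinuousAt (fun s : ℝ => β / (1 + 2 * s)) 0 :=
    continuousAt_const.div (by fun_prop) (by norm_num)
  have hev1 := (hf0.tendsto.mono_left (nhdsWithin_le_nhds (s := Ioi 0))).eventually_lt_const
    (show f 0 < hiF n C c + ε by rw [ef]; linarith)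
  have hev2 := (hg0.tendsto.mono_left (nhdsWithin_le_nhds (s := Ioi 0))).eventually_const_lt
    (show loF n C c - ε < g 0 by rw [eg]; linarith)
  have hev3 := (hbc.tendsto.mono_left (nhdsWithin_le_nhds (s := Ioi 0))).eventually_const_lt
    (show 1 < β / (1 + 2 * 0) by rw [mul_zero, add_zero, div_one]; exact hβ)
  obtain ⟨s, ⟨⟨⟨hs1, hs2⟩, hs3⟩, hsI⟩⟩ := (((hev1.and hev2).and hev3).and
    (Ioo_mem_nhdsGT (show (0 : ℝ) < 1 / 2 by norm_num))).exists
  have hs0 : 0 < s := hsI.1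
  have hsl : s < 1 / 2 := hsI.2
  have hw := line_win hn (η := s) (K := 1 / s) (β := β) (γ := c / (1 + 2 * s)) (C := C) (ε := s) hs0
    (by positivity) (by positivity) hC hs0 (by linarith) hloc
  have hw' := (rpow_inv_tendsto (show 0 < 1 + 2 * s by linarith)).eventually hw
  have hTT : ∀ᶠ T : ℝ in atTop, 2 * T ≤ T ^ (β / (1 + 2 * s)) := by
    have hb : 0 < β / (1 + 2 * s) - 1 := by linarith
    filter_upwards [(tendsto_rpow_atTop hb).eventually_ge_atTop 2, eventually_gt_atTop 0] with T hT hT0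
    have : T ^ (β / (1 + 2 * s)) = T ^ (β / (1 + 2 * s) - 1) * T := by
      rw [Real.rpow_sub_one hT0.ne', div_mul_cancel₀ _ hT0.ne']
    rw [this]
    exact mul_le_mul_of_nonneg_right hT hT0.le
  have hTU : ∀ᶠ T : ℝ in atTop, T ^ ((1 + s) / (1 + 2 * s)) ≤ (1 - s) * T := by
    have hb : 0 < s / (1 + 2 * s) := by positivity
    filter_upwards [(tendsto_rpow_atTop hb).eventually_ge_atTop 2, eventually_gt_atTop 0] with T hT hT0
    have e : (1 + s) / (1 + 2 * s) = 1 - s / (1 + 2 * s) := by field_simp; ring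
    rw [e, Real.rpow_sub hT0, Real.rpow_one, div_le_iff₀ (by positivity)]
    have : 1 ≤ (1 - s) * T ^ (s / (1 + 2 * s)) := by nlinarith
    calc T = T * 1 := (mul_one T).symm
      _ ≤ T * ((1 - s) * T ^ (s / (1 + 2 * s))) := by gcongr
      _ = _ := by ring
  have hsmall : ∀ᶠ T : ℝ in atTop, ∀ x : ℝ, 1 / 2 ≤ x → x ≤ 3 / 4 →
      MX n x (s * T) ≤ C3 * ((s * T) * Real.log (s * T) ^ m) :=
    (tendsto_id.const_mul_atTop hs0).eventually hunif
  filter_upwards [hTT, hTU, hw', hsmall, eventually_gt_atTop 1,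
    (log_div_tendsto c).eventually_le_const (show (0 : ℝ) < 1 / 4 by norm_num),
    (tendsto_id.const_mul_atTop hs0).eventually_gt_atTop 1] with T h2T h1s hwT hsm hT1 hcT hsT
  simp only [id] at hsT
  have hT0 : 0 < T := by linarith
  have hlT : 0 < Real.log T := Real.log_pos hT1
  set N := T ^ (1 / (1 + 2 * s)) with hN
  have hcT0 : 0 < c / Real.log T := by positivity
  set x : ℝ := 1 / 2 + c / Real.log T with hx
  have hx1 : x < 1 := by linarith
  have hNs : N ^ (1 + s) ≤ (1 - s) * T := by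
    refine le_trans (le_of_eq ?_) h1s
    rw [hN, ← Real.rpow_mul hT0.le]; congr 1; ring
  have hNβ : 2 * (s * T + (1 - s) * T) ≤ N ^ β := by
    calc 2 * (s * T + (1 - s) * T) = 2 * T := by ring
      _ ≤ _ := h2T
      _ = N ^ β := by rw [hN, ← Real.rpow_mul hT0.le]; congr 1; ring
  have hlogN : Real.log N = Real.log T / (1 + 2 * s) := by
    rw [hN, Real.log_rpow hT0]; ring
  have hline : c / (1 + 2 * s) / Real.log N = c / Real.log T := by
    rw [hlogN]; field_simp
  have hUK : (1 - s) * T ≤ 1 / s * (s * T) := by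
    have : 1 / s * (s * T) = T := by field_simp
    rw [this]; nlinarith
  obtain ⟨r1, r2⟩ := hwT (s * T) ((1 - s) * T) hNs hUK hNβ
  rw [hline, ← hx, show s * T + (1 - s) * T = T by ring] at r1 r2
  have hUU : UU n N = AA n * ((1 / (1 + 2 * s)) ^ m * Real.log T ^ m) := by
    rw [UU_eq, hlogN, ← Real.mul_rpow (by positivity) hlT.le]
    congr 2
    ring
  rw [hUU] at r1 r2
  have hsub := MX_sub n hx1 (s * T) T
  have hlm : 0 < Real.log T ^ m := Real.rpow_pos_of_pos hlT _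
  have hpos : 0 ≤ AA n * (T * Real.log T ^ m) := by positivity
  constructor
  · have h0 := MX_nonneg n x (T := s * T) (by positivity)
    calc (loF n C c - ε) * (AA n * (T * Real.log T ^ m)) ≤ g s * (AA n * (T * Real.log T ^ m)) :=
          mul_le_mul_of_nonneg_right hs2.le hpos
      _ = (1 - s) * (loF n C (c / (1 + 2 * s)) - s) * ((1 - s) * T * (AA n * ((1 / (1 + 2 * s)) ^ m *
            Real.log T ^ m))) := by simp only [hg]; ring
      _ ≤ MX n x T := by linarith
  · have h0 := hsm x (by linarith) (by linarith)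
    have hl2 : Real.log (s * T) ^ m ≤ Real.log T ^ m := by
      apply Real.rpow_le_rpow (Real.log_nonneg hsT.le) _ hm0.le
      apply Real.log_le_log (by linarith)
      nlinarith
    have h3 : MX n x (s * T) ≤ C3 * s * (T * Real.log T ^ m) := by
      calc _ ≤ _ := h0
        _ ≤ C3 * ((s * T) * Real.log T ^ m) := by gcongr
        _ = _ := by ring
    have hF := hiF_nonneg hn' hC (c / (1 + 2 * s))
    have h4 : (1 + s) * (hiF n C (c / (1 + 2 * s)) + s) * ((1 - s) * T * (AA n * ((1 / (1 + 2 * s)) ^ m *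
        Real.log T ^ m))) ≤ (1 + s) * (hiF n C (c / (1 + 2 * s)) + s) * (1 * T * (AA n *
        ((1 / (1 + 2 * s)) ^ m * Real.log T ^ m))) := by
      gcongr
      linarith
    have h5 : C3 * s * (T * Real.log T ^ m) = C3 / AA n * s * (AA n * (T * Real.log T ^ m)) := by
      field_simp
    calc MX n x T ≤ C3 / AA n * s * (AA n * (T * Real.log T ^ m)) +
          (1 + s) * (hiF n C (c / (1 + 2 * s)) + s) * (1 * T * (AA n *
          ((1 / (1 + 2 * s)) ^ m * Real.log T ^ m))) := by linarith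
      _ = f s * (AA n * (T * Real.log T ^ m)) := by simp only [hf]; ring
      _ ≤ _ := mul_le_mul_of_nonneg_right hs1.le hpos

end

end Pool.Agent.Q255.FM
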