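import Pool.Agent.Q255.FM.FE

set_option autoImplicit false

/-!
Local asymptotics: the approximating polynomial.
-/

open Filter MeasureTheory Metric Set Topology
open Pool.Agent.H306R2

namespace Pool.Agent.Q255.FM

noncomputable section

/-- normalisation -/
def UU (n : ℕ) (N : ℝ) : ℝ :=
  aF (1 / (n : ℝ)) / Real.Gamma ((1 / (n : ℝ)) ^ 2 + 1) * Real.log N ^ ((1 / (n : ℝ)) ^ 2)

/-- limit function -/
def FF (n : ℕ) (c : ℝ) : ℝ := Real.Gamma ((1 / (n : ℝ)) ^ 2 + 1) * Ph (1 / (n : ℝ)) c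

/-- triples `(N, H, τ)` -/
def F0 : Filter (ℝ × ℝ × ℝ) := comap (fun q => q.1) atTop ⊓
  𝓟 {q | 4 * q.1 * Real.log q.1 ≤ q.2.1 ∧ 4 * q.2.1 * Real.log q.1 ≤ q.2.2}

def F1 (β : ℝ) : Filter (ℝ × ℝ × ℝ) := F0 ⊓ 𝓟 {q | Real.log q.2.2 ≤ β * Real.log q.1}

lemma tendsto_fst : Tendsto (fun q : ℝ × ℝ × ℝ => q.1) F0 atTop :=
  tendsto_comap.mono_left inf_le_left

lemma F0_adm : ∀ᶠ q in F0, 4 * q.1 * Real.log q.1 ≤ q.2.1 ∧ 4 * q.2.1 * Real.log q.1 ≤ q.2.2 :=
  (mem_inf_of_right (mem_principal_self _))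

lemma F0_basic : ∀ᶠ q in F0, 4 ≤ q.1 ∧ 1 ≤ Real.log q.1 ∧ 1 ≤ q.2.1 ∧ q.1 ≤ q.2.2 ∧
    q.1 ≤ q.2.1 ∧ q.2.1 ≤ q.2.2 := by
  filter_upwards [F0_adm, tendsto_fst.eventually_ge_atTop (Real.exp 2)] with q h1 h2
  have h3 : 2 ≤ Real.log q.1 := by
    rw [Real.le_log_iff_exp_le (lt_of_lt_of_le (Real.exp_pos _) h2)]
    exact h2
  have h4 : (4 : ℝ) ≤ q.1 := by
    have h5 : (4 : ℝ) ≤ Real.exp 2 := by
      have := Real.exp_one_gt_d9
      have h6 : Real.exp 2 = Real.exp 1 ^ 2 := by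
        rw [← Real.exp_nat_mul]; norm_num
      rw [h6]; nlinarith
    linarith
  have h7 : q.1 ≤ q.2.1 := by nlinarith [h1.1]
  have h8 : q.2.1 ≤ q.2.2 := by nlinarith [h1.2]
  exact ⟨h4, by linarith, by linarith, by linarith, h7, h8⟩

lemma UU_pos {n : ℕ} (hn : 0 < n) {N : ℝ} (hN : 1 < N) : 0 < UU n N := by
  unfold UU
  have h1 := aF_pos (κ := 1 / (n : ℝ)) (by positivity)
  have h2 := Real.log_pos hN
  have h3 : 0 < Real.Gamma ((1 / (n : ℝ)) ^ 2 + 1) := Real.Gamma_pos_of_pos (by positivity)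
  positivity

lemma UU_tendsto {n : ℕ} (hn : 0 < n) : Tendsto (UU n) atTop atTop := by
  unfold UU
  have h1 := aF_pos (κ := 1 / (n : ℝ)) (by positivity)
  have h3 : 0 < Real.Gamma ((1 / (n : ℝ)) ^ 2 + 1) := Real.Gamma_pos_of_pos (by positivity)
  apply Tendsto.const_mul_atTop (by positivity)
  have : (0 : ℝ) < (1 / (n : ℝ)) ^ 2 := by positivity
  exact (tendsto_rpow_atTop this).comp Real.tendsto_log_atTop

lemma small0 (a : ℕ) {b : ℝ} (hb : 0 < b) :
    Tendsto (fun N : ℝ => N ^ a * Real.exp (-(b * Real.log N ^ 2))) atTop (𝓝 0) := by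
  have h2 : Tendsto (fun l : ℝ => Real.exp (a * l - b * l ^ 2)) atTop (𝓝 0) := by
    refine squeeze_zero' (Eventually.of_forall fun l => (Real.exp_pos _).le) ?_
      Real.tendsto_exp_neg_atTop_nhds_zero
    filter_upwards [eventually_ge_atTop ((a + 1) / b), eventually_ge_atTop 0] with l hl hl0
    apply Real.exp_le_exp.mpr
    rw [div_le_iff₀ hb] at hl
    nlinarith
  refine (h2.comp Real.tendsto_log_atTop).congr' ?_
  filter_upwards [eventually_gt_atTop 0] with N hN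
  simp only [Function.comp]
  have e1 : N ^ a = Real.exp (a * Real.log N) := by
    rw [mul_comm, ← Real.rpow_def_of_pos hN, Real.rpow_natCast]
  rw [e1, ← Real.exp_add]
  congr 1

lemma small1 {n : ℕ} (hn : 0 < n) (a : ℕ) {b : ℝ} (hb : 0 < b) :
    Tendsto (fun N : ℝ => N ^ a * Real.exp (-(b * Real.log N ^ 2)) / UU n N) atTop (𝓝 0) :=
  (small0 a hb).div_atTop (UU_tendsto hn)

lemma DD_UU {n : ℕ} (hn : 0 < n) (c : ℝ) :
    Tendsto (fun N : ℝ => DD n N (1 / 2 + c / Real.log N) / UU n N) atTop (𝓝 (FF n c)) := by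
  have h1 := aF_pos (κ := 1 / (n : ℝ)) (by positivity)
  have h3 : 0 < Real.Gamma ((1 / (n : ℝ)) ^ 2 + 1) := Real.Gamma_pos_of_pos (by positivity)
  have h := (DD_tendsto hn c).div_const (aF (1 / (n : ℝ)) / Real.Gamma ((1 / (n : ℝ)) ^ 2 + 1))
  have e : aF (1 / (n : ℝ)) * Ph (1 / (n : ℝ)) c / (aF (1 / (n : ℝ)) / Real.Gamma ((1 / (n : ℝ)) ^ 2 + 1)) =
      FF n c := by
    unfold FF
    field_simp
  rw [e] at h
  refine h.congr fun N => ?_
  unfold UU
  rw [div_div, mul_comm (Real.log N ^ _)]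

lemma log_div_tendsto (c : ℝ) : Tendsto (fun N : ℝ => c / Real.log N) atTop (𝓝 0) :=
  tendsto_const_nhds.div_atTop Real.tendsto_log_atTop

theorem S_tendsto {n : ℕ} (hn : 2 ≤ n) (c : ℝ) :
    Tendsto (fun q : ℝ × ℝ × ℝ => VV (fS n q.1 q.2.2 q.2.1) (2 / (n : ℝ))
      (1 / 2 + c / Real.log q.1) / UU n q.1) F0 (𝓝 (FF n c)) := by
  have hn' : 0 < n := by omega
  set g : ℝ → ℝ := fun N => DD n N (1 / 2 + c / Real.log N) / UU n N with hg
  set e1 : ℝ → ℝ := fun N => N ^ 2 * Real.exp (-(4 * Real.log N ^ 2)) / UU n N with he1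
  set e2 : ℝ → ℝ := fun N => N ^ 2 * Real.exp (-(2 * Real.log N ^ 2)) / UU n N with he2
  have g0 : Tendsto g atTop (𝓝 (FF n c)) := DD_UU hn' c
  have e10 : Tendsto e1 atTop (𝓝 0) := small1 hn' 2 (by norm_num)
  have e20 : Tendsto e2 atTop (𝓝 0) := small1 hn' 2 (by norm_num)
  have x0 := log_div_tendsto c
  have hup : Tendsto (fun N : ℝ => Real.exp ((c / Real.log N) ^ 2) * (g N + e1 N)) atTop
      (𝓝 (FF n c)) := by
    have h1 : Tendsto (fun N : ℝ => Real.exp ((c / Real.log N) ^ 2)) atTop (𝓝 1) := by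
      have := (Real.continuous_exp.tendsto (0 ^ 2)).comp (x0.pow 2)
      simpa [Function.comp_def] using this
    have := h1.mul (g0.add e10)
    simpa using this
  have hdn : Tendsto (fun N : ℝ => (1 - 4 / N) * (g N - e1 N) - 2 * e2 N) atTop (𝓝 (FF n c)) := by
    have h1 : Tendsto (fun N : ℝ => 1 - 4 / N) atTop (𝓝 1) := by
      have : Tendsto (fun N : ℝ => 4 / N) atTop (𝓝 0) := tendsto_const_nhds.div_atTop tendsto_id
      simpa using tendsto_const_nhds.sub this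
    have := (h1.mul (g0.sub e10)).sub (e20.const_mul 2)
    simpa using this
  have hx : ∀ᶠ N : ℝ in atTop, |c / Real.log N| ≤ 1 / 4 := by
    have := x0.abs
    rw [abs_zero] at this
    exact this.eventually_le_const (by norm_num)
  refine tendsto_of_tendsto_of_tendsto_of_le_of_le' (hdn.comp tendsto_fst) (hup.comp tendsto_fst) ?_ ?_
  · filter_upwards [F0_basic, F0_adm, tendsto_fst.eventually hx] with q hq ha hxq
    obtain ⟨N, H, τ⟩ := q
    simp only at hq ha hxq ⊢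
    obtain ⟨h4, hl1, hH1, hNτ, hNH, hHτ⟩ := hq
    rw [abs_le] at hxq
    have hU := UU_pos hn' (N := N) (by linarith)
    have hlow := S_lower hn (N := N) (by linarith) (τ := τ) (H := H) (by linarith) (by linarith)
      (x := 1 / 2 + c / Real.log N) (by linarith)
    have hQD := QQ_sub_DD hn' (N := N) (by linarith) τ H (by linarith)
      (x := 1 / 2 + c / Real.log N) (by linarith)
    have hb1 : Real.exp (-(H ^ 2 / (4 * N ^ 2))) ≤ Real.exp (-(4 * Real.log N ^ 2)) := by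
      apply Real.exp_le_exp.mpr
      rw [neg_le_neg_iff, le_div_iff₀ (by positivity)]
      have := ha.1
      have : (4 * N * Real.log N) ^ 2 ≤ H ^ 2 := by
        gcongr
      nlinarith
    have hb2 : Real.exp (-(τ ^ 2 / (8 * H ^ 2))) ≤ Real.exp (-(2 * Real.log N ^ 2)) := by
      apply Real.exp_le_exp.mpr
      rw [neg_le_neg_iff, le_div_iff₀ (by positivity)]
      have : (4 * H * Real.log N) ^ 2 ≤ τ ^ 2 := by
        have := ha.2
        gcongr
      nlinarith
    have hN2 : 0 ≤ N ^ 2 := by positivity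
    rw [abs_le] at hQD
    have hQ0 : 0 ≤ QQ n N τ H (1 / 2 + c / Real.log N) :=
      integral_nonneg fun y => mul_nonneg (by positivity) (gw_nonneg _ _ _ (by linarith))
    have h4N : 4 / τ ≤ 4 / N := div_le_div_of_nonneg_left (by norm_num) (by linarith) hNτ
    have h4N1 : 0 ≤ 1 - 4 / N := by
      rw [sub_nonneg, div_le_one (by linarith)]; exact h4
    simp only [Function.comp, hg, he1, he2]
    rw [le_div_iff₀ hU]
    have e : ((1 - 4 / N) * (DD n N (1 / 2 + c / Real.log N) / UU n N -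
        N ^ 2 * Real.exp (-(4 * Real.log N ^ 2)) / UU n N) -
        2 * (N ^ 2 * Real.exp (-(2 * Real.log N ^ 2)) / UU n N)) * UU n N =
        (1 - 4 / N) * (DD n N (1 / 2 + c / Real.log N) - N ^ 2 * Real.exp (-(4 * Real.log N ^ 2))) -
        2 * (N ^ 2 * Real.exp (-(2 * Real.log N ^ 2))) := by
      field_simp
    rw [e]
    refine le_trans ?_ hlow
    have t1 : N ^ 2 * Real.exp (-(H ^ 2 / (4 * N ^ 2))) ≤ N ^ 2 * Real.exp (-(4 * Real.log N ^ 2)) :=
      mul_le_mul_of_nonneg_left hb1 hN2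
    have t2 : N ^ 2 * Real.exp (-(τ ^ 2 / (8 * H ^ 2))) ≤ N ^ 2 * Real.exp (-(2 * Real.log N ^ 2)) :=
      mul_le_mul_of_nonneg_left hb2 hN2
    have t3 : (1 - 4 / N) * (DD n N (1 / 2 + c / Real.log N) - N ^ 2 * Real.exp (-(4 * Real.log N ^ 2))) ≤
        (1 - 4 / N) * QQ n N τ H (1 / 2 + c / Real.log N) :=
      mul_le_mul_of_nonneg_left (by linarith [hQD.1]) h4N1
    have t4 : (1 - 4 / N) * QQ n N τ H (1 / 2 + c / Real.log N) ≤
        (1 - 4 / τ) * QQ n N τ H (1 / 2 + c / Real.log N) :=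
      mul_le_mul_of_nonneg_right (by linarith) hQ0
    linarith
  · filter_upwards [F0_basic, F0_adm, tendsto_fst.eventually hx] with q hq ha hxq
    obtain ⟨N, H, τ⟩ := q
    simp only at hq ha hxq ⊢
    obtain ⟨h4, hl1, hH1, hNτ, hNH, hHτ⟩ := hq
    rw [abs_le] at hxq
    have hU := UU_pos hn' (N := N) (by linarith)
    have hup := S_upper hn' (N := N) (by linarith) τ H (by linarith)
      (x := 1 / 2 + c / Real.log N) (by linarith)
    have hQD := QQ_sub_DD hn' (N := N) (by linarith) τ H (by linarith)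
      (x := 1 / 2 + c / Real.log N) (by linarith)
    have hb1 : Real.exp (-(H ^ 2 / (4 * N ^ 2))) ≤ Real.exp (-(4 * Real.log N ^ 2)) := by
      apply Real.exp_le_exp.mpr
      rw [neg_le_neg_iff, le_div_iff₀ (by positivity)]
      have := ha.1
      have : (4 * N * Real.log N) ^ 2 ≤ H ^ 2 := by
        gcongr
      nlinarith
    have hN2 : 0 ≤ N ^ 2 := by positivity
    rw [abs_le] at hQD
    simp only [Function.comp, hg, he1]
    rw [div_le_iff₀ hU]
    have e : Real.exp ((c / Real.log N) ^ 2) * (DD n N (1 / 2 + c / Real.log N) / UU n N +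
        N ^ 2 * Real.exp (-(4 * Real.log N ^ 2)) / UU n N) * UU n N =
        Real.exp ((c / Real.log N) ^ 2) * (DD n N (1 / 2 + c / Real.log N) +
        N ^ 2 * Real.exp (-(4 * Real.log N ^ 2))) := by
      field_simp
    rw [e]
    refine hup.trans ?_
    have t1 : N ^ 2 * Real.exp (-(H ^ 2 / (4 * N ^ 2))) ≤ N ^ 2 * Real.exp (-(4 * Real.log N ^ 2)) :=
      mul_le_mul_of_nonneg_left hb1 hN2
    have t5 : Real.exp ((1 / 2 + c / Real.log N - 1 / 2) ^ 2 / H ^ 2) ≤
        Real.exp ((c / Real.log N) ^ 2) := by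
      apply Real.exp_le_exp.mpr
      rw [show 1 / 2 + c / Real.log N - 1 / 2 = c / Real.log N by ring]
      apply div_le_self (by positivity)
      nlinarith
    have hQ0 : 0 ≤ QQ n N τ H (1 / 2 + c / Real.log N) :=
      integral_nonneg fun y => mul_nonneg (by positivity) (gw_nonneg _ _ _ (by linarith))
    calc _ ≤ Real.exp ((c / Real.log N) ^ 2) * QQ n N τ H (1 / 2 + c / Real.log N) := by gcongr
      _ ≤ _ := by
          apply mul_le_mul_of_nonneg_left _ (Real.exp_pos _).le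
          linarith [hQD.2]

end

end Pool.Agent.Q255.FM
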