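import Pool.Agent.Q255.FM.Loc1

set_option autoImplicit false

/-!
Interpolation steps.
-/

open Filter MeasureTheory Metric Set Topology
open Pool.Agent.H306R2

namespace Pool.Agent.Q255.FM

noncomputable section

theorem K_interp {n : ℕ} (hn : 2 ≤ n) {c d : ℝ} (hcd : 0 < c + d) {ε : ℝ} (hε : 0 < ε) :
    ∀ᶠ q : ℝ × ℝ × ℝ in F0, ∀ X : ℝ, 1 ≤ X →
      VV (fK n q.1 q.2.2 q.2.1) (2 / (n : ℝ)) (1 / 2 - d / Real.log q.1) ≤ X →
      VV (fK n q.1 q.2.2 q.2.1) (2 / (n : ℝ)) (1 / 2 + c / Real.log q.1) ≤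
        (1 + ε) * Real.exp (-(2 / (n : ℝ) * (c + d))) * X := by
  have hn' : 0 < n := by omega
  set p : ℝ := 2 / (n : ℝ) with hp
  have hp0 : 0 < p := by positivity
  -- choice of the right line
  have hA : Tendsto (fun A : ℝ => Real.exp (-(p * (A - 2) * (c + d) / (A - 1 / 2)))) atTop
      (𝓝 (Real.exp (-(p * (c + d))))) := by
    have h1 : Tendsto (fun A : ℝ => (A - 2) / (A - 1 / 2)) atTop (𝓝 1) := by
      have h2 : Tendsto (fun A : ℝ => (3 / 2) / (A - 1 / 2)) atTop (𝓝 0) :=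
        tendsto_const_nhds.div_atTop (tendsto_atTop_add_const_right _ _ tendsto_id)
      have h3 : Tendsto (fun A : ℝ => 1 - (3 / 2) / (A - 1 / 2)) atTop (𝓝 1) := by
        simpa using tendsto_const_nhds.sub h2
      refine h3.congr' ?_
      filter_upwards [eventually_gt_atTop 1] with A hA
      have : A - 1 / 2 ≠ 0 := ne_of_gt (by linarith)
      rw [eq_div_iff this, sub_mul, div_mul_cancel₀ _ this]
      ring
    have h4 : Tendsto (fun A : ℝ => -(p * (c + d) * ((A - 2) / (A - 1 / 2)))) atTop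
        (𝓝 (-(p * (c + d) * 1))) := (h1.const_mul _).neg
    rw [mul_one] at h4
    refine ((Real.continuous_exp.tendsto _).comp h4).congr fun A => ?_
    simp only [Function.comp]
    congr 1
    ring
  have hlt : Real.exp (-(p * (c + d))) < (1 + ε) * Real.exp (-(p * (c + d))) := by
    have := Real.exp_pos (-(p * (c + d)))
    nlinarith
  obtain ⟨A, hA1, hA3⟩ := ((hA.eventually_lt_const hlt).and (eventually_ge_atTop 3)).exists
  set C0 : ℝ := (n * Z2 ^ (n + 1)) ^ p * Real.exp ((A - 1 / 2) ^ 2) with hC0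
  have hZ := Z2_ge_one
  have hC0pos : 0 < C0 := by
    have : 0 < (n : ℝ) * Z2 ^ (n + 1) := by
      have : 0 < Z2 := by linarith
      positivity
    positivity
  set th : ℝ → ℝ := fun N => ((c + d) / Real.log N) / (A - 1 / 2 + d / Real.log N) with hth
  have hth0 : Tendsto th atTop (𝓝 0) := by
    have h1 := log_div_tendsto (c + d)
    have h2 := (log_div_tendsto d).const_add (A - 1 / 2)
    have := h1.div h2 (ne_of_gt (by linarith))
    rw [zero_div] at this
    exact this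
  have hthL : Tendsto (fun N => th N * Real.log N) atTop (𝓝 ((c + d) / (A - 1 / 2))) := by
    have h2 := (log_div_tendsto d).const_add (A - 1 / 2)
    have h3 : Tendsto (fun N : ℝ => (c + d) / (A - 1 / 2 + d / Real.log N)) atTop
        (𝓝 ((c + d) / (A - 1 / 2 + 0))) := tendsto_const_nhds.div h2 (ne_of_gt (by linarith))
    rw [add_zero] at h3
    refine h3.congr' ?_
    filter_upwards [eventually_gt_atTop 1] with N hN
    have hl := (Real.log_pos hN).ne'
    simp only [hth]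
    rw [div_mul_eq_mul_div, div_mul_cancel₀ _ hl]
  have hG : Tendsto (fun N => C0 ^ (th N) * Real.exp (-(p * (A - 2)) * (th N * Real.log N))) atTop
      (𝓝 (1 * Real.exp (-(p * (A - 2)) * ((c + d) / (A - 1 / 2))))) := by
    apply Tendsto.mul
    · have := (Real.continuous_const_rpow hC0pos.ne').tendsto 0
      rw [Real.rpow_zero] at this
      exact this.comp hth0
    · exact (Real.continuous_exp.tendsto _).comp (hthL.const_mul _)
  rw [one_mul] at hG
  have hG1 : Real.exp (-(p * (A - 2)) * ((c + d) / (A - 1 / 2))) <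
      (1 + ε) * Real.exp (-(p * (c + d))) := by
    refine lt_of_eq_of_lt ?_ hA1
    congr 1
    ring
  have hev1 := tendsto_fst.eventually (hG.eventually_lt_const hG1)
  have hx1 : ∀ᶠ N : ℝ in atTop, |c / Real.log N| ≤ 1 / 4 := by
    have := (log_div_tendsto c).abs
    rw [abs_zero] at this
    exact this.eventually_le_const (by norm_num)
  have hx2 : ∀ᶠ N : ℝ in atTop, |d / Real.log N| ≤ 1 / 4 := by
    have := (log_div_tendsto d).abs
    rw [abs_zero] at this
    exact this.eventually_le_const (by norm_num)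
  filter_upwards [F0_basic, hev1, tendsto_fst.eventually hx1, tendsto_fst.eventually hx2] with q hq hg h1 h2
  obtain ⟨N, H, τ⟩ := q
  simp only at hq hg h1 h2 ⊢
  obtain ⟨h4, hl1, hH1, hNτ, hNH, hHτ⟩ := hq
  rw [abs_le] at h1 h2
  intro X hX hK
  have hl0 : 0 < Real.log N := by linarith
  have hN0 : 0 < N := by linarith
  set L := Real.log N with hL
  have hcdL : 0 < (c + d) / L := by positivity
  have hgood := good_fK hn' (N := N) (by linarith) τ H (by linarith) (a := 1 / 2 - d / L) (b := A)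
    (by linarith) (by linarith)
  have hlt2 : 1 / 2 - d / L < A := by linarith
  have hR := K_right hn' (N := N) (by linarith) τ H (by linarith) (A := A) (by linarith)
  set Y : ℝ := C0 * N ^ (-(p * (A - 2))) with hY
  have hY0 : 0 < Y := by positivity
  have hRY : VV (fK n N τ H) p A ≤ Y := by
    refine hR.trans ?_
    rw [hY, hC0, Real.mul_rpow (by positivity) (by positivity), ← Real.rpow_mul hN0.le]
    have e1 : (2 - A) * p = -(p * (A - 2)) := by ring
    rw [e1]
    have e2 : Real.exp ((A - 1 / 2) ^ 2 / H ^ 2) ≤ Real.exp ((A - 1 / 2) ^ 2) := by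
      apply Real.exp_le_exp.mpr
      apply div_le_self (by positivity)
      nlinarith
    calc (n * Z2 ^ (n + 1)) ^ p * N ^ (-(p * (A - 2))) * Real.exp ((A - 1 / 2) ^ 2 / H ^ 2)
        ≤ (n * Z2 ^ (n + 1)) ^ p * N ^ (-(p * (A - 2))) * Real.exp ((A - 1 / 2) ^ 2) := by
          apply mul_le_mul_of_nonneg_left e2
          have : 0 ≤ (n : ℝ) * Z2 ^ (n + 1) := by positivity
          positivity
      _ = _ := by ring
  have hmem : 1 / 2 + c / L ∈ Icc (1 / 2 - d / L) A := by
    have : (c + d) / L = c / L + d / L := by ring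
    constructor
    · linarith
    · linarith
  have h3 := hgood.three_lines hlt2 (by linarith : (0 : ℝ) < X) hY0 hK hRY hmem
  have hden : 0 < A - (1 / 2 - d / L) := by linarith
  have e3 : (1 / 2 + c / L - (1 / 2 - d / L)) / (A - (1 / 2 - d / L)) = th N := by
    simp only [hth]
    congr 1
    · ring
    · ring
  have e4 : (A - (1 / 2 + c / L)) / (A - (1 / 2 - d / L)) ≤ 1 := by
    rw [div_le_one hden]
    have : (c + d) / L = c / L + d / L := by ring
    linarith
  rw [e3] at h3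
  have h5 : X ^ ((A - (1 / 2 + c / L)) / (A - (1 / 2 - d / L))) ≤ X := by
    calc _ ≤ X ^ (1 : ℝ) := Real.rpow_le_rpow_of_exponent_le hX e4
      _ = X := Real.rpow_one X
  have h6 : Y ^ th N = C0 ^ th N * Real.exp (-(p * (A - 2)) * (th N * L)) := by
    rw [hY, Real.mul_rpow hC0pos.le (by positivity), ← Real.rpow_mul hN0.le,
      Real.rpow_def_of_pos hN0]
    congr 2
    ring
  calc _ ≤ _ := h3
    _ ≤ X * (C0 ^ th N * Real.exp (-(p * (A - 2)) * (th N * L))) := by
        rw [h6]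
        gcongr
    _ ≤ X * ((1 + ε) * Real.exp (-(p * (c + d)))) := by
        apply mul_le_mul_of_nonneg_left hg.le (by linarith)
    _ = _ := by ring

theorem J_interp {n : ℕ} (hn : 2 ≤ n) {a b : ℝ} (ha : 0 < a) (hab : a < b) :
    ∀ᶠ q : ℝ × ℝ × ℝ in F0, ∀ X Y : ℝ, 0 < X → 0 < Y →
      VV (fJ n q.2.2 q.2.1) (2 / (n : ℝ)) (1 / 2) ≤ X →
      VV (fJ n q.2.2 q.2.1) (2 / (n : ℝ)) (1 / 2 + b / Real.log q.1) ≤ Y →
      VV (fJ n q.2.2 q.2.1) (2 / (n : ℝ)) (1 / 2 + a / Real.log q.1) ≤ X ^ (1 - a / b) * Y ^ (a / b) := by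
  have hn' : 0 < n := by omega
  have hb : 0 < b := by linarith
  filter_upwards [F0_basic] with q hq
  obtain ⟨N, H, τ⟩ := q
  simp only at hq ⊢
  obtain ⟨h4, hl1, hH1, hNτ, hNH, hHτ⟩ := hq
  intro X Y hX hY h1 h2
  set L := Real.log N with hL
  have hL0 : 0 < L := by linarith
  have hgood := good_fJ hn' τ H (by linarith) (a := 1 / 2) (b := 1 / 2 + b / L) (by norm_num)
    (by have : 0 < b / L := by positivity
        linarith)
  have hlt : (1 : ℝ) / 2 < 1 / 2 + b / L := by
    have : 0 < b / L := by positivity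
    linarith
  have h1' : VV (fJ n τ H) (2 / (n : ℝ)) (1 / 2) ≤ X := h1
  have h3 := hgood.three_lines hlt hX hY h1' h2 (x := 1 / 2 + a / L)
    ⟨by have : 0 < a / L := by positivity
        linarith,
     by have : a / L ≤ b / L := by gcongr
        linarith⟩
  refine h3.trans (le_of_eq ?_)
  congr 2
  · field_simp
    ring
  · field_simp
    ring

theorem J_mid {n : ℕ} (hn : 2 ≤ n) {c : ℝ} (hc : 0 < c) :
    ∀ᶠ q : ℝ × ℝ × ℝ in F0, ∀ X Y : ℝ, 0 < X → 0 < Y →
      VV (fJ n q.2.2 q.2.1) (2 / (n : ℝ)) (1 / 2 - c / Real.log q.1) ≤ X →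
      VV (fJ n q.2.2 q.2.1) (2 / (n : ℝ)) (1 / 2 + c / Real.log q.1) ≤ Y →
      VV (fJ n q.2.2 q.2.1) (2 / (n : ℝ)) (1 / 2) ≤ X ^ ((1 : ℝ) / 2) * Y ^ ((1 : ℝ) / 2) := by
  have hn' : 0 < n := by omega
  have hx1 : ∀ᶠ N : ℝ in atTop, |c / Real.log N| ≤ 1 / 4 := by
    have := (log_div_tendsto c).abs
    rw [abs_zero] at this
    exact this.eventually_le_const (by norm_num)
  filter_upwards [F0_basic, tendsto_fst.eventually hx1] with q hq hx
  obtain ⟨N, H, τ⟩ := q
  simp only at hq hx ⊢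
  obtain ⟨h4, hl1, hH1, hNτ, hNH, hHτ⟩ := hq
  intro X Y hX hY h1 h2
  set L := Real.log N with hL
  have hL0 : 0 < L := by linarith
  have hcL : 0 < c / L := by positivity
  rw [abs_le] at hx
  have hgood := good_fJ hn' τ H (by linarith) (a := 1 / 2 - c / L) (b := 1 / 2 + c / L)
    (by linarith) (by linarith)
  have h3 := hgood.three_lines (by linarith) hX hY h1 h2 (x := 1 / 2) ⟨by linarith, by linarith⟩
  refine h3.trans (le_of_eq ?_)
  congr 2
  · field_simp
    ring
  · field_simp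
    ring

lemma F1_le (β : ℝ) : F1 β ≤ F0 := inf_le_left

lemma F1_adm (β : ℝ) : ∀ᶠ q : ℝ × ℝ × ℝ in F1 β, Real.log q.2.2 ≤ β * Real.log q.1 :=
  mem_inf_of_right (mem_principal_self _)

theorem J_left' {n : ℕ} (hn : 2 ≤ n) {d β : ℝ} (hd : 0 < d) {ε : ℝ} (hε : 0 < ε) :
    ∀ᶠ q : ℝ × ℝ × ℝ in F1 β,
      VV (fJ n q.2.2 q.2.1) (2 / (n : ℝ)) (1 / 2 - d / Real.log q.1) ≤
        (1 + ε) * Real.exp (2 / (n : ℝ) * d * β) *
          VV (fJ n q.2.2 q.2.1) (2 / (n : ℝ)) (1 / 2 + d / Real.log q.1) + ε := by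
  have hn' : 0 < n := by omega
  have hn2 : (2 : ℝ) ≤ n := by exact_mod_cast hn
  set p : ℝ := 2 / (n : ℝ) with hp
  have hp0 : 0 < p := by positivity
  have hp1 : p ≤ 1 := by rw [hp, div_le_one (by linarith)]; exact hn2
  set k : ℕ := ⌈β⌉₊ with hk
  have hx1 : ∀ᶠ N : ℝ in atTop, |d / Real.log N| ≤ 1 / 4 := by
    have := (log_div_tendsto d).abs
    rw [abs_zero] at this
    exact this.eventually_le_const (by norm_num)
  have hg : Tendsto (fun N : ℝ => Real.exp (28 / N) * (1 - 4 / N)⁻¹) atTop (𝓝 1) := by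
    have h1 : Tendsto (fun N : ℝ => Real.exp (28 / N)) atTop (𝓝 1) := by
      have h2 : Tendsto (fun N : ℝ => 28 / N) atTop (𝓝 0) := tendsto_const_nhds.div_atTop tendsto_id
      have := (Real.continuous_exp.tendsto 0).comp h2
      simpa [Function.comp_def] using this
    have h3 : Tendsto (fun N : ℝ => (1 - 4 / N)⁻¹) atTop (𝓝 1) := by
      have h2 : Tendsto (fun N : ℝ => 4 / N) atTop (𝓝 0) := tendsto_const_nhds.div_atTop tendsto_id
      have := (tendsto_const_nhds.sub h2 : Tendsto (fun N : ℝ => 1 - 4 / N) atTop (𝓝 (1 - 0))).inv₀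
        (by norm_num)
      simpa using this
    simpa using h1.mul h3
  have hg1 := hg.eventually_lt_const (show (1 : ℝ) < 1 + ε by linarith)
  have ht : Tendsto (fun N : ℝ => 20000 * (N ^ (4 * k) * Real.exp (-(2 * Real.log N ^ 2)))) atTop (𝓝 0) := by
    have := (small0 (4 * k) (b := 2) (by norm_num)).const_mul 20000
    simpa using this
  have ht1 := ht.eventually_lt_const hε
  have hfst : Tendsto (fun q : ℝ × ℝ × ℝ => q.1) (F1 β) atTop := tendsto_fst.mono_left (F1_le β)
  filter_upwards [(F1_le β) F0_basic, (F1_le β) F0_adm, F1_adm β, hfst.eventually hx1,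
    hfst.eventually hg1, hfst.eventually ht1, hfst.eventually_ge_atTop 24] with q hq ha hβ hx h5 h6 h24
  obtain ⟨N, H, τ⟩ := q
  simp only at hq ha hβ hx h5 h6 h24 ⊢
  obtain ⟨h4, hl1, hH1, hNτ, hNH, hHτ⟩ := hq
  set L := Real.log N with hL
  have hL0 : 0 < L := by linarith
  have hdL : 0 < d / L := by positivity
  rw [abs_le] at hx
  have hτ0 : 0 < τ := by linarith
  have hN0 : 0 < N := by linarith
  have h7 := J_left hn (τ := τ) (H := H) (δ := d / L) (by linarith) hH1 hdL.le hx.2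
  refine h7.trans ?_
  have hVV := VV_nonneg (fJ n τ H) p (1 / 2 + d / L)
  have h4N : 4 / τ ≤ 4 / N := div_le_div_of_nonneg_left (by norm_num) hN0 hNτ
  have h28N : 28 / τ ≤ 28 / N := div_le_div_of_nonneg_left (by norm_num) hN0 hNτ
  have h4N1 : 0 < 1 - 4 / N := by
    rw [sub_pos, div_lt_one hN0]; linarith
  have hK1 : Real.exp (28 / τ) * (1 - 4 / τ)⁻¹ ≤ 1 + ε := by
    refine le_trans ?_ h5.le
    apply mul_le_mul (Real.exp_le_exp.mpr h28N) _ (by
      have : 0 < 1 - 4 / τ := by linarith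
      positivity) (Real.exp_pos _).le
    exact inv_anti₀ h4N1 (by linarith)
  have hK0 : 0 ≤ Real.exp (28 / τ) * (1 - 4 / τ)⁻¹ := by
    have : 0 < 1 - 4 / τ := by linarith
    positivity
  have hK : (τ ^ (d / L) * (Real.exp (28 / τ) * (1 - 4 / τ)⁻¹)) ^ p ≤
      (1 + ε) * Real.exp (p * d * β) := by
    rw [Real.mul_rpow (by positivity) hK0, ← Real.rpow_mul hτ0.le]
    have e1 : τ ^ (d / L * p) ≤ Real.exp (p * d * β) := by
      rw [Real.rpow_def_of_pos hτ0]
      apply Real.exp_le_exp.mpr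
      have : Real.log τ * (d / L * p) = (p * d) * (Real.log τ / L) := by ring
      rw [this, mul_assoc]
      have h8 : Real.log τ / L ≤ β := by rw [div_le_iff₀ hL0]; exact hβ
      have h9 : 0 ≤ p * d := by positivity
      rw [← mul_assoc]
      exact mul_le_mul_of_nonneg_left h8 h9
    have e2 : (Real.exp (28 / τ) * (1 - 4 / τ)⁻¹) ^ p ≤ 1 + ε := by
      calc _ ≤ (1 + ε) ^ p := Real.rpow_le_rpow hK0 hK1 hp0.le
        _ ≤ (1 + ε) ^ (1 : ℝ) := Real.rpow_le_rpow_of_exponent_le (by linarith) hp1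
        _ = _ := Real.rpow_one _
    calc _ ≤ Real.exp (p * d * β) * (1 + ε) := by gcongr
      _ = _ := by ring
  have htail : 1000 * (1 + τ) ^ 2 * (1 + 4 * H ^ 2) * Real.exp (-(τ ^ 2 / (8 * H ^ 2))) ≤ ε := by
    refine le_trans ?_ h6.le
    have hb2 : Real.exp (-(τ ^ 2 / (8 * H ^ 2))) ≤ Real.exp (-(2 * L ^ 2)) := by
      apply Real.exp_le_exp.mpr
      rw [neg_le_neg_iff, le_div_iff₀ (by positivity)]
      have : (4 * H * L) ^ 2 ≤ τ ^ 2 := by
        have := ha.2
        gcongr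
      nlinarith
    have hτN : τ ≤ N ^ k := by
      have h8 : Real.log τ ≤ k * L := by
        refine hβ.trans ?_
        apply mul_le_mul_of_nonneg_right _ hL0.le
        exact Nat.le_ceil β
      calc τ = Real.exp (Real.log τ) := (Real.exp_log hτ0).symm
        _ ≤ Real.exp (k * L) := Real.exp_le_exp.mpr h8
        _ = N ^ k := by rw [mul_comm, hL, ← Real.rpow_def_of_pos hN0, Real.rpow_natCast]
    have h9 : (1 + τ) ^ 2 * (1 + 4 * H ^ 2) ≤ 20 * τ ^ 4 := by
      have h10 : 1 + τ ≤ 2 * τ := by linarith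
      have h11 : 1 + 4 * H ^ 2 ≤ 5 * τ ^ 2 := by nlinarith
      calc _ ≤ (2 * τ) ^ 2 * (5 * τ ^ 2) := by gcongr
        _ = _ := by ring
    have h12 : τ ^ 4 ≤ N ^ (4 * k) := by
      calc τ ^ 4 ≤ (N ^ k) ^ 4 := by gcongr
        _ = _ := by rw [← pow_mul]; ring_nf
    calc 1000 * (1 + τ) ^ 2 * (1 + 4 * H ^ 2) * Real.exp (-(τ ^ 2 / (8 * H ^ 2)))
        = 1000 * ((1 + τ) ^ 2 * (1 + 4 * H ^ 2)) * Real.exp (-(τ ^ 2 / (8 * H ^ 2))) := by ring
      _ ≤ 1000 * (20 * N ^ (4 * k)) * Real.exp (-(2 * L ^ 2)) := by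
          have h13 : (1 + τ) ^ 2 * (1 + 4 * H ^ 2) ≤ 20 * N ^ (4 * k) := h9.trans (by linarith)
          apply mul_le_mul (mul_le_mul_of_nonneg_left h13 (by norm_num)) hb2 (Real.exp_pos _).le
            (by positivity)
      _ = _ := by ring
  calc _ ≤ (1 + ε) * Real.exp (p * d * β) * VV (fJ n τ H) p (1 / 2 + d / L) + ε := by
        gcongr
    _ = _ := rfl

end

end Pool.Agent.Q255.FM
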