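import Pool.Agent.Q255.FM.Loc2

set_option autoImplicit false

/-!
Local lower and upper bounds.
-/

open Filter MeasureTheory Metric Set Topology
open Pool.Agent.H306R2

namespace Pool.Agent.Q255.FM

noncomputable section

lemma FF_zero {n : ℕ} (hn : 0 < n) : FF n 0 = 1 := by
  have hm : (0 : ℝ) < (1 / (n : ℝ)) ^ 2 := by positivity
  have h := gd_ct_integral hm 1
  have hG : 0 < Real.Gamma ((1 / (n : ℝ)) ^ 2 + 1) := Real.Gamma_pos_of_pos (by positivity)
  unfold FF Ph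
  have e : ∀ u : ℝ, gd ((1 / (n : ℝ)) ^ 2) u * (ct 1 u * Real.exp (-(2 * 0 * u))) =
      gd ((1 / (n : ℝ)) ^ 2) u * ct 1 u := by
    intro u; simp
  simp_rw [e]
  rw [h, max_eq_left (by norm_num), Real.one_rpow]
  field_simp

lemma FF_nonneg {n : ℕ} (hn : 0 < n) (c : ℝ) : 0 ≤ FF n c := by
  have hG : 0 < Real.Gamma ((1 / (n : ℝ)) ^ 2 + 1) := Real.Gamma_pos_of_pos (by positivity)
  unfold FF Ph
  apply mul_nonneg hG.le
  apply integral_nonneg
  intro u
  exact mul_nonneg (gd_nonneg (by positivity) u) (mul_nonneg (ct_nonneg _ _) (Real.exp_pos _).le)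

lemma S_le {n : ℕ} (hn : 2 ≤ n) (c : ℝ) {ε : ℝ} (hε : 0 < ε) :
    ∀ᶠ q : ℝ × ℝ × ℝ in F0, VV (fS n q.1 q.2.2 q.2.1) (2 / (n : ℝ)) (1 / 2 + c / Real.log q.1) ≤
      (FF n c + ε) * UU n q.1 := by
  filter_upwards [(S_tendsto hn c).eventually_lt_const (show FF n c < FF n c + ε by linarith),
    F0_basic] with q h hq
  have hU := UU_pos (n := n) (by omega) (N := q.1) (by linarith [hq.1])
  rw [div_lt_iff₀ hU] at h
  exact h.le

lemma S_ge {n : ℕ} (hn : 2 ≤ n) (c : ℝ) {ε : ℝ} (hε : 0 < ε) :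
    ∀ᶠ q : ℝ × ℝ × ℝ in F0, (FF n c - ε) * UU n q.1 ≤
      VV (fS n q.1 q.2.2 q.2.1) (2 / (n : ℝ)) (1 / 2 + c / Real.log q.1) := by
  filter_upwards [(S_tendsto hn c).eventually_const_lt (show FF n c - ε < FF n c by linarith),
    F0_basic] with q h hq
  have hU := UU_pos (n := n) (by omega) (N := q.1) (by linarith [hq.1])
  rw [lt_div_iff₀ hU] at h
  exact h.le

/-- the three triangle inequalities, at `1/2 + c / log N`, any real `c` -/
lemma tri {n : ℕ} (hn : 2 ≤ n) (c : ℝ) :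
    ∀ᶠ q : ℝ × ℝ × ℝ in F0,
      VV (fJ n q.2.2 q.2.1) (2 / (n : ℝ)) (1 / 2 + c / Real.log q.1) ≤
        VV (fS n q.1 q.2.2 q.2.1) (2 / (n : ℝ)) (1 / 2 + c / Real.log q.1) +
        VV (fK n q.1 q.2.2 q.2.1) (2 / (n : ℝ)) (1 / 2 + c / Real.log q.1) ∧
      VV (fS n q.1 q.2.2 q.2.1) (2 / (n : ℝ)) (1 / 2 + c / Real.log q.1) ≤
        VV (fJ n q.2.2 q.2.1) (2 / (n : ℝ)) (1 / 2 + c / Real.log q.1) +
        VV (fK n q.1 q.2.2 q.2.1) (2 / (n : ℝ)) (1 / 2 + c / Real.log q.1) ∧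
      VV (fK n q.1 q.2.2 q.2.1) (2 / (n : ℝ)) (1 / 2 + c / Real.log q.1) ≤
        VV (fJ n q.2.2 q.2.1) (2 / (n : ℝ)) (1 / 2 + c / Real.log q.1) +
        VV (fS n q.1 q.2.2 q.2.1) (2 / (n : ℝ)) (1 / 2 + c / Real.log q.1) := by
  have hn' : 0 < n := by omega
  have hn2 : (2 : ℝ) ≤ n := by exact_mod_cast hn
  have hp1 : 2 / (n : ℝ) ≤ 1 := by rw [div_le_one (by linarith)]; exact hn2
  have hx1 : ∀ᶠ N : ℝ in atTop, |c / Real.log N| ≤ 1 / 4 := by
    have := (log_div_tendsto c).abs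
    rw [abs_zero] at this
    exact this.eventually_le_const (by norm_num)
  filter_upwards [F0_basic, tendsto_fst.eventually hx1] with q hq hx
  obtain ⟨N, H, τ⟩ := q
  simp only at hq hx ⊢
  obtain ⟨h4, hl1, hH1, hNτ, hNH, hHτ⟩ := hq
  rw [abs_le] at hx
  have hH0 : 0 < H := by linarith
  have g1 := good_fJ hn' τ H hH0 (a := 1 / 4) (b := 1) (by norm_num) (by norm_num)
  have g2 := good_fS hn' (N := N) (by linarith) τ H hH0 (a := 1 / 4) (b := 1) (by norm_num)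
  have g3 := good_fK hn' (N := N) (by linarith) τ H hH0 (a := 1 / 4) (b := 1) (by norm_num)
    (by norm_num)
  have hm : 1 / 2 + c / Real.log N ∈ Icc (1 / 4 : ℝ) 1 := ⟨by linarith, by linarith⟩
  have e : ∀ z, fJ n τ H z = fS n N τ H z + fK n N τ H z := by
    intro z; unfold fJ fS fK; ring
  refine ⟨VV_add_le g2 g3 g1 hp1 hm fun z => ?_, VV_add_le g1 g3 g2 hp1 hm fun z => ?_,
    VV_add_le g1 g2 g3 hp1 hm fun z => ?_⟩
  · rw [e]; exact norm_add_le _ _
  · have : fS n N τ H z = fJ n τ H z - fK n N τ H z := by rw [e]; ring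
    rw [this]; exact norm_sub_le _ _
  · have : fK n N τ H z = fJ n τ H z - fS n N τ H z := by rw [e]; ring
    rw [this]; exact norm_sub_le _ _

lemma UU_ge (n : ℕ) (hn : 0 < n) (M : ℝ) : ∀ᶠ q : ℝ × ℝ × ℝ in F0, M ≤ UU n q.1 :=
  ((UU_tendsto hn).comp tendsto_fst).eventually_ge_atTop M

/-- local lower bound -/
theorem local_lower {n : ℕ} (hn : 2 ≤ n) {x0 a b : ℝ} (hx0 : 0 < x0) (ha : 0 < a) (hab : a < b)
    (hcond : x0 ^ (1 - a / b) * (FF n b + Real.exp (-(2 / (n : ℝ) * b)) * (x0 + 1)) ^ (a / b) <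
      FF n a - Real.exp (-(2 / (n : ℝ) * a)) * (x0 + 1)) :
    ∀ᶠ q : ℝ × ℝ × ℝ in F0, x0 * UU n q.1 ≤ VV (fJ n q.2.2 q.2.1) (2 / (n : ℝ)) (1 / 2) := by
  have hn' : 0 < n := by omega
  have hb : 0 < b := by linarith
  set p : ℝ := 2 / (n : ℝ) with hp
  set y : ℝ → ℝ := fun ε => FF n b + ε + (1 + ε) * Real.exp (-(p * (b + 0))) * (x0 + 1 + ε) with hy
  set g : ℝ → ℝ := fun ε => x0 ^ (1 - a / b) * (y ε) ^ (a / b) -
    (FF n a - ε - (1 + ε) * Real.exp (-(p * (a + 0))) * (x0 + 1 + ε)) with hg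
  have hgc : ContinuousAt g 0 := by
    have hyc : ContinuousAt y 0 := by fun_prop
    refine ContinuousAt.sub (ContinuousAt.mul continuousAt_const
      (hyc.rpow_const (Or.inr (by positivity)))) (by fun_prop)
  have hg0 : g 0 < 0 := by
    simp only [hg, hy]
    rw [add_zero, add_zero, add_zero, add_zero, add_zero, sub_zero, one_mul, one_mul]
    linarith
  have hev : ∀ᶠ ε in 𝓝[>] (0 : ℝ), g ε < 0 :=
    (hgc.tendsto.mono_left nhdsWithin_le_nhds).eventually_lt_const hg0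
  obtain ⟨ε, hgε, hε⟩ := (hev.and self_mem_nhdsWithin).exists
  have hε0 : 0 < ε := hε
  have hS0 := S_le hn 0 hε0
  rw [FF_zero hn'] at hS0
  filter_upwards [F0_basic, S_ge hn a hε0, S_le hn b hε0, hS0, tri hn 0, tri hn a, tri hn b,
    K_interp hn (c := a) (d := 0) (by linarith) hε0, K_interp hn (c := b) (d := 0) (by linarith) hε0,
    J_interp hn ha hab, UU_ge n hn' 1] with q hq sa sb s0 t0 ta tb ka kb ji hU1
  obtain ⟨N, H, τ⟩ := q
  simp only [zero_div, add_zero, sub_zero] at hq sa sb s0 t0 ta tb ka kb ji hU1 ⊢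
  by_contra hcon
  push Not at hcon
  set U := UU n N with hU
  have hU0 : 0 < U := by linarith
  have hX : 1 ≤ (x0 + 1 + ε) * U := by nlinarith
  have hK0 : VV (fK n N τ H) p (1 / 2) ≤ (x0 + 1 + ε) * U := by
    have := t0.2.2
    linarith
  have ka' := ka _ hX hK0
  have kb' := kb _ hX hK0
  have hFb := FF_nonneg hn' b
  have hyε : y ε = FF n b + ε + (1 + ε) * Real.exp (-(p * b)) * (x0 + 1 + ε) := by
    simp only [hy, add_zero]
  have hy0 : 0 < y ε := by
    rw [hyε]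
    positivity
  have hJb : VV (fJ n τ H) p (1 / 2 + b / Real.log N) ≤ y ε * U := by
    have := tb.1
    rw [hyε]
    linarith
  have hJa := ji (x0 * U) (y ε * U) (by positivity) (by positivity) hcon.le hJb
  rw [Real.mul_rpow hx0.le hU0.le, Real.mul_rpow hy0.le hU0.le] at hJa
  have e1 : x0 ^ (1 - a / b) * U ^ (1 - a / b) * ((y ε) ^ (a / b) * U ^ (a / b)) =
      x0 ^ (1 - a / b) * (y ε) ^ (a / b) * U := by
    have : U ^ (1 - a / b) * U ^ (a / b) = U := by
      rw [← Real.rpow_add hU0, sub_add_cancel, Real.rpow_one]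
    calc _ = x0 ^ (1 - a / b) * (y ε) ^ (a / b) * (U ^ (1 - a / b) * U ^ (a / b)) := by ring
      _ = _ := by rw [this]
  rw [e1] at hJa
  have h1 := ta.2.1
  have h2 : (FF n a - ε) * U ≤ x0 ^ (1 - a / b) * (y ε) ^ (a / b) * U +
      (1 + ε) * Real.exp (-(p * a)) * ((x0 + 1 + ε) * U) := by linarith
  have h3 : g ε * U < 0 := mul_neg_of_neg_of_pos hgε hU0
  simp only [hg, add_zero] at h3
  have : (x0 ^ (1 - a / b) * y ε ^ (a / b) -
      (FF n a - ε - (1 + ε) * Real.exp (-(p * a)) * (x0 + 1 + ε))) * U =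
      x0 ^ (1 - a / b) * (y ε) ^ (a / b) * U + (1 + ε) * Real.exp (-(p * a)) * ((x0 + 1 + ε) * U) -
      (FF n a - ε) * U := by ring
  rw [this] at h3
  linarith

/-- the constants of the upper bound -/
def jd (n : ℕ) (β d : ℝ) : ℝ :=
  (FF n d + Real.exp (-(2 / (n : ℝ) * (d + d))) * FF n (-d)) /
    (1 - Real.exp (-(2 / (n : ℝ) * (d + d))) * Real.exp (2 / (n : ℝ) * d * β))

def jc (n : ℕ) (β c d : ℝ) : ℝ :=
  FF n c + Real.exp (-(2 / (n : ℝ) * (c + d))) *
    (Real.exp (2 / (n : ℝ) * d * β) * jd n β d + FF n (-d))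

/-- local upper bound -/
theorem local_upper {n : ℕ} (hn : 2 ≤ n) {β c d C : ℝ} (hβ : β < 2) (hc : 0 < c) (hd : 0 < d)
    (hC : Real.exp (1 / (n : ℝ) * c * β) * jc n β c d < C) :
    ∀ᶠ q : ℝ × ℝ × ℝ in F1 β, VV (fJ n q.2.2 q.2.1) (2 / (n : ℝ)) (1 / 2) ≤ C * UU n q.1 := by
  have hn' : 0 < n := by omega
  set p : ℝ := 2 / (n : ℝ) with hp
  have hp0 : 0 < p := by positivity
  set r : ℝ := Real.exp (-(p * (d + d))) * Real.exp (p * d * β) with hr
  have hr1 : r < 1 := by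
    rw [hr, ← Real.exp_add, Real.exp_lt_one_iff]
    have : 0 < p * d := by positivity
    nlinarith
  have hr0 : 0 < r := by positivity
  have hFd := FF_nonneg hn' d
  have hFc := FF_nonneg hn' c
  have hFmd := FF_nonneg hn' (-d)
  set A : ℝ → ℝ := fun ε => (FF n d + ε + (1 + ε) * Real.exp (-(p * (d + d))) * (FF n (-d) + 3 * ε)) /
    (1 - (1 + ε) ^ 2 * r) with hA
  set B : ℝ → ℝ := fun ε => FF n c + ε + (1 + ε) * Real.exp (-(p * (c + d))) *
    ((1 + ε) * Real.exp (p * d * β) * A ε + FF n (-d) + 3 * ε) with hB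
  set g : ℝ → ℝ := fun ε => (((1 + ε) * Real.exp (p * c * β) * B ε + ε) ^ ((1 : ℝ) / 2)) *
    (B ε) ^ ((1 : ℝ) / 2) with hg
  have hden : (1 - (1 + (0 : ℝ)) ^ 2 * r) ≠ 0 := by
    have : 1 - (1 + (0 : ℝ)) ^ 2 * r = 1 - r := by ring
    rw [this]; exact ne_of_gt (by linarith)
  have hAc : ContinuousAt A 0 := by
    refine ContinuousAt.div (by fun_prop) (by fun_prop) hden
  have hBc : ContinuousAt B 0 := by fun_prop
  have hgc : ContinuousAt g 0 := by
    refine ContinuousAt.mul (ContinuousAt.rpow_const (by fun_prop) (Or.inr (by norm_num)))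
      (hBc.rpow_const (Or.inr (by norm_num)))
  have hA0 : A 0 = jd n β d := by
    simp only [hA, jd, hr, hp]
    norm_num
  have hB0 : B 0 = jc n β c d := by
    simp only [hB, jc, hA0]
    norm_num
    rw [hp]
  have hjd0 : 0 ≤ jd n β d := by
    unfold jd
    apply div_nonneg (by positivity)
    have := hr1
    rw [hr] at this
    linarith
  have hjc0 : 0 ≤ jc n β c d := by unfold jc; positivity
  have hg0 : g 0 < C := by
    refine lt_of_eq_of_lt ?_ hC
    simp only [hg, hB0]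
    rw [add_zero, add_zero, one_mul, Real.mul_rpow (Real.exp_pos _).le hjc0, mul_assoc,
      ← Real.rpow_add' hjc0 (by norm_num), ← Real.exp_mul]
    norm_num
    left
    rw [hp]
    ring
  have hev : ∀ᶠ ε in 𝓝[>] (0 : ℝ), g ε < C :=
    (hgc.tendsto.mono_left nhdsWithin_le_nhds).eventually_lt_const hg0
  have hev2 : ∀ᶠ ε in 𝓝[>] (0 : ℝ), 0 < 1 - (1 + ε) ^ 2 * r := by
    have hcont : ContinuousAt (fun ε : ℝ => 1 - (1 + ε) ^ 2 * r) 0 := by fun_prop
    have h0 : 0 < 1 - (1 + (0 : ℝ)) ^ 2 * r := by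
      have : 1 - (1 + (0 : ℝ)) ^ 2 * r = 1 - r := by ring
      rw [this]; linarith
    exact (hcont.tendsto.mono_left nhdsWithin_le_nhds).eventually_const_lt h0
  obtain ⟨ε, ⟨hgε, hden2⟩, hε⟩ := ((hev.and hev2).and self_mem_nhdsWithin).exists
  have hε0 : 0 < ε := hε
  have hle := F1_le β
  filter_upwards [hle F0_basic, hle (S_le hn c hε0), hle (S_le hn d hε0), hle (S_le hn (-d) hε0),
    hle (tri hn c), hle (tri hn d), hle (tri hn (-d)),
    hle (K_interp hn (c := c) (d := d) (by linarith) hε0),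
    hle (K_interp hn (c := d) (d := d) (by linarith) hε0),
    J_left' hn (β := β) hc hε0, J_left' hn (β := β) hd hε0,
    hle (J_mid hn hc), hle (UU_ge n hn' 1), hle (UU_ge n hn' (1 / ε))] with q hq sc' sd smd tc td tmd
      kc kd jlc jld jm hU1 hUε
  obtain ⟨N, H, τ⟩ := q
  simp only [neg_div, ← sub_eq_add_neg] at hq sc' sd smd tc td tmd kc kd jlc jld jm hU1 hUε ⊢
  set U := UU n N with hU
  have hU0 : 0 < U := by linarith
  have hεU : 1 ≤ ε * U := by
    rw [div_le_iff₀ hε0] at hUε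
    linarith
  have hε1 : ε ≤ ε * U := by nlinarith
  set Jd := VV (fJ n τ H) p (1 / 2 + d / Real.log N) with hJd
  set Jmd := VV (fJ n τ H) p (1 / 2 - d / Real.log N) with hJmd
  set Jc := VV (fJ n τ H) p (1 / 2 + c / Real.log N) with hJc
  set Smd := VV (fS n N τ H) p (1 / 2 - d / Real.log N) with hSmd
  set Kmd := VV (fK n N τ H) p (1 / 2 - d / Real.log N) with hKmd
  have hJd0 : 0 ≤ Jd := VV_nonneg _ _ _
  have hJc0 : 0 ≤ Jc := VV_nonneg _ _ _
  have hSmd0 : 0 ≤ Smd := VV_nonneg _ _ _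
  have hE := Real.exp_pos (p * d * β)
  have hE2 := Real.exp_pos (-(p * (d + d)))
  have hE3 := Real.exp_pos (-(p * (c + d)))
  have hE4 := Real.exp_pos (p * c * β)
  -- the bound for `Jd`
  have hX1 : 1 ≤ (1 + ε) * Real.exp (p * d * β) * Jd + ε + Smd + 1 := by
    have : 0 ≤ (1 + ε) * Real.exp (p * d * β) * Jd := by positivity
    linarith
  have hK1 : Kmd ≤ (1 + ε) * Real.exp (p * d * β) * Jd + ε + Smd + 1 := by
    have := tmd.2.2
    linarith
  have kd' := kd _ hX1 hK1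
  have hd1 := td.1
  have hJdle : Jd ≤ A ε * U := by
    simp only [hA]
    rw [div_mul_eq_mul_div, le_div_iff₀ hden2]
    have e1 : (1 + ε) * Real.exp (-(p * (d + d))) *
        ((1 + ε) * Real.exp (p * d * β) * Jd + ε + Smd + 1) =
        (1 + ε) ^ 2 * r * Jd + (1 + ε) * Real.exp (-(p * (d + d))) * (ε + Smd + 1) := by
      rw [hr]; ring
    rw [e1] at kd'
    have e2 : (1 + ε) * Real.exp (-(p * (d + d))) * (ε + Smd + 1) ≤
        (1 + ε) * Real.exp (-(p * (d + d))) * ((FF n (-d) + 3 * ε) * U) := by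
      apply mul_le_mul_of_nonneg_left _ (by positivity)
      linarith
    nlinarith
  have hAε : 0 ≤ A ε := by
    simp only [hA]
    positivity
  -- the bound for `Jc`
  have hX2 : 1 ≤ ((1 + ε) * Real.exp (p * d * β) * A ε + FF n (-d) + 3 * ε) * U := by
    have h1 : 0 ≤ ((1 + ε) * Real.exp (p * d * β) * A ε + FF n (-d) + 2 * ε) * U := by positivity
    linarith
  have hK2 : Kmd ≤ ((1 + ε) * Real.exp (p * d * β) * A ε + FF n (-d) + 3 * ε) * U := by
    have h1 := tmd.2.2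
    have h2 : (1 + ε) * Real.exp (p * d * β) * Jd ≤ (1 + ε) * Real.exp (p * d * β) * (A ε * U) := by
      gcongr
    linarith
  have kc' := kc _ hX2 hK2
  have hJcle : Jc ≤ B ε * U := by
    have h1 := tc.1
    simp only [hB]
    linarith
  have hBε : 0 < B ε := by
    simp only [hB]
    positivity
  have hJmc : VV (fJ n τ H) p (1 / 2 - c / Real.log N) ≤
      ((1 + ε) * Real.exp (p * c * β) * B ε + ε) * U := by
    have h2 : (1 + ε) * Real.exp (p * c * β) * Jc ≤ (1 + ε) * Real.exp (p * c * β) * (B ε * U) := by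
      gcongr
    linarith
  have hfin := jm _ _ (by positivity) (by positivity) hJmc hJcle
  refine hfin.trans ?_
  rw [Real.mul_rpow (by positivity) hU0.le, Real.mul_rpow hBε.le hU0.le]
  have e3 : U ^ ((1 : ℝ) / 2) * U ^ ((1 : ℝ) / 2) = U := by
    rw [← Real.rpow_add hU0]; norm_num
  have e4 : ((1 + ε) * Real.exp (p * c * β) * B ε + ε) ^ ((1 : ℝ) / 2) * U ^ ((1 : ℝ) / 2) *
      ((B ε) ^ ((1 : ℝ) / 2) * U ^ ((1 : ℝ) / 2)) = g ε * (U ^ ((1 : ℝ) / 2) * U ^ ((1 : ℝ) / 2)) := by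
    simp only [hg]; ring
  rw [e4, e3]
  exact mul_le_mul_of_nonneg_right hgε.le hU0.le

end

end Pool.Agent.Q255.FM
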