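import Pool.Agent.Q255.FM.W2

set_option autoImplicit false

/-!
Gaussian mean square of the Dirichlet polynomial.
-/

open Filter MeasureTheory Metric Set Topology
open Pool.Agent.H306R2

namespace Pool.Agent.Q255.FM

noncomputable section

lemma cos_gw_integral (τ H : ℝ) (hH : 0 < H) (θ : ℝ) :
    ∫ y : ℝ, Real.cos (y * θ) * gw τ H y = Real.cos (τ * θ) * Real.exp (-(H ^ 2 * θ ^ 2 / 4)) := by
  have h := gauss_exp τ H hH 0 θ
  have e1 : ∀ y : ℝ, Complex.exp ((((1 / 2 + 0 : ℝ) : ℂ) + y * Complex.I) * θ) *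
      Wa τ H (((1 / 2 + 0 : ℝ) : ℂ) + y * Complex.I) =
      (Real.exp (θ / 2) : ℂ) * (Complex.exp ((y * θ : ℝ) * Complex.I) * (gw τ H y : ℂ)) := by
    intro y
    have : (((1 / 2 + 0 : ℝ) : ℂ) + y * Complex.I) = 1 / 2 + y * Complex.I := by push_cast; ring
    rw [this, Wa_half, ← mul_assoc]
    congr 1
    rw [Complex.ofReal_exp, ← Complex.exp_add]
    congr 1
    push_cast
    ring
  simp_rw [e1] at h
  rw [integral_const_mul] at h
  have e2 : Complex.exp ((1 / 2 + τ * Complex.I) * θ) =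
      (Real.exp (θ / 2) : ℂ) * Complex.exp ((τ * θ : ℝ) * Complex.I) := by
    rw [Complex.ofReal_exp, ← Complex.exp_add]
    congr 1
    push_cast
    ring
  rw [e2, mul_assoc] at h
  have hne : (Real.exp (θ / 2) : ℂ) ≠ 0 := by exact_mod_cast (Real.exp_pos _).ne'
  have h' := mul_left_cancel₀ hne h
  have hint : Integrable (fun y : ℝ => Complex.exp ((y * θ : ℝ) * Complex.I) * (gw τ H y : ℂ)) := by
    refine ((gw_integrable τ H hH).ofReal (𝕜 := ℂ)).bdd_mul (c := 1) ?_ ?_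
    · exact (by fun_prop : Continuous fun y : ℝ => Complex.exp ((y * θ : ℝ) * Complex.I)).aestronglyMeasurable
    · filter_upwards with y
      rw [Complex.norm_exp_ofReal_mul_I]
  have h2 := congrArg Complex.re h'
  rw [← RCLike.re_eq_complex_re, ← integral_re hint] at h2
  rw [RCLike.re_eq_complex_re, Complex.re_mul_ofReal, Complex.exp_ofReal_mul_I_re] at h2
  rw [← h2]
  refine integral_congr_ae (Eventually.of_forall fun y => ?_)
  simp only
  rw [Complex.re_mul_ofReal, Complex.exp_ofReal_mul_I_re]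

/-- coefficients on the line `x` -/
def cm (n : ℕ) (x : ℝ) (m : ℕ) : ℝ := dv (1 / (n : ℝ)) m * (m : ℝ) ^ (-x)

lemma cm_nonneg (n : ℕ) (x : ℝ) (m : ℕ) : 0 ≤ cm n x m := by
  unfold cm
  have := dv_nonneg (α := 1 / (n : ℝ)) (by positivity) m
  positivity

lemma cm_le_one {n : ℕ} (hn : 0 < n) {x : ℝ} (hx : 0 ≤ x) {m : ℕ} (hm : 1 ≤ m) : cm n x m ≤ 1 := by
  have hn0 : (1 : ℝ) ≤ n := by exact_mod_cast hn
  have hm0 : (1 : ℝ) ≤ m := by exact_mod_cast hm
  unfold cm
  have h2 := dv_le_one (κ := 1 / (n : ℝ)) (by positivity) (by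
    rw [div_le_one (by linarith)]; exact hn0) m
  have h3 : (m : ℝ) ^ (-x) ≤ 1 := Real.rpow_le_one_of_one_le_of_nonpos hm0 (by linarith)
  calc _ ≤ (1 : ℝ) * 1 := mul_le_mul h2 h3 (by positivity) (by norm_num)
    _ = 1 := one_mul 1

lemma ncpow_line (m : ℕ) (hm : 1 ≤ m) (x y : ℝ) :
    (m : ℂ) ^ (-((x : ℂ) + y * Complex.I)) =
      (((m : ℝ) ^ (-x) : ℝ) : ℂ) * Complex.exp (-((y * Real.log m : ℝ) * Complex.I)) := by
  have hm0 : (0 : ℝ) < m := by exact_mod_cast hm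
  rw [ncpow_exp m hm, Real.rpow_def_of_pos hm0, Complex.ofReal_exp, ← Complex.exp_add]
  congr 1
  push_cast
  ring

lemma SN_sq (n : ℕ) (N x y : ℝ) :
    ‖SN n N ((x : ℂ) + y * Complex.I)‖ ^ 2 = ∑ m ∈ Finset.Icc 1 ⌊N⌋₊, ∑ k ∈ Finset.Icc 1 ⌊N⌋₊,
      cm n x m * cm n x k * Real.cos (y * (Real.log m - Real.log k)) := by
  have h1 : SN n N ((x : ℂ) + y * Complex.I) =
      ((∑ m ∈ Finset.Icc 1 ⌊N⌋₊, cm n x m * Real.cos (y * Real.log m) : ℝ) : ℂ) +
      ((-(∑ m ∈ Finset.Icc 1 ⌊N⌋₊, cm n x m * Real.sin (y * Real.log m)) : ℝ) : ℂ) * Complex.I := by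
    unfold SN Dp
    push_cast
    rw [neg_mul, Finset.sum_mul, ← sub_eq_add_neg, ← Finset.sum_sub_distrib]
    refine Finset.sum_congr rfl fun m hm => ?_
    rw [Finset.mem_Icc] at hm
    rw [ncpow_line m hm.1, Complex.exp_neg, Complex.exp_mul_I]
    unfold cm
    have h2 : (Complex.cos ((y * Real.log m : ℝ) : ℂ) + Complex.sin ((y * Real.log m : ℝ) : ℂ) * Complex.I)⁻¹ =
        Complex.cos ((y * Real.log m : ℝ) : ℂ) - Complex.sin ((y * Real.log m : ℝ) : ℂ) * Complex.I := by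
      rw [← Complex.exp_mul_I, ← Complex.exp_neg, ← neg_mul, Complex.exp_mul_I, Complex.cos_neg,
        Complex.sin_neg]
      ring
    rw [h2]
    push_cast
    ring
  rw [h1, ← Complex.normSq_eq_norm_sq, Complex.normSq_apply, re_line, im_line]
  set A := ∑ m ∈ Finset.Icc 1 ⌊N⌋₊, cm n x m * Real.cos (y * Real.log m) with hA
  set B := ∑ m ∈ Finset.Icc 1 ⌊N⌋₊, cm n x m * Real.sin (y * Real.log m) with hB
  have h3 : A * A + -B * -B = A * A + B * B := by ring
  rw [h3, hA, hB, Finset.sum_mul_sum, Finset.sum_mul_sum, ← Finset.sum_add_distrib]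
  refine Finset.sum_congr rfl fun m _ => ?_
  rw [← Finset.sum_add_distrib]
  refine Finset.sum_congr rfl fun k _ => ?_
  rw [mul_sub y, Real.cos_sub]
  ring

/-- Gaussian mean square of `SN` -/
def QQ (n : ℕ) (N τ H x : ℝ) : ℝ := ∫ y : ℝ, ‖SN n N ((x : ℂ) + y * Complex.I)‖ ^ 2 * gw τ H y

/-- the diagonal -/
def DD (n : ℕ) (N x : ℝ) : ℝ := ∑ m ∈ Finset.Icc 1 ⌊N⌋₊, cm n x m ^ 2

lemma cos_gw_integrable (τ H : ℝ) (hH : 0 < H) (θ : ℝ) :
    Integrable (fun y : ℝ => Real.cos (y * θ) * gw τ H y) := by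
  refine (gw_integrable τ H hH).bdd_mul (c := 1) ?_ ?_
  · exact (by fun_prop : Continuous fun y : ℝ => Real.cos (y * θ)).aestronglyMeasurable
  · filter_upwards with y
    exact Real.abs_cos_le_one _

lemma log_sep {N : ℝ} {m k : ℕ} (hm : 1 ≤ m) (hk : 1 ≤ k) (hmN : (m : ℝ) ≤ N) (hkN : (k : ℝ) ≤ N)
    (hne : m ≠ k) : (1 / N) ^ 2 ≤ (Real.log m - Real.log k) ^ 2 := by
  have key : ∀ a b : ℕ, 1 ≤ a → a < b → (b : ℝ) ≤ N → 1 / N ≤ Real.log b - Real.log a := by
    intro a b ha hab hb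
    have ha0 : (0 : ℝ) < a := by exact_mod_cast ha
    have hb0 : (0 : ℝ) < b := by exact_mod_cast (by omega : 0 < b)
    have h1 : (a : ℝ) + 1 ≤ b := by exact_mod_cast hab
    rw [← Real.log_div hb0.ne' ha0.ne']
    have h2 : 1 - ((b : ℝ) / a)⁻¹ ≤ Real.log ((b : ℝ) / a) :=
      Real.one_sub_inv_le_log_of_pos (by positivity)
    rw [inv_div] at h2
    refine le_trans ?_ h2
    have h3 : 1 - (a : ℝ) / b = (b - a) / b := by field_simp
    rw [h3]
    calc 1 / N ≤ 1 / b := one_div_le_one_div_of_le hb0 hb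
      _ ≤ (b - a) / b := by gcongr; linarith
  have hN0 : 0 < N := lt_of_lt_of_le (by exact_mod_cast hm) hmN
  have hN1 : 0 ≤ 1 / N := by positivity
  rcases lt_or_gt_of_ne hne with h | h
  · have := key m k hm h hkN
    nlinarith
  · have := key k m hk h hmN
    nlinarith

theorem QQ_sub_DD {n : ℕ} (hn : 0 < n) {N : ℝ} (hN : 1 ≤ N) (τ H : ℝ) (hH : 0 < H) {x : ℝ}
    (hx : 0 ≤ x) : |QQ n N τ H x - DD n N x| ≤ N ^ 2 * Real.exp (-(H ^ 2 / (4 * N ^ 2))) := by
  have h1 : QQ n N τ H x = ∑ m ∈ Finset.Icc 1 ⌊N⌋₊, ∑ k ∈ Finset.Icc 1 ⌊N⌋₊,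
      cm n x m * cm n x k * (Real.cos (τ * (Real.log m - Real.log k)) *
        Real.exp (-(H ^ 2 * (Real.log m - Real.log k) ^ 2 / 4))) := by
    unfold QQ
    simp_rw [SN_sq, Finset.sum_mul]
    rw [integral_finsetSum]
    · refine Finset.sum_congr rfl fun m _ => ?_
      rw [integral_finsetSum]
      · refine Finset.sum_congr rfl fun k _ => ?_
        rw [← cos_gw_integral τ H hH, ← integral_const_mul]
        refine integral_congr_ae (Eventually.of_forall fun y => ?_)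
        simp only
        ring
      · intro k _
        have := (cos_gw_integrable τ H hH (Real.log m - Real.log k)).const_mul (cm n x m * cm n x k)
        refine this.congr (Eventually.of_forall fun y => ?_)
        simp only
        ring
    · intro m _
      refine integrable_finsetSum _ fun k _ => ?_
      have := (cos_gw_integrable τ H hH (Real.log m - Real.log k)).const_mul (cm n x m * cm n x k)
      refine this.congr (Eventually.of_forall fun y => ?_)
      simp only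
      ring
  have h2 : DD n N x = ∑ m ∈ Finset.Icc 1 ⌊N⌋₊, ∑ k ∈ Finset.Icc 1 ⌊N⌋₊,
      (if m = k then cm n x m * cm n x k else 0) := by
    unfold DD
    refine Finset.sum_congr rfl fun m hm => ?_
    rw [Finset.sum_ite_eq, if_pos hm]
    ring
  rw [h1, h2, ← Finset.sum_sub_distrib]
  have hb : ∀ m ∈ Finset.Icc 1 ⌊N⌋₊, ∀ k ∈ Finset.Icc 1 ⌊N⌋₊,
      |cm n x m * cm n x k * (Real.cos (τ * (Real.log m - Real.log k)) *
        Real.exp (-(H ^ 2 * (Real.log m - Real.log k) ^ 2 / 4))) -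
        (if m = k then cm n x m * cm n x k else 0)| ≤ Real.exp (-(H ^ 2 / (4 * N ^ 2))) := by
    intro m hm k hk
    rw [Finset.mem_Icc] at hm hk
    by_cases hmk : m = k
    · subst hmk
      simp only [sub_self, mul_zero, Real.cos_zero, ne_eq, OfNat.ofNat_ne_zero, not_false_eq_true,
        zero_pow, zero_div, neg_zero, Real.exp_zero, mul_one, if_true, abs_zero]
      exact (Real.exp_pos _).le
    · rw [if_neg hmk, sub_zero, abs_mul, abs_mul (Real.cos _), Real.abs_exp]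
      have hmN : (m : ℝ) ≤ N := (Nat.le_floor_iff (by linarith)).mp hm.2
      have hkN : (k : ℝ) ≤ N := (Nat.le_floor_iff (by linarith)).mp hk.2
      have h3 := log_sep hm.1 hk.1 hmN hkN hmk
      have h4 : |cm n x m * cm n x k| ≤ 1 := by
        rw [abs_of_nonneg (mul_nonneg (cm_nonneg _ _ _) (cm_nonneg _ _ _))]
        have := mul_le_mul (cm_le_one hn hx hm.1) (cm_le_one hn hx hk.1) (cm_nonneg _ _ _)
          zero_le_one
        linarith
      have h5 := Real.abs_cos_le_one (τ * (Real.log m - Real.log k))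
      have h6 : Real.exp (-(H ^ 2 * (Real.log m - Real.log k) ^ 2 / 4)) ≤
          Real.exp (-(H ^ 2 / (4 * N ^ 2))) := by
        apply Real.exp_le_exp.mpr
        have h7 : H ^ 2 / (4 * N ^ 2) = H ^ 2 * (1 / N) ^ 2 / 4 := by field_simp
        rw [h7]
        have : H ^ 2 * (1 / N) ^ 2 ≤ H ^ 2 * (Real.log m - Real.log k) ^ 2 := by gcongr
        linarith
      calc _ ≤ (1 : ℝ) * (1 * Real.exp (-(H ^ 2 / (4 * N ^ 2)))) := by
            gcongr
        _ = _ := by ring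
  have hcard : ((Finset.Icc 1 ⌊N⌋₊).card : ℝ) ≤ N := by
    rw [Nat.card_Icc, Nat.add_sub_cancel]
    exact Nat.floor_le (by linarith)
  calc _ ≤ ∑ m ∈ Finset.Icc 1 ⌊N⌋₊, |∑ k ∈ Finset.Icc 1 ⌊N⌋₊,
        cm n x m * cm n x k * (Real.cos (τ * (Real.log m - Real.log k)) *
        Real.exp (-(H ^ 2 * (Real.log m - Real.log k) ^ 2 / 4))) -
        ∑ k ∈ Finset.Icc 1 ⌊N⌋₊, (if m = k then cm n x m * cm n x k else 0)| :=
        Finset.abs_sum_le_sum_abs _ _
    _ ≤ ∑ m ∈ Finset.Icc 1 ⌊N⌋₊, ∑ k ∈ Finset.Icc 1 ⌊N⌋₊, Real.exp (-(H ^ 2 / (4 * N ^ 2))) := by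
        refine Finset.sum_le_sum fun m hm => ?_
        rw [← Finset.sum_sub_distrib]
        exact (Finset.abs_sum_le_sum_abs _ _).trans (Finset.sum_le_sum fun k hk => hb m hm k hk)
    _ = (Finset.Icc 1 ⌊N⌋₊).card * ((Finset.Icc 1 ⌊N⌋₊).card * Real.exp (-(H ^ 2 / (4 * N ^ 2)))) := by
        rw [Finset.sum_const, Finset.sum_const, nsmul_eq_mul, nsmul_eq_mul]
    _ ≤ N * (N * Real.exp (-(H ^ 2 / (4 * N ^ 2)))) := by gcongr
    _ = _ := by ring

end

end Pool.Agent.Q255.FM
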