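import Pool.Agent.Q255.FM.Num

set_option autoImplicit false

/-!
Numerical bounds.
-/

open Filter MeasureTheory Metric Set Topology
open Pool.Agent.H306R2

namespace Pool.Agent.Q255.FM

noncomputable section

/-- the Taylor sum, over the rationals -/
def tq (x : ℚ) (N : ℕ) : ℚ := ∑ j ∈ Finset.range N, x ^ j / (j.factorial : ℚ) * (1 / (4 * j + 1))

def eq' (x : ℚ) (N : ℕ) : ℚ := ∑ j ∈ Finset.range N, x ^ j / (j.factorial : ℚ)

lemma FF2_bound (c : ℚ) (N k : ℕ) (hk : |2 * c| ≤ k) :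
    |FF 2 (c : ℝ) - (tq (-(2 * c)) N : ℚ)| ≤ ((|2 * c| ^ N / (N.factorial : ℚ) * 3 ^ k : ℚ) : ℝ) := by
  have h := FF_taylor (n := 2) (by norm_num) (c : ℝ) N
  have e : ∑ j ∈ Finset.range N, (-(2 * (c : ℝ))) ^ j / (j.factorial : ℝ) *
        ((1 / ((2 : ℕ) : ℝ)) ^ 2 / ((1 / ((2 : ℕ) : ℝ)) ^ 2 + j)) = ((tq (-(2 * c)) N : ℚ) : ℝ) := by
    unfold tq
    push_cast
    refine Finset.sum_congr rfl fun j _ => ?_
    have : (0 : ℝ) ≤ j := Nat.cast_nonneg j
    have h4 : (4 * (j : ℝ) + 1) ≠ 0 := by positivity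
    have h5 : (((1 : ℝ) / 2) ^ 2 + j) ≠ 0 := by positivity
    congr 1
    field_simp
    ring
  rw [e] at h
  refine h.trans ?_
  push_cast
  have h2 : |2 * (c : ℝ)| ≤ k := by exact_mod_cast hk
  gcongr
  exact exp_le_three_pow h2

lemma exp_bound_q (c : ℚ) (N k : ℕ) (hk : |c| ≤ k) :
    |Real.exp (c : ℝ) - (eq' c N : ℚ)| ≤ ((|c| ^ N / (N.factorial : ℚ) * 3 ^ k : ℚ) : ℝ) := by
  have h := exp_taylor (c : ℝ) N
  have e : ∑ j ∈ Finset.range N, (c : ℝ) ^ j / (j.factorial : ℝ) = ((eq' c N : ℚ) : ℝ) := by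
    unfold eq'
    push_cast
    rfl
  rw [e] at h
  refine h.trans ?_
  push_cast
  have h2 : |(c : ℝ)| ≤ k := by exact_mod_cast hk
  gcongr
  exact exp_le_three_pow h2

lemma FF2_le (c : ℚ) (N k : ℕ) (B : ℚ) (hk : |2 * c| ≤ k)
    (h : tq (-(2 * c)) N + |2 * c| ^ N / (N.factorial : ℚ) * 3 ^ k ≤ B) : FF 2 (c : ℝ) ≤ B := by
  have h1 := (abs_le.mp (FF2_bound c N k hk)).2
  have h2 : ((tq (-(2 * c)) N : ℚ) : ℝ) + ((|2 * c| ^ N / (N.factorial : ℚ) * 3 ^ k : ℚ) : ℝ) ≤ (B : ℝ) := by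
    exact_mod_cast h
  linarith

lemma FF2_ge (c : ℚ) (N k : ℕ) (B : ℚ) (hk : |2 * c| ≤ k)
    (h : B ≤ tq (-(2 * c)) N - |2 * c| ^ N / (N.factorial : ℚ) * 3 ^ k) : (B : ℝ) ≤ FF 2 (c : ℝ) := by
  have h1 := (abs_le.mp (FF2_bound c N k hk)).1
  have h2 : (B : ℝ) ≤ ((tq (-(2 * c)) N : ℚ) : ℝ) - ((|2 * c| ^ N / (N.factorial : ℚ) * 3 ^ k : ℚ) : ℝ) := by
    exact_mod_cast h
  linarith

lemma exp_le_q (c : ℚ) (N k : ℕ) (B : ℚ) (hk : |c| ≤ k)
    (h : eq' c N + |c| ^ N / (N.factorial : ℚ) * 3 ^ k ≤ B) : Real.exp (c : ℝ) ≤ B := by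
  have h1 := (abs_le.mp (exp_bound_q c N k hk)).2
  have h2 : ((eq' c N : ℚ) : ℝ) + ((|c| ^ N / (N.factorial : ℚ) * 3 ^ k : ℚ) : ℝ) ≤ (B : ℝ) := by
    exact_mod_cast h
  linarith

/-! ### rational arithmetic -/

lemma f8 : FF 2 8 ≤ 0.453202 := by
  have h := FF2_le 8 70 16 (453202 / 1000000) (by norm_num) (by decide +kernel)
  push_cast at h
  norm_num at h ⊢
  exact h

lemma f16 : 0.501549 ≤ FF 2 (16 / 3) := by
  have h := FF2_ge (16 / 3) 50 11 (501549 / 1000000) (by norm_num) (by decide +kernel)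
  push_cast at h
  norm_num at h ⊢
  exact h

lemma e8 : Real.exp (-8) ≤ 0.000336 := by
  have h := exp_le_q (-8) 50 8 (336 / 1000000) (by norm_num) (by decide +kernel)
  push_cast at h
  norm_num at h ⊢
  exact h

lemma e16 : Real.exp (-(16 / 3)) ≤ 0.004829 := by
  have h := exp_le_q (-(16 / 3)) 40 6 (4829 / 1000000) (by norm_num) (by decide +kernel)
  push_cast at h
  norm_num at h ⊢
  exact h

lemma f22 : FF 2 (11 / 5) ≤ 0.62523 := by
  have h := FF2_le (11 / 5) 30 5 (62523 / 100000) (by norm_num) (by decide +kernel)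
  push_cast at h
  norm_num at h ⊢
  exact h

lemma fm22 : FF 2 (-(11 / 5)) ≤ 6.42211 := by
  have h := FF2_le (-(11 / 5)) 30 5 (642211 / 100000) (by norm_num) (by decide +kernel)
  push_cast at h
  norm_num at h ⊢
  exact h

lemma f12 : FF 2 (6 / 5) ≤ 0.72064 := by
  have h := FF2_le (6 / 5) 30 3 (72064 / 100000) (by norm_num) (by decide +kernel)
  push_cast at h
  norm_num at h ⊢
  exact h

lemma em44 : Real.exp (-(22 / 5)) ≤ 0.012278 := by
  have h := exp_le_q (-(22 / 5)) 40 5 (12278 / 1000000) (by norm_num) (by decide +kernel)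
  push_cast at h
  norm_num at h ⊢
  exact h

lemma em34 : Real.exp (-(17 / 5)) ≤ 0.033374 := by
  have h := exp_le_q (-(17 / 5)) 40 4 (33374 / 1000000) (by norm_num) (by decide +kernel)
  push_cast at h
  norm_num at h ⊢
  exact h

lemma e22011 : Real.exp (11 / 5 * (2001 / 2000)) ≤ 9.03495 := by
  have h := exp_le_q (11 / 5 * (2001 / 2000)) 40 3 (903495 / 100000) (by norm_num) (by decide +kernel)
  push_cast at h
  norm_num at h ⊢
  exact h

lemma e06 : Real.exp (3 / 5 * (2001 / 2000)) ≤ 1.82267 := by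
  have h := exp_le_q (3 / 5 * (2001 / 2000)) 30 1 (182267 / 100000) (by norm_num) (by decide +kernel)
  push_cast at h
  norm_num at h ⊢
  exact h

lemma hcond2 : (0.5851 : ℝ) ^ (1 - (16 / 3 : ℝ) / 8) *
    (FF 2 8 + Real.exp (-(2 / ((2 : ℕ) : ℝ) * 8)) * (0.5851 + 1)) ^ ((16 / 3 : ℝ) / 8) <
      FF 2 (16 / 3) - Real.exp (-(2 / ((2 : ℕ) : ℝ) * (16 / 3))) * (0.5851 + 1) := by
  have h2 : (2 : ℝ) / ((2 : ℕ) : ℝ) = 1 := by norm_num
  rw [h2, one_mul, one_mul]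
  have hF := FF_nonneg (n := 2) (by norm_num) 8
  have hE := Real.exp_pos (-8)
  have hE2 := Real.exp_pos (-(16 / 3))
  set Y : ℝ := FF 2 8 + Real.exp (-8) * (0.5851 + 1) with hY
  set Z : ℝ := FF 2 (16 / 3) - Real.exp (-(16 / 3)) * (0.5851 + 1) with hZ
  have hY0 : 0 ≤ Y := by positivity
  have hY1 : Y ≤ 0.453735 := by
    have := f8
    have := e8
    rw [hY]; nlinarith
  have hZ1 : 0.493894 ≤ Z := by
    have := f16
    have := e16
    rw [hZ]; nlinarith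
  have e1 : (1 : ℝ) - (16 / 3 : ℝ) / 8 = 1 / 3 := by norm_num
  have e2 : (16 / 3 : ℝ) / 8 = 2 * (1 / 3) := by norm_num
  rw [e1, e2, Real.rpow_mul hY0, Real.rpow_two, ← Real.mul_rpow (by norm_num) (by positivity)]
  have h3 : 0.5851 * Y ^ 2 < Z ^ 3 := by
    have a1 : Y ^ 2 ≤ 0.453735 ^ 2 := pow_le_pow_left₀ hY0 hY1 2
    have a2 : (0.493894 : ℝ) ^ 3 ≤ Z ^ 3 := pow_le_pow_left₀ (by norm_num) hZ1 3
    have a3 : (0.5851 : ℝ) * 0.453735 ^ 2 < 0.493894 ^ 3 := by norm_num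
    nlinarith
  have hZ0 : 0 ≤ Z := by linarith
  calc (0.5851 * Y ^ 2) ^ ((1 : ℝ) / 3) < (Z ^ 3) ^ ((1 : ℝ) / 3) :=
        Real.rpow_lt_rpow (by positivity) h3 (by norm_num)
    _ = Z := by
        rw [← Real.rpow_natCast Z 3, ← Real.rpow_mul hZ0]
        norm_num

lemma hC2 : Real.exp (1 / ((2 : ℕ) : ℝ) * (6 / 5) * (2001 / 2000)) *
    jc 2 (2001 / 2000) (6 / 5) (11 / 5) < 2.14 := by
  have h2 : (2 : ℝ) / ((2 : ℕ) : ℝ) = 1 := by norm_num
  unfold jc jd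
  rw [h2]
  have g1 : (1 : ℝ) / ((2 : ℕ) : ℝ) * (6 / 5) * (2001 / 2000) = 3 / 5 * (2001 / 2000) := by norm_num
  have g2 : -((1 : ℝ) * (6 / 5 + 11 / 5)) = -(17 / 5) := by norm_num
  have g3 : (1 : ℝ) * (11 / 5) * (2001 / 2000) = 11 / 5 * (2001 / 2000) := by norm_num
  have g4 : -((1 : ℝ) * (11 / 5 + 11 / 5)) = -(22 / 5) := by norm_num
  rw [g1, g2, g3, g4]
  have p1 := Real.exp_pos (3 / 5 * (2001 / 2000))
  have p2 := Real.exp_pos (-(17 / 5))
  have p3 := Real.exp_pos (11 / 5 * (2001 / 2000))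
  have p4 := Real.exp_pos (-(22 / 5))
  have q1 := e06
  have q2 := em34
  have q3 := e22011
  have q4 := em44
  have r1 := f12
  have r2 := f22
  have r3 := fm22
  have s1 := FF_nonneg (n := 2) (by norm_num) (6 / 5)
  have s2 := FF_nonneg (n := 2) (by norm_num) (11 / 5)
  have s3 := FF_nonneg (n := 2) (by norm_num) (-(11 / 5))
  generalize Real.exp (3 / 5 * (2001 / 2000)) = E1 at *
  generalize Real.exp (-(17 / 5)) = E2 at *
  generalize Real.exp (11 / 5 * (2001 / 2000)) = E3 at *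
  generalize Real.exp (-(22 / 5)) = E4 at *
  generalize FF 2 (6 / 5) = F1 at *
  generalize FF 2 (11 / 5) = F2 at *
  generalize FF 2 (-(11 / 5)) = F3 at *
  have t1 : E4 * E3 ≤ 0.012278 * 9.03495 := mul_le_mul q4 q3 p3.le (by norm_num)
  have t2 : F2 + E4 * F3 ≤ 0.62523 + 0.012278 * 6.42211 := by
    have : E4 * F3 ≤ 0.012278 * 6.42211 := mul_le_mul q4 r3 s3 (by norm_num)
    linarith
  have t3 : (F2 + E4 * F3) / (1 - E4 * E3) ≤ 0.79194 := by
    rw [div_le_iff₀ (by norm_num at t1 ⊢; linarith)]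
    norm_num at t1 t2 ⊢
    linarith
  have t30 : 0 ≤ (F2 + E4 * F3) / (1 - E4 * E3) := by
    apply div_nonneg (by positivity)
    norm_num at t1 ⊢
    linarith
  generalize (F2 + E4 * F3) / (1 - E4 * E3) = J at *
  have t4 : E3 * J ≤ 9.03495 * 0.79194 := mul_le_mul q3 t3 t30 (by norm_num)
  have t5 : E2 * (E3 * J + F3) ≤ 0.033374 * (9.03495 * 0.79194 + 6.42211) :=
    mul_le_mul q2 (by linarith) (by positivity) (by norm_num)
  have t6 : E1 * (F1 + E2 * (E3 * J + F3)) ≤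
      1.82267 * (0.72064 + 0.033374 * (9.03495 * 0.79194 + 6.42211)) :=
    mul_le_mul q1 (by linarith) (by positivity) (by norm_num)
  refine lt_of_le_of_lt t6 (by norm_num)

lemma f11 : FF 2 (11 / 10) ≤ 0.7343 := by
  have h := FF2_le (11 / 10) 30 3 (7343 / 10000) (by norm_num) (by decide +kernel)
  push_cast at h
  norm_num at h ⊢
  exact h

lemma em33 : Real.exp (-(33 / 10)) ≤ 0.036884 := by
  have h := exp_le_q (-(33 / 10)) 40 4 (36884 / 1000000) (by norm_num) (by decide +kernel)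
  push_cast at h
  norm_num at h ⊢
  exact h

lemma e2445 : Real.exp (11 / 5 * (1389 / 1250)) ≤ 11.5265 := by
  have h := exp_le_q (11 / 5 * (1389 / 1250)) 40 3 (115265 / 10000) (by norm_num) (by decide +kernel)
  push_cast at h
  norm_num at h ⊢
  exact h

lemma e0611 : Real.exp (11 / 20 * (1389 / 1250)) ≤ 1.84259 := by
  have h := exp_le_q (11 / 20 * (1389 / 1250)) 30 1 (184259 / 100000) (by norm_num) (by decide +kernel)
  push_cast at h
  norm_num at h ⊢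
  exact h

lemma hC9 : Real.exp (1 / ((2 : ℕ) : ℝ) * (11 / 10) * (1389 / 1250)) *
    jc 2 (1389 / 1250) (11 / 10) (11 / 5) < 2.44 := by
  have h2 : (2 : ℝ) / ((2 : ℕ) : ℝ) = 1 := by norm_num
  unfold jc jd
  rw [h2]
  have g1 : (1 : ℝ) / ((2 : ℕ) : ℝ) * (11 / 10) * (1389 / 1250) = 11 / 20 * (1389 / 1250) := by norm_num
  have g2 : -((1 : ℝ) * (11 / 10 + 11 / 5)) = -(33 / 10) := by norm_num
  have g3 : (1 : ℝ) * (11 / 5) * (1389 / 1250) = 11 / 5 * (1389 / 1250) := by norm_num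
  have g4 : -((1 : ℝ) * (11 / 5 + 11 / 5)) = -(22 / 5) := by norm_num
  rw [g1, g2, g3, g4]
  have p1 := Real.exp_pos (11 / 20 * (1389 / 1250))
  have p2 := Real.exp_pos (-(33 / 10))
  have p3 := Real.exp_pos (11 / 5 * (1389 / 1250))
  have p4 := Real.exp_pos (-(22 / 5))
  have q1 := e0611
  have q2 := em33
  have q3 := e2445
  have q4 := em44
  have r1 := f11
  have r2 := f22
  have r3 := fm22
  have s1 := FF_nonneg (n := 2) (by norm_num) (11 / 10)
  have s2 := FF_nonneg (n := 2) (by norm_num) (11 / 5)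
  have s3 := FF_nonneg (n := 2) (by norm_num) (-(11 / 5))
  generalize Real.exp (11 / 20 * (1389 / 1250)) = E1 at *
  generalize Real.exp (-(33 / 10)) = E2 at *
  generalize Real.exp (11 / 5 * (1389 / 1250)) = E3 at *
  generalize Real.exp (-(22 / 5)) = E4 at *
  generalize FF 2 (11 / 10) = F1 at *
  generalize FF 2 (11 / 5) = F2 at *
  generalize FF 2 (-(11 / 5)) = F3 at *
  have t1 : E4 * E3 ≤ 0.012278 * 11.5265 := mul_le_mul q4 q3 p3.le (by norm_num)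
  have t2 : F2 + E4 * F3 ≤ 0.62523 + 0.012278 * 6.42211 := by
    have : E4 * F3 ≤ 0.012278 * 6.42211 := mul_le_mul q4 r3 s3 (by norm_num)
    linarith
  have t3 : (F2 + E4 * F3) / (1 - E4 * E3) ≤ 0.8202 := by
    rw [div_le_iff₀ (by norm_num at t1 ⊢; linarith)]
    norm_num at t1 t2 ⊢
    linarith
  have t30 : 0 ≤ (F2 + E4 * F3) / (1 - E4 * E3) := by
    apply div_nonneg (by positivity)
    norm_num at t1 ⊢
    linarith
  generalize (F2 + E4 * F3) / (1 - E4 * E3) = J at *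
  have t4 : E3 * J ≤ 11.5265 * 0.8202 := mul_le_mul q3 t3 t30 (by norm_num)
  have t5 : E2 * (E3 * J + F3) ≤ 0.036884 * (11.5265 * 0.8202 + 6.42211) :=
    mul_le_mul q2 (by linarith) (by positivity) (by norm_num)
  have t6 : E1 * (F1 + E2 * (E3 * J + F3)) ≤
      1.84259 * (0.7343 + 0.036884 * (11.5265 * 0.8202 + 6.42211)) :=
    mul_le_mul q1 (by linarith) (by positivity) (by norm_num)
  refine lt_of_le_of_lt t6 (by norm_num)

end

end Pool.Agent.Q255.FM
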