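import Pool.Agent.Q255.FM.Num2

set_option autoImplicit false

/-!
Numerical bounds for the exponents `2/n`, `n ≥ 3`.
-/

open Filter MeasureTheory Metric Set Topology
open Pool.Agent.H306R2

namespace Pool.Agent.Q255.FM

noncomputable section

/-- the Taylor sum, over the rationals -/
def tn (n : ℕ) (x : ℚ) (N : ℕ) : ℚ :=
  ∑ j ∈ Finset.range N, x ^ j / (j.factorial : ℚ) * (1 / ((n : ℚ) ^ 2 * j + 1))

lemma FFn_bound {n : ℕ} (hn : 0 < n) (c : ℚ) (N k : ℕ) (hk : |2 * c| ≤ k) :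
    |FF n (c : ℝ) - (tn n (-(2 * c)) N : ℚ)| ≤ ((|2 * c| ^ N / (N.factorial : ℚ) * 3 ^ k : ℚ) : ℝ) := by
  have h := FF_taylor hn (c : ℝ) N
  have hn0 : (0 : ℝ) < n := by exact_mod_cast hn
  have e : ∑ j ∈ Finset.range N, (-(2 * (c : ℝ))) ^ j / (j.factorial : ℝ) *
        ((1 / (n : ℝ)) ^ 2 / ((1 / (n : ℝ)) ^ 2 + j)) = ((tn n (-(2 * c)) N : ℚ) : ℝ) := by
    unfold tn
    push_cast
    refine Finset.sum_congr rfl fun j _ => ?_
    have : (0 : ℝ) ≤ j := Nat.cast_nonneg j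
    have h4 : ((n : ℝ) ^ 2 * (j : ℝ) + 1) ≠ 0 := by positivity
    have h5 : (((1 : ℝ) / n) ^ 2 + j) ≠ 0 := by positivity
    congr 1
    field_simp
    ring
  rw [e] at h
  refine h.trans ?_
  push_cast
  have h2 : |2 * (c : ℝ)| ≤ k := by exact_mod_cast hk
  gcongr
  exact exp_le_three_pow h2

lemma FFn_le {n : ℕ} (hn : 0 < n) (c : ℚ) (N k : ℕ) (B : ℚ) (hk : |2 * c| ≤ k)
    (h : tn n (-(2 * c)) N + |2 * c| ^ N / (N.factorial : ℚ) * 3 ^ k ≤ B) : FF n (c : ℝ) ≤ B := by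
  have h1 := (abs_le.mp (FFn_bound hn c N k hk)).2
  have h2 : ((tn n (-(2 * c)) N : ℚ) : ℝ) + ((|2 * c| ^ N / (N.factorial : ℚ) * 3 ^ k : ℚ) : ℝ) ≤ (B : ℝ) := by
    exact_mod_cast h
  linarith

lemma FFn_ge {n : ℕ} (hn : 0 < n) (c : ℚ) (N k : ℕ) (B : ℚ) (hk : |2 * c| ≤ k)
    (h : B ≤ tn n (-(2 * c)) N - |2 * c| ^ N / (N.factorial : ℚ) * 3 ^ k) : (B : ℝ) ≤ FF n (c : ℝ) := by
  have h1 := (abs_le.mp (FFn_bound hn c N k hk)).1
  have h2 : (B : ℝ) ≤ ((tn n (-(2 * c)) N : ℚ) : ℝ) - ((|2 * c| ^ N / (N.factorial : ℚ) * 3 ^ k : ℚ) : ℝ) := by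
    exact_mod_cast h
  linarith

lemma exp_ge_q (c : ℚ) (N k : ℕ) (B : ℚ) (hk : |c| ≤ k)
    (h : B ≤ eq' c N - |c| ^ N / (N.factorial : ℚ) * 3 ^ k) : (B : ℝ) ≤ Real.exp (c : ℝ) := by
  have h1 := (abs_le.mp (exp_bound_q c N k hk)).1
  have h2 : (B : ℝ) ≤ ((eq' c N : ℚ) : ℝ) - ((|c| ^ N / (N.factorial : ℚ) * 3 ^ k : ℚ) : ℝ) := by
    exact_mod_cast h
  linarith

/-! ### the lower bound -/

/-- the condition of the lower bound with `a / b = 2 / 3` -/
lemma hcond_of {n : ℕ} (hn : 2 ≤ n) {x0 a b y z : ℝ} (hx0 : 0 < x0) (ha : 0 < a) (hab : b = 3 / 2 * a)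
    (hY : FF n b + Real.exp (-(2 / (n : ℝ) * b)) * (x0 + 1) ≤ y)
    (hZ : z ≤ FF n a - Real.exp (-(2 / (n : ℝ) * a)) * (x0 + 1)) (hz : 0 ≤ z)
    (h : x0 * y ^ 2 < z ^ 3) :
    x0 ^ (1 - a / b) * (FF n b + Real.exp (-(2 / (n : ℝ) * b)) * (x0 + 1)) ^ (a / b) <
      FF n a - Real.exp (-(2 / (n : ℝ) * a)) * (x0 + 1) := by
  have hF := FF_nonneg (n := n) (by omega) b
  have hE := Real.exp_pos (-(2 / (n : ℝ) * b))
  set Y : ℝ := FF n b + Real.exp (-(2 / (n : ℝ) * b)) * (x0 + 1) with hYd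
  set Z : ℝ := FF n a - Real.exp (-(2 / (n : ℝ) * a)) * (x0 + 1) with hZd
  have hY0 : 0 ≤ Y := by positivity
  have e0 : a / b = 2 * (1 / 3) := by rw [hab]; field_simp
  have e1 : (1 : ℝ) - a / b = 1 / 3 := by rw [e0]; norm_num
  rw [e1, e0, Real.rpow_mul hY0, Real.rpow_two, ← Real.mul_rpow hx0.le (by positivity)]
  have h3 : x0 * Y ^ 2 < Z ^ 3 := by
    have a1 : Y ^ 2 ≤ y ^ 2 := pow_le_pow_left₀ hY0 hY 2
    have a2 : z ^ 3 ≤ Z ^ 3 := pow_le_pow_left₀ hz hZ 3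
    have a3 : x0 * Y ^ 2 ≤ x0 * y ^ 2 := by gcongr
    linarith
  have hZ0 : 0 ≤ Z := by linarith
  calc (x0 * Y ^ 2) ^ ((1 : ℝ) / 3) < (Z ^ 3) ^ ((1 : ℝ) / 3) :=
        Real.rpow_lt_rpow (by positivity) h3 (by norm_num)
    _ = Z := by
        rw [← Real.rpow_natCast Z 3, ← Real.rpow_mul hZ0]
        norm_num

lemma hcond3 : (0.73705 : ℝ) ^ (1 - (9 : ℝ) / (27 / 2)) *
    (FF 3 (27 / 2) + Real.exp (-(2 / ((3 : ℕ) : ℝ) * (27 / 2))) * (0.73705 + 1)) ^ ((9 : ℝ) / (27 / 2)) <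
      FF 3 9 - Real.exp (-(2 / ((3 : ℕ) : ℝ) * 9)) * (0.73705 + 1) := by
  have f1 : FF 3 (27 / 2) ≤ 0.6565892 := by
    have h := FFn_le (n := 3) (by norm_num) (27 / 2) 110 27 (6565892 / 10000000) (by norm_num) (by decide +kernel)
    push_cast at h
    norm_num at h ⊢
    exact h
  have f2 : 0.6868459 ≤ FF 3 9 := by
    have h := FFn_ge (n := 3) (by norm_num) 9 90 18 (6868459 / 10000000) (by norm_num) (by decide +kernel)
    push_cast at h
    norm_num at h ⊢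
    exact h
  have g1 : Real.exp (-9) ≤ 0.0001235 := by
    have h := exp_le_q (-9) 50 9 (1235 / 10000000) (by norm_num) (by decide +kernel)
    push_cast at h
    norm_num at h ⊢
    exact h
  have g2 : Real.exp (-6) ≤ 0.0024788 := by
    have h := exp_le_q (-6) 40 6 (24788 / 10000000) (by norm_num) (by decide +kernel)
    push_cast at h
    norm_num at h ⊢
    exact h
  have e1 : -(2 / ((3 : ℕ) : ℝ) * (27 / 2)) = -9 := by norm_num
  have e2 : -(2 / ((3 : ℕ) : ℝ) * 9) = -6 := by norm_num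
  refine hcond_of (n := 3) (y := 0.656804) (z := 0.682540) (by norm_num) (by norm_num) (by norm_num)
    (by norm_num) ?_ ?_ (by norm_num) (by norm_num)
  · rw [e1]; nlinarith
  · rw [e2]; nlinarith

lemma hcond4 : (0.73705 : ℝ) ^ (1 - (10 : ℝ) / 15) *
    (FF 4 15 + Real.exp (-(2 / ((4 : ℕ) : ℝ) * 15)) * (0.73705 + 1)) ^ ((10 : ℝ) / 15) <
      FF 4 10 - Real.exp (-(2 / ((4 : ℕ) : ℝ) * 10)) * (0.73705 + 1) := by
  have f1 : FF 4 15 ≤ 0.783 := by
    have h := FFn_le (n := 4) (by norm_num) 15 120 30 (783 / 1000) (by norm_num) (by decide +kernel)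
    push_cast at h
    norm_num at h ⊢
    exact h
  have f2 : 0.802 ≤ FF 4 10 := by
    have h := FFn_ge (n := 4) (by norm_num) 10 90 20 (802 / 1000) (by norm_num) (by decide +kernel)
    push_cast at h
    norm_num at h ⊢
    exact h
  have g1 : Real.exp (-(15 / 2)) ≤ 0.0006 := by
    have h := exp_le_q (-(15 / 2)) 50 8 (6 / 10000) (by norm_num) (by decide +kernel)
    push_cast at h
    norm_num at h ⊢
    exact h
  have g2 : Real.exp (-5) ≤ 0.0068 := by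
    have h := exp_le_q (-5) 40 5 (68 / 10000) (by norm_num) (by decide +kernel)
    push_cast at h
    norm_num at h ⊢
    exact h
  have e1 : -(2 / ((4 : ℕ) : ℝ) * 15) = -(15 / 2) := by norm_num
  have e2 : -(2 / ((4 : ℕ) : ℝ) * 10) = -5 := by norm_num
  refine hcond_of (n := 4) (y := 0.785) (z := 0.79) (by norm_num) (by norm_num) (by norm_num)
    (by norm_num) ?_ ?_ (by norm_num) (by norm_num)
  · rw [e1]; nlinarith
  · rw [e2]; nlinarith

lemma hcond5 : (0.73705 : ℝ) ^ (1 - (10 : ℝ) / 15) *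
    (FF 5 15 + Real.exp (-(2 / ((5 : ℕ) : ℝ) * 15)) * (0.73705 + 1)) ^ ((10 : ℝ) / 15) <
      FF 5 10 - Real.exp (-(2 / ((5 : ℕ) : ℝ) * 10)) * (0.73705 + 1) := by
  have f1 : FF 5 15 ≤ 0.855 := by
    have h := FFn_le (n := 5) (by norm_num) 15 120 30 (855 / 1000) (by norm_num) (by decide +kernel)
    push_cast at h
    norm_num at h ⊢
    exact h
  have f2 : 0.867 ≤ FF 5 10 := by
    have h := FFn_ge (n := 5) (by norm_num) 10 90 20 (867 / 1000) (by norm_num) (by decide +kernel)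
    push_cast at h
    norm_num at h ⊢
    exact h
  have g1 : Real.exp (-6) ≤ 0.0025 := by
    have h := exp_le_q (-6) 50 6 (25 / 10000) (by norm_num) (by decide +kernel)
    push_cast at h
    norm_num at h ⊢
    exact h
  have g2 : Real.exp (-4) ≤ 0.0184 := by
    have h := exp_le_q (-4) 40 4 (184 / 10000) (by norm_num) (by decide +kernel)
    push_cast at h
    norm_num at h ⊢
    exact h
  have e1 : -(2 / ((5 : ℕ) : ℝ) * 15) = -6 := by norm_num
  have e2 : -(2 / ((5 : ℕ) : ℝ) * 10) = -4 := by norm_num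
  refine hcond_of (n := 5) (y := 0.8595) (z := 0.835) (by norm_num) (by norm_num) (by norm_num)
    (by norm_num) ?_ ?_ (by norm_num) (by norm_num)
  · rw [e1]; nlinarith
  · rw [e2]; nlinarith

lemma FF_le_one {n : ℕ} (hn : 0 < n) {c : ℝ} (hc : 0 ≤ c) : FF n c ≤ 1 := by
  rw [← FF_zero hn, FF_eq hn, FF_eq hn]
  have hm0 : (0 : ℝ) < (1 / (n : ℝ)) ^ 2 := by positivity
  apply mul_le_mul_of_nonneg_left _ hm0.le
  apply intervalIntegral.integral_mono_on (by norm_num)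
  · exact (intervalIntegral.intervalIntegrable_rpow' (by linarith)).mul_continuousOn (by fun_prop)
  · exact (intervalIntegral.intervalIntegrable_rpow' (by linarith)).mul_continuousOn (by fun_prop)
  · intro u hu
    apply mul_le_mul_of_nonneg_left _ (Real.rpow_nonneg hu.1 _)
    apply Real.exp_le_exp.mpr
    have : 0 ≤ c * u := mul_nonneg hc hu.1
    linarith

/-- crude lower bound -/
lemma FF_ge_crude {n : ℕ} (hn : 0 < n) {c u : ℝ} (hc : 0 ≤ c) (hu : 0 < u) (hu1 : u ≤ 1) :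
    u ^ ((1 / (n : ℝ)) ^ 2) * Real.exp (-(2 * c * u)) ≤ FF n c := by
  rw [FF_eq hn]
  set m : ℝ := (1 / (n : ℝ)) ^ 2 with hm
  have hm0 : (0 : ℝ) < m := by positivity
  have hi : ∀ x y : ℝ, IntervalIntegrable (fun v : ℝ => v ^ (m - 1) * Real.exp (-(2 * c * v))) volume x y :=
    fun x y => (intervalIntegral.intervalIntegrable_rpow' (by linarith)).mul_continuousOn (by fun_prop)
  have h1 : ∫ v in (0 : ℝ)..u, v ^ (m - 1) * Real.exp (-(2 * c * u)) ≤
      ∫ v in (0 : ℝ)..u, v ^ (m - 1) * Real.exp (-(2 * c * v)) := by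
    apply intervalIntegral.integral_mono_on hu.le
    · exact (intervalIntegral.intervalIntegrable_rpow' (by linarith)).mul_const _
    · exact hi _ _
    · intro v hv
      apply mul_le_mul_of_nonneg_left _ (Real.rpow_nonneg hv.1 _)
      apply Real.exp_le_exp.mpr
      have : c * v ≤ c * u := mul_le_mul_of_nonneg_left hv.2 hc
      linarith
  have h2 : ∫ v in (0 : ℝ)..u, v ^ (m - 1) * Real.exp (-(2 * c * v)) ≤
      ∫ v in (0 : ℝ)..1, v ^ (m - 1) * Real.exp (-(2 * c * v)) := by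
    rw [← intervalIntegral.integral_add_adjacent_intervals (hi 0 u) (hi u 1)]
    have : 0 ≤ ∫ v in u..(1 : ℝ), v ^ (m - 1) * Real.exp (-(2 * c * v)) :=
      intervalIntegral.integral_nonneg hu1 fun v hv =>
        mul_nonneg (Real.rpow_nonneg (hu.le.trans hv.1) _) (Real.exp_pos _).le
    linarith
  have h3 : ∫ v in (0 : ℝ)..u, v ^ (m - 1) * Real.exp (-(2 * c * u)) = u ^ m / m * Real.exp (-(2 * c * u)) := by
    rw [intervalIntegral.integral_mul_const, integral_rpow (Or.inl (by linarith))]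
    rw [show m - 1 + 1 = m by ring, Real.zero_rpow hm0.ne', sub_zero]
  rw [h3] at h1
  calc u ^ m * Real.exp (-(2 * c * u)) = m * (u ^ m / m * Real.exp (-(2 * c * u))) := by field_simp
    _ ≤ _ := mul_le_mul_of_nonneg_left (h1.trans h2) hm0.le

lemma log6 : Real.log 6 ≤ 1.7918 := by
  rw [Real.log_le_iff_le_exp (by norm_num)]
  have h := exp_ge_q (17918 / 10000) 30 2 6 (by norm_num) (by decide +kernel)
  push_cast at h
  norm_num at h ⊢
  exact h

lemma log_bound {n : ℕ} (hn : 6 ≤ n) : 4 * Real.log n ≤ 0.2 * (n : ℝ) ^ 2 := by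
  have hn6 : (6 : ℝ) ≤ n := by exact_mod_cast hn
  have h1 : Real.log (n : ℝ) = Real.log 6 + Real.log (n / 6) := by
    rw [← Real.log_mul (by norm_num) (by positivity)]
    congr 1
    field_simp
  have h2 : Real.log ((n : ℝ) / 6) ≤ n / 6 - 1 := Real.log_le_sub_one_of_pos (by positivity)
  have h3 := log6
  nlinarith

lemma FF_big {n : ℕ} (hn : 6 ≤ n) : 0.773 ≤ FF n (3 * n) := by
  have hn6 : (6 : ℝ) ≤ n := by exact_mod_cast hn
  have hn0 : (0 : ℝ) < n := by linarith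
  have h := FF_ge_crude (n := n) (by omega) (c := 3 * n) (u := ((n : ℝ) ^ 4)⁻¹) (by positivity)
    (by positivity) (inv_le_one_of_one_le₀ (one_le_pow₀ (by linarith)))
  refine le_trans ?_ h
  have e1 : (((n : ℝ) ^ 4)⁻¹) ^ ((1 / (n : ℝ)) ^ 2) = Real.exp (-(4 * Real.log n / (n : ℝ) ^ 2)) := by
    rw [Real.rpow_def_of_pos (by positivity), Real.log_inv, Real.log_pow]
    congr 1
    push_cast
    field_simp
  have e2 : 2 * (3 * (n : ℝ)) * ((n : ℝ) ^ 4)⁻¹ = 6 / (n : ℝ) ^ 3 := by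
    field_simp
    norm_num
  rw [e1, e2, ← Real.exp_add]
  have h1 : 4 * Real.log n / (n : ℝ) ^ 2 ≤ 0.2 - 0.0009 + 0.0009 := by
    rw [div_le_iff₀ (by positivity)]
    have := log_bound hn
    linarith
  have h1' : 4 * Real.log n / (n : ℝ) ^ 2 ≤ 0.1992 := by
    have h2 : Real.log (n : ℝ) = Real.log 6 + Real.log (n / 6) := by
      rw [← Real.log_mul (by norm_num) (by positivity)]
      congr 1
      field_simp
    have h3 : Real.log ((n : ℝ) / 6) ≤ n / 6 - 1 := Real.log_le_sub_one_of_pos (by positivity)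
    have h4 := log6
    rw [div_le_iff₀ (by positivity)]
    nlinarith
  have h2 : 6 / (n : ℝ) ^ 3 ≤ 0.02778 := by
    rw [div_le_iff₀ (by positivity)]
    have : (6 : ℝ) ^ 3 ≤ (n : ℝ) ^ 3 := pow_le_pow_left₀ (by norm_num) hn6 3
    norm_num at this ⊢
    linarith
  have h3 := Real.add_one_le_exp (-(4 * Real.log n / (n : ℝ) ^ 2) + -(6 / (n : ℝ) ^ 3))
  norm_num at h1' h2 h3 ⊢
  linarith

lemma hcond6 {n : ℕ} (hn : 6 ≤ n) : (0.73705 : ℝ) ^ (1 - (3 * n : ℝ) / (24 * n)) *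
    (FF n (24 * n) + Real.exp (-(2 / (n : ℝ) * (24 * n))) * (0.73705 + 1)) ^ ((3 * n : ℝ) / (24 * n)) <
      FF n (3 * n) - Real.exp (-(2 / (n : ℝ) * (3 * n))) * (0.73705 + 1) := by
  have hn6 : (6 : ℝ) ≤ n := by exact_mod_cast hn
  have hn0 : (0 : ℝ) < n := by linarith
  have e0 : (3 * n : ℝ) / (24 * n) = 1 / 8 := by field_simp; norm_num
  have e1 : (1 : ℝ) - 1 / 8 = 7 * (1 / 8) := by norm_num
  have e2 : -(2 / (n : ℝ) * (24 * n)) = -48 := by field_simp; norm_num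
  have e3 : -(2 / (n : ℝ) * (3 * n)) = -6 := by field_simp; norm_num
  rw [e0, e1, e2, e3]
  have g2 : Real.exp (-6) ≤ 0.00248 := by
    have h := exp_le_q (-6) 40 6 (248 / 100000) (by norm_num) (by decide +kernel)
    push_cast at h
    norm_num at h ⊢
    exact h
  have g1 : Real.exp (-48) ≤ 0.00248 := le_trans (Real.exp_le_exp.mpr (by norm_num)) g2
  have f1 := FF_le_one (n := n) (by omega) (c := 24 * n) (by positivity)
  have f0 := FF_nonneg (n := n) (by omega) (24 * n)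
  have f2 := FF_big hn
  have hE := Real.exp_pos (-48)
  set Y : ℝ := FF n (24 * n) + Real.exp (-48) * (0.73705 + 1) with hY
  set Z : ℝ := FF n (3 * n) - Real.exp (-6) * (0.73705 + 1) with hZ
  have hY0 : 0 ≤ Y := by positivity
  have hY1 : Y ≤ 1.005 := by rw [hY]; nlinarith
  have hZ1 : 0.7686 ≤ Z := by rw [hZ]; nlinarith
  rw [Real.rpow_mul (by norm_num), ← Real.mul_rpow (by positivity) hY0]
  have e7 : (0.73705 : ℝ) ^ (7 : ℝ) = 0.73705 ^ 7 := by
    rw [← Real.rpow_natCast]; norm_num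
  rw [e7]
  have h3 : (0.73705 : ℝ) ^ 7 * Y < Z ^ 8 := by
    have a2 : (0.7686 : ℝ) ^ 8 ≤ Z ^ 8 := pow_le_pow_left₀ (by norm_num) hZ1 8
    have a3 : (0.73705 : ℝ) ^ 7 * Y ≤ 0.73705 ^ 7 * 1.005 := by gcongr
    have a4 : (0.73705 : ℝ) ^ 7 * 1.005 < 0.7686 ^ 8 := by norm_num
    linarith
  have hZ0 : 0 ≤ Z := by linarith
  calc ((0.73705 : ℝ) ^ 7 * Y) ^ ((1 : ℝ) / 8) < (Z ^ 8) ^ ((1 : ℝ) / 8) :=
        Real.rpow_lt_rpow (by positivity) h3 (by norm_num)
    _ = Z := by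
        rw [← Real.rpow_natCast Z 8, ← Real.rpow_mul hZ0]
        norm_num

end

end Pool.Agent.Q255.FM
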