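import Pool.Agent.Q255.FM.Num3

set_option autoImplicit false

/-!
Numerical bounds for the exponents `2/n`, `n ≥ 3`: upper bounds.
-/

open Filter MeasureTheory Metric Set Topology
open Pool.Agent.H306R2

namespace Pool.Agent.Q255.FM

noncomputable section

lemma hC_unif {n : ℕ} (hn : 0 < n) :
    Real.exp (1 / (n : ℝ) * (22 / 25 * n) * (100001 / 100000)) *
      (FF n (22 / 25 * n) / 4.829 + Real.exp (-(2 / (n : ℝ) * (22 / 25 * n))) * (1 + 1 / 4.829)) < 1 := by
  have hn0 : (0 : ℝ) < n := by exact_mod_cast hn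
  have e1 : 1 / (n : ℝ) * (22 / 25 * n) * (100001 / 100000) = 22 / 25 * (100001 / 100000) := by
    field_simp
  have e2 : -(2 / (n : ℝ) * (22 / 25 * n)) = -(44 / 25) := by field_simp; norm_num
  rw [e1, e2]
  have g1 : Real.exp (22 / 25 * (100001 / 100000)) ≤ 2.410922 := by
    have h := exp_le_q (22 / 25 * (100001 / 100000)) 30 1 (2410922 / 1000000) (by norm_num) (by decide +kernel)
    push_cast at h
    norm_num at h ⊢
    exact h
  have g2 : Real.exp (-(44 / 25)) ≤ 0.172045 := by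
    have h := exp_le_q (-(44 / 25)) 30 2 (172045 / 1000000) (by norm_num) (by decide +kernel)
    push_cast at h
    norm_num at h ⊢
    exact h
  have f1 := FF_le_one hn (c := 22 / 25 * n) (by positivity)
  have f0 := FF_nonneg hn (22 / 25 * n)
  have p1 := Real.exp_pos (22 / 25 * (100001 / 100000))
  have p2 := Real.exp_pos (-(44 / 25))
  have h1 : FF n (22 / 25 * n) / 4.829 + Real.exp (-(44 / 25)) * (1 + 1 / 4.829) ≤
      1 / 4.829 + 0.172045 * (1 + 1 / 4.829) := by
    gcongr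
  calc _ ≤ 2.410922 * (1 / 4.829 + 0.172045 * (1 + 1 / 4.829)) :=
        mul_le_mul g1 h1 (by positivity) (by norm_num)
    _ < 1 := by norm_num

/-- windows -/
lemma hC_win {n : ℕ} (hn : 0 < n) {β' C : ℝ} (hβ' : β' < 2)
    (hC : (Real.exp 2 + 1) / (2 - β') < C) :
    Real.exp (1 / (n : ℝ) * n * β') *
      (FF n n / C + Real.exp (-(2 / (n : ℝ) * n)) * (1 + 1 / C)) < 1 := by
  have hn0 : (0 : ℝ) < n := by exact_mod_cast hn
  have hC0 : 0 < C := by
    refine lt_trans ?_ hC
    have : 0 < 2 - β' := by linarith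
    positivity
  have e1 : 1 / (n : ℝ) * n * β' = β' := by field_simp
  have e2 : -(2 / (n : ℝ) * n) = -2 := by field_simp
  rw [e1, e2]
  have f1 := FF_le_one hn (c := n) hn0.le
  have f0 := FF_nonneg hn n
  have h1 : FF n n / C + Real.exp (-2) * (1 + 1 / C) ≤ 1 / C + Real.exp (-2) * (1 + 1 / C) := by
    gcongr
  have hx : 0 < 2 - β' := by linarith
  have h2 : Real.exp β' = Real.exp 2 * Real.exp (-(2 - β')) := by
    rw [← Real.exp_add]; congr 1; ring
  have h3 : Real.exp 2 * Real.exp (-2) = 1 := by rw [← Real.exp_add]; norm_num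
  have h4 : (Real.exp 2 + 1) / C < Real.exp (2 - β') - 1 := by
    have a1 := Real.add_one_le_exp (2 - β')
    have a2 : (Real.exp 2 + 1) / C < 2 - β' := by
      rw [div_lt_iff₀ hC0]
      rw [div_lt_iff₀ hx] at hC
      linarith
    linarith
  calc _ ≤ Real.exp β' * (1 / C + Real.exp (-2) * (1 + 1 / C)) :=
        mul_le_mul_of_nonneg_left h1 (Real.exp_pos _).le
    _ = Real.exp (-(2 - β')) * (Real.exp 2 / C + (Real.exp 2 * Real.exp (-2)) * (1 + 1 / C)) := by
        rw [h2]; ring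
    _ = Real.exp (-(2 - β')) * ((Real.exp 2 + 1) / C + 1) := by rw [h3]; ring
    _ < Real.exp (-(2 - β')) * Real.exp (2 - β') := by
        apply mul_lt_mul_of_pos_left _ (Real.exp_pos _)
        linarith
    _ = 1 := by rw [← Real.exp_add]; norm_num

lemma hC3 : Real.exp (1 / ((3 : ℕ) : ℝ) * (33 / 20) * (2001 / 2000)) *
    jc 3 (2001 / 2000) (33 / 20) (9 / 4) < 2.655 := by
  have h2 : (2 : ℝ) / ((3 : ℕ) : ℝ) = 2 / 3 := by norm_num
  unfold jc jd
  rw [h2]
  have g1 : (1 : ℝ) / ((3 : ℕ) : ℝ) * (33 / 20) * (2001 / 2000) = 11 / 20 * (2001 / 2000) := by norm_num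
  have g2 : -((2 : ℝ) / 3 * (33 / 20 + 9 / 4)) = -(13 / 5) := by norm_num
  have g3 : (2 : ℝ) / 3 * (9 / 4) * (2001 / 2000) = 3 / 2 * (2001 / 2000) := by norm_num
  have g4 : -((2 : ℝ) / 3 * (9 / 4 + 9 / 4)) = -3 := by norm_num
  rw [g1, g2, g3, g4]
  have p1 := Real.exp_pos (11 / 20 * (2001 / 2000))
  have p2 := Real.exp_pos (-(13 / 5))
  have p3 := Real.exp_pos (3 / 2 * (2001 / 2000))
  have p4 := Real.exp_pos (-3)
  have q1 : Real.exp (11 / 20 * (2001 / 2000)) ≤ 1.73374 := by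
    have h := exp_le_q (11 / 20 * (2001 / 2000)) 30 1 (173374 / 100000) (by norm_num) (by decide +kernel)
    push_cast at h
    norm_num at h ⊢
    exact h
  have q2 : Real.exp (-(13 / 5)) ≤ 0.074274 := by
    have h := exp_le_q (-(13 / 5)) 30 3 (74274 / 1000000) (by norm_num) (by decide +kernel)
    push_cast at h
    norm_num at h ⊢
    exact h
  have q3 : Real.exp (3 / 2 * (2001 / 2000)) ≤ 4.48506 := by
    have h := exp_le_q (3 / 2 * (2001 / 2000)) 30 2 (448506 / 100000) (by norm_num) (by decide +kernel)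
    push_cast at h
    norm_num at h ⊢
    exact h
  have q4 : Real.exp (-3) ≤ 0.049788 := by
    have h := exp_le_q (-3) 30 3 (49788 / 1000000) (by norm_num) (by decide +kernel)
    push_cast at h
    norm_num at h ⊢
    exact h
  have r1 : FF 3 (33 / 20) ≤ 0.82831 := by
    have h := FFn_le (n := 3) (by norm_num) (33 / 20) 30 4 (82831 / 100000) (by norm_num) (by decide +kernel)
    push_cast at h
    norm_num at h ⊢
    exact h
  have r2 : FF 3 (9 / 4) ≤ 0.801 := by
    have h := FFn_le (n := 3) (by norm_num) (9 / 4) 30 5 (801 / 1000) (by norm_num) (by decide +kernel)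
    push_cast at h
    norm_num at h ⊢
    exact h
  have r3 : FF 3 (-(9 / 4)) ≤ 3.74555 := by
    have h := FFn_le (n := 3) (by norm_num) (-(9 / 4)) 30 5 (374555 / 100000) (by norm_num) (by decide +kernel)
    push_cast at h
    norm_num at h ⊢
    exact h
  have s1 := FF_nonneg (n := 3) (by norm_num) (33 / 20)
  have s2 := FF_nonneg (n := 3) (by norm_num) (9 / 4)
  have s3 := FF_nonneg (n := 3) (by norm_num) (-(9 / 4))
  generalize Real.exp (11 / 20 * (2001 / 2000)) = E1 at *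
  generalize Real.exp (-(13 / 5)) = E2 at *
  generalize Real.exp (3 / 2 * (2001 / 2000)) = E3 at *
  generalize Real.exp (-3) = E4 at *
  generalize FF 3 (33 / 20) = F1 at *
  generalize FF 3 (9 / 4) = F2 at *
  generalize FF 3 (-(9 / 4)) = F3 at *
  have t1 : E4 * E3 ≤ 0.049788 * 4.48506 := mul_le_mul q4 q3 p3.le (by norm_num)
  have t2 : F2 + E4 * F3 ≤ 0.801 + 0.049788 * 3.74555 := by
    have : E4 * F3 ≤ 0.049788 * 3.74555 := mul_le_mul q4 r3 s3 (by norm_num)
    linarith
  have t3 : (F2 + E4 * F3) / (1 - E4 * E3) ≤ 1.27140 := by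
    rw [div_le_iff₀ (by norm_num at t1 ⊢; linarith)]
    norm_num at t1 t2 ⊢
    linarith
  have t30 : 0 ≤ (F2 + E4 * F3) / (1 - E4 * E3) := by
    apply div_nonneg (by positivity)
    norm_num at t1 ⊢
    linarith
  generalize (F2 + E4 * F3) / (1 - E4 * E3) = J at *
  have t4 : E3 * J ≤ 4.48506 * 1.27140 := mul_le_mul q3 t3 t30 (by norm_num)
  have t5 : E2 * (E3 * J + F3) ≤ 0.074274 * (4.48506 * 1.27140 + 3.74555) :=
    mul_le_mul q2 (by linarith) (by positivity) (by norm_num)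
  have t6 : E1 * (F1 + E2 * (E3 * J + F3)) ≤
      1.73374 * (0.82831 + 0.074274 * (4.48506 * 1.27140 + 3.74555)) :=
    mul_le_mul q1 (by linarith) (by positivity) (by norm_num)
  refine lt_of_le_of_lt t6 (by norm_num)

lemma hC4 : Real.exp (1 / ((4 : ℕ) : ℝ) * (12 / 5) * (2001 / 2000)) *
    jc 4 (2001 / 2000) (12 / 5) (12 / 5) < 2.997 := by
  have h2 : (2 : ℝ) / ((4 : ℕ) : ℝ) = 1 / 2 := by norm_num
  unfold jc jd
  rw [h2]
  have g1 : (1 : ℝ) / ((4 : ℕ) : ℝ) * (12 / 5) * (2001 / 2000) = 3 / 5 * (2001 / 2000) := by norm_num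
  have g3 : (1 : ℝ) / 2 * (12 / 5) * (2001 / 2000) = 6 / 5 * (2001 / 2000) := by norm_num
  have g4 : -((1 : ℝ) / 2 * (12 / 5 + 12 / 5)) = -(12 / 5) := by norm_num
  rw [g1, g3, g4]
  have p1 := Real.exp_pos (3 / 5 * (2001 / 2000))
  have p3 := Real.exp_pos (6 / 5 * (2001 / 2000))
  have p4 := Real.exp_pos (-(12 / 5))
  have q1 := e06
  have q3 : Real.exp (6 / 5 * (2001 / 2000)) ≤ 3.32212 := by
    have h := exp_le_q (6 / 5 * (2001 / 2000)) 30 2 (332212 / 100000) (by norm_num) (by decide +kernel)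
    push_cast at h
    norm_num at h ⊢
    exact h
  have q4 : Real.exp (-(12 / 5)) ≤ 0.090718 := by
    have h := exp_le_q (-(12 / 5)) 30 3 (90718 / 1000000) (by norm_num) (by decide +kernel)
    push_cast at h
    norm_num at h ⊢
    exact h
  have r2 : FF 4 (12 / 5) ≤ 0.87714 := by
    have h := FFn_le (n := 4) (by norm_num) (12 / 5) 30 5 (87714 / 100000) (by norm_num) (by decide +kernel)
    push_cast at h
    norm_num at h ⊢
    exact h
  have r3 : FF 4 (-(12 / 5)) ≤ 2.98607 := by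
    have h := FFn_le (n := 4) (by norm_num) (-(12 / 5)) 30 5 (298607 / 100000) (by norm_num) (by decide +kernel)
    push_cast at h
    norm_num at h ⊢
    exact h
  have s2 := FF_nonneg (n := 4) (by norm_num) (12 / 5)
  have s3 := FF_nonneg (n := 4) (by norm_num) (-(12 / 5))
  generalize Real.exp (3 / 5 * (2001 / 2000)) = E1 at *
  generalize Real.exp (6 / 5 * (2001 / 2000)) = E3 at *
  generalize Real.exp (-(12 / 5)) = E4 at *
  generalize FF 4 (12 / 5) = F2 at *
  generalize FF 4 (-(12 / 5)) = F3 at *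
  have t1 : E4 * E3 ≤ 0.090718 * 3.32212 := mul_le_mul q4 q3 p3.le (by norm_num)
  have t2 : F2 + E4 * F3 ≤ 0.87714 + 0.090718 * 2.98607 := by
    have : E4 * F3 ≤ 0.090718 * 2.98607 := mul_le_mul q4 r3 s3 (by norm_num)
    linarith
  have t3 : (F2 + E4 * F3) / (1 - E4 * E3) ≤ 1.64330 := by
    rw [div_le_iff₀ (by norm_num at t1 ⊢; linarith)]
    norm_num at t1 t2 ⊢
    linarith
  have t30 : 0 ≤ (F2 + E4 * F3) / (1 - E4 * E3) := by
    apply div_nonneg (by positivity)
    norm_num at t1 ⊢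
    linarith
  generalize (F2 + E4 * F3) / (1 - E4 * E3) = J at *
  have t4 : E3 * J ≤ 3.32212 * 1.64330 := mul_le_mul q3 t3 t30 (by norm_num)
  have t5 : E4 * (E3 * J + F3) ≤ 0.090718 * (3.32212 * 1.64330 + 2.98607) :=
    mul_le_mul q4 (by linarith) (by positivity) (by norm_num)
  have t6 : E1 * (F2 + E4 * (E3 * J + F3)) ≤
      1.82267 * (0.87714 + 0.090718 * (3.32212 * 1.64330 + 2.98607)) :=
    mul_le_mul q1 (by linarith) (by positivity) (by norm_num)
  refine lt_of_le_of_lt t6 (by norm_num)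

end

end Pool.Agent.Q255.FM
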