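import Pool.Agent.Q255.FM.MS

set_option autoImplicit false

/-!
Bounds far to the right, and `VV fS` in terms of the mean square.
-/

open Filter MeasureTheory Metric Set Topology
open Pool.Agent.H306R2

namespace Pool.Agent.Q255.FM

noncomputable section

lemma dA_pow (κ : ℝ) (j : ℕ) : dA κ ^ j = dA (j * κ) := by
  induction j with
  | zero => simp [dA_zero]
  | succ j ih =>
    rw [pow_succ, ih, dA_mul]
    congr 1
    push_cast
    ring

lemma dA_pow_n {n : ℕ} (hn : 0 < n) : dA (1 / (n : ℝ)) ^ n = zR := by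
  have hn0 : (n : ℝ) ≠ 0 := by exact_mod_cast hn.ne'
  rw [dA_pow, mul_one_div_cancel hn0, dA_one]

/-- the Dirichlet series of `ζ^(1/n)` -/
def DS (n : ℕ) (s : ℂ) : ℂ := LSeries (fun m => toC (dA (1 / (n : ℝ))) m) s

lemma DS_term_le {n : ℕ} (hn : 0 < n) {s : ℂ} (m : ℕ) :
    ‖LSeries.term (fun m => toC (dA (1 / (n : ℝ))) m) s m‖ ≤ 1 / (m : ℝ) ^ s.re := by
  have hn0 : (1 : ℝ) ≤ n := by exact_mod_cast hn
  rcases Nat.eq_zero_or_pos m with h0 | h0
  · subst h0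
    rw [LSeries.term_zero, norm_zero]
    positivity
  · rw [LSeries.norm_term_eq, if_neg (by omega), toC_apply, Complex.norm_real]
    apply div_le_div_of_nonneg_right _ (by positivity)
    rw [dA_apply, Real.norm_of_nonneg (dv_nonneg (by positivity) m)]
    exact dv_le_one (by positivity) (by rw [div_le_one (by linarith)]; exact hn0) m

lemma DS_hasSum {n : ℕ} (hn : 0 < n) {s : ℂ} (hs : 1 < s.re) :
    LSeriesHasSum (fun m => toC (dA (1 / (n : ℝ))) m) s (DS n s) := by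
  have h : LSeriesSummable (fun m => toC (dA (1 / (n : ℝ))) m) s := by
    refine Summable.of_norm_bounded (g := fun m : ℕ => 1 / (m : ℝ) ^ s.re) ?_
      (fun m => DS_term_le hn m)
    exact Real.summable_one_div_nat_rpow.mpr hs
  exact h.LSeriesHasSum

lemma DS_pow {n : ℕ} (hn : 0 < n) {s : ℂ} (hs : 1 < s.re) : DS n s ^ n = riemannZeta s := by
  have key : ∀ j : ℕ, LSeriesHasSum (fun m => toC (dA (1 / (n : ℝ)) ^ j) m) s (DS n s ^ j) := by
    intro j
    induction j with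
    | zero =>
      rw [pow_zero, pow_zero]
      have h1 := Dp_hasSum 1 1 (by
        intro n hn
        rw [ArithmeticFunction.one_apply_ne]
        rintro rfl
        simp at hn) s
      have h2 : Dp (1 : ArithmeticFunction ℝ) 1 s = 1 := by
        unfold Dp; simp
      rwa [h2] at h1
    | succ j ih =>
      rw [pow_succ, pow_succ, toC_mul]
      exact ArithmeticFunction.LSeriesHasSum_mul ih (DS_hasSum hn hs)
  have h1 := key n
  rw [dA_pow_n hn, toC_zR] at h1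
  exact h1.unique (ArithmeticFunction.LSeriesHasSum_zeta hs)

lemma Z2_ge_one : 1 ≤ Z2 := by
  unfold Z2
  have := Z2_summable.le_tsum 1 (fun n _ => by positivity)
  simpa using this

lemma rpow_re_le {A : ℝ} (hA : 2 ≤ A) (m : ℕ) : 1 / (m : ℝ) ^ A ≤ 1 / (m : ℝ) ^ 2 := by
  rcases Nat.eq_zero_or_pos m with h0 | h0
  · subst h0
    simp [Real.zero_rpow (by linarith : A ≠ 0)]
  · have hm : (1 : ℝ) ≤ m := by exact_mod_cast h0
    apply one_div_le_one_div_of_le (by positivity)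
    rw [← Real.rpow_natCast]
    exact Real.rpow_le_rpow_of_exponent_le hm (by push_cast; linarith)

lemma DS_norm_le {n : ℕ} (hn : 0 < n) {s : ℂ} (hs : 2 ≤ s.re) : ‖DS n s‖ ≤ Z2 := by
  have h := DS_hasSum hn (s := s) (by linarith)
  have h1 : HasSum _ (DS n s) := h
  rw [← h1.tsum_eq]
  refine tsum_of_norm_bounded Z2_summable.hasSum fun m => ?_
  exact (DS_term_le hn m).trans (rpow_re_le hs m)

lemma SN_hasSum (n : ℕ) (N : ℝ) (s : ℂ) :
    HasSum (fun m : ℕ => if m ∈ Finset.Icc 1 ⌊N⌋₊ then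
      LSeries.term (fun m => toC (dA (1 / (n : ℝ))) m) s m else 0) (SN n N s) := by
  have h1 : SN n N s = ∑ m ∈ Finset.Icc 1 ⌊N⌋₊, (if m ∈ Finset.Icc 1 ⌊N⌋₊ then
      LSeries.term (fun m => toC (dA (1 / (n : ℝ))) m) s m else 0) := by
    unfold SN Dp
    refine Finset.sum_congr rfl fun m hm => ?_
    rw [if_pos hm]
    rw [Finset.mem_Icc] at hm
    rw [LSeries.term_of_ne_zero (by omega), toC_apply, Complex.cpow_neg, dA_apply]
    exact (div_eq_mul_inv _ _).symm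
  rw [h1]
  apply hasSum_sum_of_ne_finset_zero
  intro m hm
  rw [if_neg hm]

lemma SN_norm_le' {n : ℕ} (hn : 0 < n) (N : ℝ) {s : ℂ} (hs : 2 ≤ s.re) : ‖SN n N s‖ ≤ Z2 := by
  rw [← (SN_hasSum n N s).tsum_eq]
  refine tsum_of_norm_bounded Z2_summable.hasSum fun m => ?_
  split_ifs with h
  · exact (DS_term_le hn m).trans (rpow_re_le hs m)
  · rw [norm_zero]; positivity

lemma DS_sub_SN {n : ℕ} (hn : 0 < n) {N : ℝ} (hN : 1 ≤ N) {s : ℂ} (hs : 2 ≤ s.re) :
    ‖DS n s - SN n N s‖ ≤ N ^ (2 - s.re) * Z2 := by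
  have h : HasSum _ (DS n s) := DS_hasSum hn (s := s) (by linarith)
  have h1 := h.sub (SN_hasSum n N s)
  rw [← h1.tsum_eq]
  refine tsum_of_norm_bounded (Z2_summable.hasSum.mul_left _) fun m => ?_
  split_ifs with hm
  · rw [sub_self, norm_zero]; positivity
  · rw [sub_zero]
    rcases Nat.eq_zero_or_pos m with h0 | h0
    · subst h0
      rw [LSeries.term_zero, norm_zero]
      positivity
    · have hmN : N < m := by
        rw [Finset.mem_Icc, not_and_or] at hm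
        rcases hm with h2 | h2
        · omega
        · exact Nat.lt_of_floor_lt (by omega)
      have hm0 : (0 : ℝ) < m := by exact_mod_cast h0
      refine (DS_term_le hn m).trans ?_
      have e1 : 1 / (m : ℝ) ^ s.re = (m : ℝ) ^ (2 - s.re) * (1 / (m : ℝ) ^ 2) := by
        rw [Real.rpow_sub hm0]
        have : (m : ℝ) ^ (2 : ℝ) = (m : ℝ) ^ 2 := by norm_cast
        rw [this]
        field_simp
      rw [e1]
      apply mul_le_mul_of_nonneg_right _ (by positivity)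
      exact Real.rpow_le_rpow_of_nonpos (by linarith) hmN.le (by linarith)

lemma norm_pow_sub_pow {a b : ℂ} {M : ℝ} (hM : 1 ≤ M) (ha : ‖a‖ ≤ M) (hb : ‖b‖ ≤ M) (n : ℕ) :
    ‖a ^ n - b ^ n‖ ≤ n * M ^ n * ‖a - b‖ := by
  induction n with
  | zero => simp
  | succ n ih =>
    have e : a ^ (n + 1) - b ^ (n + 1) = a * (a ^ n - b ^ n) + (a - b) * b ^ n := by ring
    rw [e]
    have hbn : ‖b ^ n‖ ≤ M ^ (n + 1) := by
      rw [norm_pow]
      calc ‖b‖ ^ n ≤ M ^ n := by gcongr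
        _ ≤ M ^ (n + 1) := pow_le_pow_right₀ hM (by omega)
    have h0 := norm_nonneg (a - b)
    calc ‖a * (a ^ n - b ^ n) + (a - b) * b ^ n‖ ≤ ‖a * (a ^ n - b ^ n)‖ + ‖(a - b) * b ^ n‖ :=
          norm_add_le _ _
      _ = ‖a‖ * ‖a ^ n - b ^ n‖ + ‖a - b‖ * ‖b ^ n‖ := by rw [norm_mul, norm_mul]
      _ ≤ M * (n * M ^ n * ‖a - b‖) + ‖a - b‖ * M ^ (n + 1) := by gcongr
      _ = ((n + 1 : ℕ) : ℝ) * M ^ (n + 1) * ‖a - b‖ := by push_cast; ring

lemma norm_zr_right {n : ℕ} (hn : 0 < n) {s : ℂ} (hs : 2 ≤ s.re) : ‖zr s‖ ≤ Z2 ^ n := by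
  have h1 : s ≠ 1 := by
    rintro rfl
    norm_num at hs
  rw [zr_eq (by linarith) h1, ← DS_pow hn (by linarith : 1 < s.re), norm_mul, norm_pow]
  have h2 := DS_norm_le hn hs
  have h3 := norm_rr_le (s := s) (by linarith)
  have hZ := Z2_nonneg
  calc ‖DS n s‖ ^ n * ‖rr s‖ ≤ Z2 ^ n * 1 := by gcongr
    _ = _ := mul_one _

lemma norm_K_right {n : ℕ} (hn : 0 < n) {N : ℝ} (hN : 1 ≤ N) {s : ℂ} (hs : 2 ≤ s.re) :
    ‖zr s - SN n N s ^ n * rr s‖ ≤ n * Z2 ^ (n + 1) * N ^ (2 - s.re) := by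
  have h1 : s ≠ 1 := by
    rintro rfl
    norm_num at hs
  rw [zr_eq (by linarith) h1, ← DS_pow hn (by linarith : 1 < s.re), ← sub_mul, norm_mul]
  have h3 := norm_rr_le (s := s) (by linarith)
  have h4 := norm_pow_sub_pow Z2_ge_one (DS_norm_le hn hs) (SN_norm_le' hn N hs) n
  have h5 := DS_sub_SN hn hN hs
  have hZ := Z2_nonneg
  calc ‖DS n s ^ n - SN n N s ^ n‖ * ‖rr s‖ ≤ (n * Z2 ^ n * (N ^ (2 - s.re) * Z2)) * 1 := by
        apply mul_le_mul _ h3 (norm_nonneg _) (by positivity)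
        exact h4.trans (by gcongr)
    _ = _ := by ring

lemma VV_le_of_bound {n : ℕ} (hn : 0 < n) (τ H : ℝ) (hH : 0 < H) {g : ℂ → ℂ} {B x : ℝ}
    (_hB : 0 ≤ B) (hg : ∀ y : ℝ, ‖g (x + y * Complex.I)‖ ≤ B) :
    VV (fun s => g s * wn n τ H s) (2 / (n : ℝ)) x ≤
      B ^ (2 / (n : ℝ)) * Real.exp ((x - 1 / 2) ^ 2 / H ^ 2) := by
  unfold VV
  have h1 : ∀ y : ℝ, ‖g (x + y * Complex.I) * wn n τ H (x + y * Complex.I)‖ ^ (2 / (n : ℝ)) ≤
      B ^ (2 / (n : ℝ)) * Real.exp ((x - 1 / 2) ^ 2 / H ^ 2) * gw τ H y := by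
    intro y
    rw [norm_mul, Real.mul_rpow (norm_nonneg _) (norm_nonneg _), norm_wn n hn τ H hH, ← mul_assoc]
    have h2 := gw_nonneg τ H y hH
    have h3 : ‖g (x + y * Complex.I)‖ ^ (2 / (n : ℝ)) ≤ B ^ (2 / (n : ℝ)) :=
      Real.rpow_le_rpow (norm_nonneg _) (hg y) (by positivity)
    gcongr
  calc ∫ y : ℝ, ‖g (x + y * Complex.I) * wn n τ H (x + y * Complex.I)‖ ^ (2 / (n : ℝ))
      ≤ ∫ y : ℝ, B ^ (2 / (n : ℝ)) * Real.exp ((x - 1 / 2) ^ 2 / H ^ 2) * gw τ H y := by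
        apply integral_mono_of_nonneg
        · exact Eventually.of_forall fun y => by positivity
        · exact (gw_integrable τ H hH).const_mul _
        · exact Eventually.of_forall h1
    _ = _ := by rw [integral_const_mul, gw_integral τ H hH, mul_one]

theorem J_right {n : ℕ} (hn : 0 < n) (τ H : ℝ) (hH : 0 < H) {A : ℝ} (hA : 2 ≤ A) :
    VV (fJ n τ H) (2 / (n : ℝ)) A ≤
      (Z2 ^ n) ^ (2 / (n : ℝ)) * Real.exp ((A - 1 / 2) ^ 2 / H ^ 2) := by
  apply VV_le_of_bound hn τ H hH (g := zr) (by have := Z2_nonneg; positivity)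
  intro y
  exact norm_zr_right hn (by rw [re_line]; exact hA)

theorem K_right {n : ℕ} (hn : 0 < n) {N : ℝ} (hN : 1 ≤ N) (τ H : ℝ) (hH : 0 < H) {A : ℝ}
    (hA : 2 ≤ A) :
    VV (fK n N τ H) (2 / (n : ℝ)) A ≤
      (n * Z2 ^ (n + 1) * N ^ (2 - A)) ^ (2 / (n : ℝ)) * Real.exp ((A - 1 / 2) ^ 2 / H ^ 2) := by
  apply VV_le_of_bound hn τ H hH (g := fun s => zr s - SN n N s ^ n * rr s)
    (by have := Z2_nonneg; positivity)
  intro y
  have := norm_K_right hn hN (s := A + y * Complex.I) (by rw [re_line]; exact hA)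
  rwa [re_line] at this

lemma norm_S_eq {n : ℕ} (hn : 0 < n) (N τ H : ℝ) (hH : 0 < H) (x y : ℝ) :
    ‖fS n N τ H (x + y * Complex.I)‖ ^ (2 / (n : ℝ)) =
      Real.exp ((x - 1 / 2) ^ 2 / H ^ 2) * (‖SN n N (x + y * Complex.I)‖ ^ 2 *
        ‖rr (x + y * Complex.I)‖ ^ (2 / (n : ℝ)) * gw τ H y) := by
  have hn0 : (n : ℝ) ≠ 0 := by exact_mod_cast hn.ne'
  unfold fS
  rw [norm_mul, Real.mul_rpow (norm_nonneg _) (norm_nonneg _), norm_wn n hn τ H hH, norm_mul,
    Real.mul_rpow (norm_nonneg _) (norm_nonneg _), norm_pow, ← Real.rpow_natCast,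
    ← Real.rpow_mul (norm_nonneg _), mul_div_cancel₀ _ hn0]
  have : ‖SN n N (x + y * Complex.I)‖ ^ (2 : ℝ) = ‖SN n N (x + y * Complex.I)‖ ^ 2 := by norm_cast
  rw [this]
  ring

lemma SN_cont (n : ℕ) (N x : ℝ) : Continuous (fun y : ℝ => SN n N (x + y * Complex.I)) := by
  have h : Differentiable ℂ (SN n N) := Dp_differentiable _ _
  exact h.continuous.comp (by fun_prop)

lemma SN_gw_integrable {n : ℕ} (hn : 0 < n) {N : ℝ} (hN : 0 ≤ N) (τ H : ℝ) (hH : 0 < H) {x : ℝ}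
    (hx : 0 ≤ x) : Integrable (fun y : ℝ => ‖SN n N (x + y * Complex.I)‖ ^ 2 * gw τ H y) := by
  refine (gw_integrable τ H hH).bdd_mul (c := N ^ 2) ?_ ?_
  · exact ((SN_cont n N x).norm.pow 2).aestronglyMeasurable
  · filter_upwards with y
    rw [Real.norm_of_nonneg (by positivity)]
    have := SN_norm_le hn hN (z := x + y * Complex.I) (by rw [re_line]; exact hx)
    gcongr

theorem S_upper {n : ℕ} (hn : 0 < n) {N : ℝ} (hN : 0 ≤ N) (τ H : ℝ) (hH : 0 < H) {x : ℝ}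
    (hx : 0 < x) : VV (fS n N τ H) (2 / (n : ℝ)) x ≤
      Real.exp ((x - 1 / 2) ^ 2 / H ^ 2) * QQ n N τ H x := by
  have hg := (good_fS hn hN τ H hH (a := x) (b := x) hx).integrable (x := x) ⟨le_rfl, le_rfl⟩
  unfold VV QQ
  rw [← integral_const_mul]
  refine integral_mono hg ((SN_gw_integrable hn hN τ H hH hx.le).const_mul _) fun y => ?_
  simp only
  rw [norm_S_eq hn N τ H hH]
  apply mul_le_mul_of_nonneg_left _ (Real.exp_pos _).le
  apply mul_le_mul_of_nonneg_right _ (gw_nonneg τ H y hH)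
  have h1 := norm_rr_le (s := x + y * Complex.I) (by rw [re_line]; exact hx)
  have h2 : ‖rr (x + y * Complex.I)‖ ^ (2 / (n : ℝ)) ≤ 1 :=
    Real.rpow_le_one (norm_nonneg _) h1 (by positivity)
  calc _ ≤ ‖SN n N (x + y * Complex.I)‖ ^ 2 * 1 := by gcongr
    _ = _ := mul_one _

theorem S_lower {n : ℕ} (hn : 2 ≤ n) {N : ℝ} (hN : 0 ≤ N) {τ H : ℝ} (hτ : 0 < τ) (hH : 0 < H)
    {x : ℝ} (hx : 0 < x) :
    (1 - 4 / τ) * QQ n N τ H x - 2 * N ^ 2 * Real.exp (-(τ ^ 2 / (8 * H ^ 2))) ≤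
      VV (fS n N τ H) (2 / (n : ℝ)) x := by
  have hn' : 0 < n := by omega
  have hn2 : (2 : ℝ) ≤ n := by exact_mod_cast hn
  have hp1 : 2 / (n : ℝ) ≤ 1 := by rw [div_le_one (by linarith)]; exact hn2
  have hg := (good_fS hn' hN τ H hH (a := x) (b := x) hx).integrable (x := x) ⟨le_rfl, le_rfl⟩
  have hQ := SN_gw_integrable hn' hN τ H hH hx.le
  set E : Set ℝ := (Ioc (τ - τ / 2) (τ + τ / 2))ᶜ with hE
  have hEm : MeasurableSet E := measurableSet_Ioc.compl
  have htail := gw_tail τ H (τ / 2) hH (by linarith)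
  have e1 : (τ / 2) ^ 2 / (2 * H ^ 2) = τ ^ 2 / (8 * H ^ 2) := by field_simp; ring
  rw [e1] at htail
  have hint2 : Integrable (fun y : ℝ => (1 - 4 / τ) * (‖SN n N (x + y * Complex.I)‖ ^ 2 * gw τ H y) -
      E.indicator (fun y => N ^ 2 * gw τ H y) y) :=
    (hQ.const_mul _).sub (((gw_integrable τ H hH).const_mul _).indicator hEm)
  have h1 : ∀ y : ℝ, (1 - 4 / τ) * (‖SN n N (x + y * Complex.I)‖ ^ 2 * gw τ H y) -
      E.indicator (fun y => N ^ 2 * gw τ H y) y ≤ ‖fS n N τ H (x + y * Complex.I)‖ ^ (2 / (n : ℝ)) := by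
    intro y
    rw [norm_S_eq hn' N τ H hH]
    set q := ‖SN n N (x + y * Complex.I)‖ ^ 2 with hq
    have hq0 : 0 ≤ q := by positivity
    have hw := gw_nonneg τ H y hH
    have hre : 0 < ((x : ℂ) + y * Complex.I).re := by rw [re_line]; exact hx
    have hr1 := norm_rr_le hre
    have hr2 := norm_rr_ge hre
    set ρ := ‖rr (x + y * Complex.I)‖ with hρ
    have hρ0 : 0 ≤ ρ := norm_nonneg _
    have hρp : ρ ≤ ρ ^ (2 / (n : ℝ)) := by
      have := Real.rpow_le_rpow_of_exponent_ge' hρ0 hr1 (by positivity) hp1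
      rwa [Real.rpow_one] at this
    have hexp : 1 ≤ Real.exp ((x - 1 / 2) ^ 2 / H ^ 2) := Real.one_le_exp (by positivity)
    have hR : q * ρ * gw τ H y ≤ Real.exp ((x - 1 / 2) ^ 2 / H ^ 2) *
        (q * ρ ^ (2 / (n : ℝ)) * gw τ H y) := by
      have h3 : q * ρ * gw τ H y ≤ q * ρ ^ (2 / (n : ℝ)) * gw τ H y := by gcongr
      have h4 : 0 ≤ q * ρ ^ (2 / (n : ℝ)) * gw τ H y := by positivity
      nlinarith
    refine le_trans ?_ hR
    by_cases hy : y ∈ E
    · rw [Set.indicator_of_mem hy]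
      have hqN : q ≤ N ^ 2 := by
        have := SN_norm_le hn' hN (z := x + y * Complex.I) hre.le
        rw [hq]
        gcongr
      have h4τ : 0 ≤ 4 / τ := by positivity
      have h5 : 0 ≤ q * gw τ H y := by positivity
      have h6 : 0 ≤ q * ρ * gw τ H y := by positivity
      have h7 : q * gw τ H y ≤ N ^ 2 * gw τ H y := by gcongr
      nlinarith
    · rw [Set.indicator_of_notMem hy, sub_zero]
      have hy2 : τ / 2 < y := by
        rw [hE, Set.mem_compl_iff, not_not, Set.mem_Ioc] at hy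
        linarith [hy.1]
      have hs : τ / 2 ≤ ‖(x : ℂ) + y * Complex.I + 1‖ := by
        have h8 := Complex.abs_im_le_norm ((x : ℂ) + y * Complex.I + 1)
        have h9 : ((x : ℂ) + y * Complex.I + 1).im = y := by simp
        rw [h9] at h8
        have := le_abs_self y
        linarith
      have h10 : 1 - 4 / τ ≤ ρ := by
        refine le_trans ?_ hr2
        have : 2 / ‖(x : ℂ) + y * Complex.I + 1‖ ≤ 4 / τ := by
          rw [div_le_div_iff₀ (by linarith) hτ]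
          linarith
        linarith
      calc (1 - 4 / τ) * (q * gw τ H y) ≤ ρ * (q * gw τ H y) := by gcongr
        _ = _ := by ring
  have h2 := integral_mono hint2 hg h1
  rw [integral_sub (hQ.const_mul _) (((gw_integrable τ H hH).const_mul _).indicator hEm),
    integral_const_mul, integral_indicator hEm, integral_const_mul] at h2
  refine le_trans ?_ h2
  unfold QQ
  have h3 : N ^ 2 * ∫ y in E, gw τ H y ≤ N ^ 2 * (2 * Real.exp (-(τ ^ 2 / (8 * H ^ 2)))) :=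
    mul_le_mul_of_nonneg_left htail (by positivity)
  linarith

end

end Pool.Agent.Q255.FM
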