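import Mathlib

set_option autoImplicit false

/-!
Sub-mean value property of `‖f‖ ^ p` for analytic `f` and `p > 0`.
-/

open Filter MeasureTheory Metric Real Set Topology

namespace Pool.Agent.Q255.FM

theorem log_le_average {c : ℂ} {R : ℝ} {f : ℂ → ℂ} (hR : 0 < R)
    (hf : AnalyticOnNhd ℂ f (closedBall c R)) (h0 : f c ≠ 0) :
    Real.log ‖f c‖ ≤ circleAverage (Real.log ‖f ·‖) c R := by
  have hf' : AnalyticOnNhd ℂ f (closedBall c |R|) := by rwa [abs_of_pos hR]
  rw [hf'.circleAverage_log_norm hR.ne' h0]
  have h1 : 0 ≤ ∑ᶠ u, (MeromorphicOn.divisor f (closedBall c |R|) u : ℝ) *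
      Real.log (R * ‖c - u‖⁻¹) := by
    apply finsum_nonneg
    intro u
    by_cases hu : u ∈ closedBall c |R|
    · have h2 : 0 ≤ MeromorphicOn.divisor f (closedBall c |R|) u := by
        have := MeromorphicOn.AnalyticOnNhd.divisor_nonneg hf'
        exact this u
      apply mul_nonneg (by exact_mod_cast h2)
      by_cases huc : c - u = 0
      · rw [huc]; simp
      · apply Real.log_nonneg
        rw [mem_closedBall, dist_comm, dist_eq_norm, abs_of_pos hR] at hu
        have h3 : 0 < ‖c - u‖ := norm_pos_iff.mpr huc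
        rw [← div_eq_mul_inv, le_div_iff₀ h3]
        linarith
    · rw [Function.locallyFinsuppWithin.apply_eq_zero_of_notMem _ hu]
      simp
  linarith

/-- `‖f‖ ^ p` has the sub-mean value property -/
theorem rpow_le_average {c : ℂ} {R p : ℝ} {f : ℂ → ℂ} (hR : 0 < R) (hp : 0 < p)
    (hf : AnalyticOnNhd ℂ f (closedBall c R)) :
    ‖f c‖ ^ p ≤ circleAverage (fun z => ‖f z‖ ^ p) c R := by
  have hsph : sphere c |R| ⊆ closedBall c R := by
    rw [abs_of_pos hR]; exact sphere_subset_closedBall
  have hcont : ContinuousOn (fun z => ‖f z‖ ^ p) (sphere c |R|) := by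
    apply ContinuousOn.rpow_const
    · exact (hf.continuousOn.mono hsph).norm
    · intro x _; right; exact hp.le
  have hci : CircleIntegrable (fun z => ‖f z‖ ^ p) c R := hcont.circleIntegrable'
  by_cases h0 : f c = 0
  · rw [h0, norm_zero, Real.zero_rpow hp.ne']
    exact circleAverage_nonneg_of_nonneg (fun x _ => by positivity)
  set L := Real.log ‖f c‖ with hL
  have hfc : 0 < ‖f c‖ := norm_pos_iff.mpr h0
  set g : ℂ → ℝ := fun z => if f z = 0 then L - 1 / p else Real.log ‖f z‖ with hg
  have hmer : MeromorphicOn f (sphere c |R|) := (hf.mono hsph).meromorphicOn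
  have hlogint : CircleIntegrable (fun z => Real.log ‖f z‖) c R :=
    hmer.circleIntegrable_log_norm
  have hcod : (fun z => Real.log ‖f z‖) =ᶠ[codiscreteWithin (sphere c |R|)] g := by
    have h2 : f ⁻¹' {0}ᶜ ∈ codiscreteWithin (closedBall c R) :=
      hf.preimage_zero_mem_codiscreteWithin (x := c) h0 (mem_closedBall_self hR.le)
        ((convex_closedBall c R).isConnected (nonempty_closedBall.mpr hR.le))
    have h3 := codiscreteWithin_mono hsph h2
    filter_upwards [h3] with z hz
    have hz' : f z ≠ 0 := hz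
    simp [hg, hz']
  have hgint : CircleIntegrable g c R := hlogint.congr_codiscreteWithin hcod
  have hgavg : L ≤ circleAverage g c R := by
    have h1 := log_le_average hR hf h0
    have h2 : circleAverage (Real.log ‖f ·‖) c R = circleAverage g c R :=
      circleAverage_congr_codiscreteWithin hcod hR.ne'
    rw [h2] at h1
    exact h1
  have hLp : ‖f c‖ ^ p = Real.exp (p * L) := by
    rw [Real.rpow_def_of_pos hfc, mul_comm]
  -- the affine lower bound
  have hpt : ∀ z, ‖f c‖ ^ p * (1 - p * L) + (‖f c‖ ^ p * p) * g z ≤ ‖f z‖ ^ p := by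
    intro z
    by_cases hz : f z = 0
    · simp only [hg, hz, if_true, norm_zero]
      rw [Real.zero_rpow hp.ne']
      have : ‖f c‖ ^ p * (1 - p * L) + ‖f c‖ ^ p * p * (L - 1 / p) = 0 := by
        field_simp
        ring
      rw [this]
    · simp only [hg, hz, if_false]
      have hz0 : 0 < ‖f z‖ := norm_pos_iff.mpr hz
      rw [Real.rpow_def_of_pos hz0, hLp]
      have h5 := Real.add_one_le_exp (p * Real.log ‖f z‖ - p * L)
      have h6 : Real.exp (Real.log ‖f z‖ * p) = Real.exp (p * L) *
          Real.exp (p * Real.log ‖f z‖ - p * L) := by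
        rw [← Real.exp_add]; congr 1; ring
      rw [h6]
      have h7 := Real.exp_pos (p * L)
      nlinarith
  have hci2 : CircleIntegrable (fun z => (‖f c‖ ^ p * p) * g z) c R := by
    exact hgint.const_smul (a := (‖f c‖ ^ p * p))
  have hcc : CircleIntegrable (fun _ : ℂ => ‖f c‖ ^ p * (1 - p * L)) c R :=
    circleIntegrable_const _ _ _
  have havg : circleAverage (fun z => ‖f c‖ ^ p * (1 - p * L) + (‖f c‖ ^ p * p) * g z) c R =
      ‖f c‖ ^ p * (1 - p * L) + (‖f c‖ ^ p * p) * circleAverage g c R := by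
    rw [circleAverage_fun_add hcc hci2, circleAverage_const]
    congr 1
    have := circleAverage_fun_smul (a := (‖f c‖ ^ p * p)) (f := g) (c := c) (R := R)
    simpa [smul_eq_mul] using this
  have hmono := circleAverage_mono (hcc.add hci2) hci (fun z _ => hpt z)
  have hmono' : circleAverage (fun z => ‖f c‖ ^ p * (1 - p * L) + (‖f c‖ ^ p * p) * g z) c R ≤
      circleAverage (fun z => ‖f z‖ ^ p) c R := hmono
  rw [havg] at hmono'
  refine le_trans ?_ hmono'
  have h8 : 0 ≤ ‖f c‖ ^ p * p := by positivity
  nlinarith [mul_le_mul_of_nonneg_left hgavg h8]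

end Pool.Agent.Q255.FM
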