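import Pool.Agent.Q255.FM.Sub

set_option autoImplicit false

/-!
Logarithmic convexity of `x ↦ ∫ ‖f (x + i y)‖ ^ p dy` for `f` analytic in a strip, every `p > 0`.
-/

open Filter MeasureTheory Metric Set Topology

namespace Pool.Agent.Q255.FM

noncomputable section

/-- integral over a vertical line -/
def VV (f : ℂ → ℂ) (p x : ℝ) : ℝ := ∫ y : ℝ, ‖f (x + y * Complex.I)‖ ^ p

/-- analytic in a closed strip, with decay -/
structure Good (f : ℂ → ℂ) (p a b : ℝ) : Prop where
  hp : 0 < p
  an : AnalyticOnNhd ℂ f {z | a ≤ z.re ∧ z.re ≤ b}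
  bd : ∃ C : ℝ, ∀ z : ℂ, a ≤ z.re → z.re ≤ b → ‖f z‖ ^ p ≤ C * (1 + z.im ^ 2)⁻¹

variable {f : ℂ → ℂ} {p a b : ℝ}

lemma Good.cont (h : Good f p a b) : ContinuousOn (fun z => ‖f z‖ ^ p) {z | a ≤ z.re ∧ z.re ≤ b} := by
  apply ContinuousOn.rpow_const h.an.continuousOn.norm
  intro x _
  right; exact h.hp.le

lemma Good.cont_line (h : Good f p a b) {x : ℝ} (hx : x ∈ Icc a b) :
    Continuous (fun y : ℝ => ‖f (x + y * Complex.I)‖ ^ p) := by
  refine h.cont.comp_continuous (f := fun y : ℝ => (x : ℂ) + y * Complex.I) (by fun_prop) ?_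
  intro y
  simpa using hx

lemma Good.integrable (h : Good f p a b) {x : ℝ} (hx : x ∈ Icc a b) :
    Integrable (fun y : ℝ => ‖f (x + y * Complex.I)‖ ^ p) := by
  obtain ⟨C, hC⟩ := h.bd
  refine (integrable_inv_one_add_sq.const_mul C).mono' (h.cont_line hx).aestronglyMeasurable ?_
  filter_upwards with y
  rw [Real.norm_of_nonneg (by positivity)]
  have := hC (x + y * Complex.I) (by simpa using hx.1) (by simpa using hx.2)
  simpa using this

lemma VV_nonneg (f : ℂ → ℂ) (p x : ℝ) : 0 ≤ VV f p x :=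
  integral_nonneg fun y => by positivity

lemma Good.continuousOn (h : Good f p a b) : ContinuousOn (VV f p) (Icc a b) := by
  obtain ⟨C, hC⟩ := h.bd
  unfold VV
  refine continuousOn_of_dominated (bound := fun y => C * (1 + y ^ 2)⁻¹)
    (fun x hx => (h.cont_line hx).aestronglyMeasurable) ?_
    (integrable_inv_one_add_sq.const_mul C) ?_
  · intro x hx
    filter_upwards with y
    rw [Real.norm_of_nonneg (by positivity)]
    have := hC (x + y * Complex.I) (by simpa using hx.1) (by simpa using hx.2)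
    simpa using this
  · filter_upwards with y
    refine h.cont.comp (f := fun x : ℝ => (x : ℂ) + y * Complex.I) (by fun_prop) ?_
    intro x hx
    simpa using hx

lemma re_line (x y : ℝ) : ((x : ℂ) + (y : ℂ) * Complex.I).re = x := by simp

lemma im_line (x y : ℝ) : ((x : ℂ) + (y : ℂ) * Complex.I).im = y := by simp

lemma circleMap_eq (x0 y r θ : ℝ) : circleMap (x0 + y * Complex.I) r θ =
    ((x0 + r * Real.cos θ : ℝ) : ℂ) + ((y + r * Real.sin θ : ℝ) : ℂ) * Complex.I := by
  rw [circleMap, Complex.exp_mul_I]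
  push_cast
  ring

lemma Good.submean (h : Good f p a b) {x0 r : ℝ} (hr : 0 < r) (h1 : a ≤ x0 - r) (h2 : x0 + r ≤ b) :
    VV f p x0 ≤ (2 * Real.pi)⁻¹ * ∫ θ in (0 : ℝ)..(2 * Real.pi), VV f p (x0 + r * Real.cos θ) := by
  have hπ : (0 : ℝ) ≤ 2 * Real.pi := by positivity
  have hx0 : x0 ∈ Icc a b := ⟨by linarith, by linarith⟩
  have hmem : ∀ θ : ℝ, x0 + r * Real.cos θ ∈ Icc a b := by
    intro θ
    have c1 := Real.cos_le_one θ
    have c2 := Real.neg_one_le_cos θ
    constructor <;> nlinarith
  set G : ℝ × ℝ → ℝ := fun q => ‖f (circleMap (x0 + q.2 * Complex.I) r q.1)‖ ^ p with hG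
  have hGc : Continuous G := by
    refine h.cont.comp_continuous
      (f := fun q : ℝ × ℝ => circleMap (x0 + q.2 * Complex.I) r q.1) ?_ ?_
    · unfold circleMap
      fun_prop
    · intro q
      rw [circleMap_eq]
      show a ≤ _ ∧ _ ≤ b
      rw [re_line]
      exact hmem q.1
  have hinner : ∀ θ : ℝ, ∫ y, G (θ, y) = VV f p (x0 + r * Real.cos θ) := by
    intro θ
    simp only [hG, VV]
    simp_rw [circleMap_eq]
    exact integral_add_right_eq_self (fun y : ℝ => ‖f (((x0 + r * Real.cos θ : ℝ) : ℂ) +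
      (y : ℂ) * Complex.I)‖ ^ p) (r * Real.sin θ)
  have hGi : Integrable G ((volume.restrict (Ioc 0 (2 * Real.pi))).prod volume) := by
    rw [integrable_prod_iff hGc.aestronglyMeasurable]
    constructor
    · filter_upwards with θ
      simp only [hG]
      simp_rw [circleMap_eq]
      exact (h.integrable (hmem θ)).comp_add_right (r * Real.sin θ)
    · have : (fun θ => ∫ y, ‖G (θ, y)‖) = fun θ => VV f p (x0 + r * Real.cos θ) := by
        funext θ
        rw [← hinner θ]
        refine integral_congr_ae (Eventually.of_forall fun y => ?_)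
        simp only [hG]
        rw [Real.norm_of_nonneg (by positivity)]
      rw [this]
      have hc : Continuous (fun θ => VV f p (x0 + r * Real.cos θ)) :=
        h.continuousOn.comp_continuous (by fun_prop) hmem
      exact (hc.integrableOn_Icc (a := 0) (b := 2 * Real.pi)).mono_set Ioc_subset_Icc_self
  have hsub : ∀ y : ℝ, ‖f (x0 + y * Complex.I)‖ ^ p ≤
      (2 * Real.pi)⁻¹ * ∫ θ in Ioc 0 (2 * Real.pi), G (θ, y) := by
    intro y
    have hball : AnalyticOnNhd ℂ f (closedBall (x0 + y * Complex.I) r) := by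
      apply h.an.mono
      intro z hz
      rw [mem_closedBall, dist_eq_norm] at hz
      have h3 := (Complex.abs_re_le_norm (z - (x0 + y * Complex.I))).trans hz
      simp only [Complex.sub_re, Complex.add_re, Complex.ofReal_re, Complex.mul_re,
        Complex.I_re, mul_zero, Complex.ofReal_im, Complex.I_im, mul_one, sub_self, add_zero] at h3
      rw [abs_le] at h3
      exact ⟨by linarith [h3.1], by linarith [h3.2]⟩
    have h4 := rpow_le_average hr h.hp hball
    rw [Real.circleAverage_def, intervalIntegral.integral_of_le hπ, smul_eq_mul] at h4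
    exact h4
  calc VV f p x0 = ∫ y : ℝ, ‖f (x0 + y * Complex.I)‖ ^ p := rfl
    _ ≤ ∫ y : ℝ, (2 * Real.pi)⁻¹ * ∫ θ in Ioc 0 (2 * Real.pi), G (θ, y) := by
        refine integral_mono (h.integrable hx0) ?_ hsub
        exact (hGi.integral_prod_right).const_mul _
    _ = (2 * Real.pi)⁻¹ * ∫ y : ℝ, ∫ θ in Ioc 0 (2 * Real.pi), G (θ, y) := integral_const_mul _ _
    _ = (2 * Real.pi)⁻¹ * ∫ θ in Ioc 0 (2 * Real.pi), ∫ y : ℝ, G (θ, y) := by
        congr 1
        exact (integral_integral_swap (f := fun θ y => G (θ, y)) hGi).symm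
    _ = (2 * Real.pi)⁻¹ * ∫ θ in (0 : ℝ)..(2 * Real.pi), VV f p (x0 + r * Real.cos θ) := by
        rw [intervalIntegral.integral_of_le hπ]
        congr 1
        refine integral_congr_ae (Eventually.of_forall fun θ => ?_)
        exact hinner θ

/-- one-dimensional maximum principle -/
theorem max_principle {V : ℝ → ℝ} (hab : a < b) (hc : ContinuousOn V (Icc a b))
    (hsub : ∀ x r : ℝ, 0 < r → a ≤ x - r → x + r ≤ b →
      V x ≤ (2 * Real.pi)⁻¹ * ∫ θ in (0 : ℝ)..(2 * Real.pi), V (x + r * Real.cos θ))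
    {M : ℝ} (ha : V a ≤ M) (hb : V b ≤ M) {x : ℝ} (hx : x ∈ Icc a b) : V x ≤ M := by
  by_contra hcon
  push Not at hcon
  obtain ⟨m, hm, hmax⟩ := isCompact_Icc.exists_isMaxOn (nonempty_Icc.mpr hab.le) hc
  have hmM : M < V m := lt_of_lt_of_le hcon (hmax hx)
  set S : Set ℝ := {t | t ∈ Icc a b ∧ V t = V m} with hS
  have hSc : IsCompact S := by
    have : S = Icc a b ∩ V ⁻¹' {V m} := rfl
    rw [this]
    exact isCompact_Icc.of_isClosed_subset (hc.preimage_isClosed_of_isClosed isClosed_Icc
      isClosed_singleton) inter_subset_left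
  have hSn : S.Nonempty := ⟨m, hm, rfl⟩
  obtain ⟨x0, hx0, hleast⟩ := hSc.exists_isLeast hSn
  have hx0V : V x0 = V m := hx0.2
  have hx0a : a < x0 := by
    rcases eq_or_lt_of_le hx0.1.1 with h | h
    · rw [← h] at hx0V; linarith
    · exact h
  have hx0b : x0 < b := by
    rcases eq_or_lt_of_le hx0.1.2 with h | h
    · rw [h] at hx0V; linarith
    · exact h
  set r := min (x0 - a) (b - x0) with hr
  have hr0 : 0 < r := lt_min (by linarith) (by linarith)
  have hr1 : a ≤ x0 - r := by have := min_le_left (x0 - a) (b - x0); linarith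
  have hr2 : x0 + r ≤ b := by have := min_le_right (x0 - a) (b - x0); linarith
  have hmem : ∀ θ : ℝ, x0 + r * Real.cos θ ∈ Icc a b := by
    intro θ
    have c1 := Real.cos_le_one θ
    have c2 := Real.neg_one_le_cos θ
    constructor <;> nlinarith
  have hle : ∀ t ∈ Icc a b, V t ≤ V m := fun t ht => hmax ht
  have hcc : Continuous (fun θ => V (x0 + r * Real.cos θ)) :=
    hc.comp_continuous (by fun_prop) hmem
  have hlt : ∫ θ in (0 : ℝ)..(2 * Real.pi), V (x0 + r * Real.cos θ) <
      ∫ _θ in (0 : ℝ)..(2 * Real.pi), V m := by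
    refine intervalIntegral.integral_lt_integral_of_continuousOn_of_le_of_exists_lt
      (by positivity) hcc.continuousOn continuousOn_const (fun θ _ => hle _ (hmem θ)) ?_
    refine ⟨Real.pi, ⟨Real.pi_pos.le, by linarith [Real.pi_pos]⟩, ?_⟩
    rw [Real.cos_pi]
    refine lt_of_le_of_ne (hle _ (by simpa using hmem Real.pi)) ?_
    intro heq
    have h1 : x0 + r * (-1) ∈ S := ⟨by simpa using hmem Real.pi, heq⟩
    have := hleast h1
    linarith
  rw [intervalIntegral.integral_const, smul_eq_mul, sub_zero] at hlt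
  have h1 := hsub x0 r hr0 hr1 hr2
  have h2 : (2 * Real.pi)⁻¹ * ∫ θ in (0 : ℝ)..(2 * Real.pi), V (x0 + r * Real.cos θ) <
      (2 * Real.pi)⁻¹ * (2 * Real.pi * V m) := by
    apply mul_lt_mul_of_pos_left hlt
    positivity
  rw [← mul_assoc, inv_mul_cancel₀ (by positivity), one_mul] at h2
  linarith

lemma Good.mul_exp (h : Good f p a b) (lam : ℝ) :
    Good (fun z => f z * Complex.exp (lam / p * z)) p a b where
  hp := h.hp
  an := by
    intro z hz
    exact (h.an z hz).mul (by fun_prop)
  bd := by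
    obtain ⟨C, hC⟩ := h.bd
    refine ⟨|C| * Real.exp (|lam| * (|a| + |b|)), fun z h1 h2 => ?_⟩
    have hn : ‖Complex.exp (lam / p * z)‖ ^ p = Real.exp (lam * z.re) := by
      rw [Complex.norm_exp]
      have : ((lam : ℂ) / p * z).re = lam / p * z.re := by
        rw [← Complex.ofReal_div, Complex.re_ofReal_mul]
      rw [this, ← Real.exp_mul]
      congr 1
      have := h.hp.ne'
      field_simp
    rw [norm_mul, Real.mul_rpow (norm_nonneg _) (norm_nonneg _), hn]
    have h3 := hC z h1 h2
    have h4 : 0 < (1 + z.im ^ 2)⁻¹ := by positivity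
    have h5 : C * (1 + z.im ^ 2)⁻¹ ≤ |C| * (1 + z.im ^ 2)⁻¹ :=
      mul_le_mul_of_nonneg_right (le_abs_self C) h4.le
    have h6 : Real.exp (lam * z.re) ≤ Real.exp (|lam| * (|a| + |b|)) := by
      apply Real.exp_le_exp.mpr
      have h7 : |z.re| ≤ |a| + |b| := by
        rw [abs_le]
        constructor
        · have := neg_abs_le a
          have := abs_nonneg b
          linarith
        · have := le_abs_self b
          have := abs_nonneg a
          linarith
      calc lam * z.re ≤ |lam * z.re| := le_abs_self _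
        _ = |lam| * |z.re| := abs_mul _ _
        _ ≤ _ := mul_le_mul_of_nonneg_left h7 (abs_nonneg _)
    calc ‖f z‖ ^ p * Real.exp (lam * z.re)
        ≤ (|C| * (1 + z.im ^ 2)⁻¹) * Real.exp (|lam| * (|a| + |b|)) := by
          apply mul_le_mul (h3.trans h5) h6 (Real.exp_pos _).le (by positivity)
      _ = _ := by ring

lemma VV_mul_exp (f : ℂ → ℂ) (hp : 0 < p) (lam x : ℝ) :
    VV (fun z => f z * Complex.exp (lam / p * z)) p x = VV f p x * Real.exp (lam * x) := by
  unfold VV
  rw [← integral_mul_const]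
  refine integral_congr_ae (Eventually.of_forall fun y => ?_)
  simp only
  rw [norm_mul, Real.mul_rpow (norm_nonneg _) (norm_nonneg _)]
  congr 1
  rw [Complex.norm_exp]
  have : ((lam : ℂ) / p * ((x : ℂ) + y * Complex.I)).re = lam / p * x := by
    rw [← Complex.ofReal_div, Complex.re_ofReal_mul, re_line]
  rw [this, ← Real.exp_mul]
  congr 1
  field_simp

/-- three lines theorem for the `L^p` norm on vertical lines -/
theorem Good.three_lines (h : Good f p a b) (hab : a < b) {A B : ℝ} (hA : 0 < A) (hB : 0 < B)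
    (h1 : VV f p a ≤ A) (h2 : VV f p b ≤ B) {x : ℝ} (hx : x ∈ Icc a b) :
    VV f p x ≤ A ^ ((b - x) / (b - a)) * B ^ ((x - a) / (b - a)) := by
  have hba : 0 < b - a := by linarith
  set lam : ℝ := (Real.log A - Real.log B) / (b - a) with hlam
  have hg := h.mul_exp lam
  set M : ℝ := A * Real.exp (lam * a) with hM
  have hM2 : M = B * Real.exp (lam * b) := by
    have e1 : M = Real.exp (Real.log A + lam * a) := by
      rw [Real.exp_add, Real.exp_log hA]
    have e2 : B * Real.exp (lam * b) = Real.exp (Real.log B + lam * b) := by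
      rw [Real.exp_add, Real.exp_log hB]
    rw [e1, e2]
    congr 1
    rw [hlam]
    field_simp
    ring
  have h3 : VV (fun z => f z * Complex.exp (lam / p * z)) p x ≤ M := by
    apply max_principle hab hg.continuousOn (fun x r hr => hg.submean hr) _ _ hx
    · rw [VV_mul_exp f h.hp, hM]
      exact mul_le_mul_of_nonneg_right h1 (Real.exp_pos _).le
    · rw [VV_mul_exp f h.hp, hM2]
      exact mul_le_mul_of_nonneg_right h2 (Real.exp_pos _).le
  rw [VV_mul_exp f h.hp] at h3
  have h4 : VV f p x ≤ M * Real.exp (-(lam * x)) := by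
    rw [Real.exp_neg, ← div_eq_mul_inv, le_div_iff₀ (Real.exp_pos _)]
    exact h3
  refine h4.trans (le_of_eq ?_)
  rw [Real.rpow_def_of_pos hA, Real.rpow_def_of_pos hB, ← Real.exp_add, hM]
  rw [show A * Real.exp (lam * a) = Real.exp (Real.log A + lam * a) by
    rw [Real.exp_add, Real.exp_log hA], ← Real.exp_add]
  congr 1
  rw [hlam]
  field_simp
  ring

end

end Pool.Agent.Q255.FM
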