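import Pool.Agent.Q255.FM.TL
import Pool.Agent.H306R2.Asy
import Pool.Agent.H306R2.Right

set_option autoImplicit false

/-!
Weights and the three functions `fJ`, `fK`, `fS`.
-/

open Filter MeasureTheory Metric Set Topology
open Pool.Agent.H306R2

namespace Pool.Agent.Q255.FM

noncomputable section

/-- analytic weight with `‖wn‖ ^ (2/n) = ‖Wa‖` -/
def wn (n : ℕ) (τ H : ℝ) (s : ℂ) : ℂ :=
  Complex.exp ((n : ℂ) / 2 * ((s - 1 / 2 - τ * Complex.I) ^ 2 / (H : ℂ) ^ 2)) *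
    (((H * Real.sqrt Real.pi) ^ (-((n : ℝ) / 2)) : ℝ) : ℂ)

lemma wn_differentiable (n : ℕ) (τ H : ℝ) : Differentiable ℂ (wn n τ H) := by
  unfold wn
  fun_prop

lemma re_gauss (τ H x y : ℝ) :
    (((x : ℂ) + y * Complex.I - 1 / 2 - τ * Complex.I) ^ 2 / (H : ℂ) ^ 2).re =
      ((x - 1 / 2) ^ 2 - (y - τ) ^ 2) / H ^ 2 := by
  have e1 : (((x : ℂ) + y * Complex.I - 1 / 2 - τ * Complex.I) ^ 2 / (H : ℂ) ^ 2) =
      ((((x - 1 / 2) ^ 2 - (y - τ) ^ 2) / H ^ 2 : ℝ) : ℂ) +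
        ((2 * (x - 1 / 2) * (y - τ) / H ^ 2 : ℝ) : ℂ) * Complex.I := by
    push_cast
    have h2 : ((x : ℂ) + y * Complex.I - 1 / 2 - τ * Complex.I) ^ 2 =
        (x - 1 / 2) ^ 2 - (y - τ) ^ 2 + 2 * (x - 1 / 2) * (y - τ) * Complex.I := by
      have := Complex.I_sq
      linear_combination ((y : ℂ) - τ) ^ 2 * this
    rw [h2]
    ring
  rw [e1, re_line]

lemma norm_wn (n : ℕ) (hn : 0 < n) (τ H : ℝ) (hH : 0 < H) (x y : ℝ) :
    ‖wn n τ H ((x : ℂ) + y * Complex.I)‖ ^ (2 / (n : ℝ)) =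
      Real.exp ((x - 1 / 2) ^ 2 / H ^ 2) * gw τ H y := by
  have hn0 : (0 : ℝ) < n := by exact_mod_cast hn
  have hpos : 0 < H * Real.sqrt Real.pi := by positivity
  unfold wn gw
  have hre : ((n : ℂ) / 2 * (((x : ℂ) + y * Complex.I - 1 / 2 - τ * Complex.I) ^ 2 / (H : ℂ) ^ 2)).re
      = (n : ℝ) / 2 * (((x - 1 / 2) ^ 2 - (y - τ) ^ 2) / H ^ 2) := by
    have : ((n : ℂ) / 2) = (((n : ℝ) / 2 : ℝ) : ℂ) := by push_cast; ring
    rw [this, Complex.re_ofReal_mul, re_gauss]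
  rw [norm_mul, Complex.norm_exp, Complex.norm_real, Real.norm_of_nonneg (by positivity),
    Real.mul_rpow (Real.exp_pos _).le (by positivity), hre, ← Real.exp_mul, ← Real.rpow_mul hpos.le]
  have e1 : -((n : ℝ) / 2) * (2 / (n : ℝ)) = -1 := by field_simp
  have e2 : Real.exp ((x - 1 / 2) ^ 2 / H ^ 2) * (Real.exp (-((y - τ) ^ 2 / H ^ 2)) /
      (H * Real.sqrt Real.pi)) = Real.exp ((x - 1 / 2) ^ 2 / H ^ 2 + -((y - τ) ^ 2 / H ^ 2)) /
      (H * Real.sqrt Real.pi) := by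
    rw [Real.exp_add]; ring
  rw [e1, Real.rpow_neg_one, ← div_eq_mul_inv, e2]
  congr 2
  field_simp
  ring

/-- the factor removing the pole -/
def rr (s : ℂ) : ℂ := (s - 1) / (s + 1)

/-- `ζ(s) (s-1)/(s+1)` -/
def zr (s : ℂ) : ℂ := Zt s / (s + 1)

lemma add_one_ne {s : ℂ} (hs : 0 < s.re) : s + 1 ≠ 0 := by
  intro h
  have := congrArg Complex.re h
  simp at this
  linarith

lemma one_le_norm_add_one {s : ℂ} (hs : 0 < s.re) : 1 ≤ ‖s + 1‖ := by
  have h := Complex.re_le_norm (s + 1)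
  simp at h
  linarith

lemma zr_eq {s : ℂ} (hs : 0 < s.re) (h1 : s ≠ 1) : zr s = riemannZeta s * rr s := by
  unfold zr rr
  rw [← zeta_eq_pos hs h1]
  ring

lemma norm_sub_one_le {s : ℂ} (hs : 0 < s.re) : ‖s - 1‖ ≤ ‖s + 1‖ := by
  rw [← sq_le_sq₀ (norm_nonneg _) (norm_nonneg _), ← Complex.normSq_eq_norm_sq,
    ← Complex.normSq_eq_norm_sq, Complex.normSq_apply, Complex.normSq_apply]
  simp
  nlinarith

lemma norm_rr_le {s : ℂ} (hs : 0 < s.re) : ‖rr s‖ ≤ 1 := by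
  unfold rr
  rw [norm_div]
  have := one_le_norm_add_one hs
  rw [div_le_one (by linarith)]
  exact norm_sub_one_le hs

lemma norm_rr_ge {s : ℂ} (hs : 0 < s.re) : 1 - 2 / ‖s + 1‖ ≤ ‖rr s‖ := by
  unfold rr
  rw [norm_div]
  have h1 := one_le_norm_add_one hs
  have h2 : ‖s + 1‖ - 2 ≤ ‖s - 1‖ := by
    have := norm_sub_norm_le (s + 1) (2 : ℂ)
    have h3 : s + 1 - 2 = s - 1 := by ring
    rw [h3] at this
    simpa using this
  rw [le_div_iff₀ (by linarith)]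
  have : (1 - 2 / ‖s + 1‖) * ‖s + 1‖ = ‖s + 1‖ - 2 := by
    have : ‖s + 1‖ ≠ 0 := by linarith
    field_simp
  rw [this]; exact h2

lemma rr_an {s : ℂ} (hs : 0 < s.re) : AnalyticAt ℂ rr s := by
  unfold rr
  exact (by fun_prop : AnalyticAt ℂ (fun s : ℂ => s - 1) s).div (by fun_prop) (add_one_ne hs)

lemma zr_an {s : ℂ} (hs : 0 < s.re) : AnalyticAt ℂ zr s := by
  unfold zr
  exact (Zt_analyticOn s hs).div (by fun_prop) (add_one_ne hs)

/-- truncated Dirichlet series of `ζ^(1/n)` -/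
def SN (n : ℕ) (N : ℝ) (s : ℂ) : ℂ := Dp (dv (1 / (n : ℝ))) N s

lemma SN_an (n : ℕ) (N : ℝ) (s : ℂ) : AnalyticAt ℂ (SN n N) s := by
  have h : Differentiable ℂ (SN n N) := Dp_differentiable _ _
  exact h.analyticAt s

def fJ (n : ℕ) (τ H : ℝ) (s : ℂ) : ℂ := zr s * wn n τ H s

def fS (n : ℕ) (N τ H : ℝ) (s : ℂ) : ℂ := (SN n N s ^ n * rr s) * wn n τ H s

def fK (n : ℕ) (N τ H : ℝ) (s : ℂ) : ℂ := (zr s - SN n N s ^ n * rr s) * wn n τ H s

/-- functions of polynomial growth times the Gaussian are good -/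
lemma good_of_poly {n : ℕ} (hn : 0 < n) (τ H : ℝ) (hH : 0 < H) {a b : ℝ} {g : ℂ → ℂ}
    (ha : AnalyticOnNhd ℂ g {z | a ≤ z.re ∧ z.re ≤ b}) (C : ℝ) (hC : 0 ≤ C) (k : ℕ)
    (hg : ∀ z : ℂ, a ≤ z.re → z.re ≤ b → ‖g z‖ ≤ C * (1 + |z.im|) ^ k) :
    Good (fun s => g s * wn n τ H s) (2 / (n : ℝ)) a b where
  hp := by positivity
  an := fun z hz => (ha z hz).mul ((wn_differentiable n τ H).analyticAt z)
  bd := by
    have hn0 : (0 : ℝ) < n := by exact_mod_cast hn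
    set p : ℝ := 2 / (n : ℝ) with hp
    have hp0 : 0 < p := by positivity
    set M : ℝ := k * p + 2 with hM
    have hM0 : 0 ≤ M := by positivity
    refine ⟨C ^ p * (1 + |τ|) ^ M * (Real.exp (M ^ 2 * H ^ 2 / 4) *
      (Real.exp ((|a| + |b| + 1) ^ 2 / H ^ 2) / (H * Real.sqrt Real.pi))), fun z h1 h2 => ?_⟩
    have hz : z = ((z.re : ℝ) : ℂ) + (z.im : ℝ) * Complex.I := (Complex.re_add_im z).symm
    rw [norm_mul, Real.mul_rpow (norm_nonneg _) (norm_nonneg _)]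
    have hw : ‖wn n τ H z‖ ^ p = Real.exp ((z.re - 1 / 2) ^ 2 / H ^ 2) * gw τ H z.im := by
      conv_lhs => rw [hz]
      exact norm_wn n hn τ H hH z.re z.im
    rw [hw]
    have hg1 : ‖g z‖ ^ p ≤ C ^ p * (1 + |z.im|) ^ (k * p) := by
      calc ‖g z‖ ^ p ≤ (C * (1 + |z.im|) ^ k) ^ p :=
            Real.rpow_le_rpow (norm_nonneg _) (hg z h1 h2) hp0.le
        _ = C ^ p * (1 + |z.im|) ^ (k * p) := by
            rw [Real.mul_rpow hC (by positivity), ← Real.rpow_natCast, ← Real.rpow_mul (by positivity)]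
    have hre : Real.exp ((z.re - 1 / 2) ^ 2 / H ^ 2) ≤ Real.exp ((|a| + |b| + 1) ^ 2 / H ^ 2) := by
      apply Real.exp_le_exp.mpr
      apply div_le_div_of_nonneg_right _ (by positivity)
      have h3 : |z.re - 1 / 2| ≤ |a| + |b| + 1 := by
        rw [abs_le]
        constructor
        · have := neg_abs_le a
          have := abs_nonneg b
          linarith
        · have := le_abs_self b
          have := abs_nonneg a
          linarith
      calc (z.re - 1 / 2) ^ 2 = |z.re - 1 / 2| ^ 2 := (sq_abs _).symm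
        _ ≤ _ := by gcongr
    set u := |z.im - τ| with hu
    have hu0 : 0 ≤ u := abs_nonneg _
    have h4 : 1 + |z.im| ≤ (1 + |τ|) * (1 + u) := by
      have : |z.im| ≤ |τ| + u := by
        have : z.im = τ + (z.im - τ) := by ring
        calc |z.im| = |τ + (z.im - τ)| := by rw [← this]
          _ ≤ _ := abs_add_le _ _
      nlinarith [abs_nonneg τ]
    have h5 : (1 + |z.im|) ^ M ≤ (1 + |τ|) ^ M * Real.exp (M * u) := by
      calc (1 + |z.im|) ^ M ≤ ((1 + |τ|) * (1 + u)) ^ M :=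
            Real.rpow_le_rpow (by positivity) h4 hM0
        _ = (1 + |τ|) ^ M * (1 + u) ^ M := Real.mul_rpow (by positivity) (by positivity)
        _ ≤ (1 + |τ|) ^ M * Real.exp (M * u) := by
            apply mul_le_mul_of_nonneg_left _ (by positivity)
            have h6 : 1 + u ≤ Real.exp u := by linarith [Real.add_one_le_exp u]
            calc (1 + u) ^ M ≤ (Real.exp u) ^ M := Real.rpow_le_rpow (by positivity) h6 hM0
              _ = Real.exp (M * u) := by rw [← Real.exp_mul]; ring_nf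
    have h7 : (1 + |z.im|) ^ (k * p) * (1 + z.im ^ 2) ≤ (1 + |z.im|) ^ M := by
      rw [hM, Real.rpow_add (by positivity)]
      apply mul_le_mul_of_nonneg_left _ (by positivity)
      have : (1 + |z.im|) ^ (2 : ℝ) = (1 + |z.im|) ^ 2 := by norm_cast
      rw [this]
      nlinarith [abs_nonneg z.im, sq_abs z.im]
    have h8 : Real.exp (M * u) * gw τ H z.im ≤
        Real.exp (M ^ 2 * H ^ 2 / 4) / (H * Real.sqrt Real.pi) := by
      unfold gw
      rw [← mul_div_assoc, ← Real.exp_add]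
      apply div_le_div_of_nonneg_right _ (by positivity)
      apply Real.exp_le_exp.mpr
      have h9 : (z.im - τ) ^ 2 = u ^ 2 := (sq_abs _).symm
      rw [h9]
      have h10 : M ^ 2 * H ^ 2 / 4 - (M * u + -(u ^ 2 / H ^ 2)) = (M * H / 2 - u / H) ^ 2 := by
        field_simp
        ring
      nlinarith [sq_nonneg (M * H / 2 - u / H)]
    have hgw := gw_nonneg τ H z.im hH
    have h11 : 0 < 1 + z.im ^ 2 := by positivity
    rw [← div_eq_mul_inv, le_div_iff₀ h11]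
    calc ‖g z‖ ^ p * (Real.exp ((z.re - 1 / 2) ^ 2 / H ^ 2) * gw τ H z.im) * (1 + z.im ^ 2)
        ≤ (C ^ p * (1 + |z.im|) ^ (k * p)) *
            (Real.exp ((|a| + |b| + 1) ^ 2 / H ^ 2) * gw τ H z.im) * (1 + z.im ^ 2) := by
          gcongr
      _ = C ^ p * ((1 + |z.im|) ^ (k * p) * (1 + z.im ^ 2)) *
            (Real.exp ((|a| + |b| + 1) ^ 2 / H ^ 2) * gw τ H z.im) := by ring
      _ ≤ C ^ p * ((1 + |τ|) ^ M * Real.exp (M * u)) *
            (Real.exp ((|a| + |b| + 1) ^ 2 / H ^ 2) * gw τ H z.im) := by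
          apply mul_le_mul_of_nonneg_right _ (by positivity)
          exact mul_le_mul_of_nonneg_left (h7.trans h5) (by positivity)
      _ = C ^ p * (1 + |τ|) ^ M * Real.exp ((|a| + |b| + 1) ^ 2 / H ^ 2) *
            (Real.exp (M * u) * gw τ H z.im) := by ring
      _ ≤ C ^ p * (1 + |τ|) ^ M * Real.exp ((|a| + |b| + 1) ^ 2 / H ^ 2) *
            (Real.exp (M ^ 2 * H ^ 2 / 4) / (H * Real.sqrt Real.pi)) := by gcongr
      _ = _ := by ring

end

end Pool.Agent.Q255.FM
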