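import Pool.Agent.Q255.FM.W

set_option autoImplicit false

/-!
`fJ`, `fS`, `fK` are good; triangle inequalities.
-/

open Filter MeasureTheory Metric Set Topology
open Pool.Agent.H306R2

namespace Pool.Agent.Q255.FM

noncomputable section

lemma norm_le_of_strip {a b : ℝ} (ha : 0 < a) {z : ℂ} (h1 : a ≤ z.re) (h2 : z.re ≤ b) :
    ‖z‖ ≤ (b + 1) * (1 + |z.im|) := by
  have h3 := Complex.norm_le_abs_re_add_abs_im z
  rw [abs_of_pos (by linarith : 0 < z.re)] at h3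
  have := abs_nonneg z.im
  nlinarith

lemma zr_growth {a b : ℝ} (ha : 0 < a) {z : ℂ} (h1 : a ≤ z.re) (h2 : z.re ≤ b) :
    ‖zr z‖ ≤ ((b + 1) * (b + 2) * (1 + 1 / a)) * (1 + |z.im|) ^ 2 := by
  have hre : 0 < z.re := by linarith
  have hb : 0 < b := by linarith
  have h3 := norm_le_of_strip ha h1 h2
  have h4 : ‖z - 1‖ ≤ (b + 2) * (1 + |z.im|) := by
    have := norm_sub_le z 1
    rw [norm_one] at this
    have := abs_nonneg z.im
    nlinarith
  have h5 := Hf_norm_le hre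
  have h6 : ‖Hf z‖ ≤ 1 / a := h5.trans (one_div_le_one_div_of_le ha h1)
  have h7 := one_le_norm_add_one hre
  have h8 : ‖Zt z‖ ≤ ((b + 1) * (b + 2) * (1 + 1 / a)) * (1 + |z.im|) ^ 2 := by
    unfold Zt
    have hi := abs_nonneg z.im
    calc ‖z - z * (z - 1) * Hf z‖ ≤ ‖z‖ + ‖z * (z - 1) * Hf z‖ := norm_sub_le _ _
      _ = ‖z‖ + ‖z‖ * ‖z - 1‖ * ‖Hf z‖ := by rw [norm_mul, norm_mul]
      _ ≤ (b + 1) * (1 + |z.im|) + ((b + 1) * (1 + |z.im|)) * ((b + 2) * (1 + |z.im|)) * (1 / a) := by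
          gcongr
      _ ≤ _ := by
          have h9 : (b + 1) * (1 + |z.im|) ≤ (b + 1) * (b + 2) * (1 + |z.im|) ^ 2 := by
            have : (1 : ℝ) ≤ (b + 2) * (1 + |z.im|) := by nlinarith
            nlinarith [mul_nonneg (by linarith : 0 ≤ b + 1) (by linarith : 0 ≤ 1 + |z.im|)]
          nlinarith
  unfold zr
  rw [norm_div]
  exact (div_le_self (norm_nonneg _) h7).trans h8

lemma dv_le_one {κ : ℝ} (h0 : 0 ≤ κ) (h1 : κ ≤ 1) (m : ℕ) : dv κ m ≤ 1 := by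
  refine (dv_mono h0 h1 m).trans ?_
  have : dv 1 m = dA 1 m := rfl
  rw [this, dA_one]
  unfold zR
  by_cases hm : m = 0
  · simp [hm]
  · simp [hm]

lemma SN_norm_le {n : ℕ} (hn : 0 < n) {N : ℝ} (hN : 0 ≤ N) {z : ℂ} (h1 : 0 ≤ z.re) :
    ‖SN n N z‖ ≤ N := by
  have hn0 : (1 : ℝ) ≤ n := by exact_mod_cast hn
  unfold SN Dp
  calc ‖∑ m ∈ Finset.Icc 1 ⌊N⌋₊, (dv (1 / (n : ℝ)) m : ℂ) * (m : ℂ) ^ (-z)‖
      ≤ ∑ m ∈ Finset.Icc 1 ⌊N⌋₊, (1 : ℝ) := by
        refine norm_sum_le_of_le _ fun m hm => ?_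
        rw [Finset.mem_Icc] at hm
        have hm0 : (1 : ℝ) ≤ m := by exact_mod_cast hm.1
        rw [norm_mul, Complex.norm_real, norm_ncpow m hm.1,
          Real.norm_of_nonneg (dv_nonneg (by positivity) m)]
        have h2 := dv_le_one (κ := 1 / (n : ℝ)) (by positivity) (by
          rw [div_le_one (by linarith)]; exact hn0) m
        have h3 : (m : ℝ) ^ (-z).re ≤ 1 := by
          rw [Complex.neg_re]
          exact Real.rpow_le_one_of_one_le_of_nonpos hm0 (by linarith)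
        calc dv (1 / (n : ℝ)) m * (m : ℝ) ^ (-z).re ≤ 1 * 1 := by
              apply mul_le_mul h2 h3 (by positivity) (by norm_num)
          _ = 1 := one_mul 1
    _ = ⌊N⌋₊ := by simp
    _ ≤ N := Nat.floor_le hN

lemma good_fJ {n : ℕ} (hn : 0 < n) (τ H : ℝ) (hH : 0 < H) {a b : ℝ} (ha : 0 < a) (hab : a ≤ b) :
    Good (fJ n τ H) (2 / (n : ℝ)) a b := by
  refine good_of_poly hn τ H hH (g := zr) (fun z hz => zr_an (by linarith [hz.1]))
    ((b + 1) * (b + 2) * (1 + 1 / a)) ?_ 2 (fun z h1 h2 => zr_growth ha h1 h2)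
  have : 0 < b := by linarith
  positivity

lemma Sr_an {n : ℕ} (N : ℝ) {z : ℂ} (hz : 0 < z.re) :
    AnalyticAt ℂ (fun z => SN n N z ^ n * rr z) z :=
  ((SN_an n N z).pow n).mul (rr_an hz)

lemma Sr_growth {n : ℕ} (hn : 0 < n) {N : ℝ} (hN : 0 ≤ N) {z : ℂ} (hz : 0 < z.re) :
    ‖SN n N z ^ n * rr z‖ ≤ N ^ n := by
  rw [norm_mul, norm_pow]
  have h1 := SN_norm_le hn hN hz.le
  have h2 := norm_rr_le hz
  calc ‖SN n N z‖ ^ n * ‖rr z‖ ≤ N ^ n * 1 := by gcongr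
    _ = _ := mul_one _

lemma good_fS {n : ℕ} (hn : 0 < n) {N : ℝ} (hN : 0 ≤ N) (τ H : ℝ) (hH : 0 < H) {a b : ℝ}
    (ha : 0 < a) : Good (fS n N τ H) (2 / (n : ℝ)) a b := by
  refine good_of_poly hn τ H hH (g := fun z => SN n N z ^ n * rr z)
    (fun z hz => Sr_an N (by linarith [hz.1])) (N ^ n) (by positivity) 0 (fun z h1 h2 => ?_)
  rw [pow_zero, mul_one]
  exact Sr_growth hn hN (by linarith)

lemma good_fK {n : ℕ} (hn : 0 < n) {N : ℝ} (hN : 0 ≤ N) (τ H : ℝ) (hH : 0 < H) {a b : ℝ}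
    (ha : 0 < a) (hab : a ≤ b) : Good (fK n N τ H) (2 / (n : ℝ)) a b := by
  have hb : 0 < b := by linarith
  refine good_of_poly hn τ H hH (g := fun z => zr z - SN n N z ^ n * rr z)
    (fun z hz => (zr_an (by linarith [hz.1])).sub (Sr_an N (by linarith [hz.1])))
    ((b + 1) * (b + 2) * (1 + 1 / a) + N ^ n) (by positivity) 2 (fun z h1 h2 => ?_)
  have h3 := zr_growth ha h1 h2
  have h4 := Sr_growth hn hN (z := z) (by linarith)
  have h5 : (1 : ℝ) ≤ (1 + |z.im|) ^ 2 := by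
    have := abs_nonneg z.im
    nlinarith
  calc ‖zr z - SN n N z ^ n * rr z‖ ≤ ‖zr z‖ + ‖SN n N z ^ n * rr z‖ := norm_sub_le _ _
    _ ≤ ((b + 1) * (b + 2) * (1 + 1 / a)) * (1 + |z.im|) ^ 2 + N ^ n * (1 + |z.im|) ^ 2 := by
        have : (0 : ℝ) ≤ N ^ n := by positivity
        nlinarith
    _ = _ := by ring

/-- triangle inequality for `p ≤ 1` -/
lemma VV_add_le {f g h : ℂ → ℂ} {p a b x : ℝ} (hf : Good f p a b) (hg : Good g p a b)
    (hh : Good h p a b) (hp1 : p ≤ 1) (hx : x ∈ Icc a b) (hfg : ∀ z, ‖h z‖ ≤ ‖f z‖ + ‖g z‖) :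
    VV h p x ≤ VV f p x + VV g p x := by
  unfold VV
  rw [← integral_add (hf.integrable hx) (hg.integrable hx)]
  refine integral_mono (hh.integrable hx) ((hf.integrable hx).add (hg.integrable hx)) fun y => ?_
  simp only
  calc ‖h (x + y * Complex.I)‖ ^ p ≤ (‖f (x + y * Complex.I)‖ + ‖g (x + y * Complex.I)‖) ^ p :=
        Real.rpow_le_rpow (norm_nonneg _) (hfg _) hf.hp.le
    _ ≤ _ := Real.rpow_add_le_add_rpow (norm_nonneg _) (norm_nonneg _) hf.hp.le hp1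

end

end Pool.Agent.Q255.FM
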