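import Pool.Agent.Q255.FM.Loc3
import Pool.Agent.H306R2.Holder

set_option autoImplicit false

/-!
From Gaussian windows to intervals.
-/

open Filter MeasureTheory Metric Set Topology
open Pool.Agent.H306R2

namespace Pool.Agent.Q255.FM

noncomputable section

lemma F0_iff {P : ℝ → ℝ → ℝ → Prop} (h : ∀ᶠ q : ℝ × ℝ × ℝ in F0, P q.1 q.2.1 q.2.2) :
    ∃ N0 : ℝ, ∀ N H τ : ℝ, N0 ≤ N → 4 * N * Real.log N ≤ H → 4 * H * Real.log N ≤ τ → P N H τ := by
  unfold F0 at h
  rw [eventually_inf_principal, eventually_comap] at h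
  obtain ⟨N0, hN0⟩ := eventually_atTop.1 h
  exact ⟨N0, fun N H τ h1 h2 h3 => hN0 N h1 (N, H, τ) rfl ⟨h2, h3⟩⟩

lemma F1_iff {β : ℝ} {P : ℝ → ℝ → ℝ → Prop} (h : ∀ᶠ q : ℝ × ℝ × ℝ in F1 β, P q.1 q.2.1 q.2.2) :
    ∃ N0 : ℝ, ∀ N H τ : ℝ, N0 ≤ N → 4 * N * Real.log N ≤ H → 4 * H * Real.log N ≤ τ →
      Real.log τ ≤ β * Real.log N → P N H τ := by
  unfold F1 F0 at h
  rw [eventually_inf_principal, eventually_inf_principal, eventually_comap] at h
  obtain ⟨N0, hN0⟩ := eventually_atTop.1 h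
  exact ⟨N0, fun N H τ h1 h2 h3 h4 => hN0 N h1 (N, H, τ) rfl ⟨h2, h3⟩ h4⟩

/-- `‖ζ(1/2+it) rr‖^{2/n}` -/
def FZ (n : ℕ) (t : ℝ) : ℝ := ‖zr (((1 / 2 : ℝ) : ℂ) + t * Complex.I)‖ ^ (2 / (n : ℝ))

lemma half_re (t : ℝ) : 0 < ((((1 / 2 : ℝ) : ℂ) + t * Complex.I)).re := by
  rw [re_line]; norm_num

lemma FZ_nonneg (n : ℕ) (t : ℝ) : 0 ≤ FZ n t := by unfold FZ; positivity

lemma FZ_continuous {n : ℕ} : Continuous (FZ n) := by
  unfold FZ
  have h0 : ContinuousOn zr {z : ℂ | 0 < z.re} :=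
    fun z hz => (zr_an hz).continuousAt.continuousWithinAt
  have h : ContinuousOn (fun z => ‖zr z‖) {z : ℂ | 0 < z.re} := h0.norm
  have h2 : Continuous (fun t : ℝ => ‖zr (((1 / 2 : ℝ) : ℂ) + t * Complex.I)‖) :=
    h.comp_continuous (by fun_prop) (fun t => half_re t)
  exact h2.rpow_const (fun _ => Or.inr (by positivity))

lemma FZ_growth {n : ℕ} (hn : 2 ≤ n) (t : ℝ) : FZ n t ≤ 30 * (1 + |t|) ^ 2 := by
  have hn2 : (2 : ℝ) ≤ n := by exact_mod_cast hn
  have hp1 : 2 / (n : ℝ) ≤ 1 := by rw [div_le_one (by linarith)]; exact hn2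
  unfold FZ
  have g1 := zr_growth (a := 1 / 4) (b := 1) (by norm_num)
    (z := ((1 / 2 : ℝ) : ℂ) + t * Complex.I) (by rw [re_line]; norm_num)
    (by rw [re_line]; norm_num)
  rw [im_line] at g1
  have e : ((1 : ℝ) + 1) * (1 + 2) * (1 + 1 / (1 / 4)) = 30 := by norm_num
  rw [e] at g1
  have hy0 := abs_nonneg t
  have g4 : (1 : ℝ) ≤ 30 * (1 + |t|) ^ 2 := by nlinarith
  calc _ ≤ (30 * (1 + |t|) ^ 2) ^ (2 / (n : ℝ)) :=
        Real.rpow_le_rpow (norm_nonneg _) g1 (by positivity)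
    _ ≤ (30 * (1 + |t|) ^ 2) ^ (1 : ℝ) := Real.rpow_le_rpow_of_exponent_le g4 hp1
    _ = _ := Real.rpow_one _

lemma VV_half {n : ℕ} (hn : 0 < n) (τ H : ℝ) (hH : 0 < H) :
    VV (fJ n τ H) (2 / (n : ℝ)) (1 / 2) = ∫ t : ℝ, FZ n t * gw τ H t := by
  unfold VV
  refine integral_congr_ae (Eventually.of_forall fun t => ?_)
  simp only
  unfold fJ FZ
  rw [norm_mul, Real.mul_rpow (norm_nonneg _) (norm_nonneg _), norm_wn n hn τ H hH]
  simp

lemma FZ_gw_integrable {n : ℕ} (hn : 2 ≤ n) (τ H : ℝ) (hH : 0 < H) :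
    Integrable (fun t => FZ n t * gw τ H t) := by
  have h := (tail_poly τ H 0 hH le_rfl).2
  refine (h.const_mul 30).mono' ((FZ_continuous.mul (gw_continuous τ H)).aestronglyMeasurable)
    (Eventually.of_forall fun t => ?_)
  have h0 := gw_nonneg τ H t hH
  rw [Real.norm_of_nonneg (mul_nonneg (FZ_nonneg n t) h0)]
  have := FZ_growth hn t
  calc _ ≤ 30 * (1 + |t|) ^ 2 * gw τ H t := mul_le_mul_of_nonneg_right this h0
    _ = _ := by ring

lemma VV_half_le {n : ℕ} (hn : 2 ≤ n) {τ H R : ℝ} (hH : 0 < H) (hR : 0 ≤ R) :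
    VV (fJ n τ H) (2 / (n : ℝ)) (1 / 2) ≤ (∫ t in (τ - R)..(τ + R), FZ n t * gw τ H t) +
      120 * (1 + |τ|) ^ 2 * (1 + 4 * H ^ 2) * Real.exp (-(R ^ 2 / (2 * H ^ 2))) := by
  rw [VV_half (by omega) τ H hH]
  have hi := FZ_gw_integrable hn τ H hH
  rw [← integral_add_compl (measurableSet_Ioc : MeasurableSet (Ioc (τ - R) (τ + R))) hi,
    intervalIntegral.integral_of_le (by linarith)]
  have ht := tail_poly τ H R hH hR
  have : ∫ t in (Ioc (τ - R) (τ + R))ᶜ, FZ n t * gw τ H t ≤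
      120 * (1 + |τ|) ^ 2 * (1 + 4 * H ^ 2) * Real.exp (-(R ^ 2 / (2 * H ^ 2))) := by
    calc _ ≤ ∫ t in (Ioc (τ - R) (τ + R))ᶜ, 30 * ((1 + |t|) ^ 2 * gw τ H t) := by
          refine setIntegral_mono_on hi.integrableOn (ht.2.const_mul _).integrableOn
            measurableSet_Ioc.compl fun t _ => ?_
          have h0 := gw_nonneg τ H t hH
          calc _ ≤ 30 * (1 + |t|) ^ 2 * gw τ H t := mul_le_mul_of_nonneg_right (FZ_growth hn t) h0
            _ = _ := by ring
      _ = 30 * ∫ t in (Ioc (τ - R) (τ + R))ᶜ, (1 + |t|) ^ 2 * gw τ H t := integral_const_mul _ _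
      _ ≤ 30 * (4 * (1 + |τ|) ^ 2 * (1 + 4 * H ^ 2) * Real.exp (-(R ^ 2 / (2 * H ^ 2)))) :=
          mul_le_mul_of_nonneg_left ht.1 (by norm_num)
      _ = _ := by ring
  linarith

/-- summation of windows, lower bound -/
theorem windows_lower {n : ℕ} {T U R H J : ℝ} (hH : 0 < H) (hR : 0 ≤ R) (hRU : 2 * R ≤ U)
    (hJ : 0 ≤ J)
    (h : ∀ τ ∈ Icc (T + R) (T + U - R), J ≤ ∫ t in (τ - R)..(τ + R), FZ n t * gw τ H t) :
    (U - 2 * R) * J ≤ ∫ t in T..(T + U), FZ n t := by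
  have h1 := window_sum (fun t => FZ n (T + t)) (FZ_continuous.comp (by fun_prop))
    (fun t => FZ_nonneg n _) (fun τ t => gw τ H t) (by unfold gw Function.uncurry; fun_prop)
    (fun τ t => gw_nonneg τ H t hH) (by
      intro t
      have e : ∀ τ, gw τ H t = gw t H τ := fun τ => gw_symm τ H t
      simp_rw [e]
      rw [← ofReal_integral_eq_lintegral_ofReal (gw_integrable t H hH)
        (Eventually.of_forall fun τ => gw_nonneg t H τ hH), gw_integral t H hH]
      simp) U R (U - R) R J (by linarith) hR le_rfl (by linarith) hJ (by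
      intro τ hτ
      have h2 := h (T + τ) ⟨by linarith [hτ.1], by linarith [hτ.2]⟩
      refine h2.trans (le_of_eq ?_)
      have e1 : ∀ t : ℝ, gw τ H t = gw (T + τ) H (T + t) := by
        intro t; unfold gw; congr 4; ring
      simp_rw [e1]
      rw [intervalIntegral.integral_comp_add_left (fun t => FZ n t * gw (T + τ) H t) T]
      congr 1 <;> ring)
  rw [intervalIntegral.integral_comp_add_left (fun t => FZ n t) T, add_zero] at h1
  rw [show U - R - R = U - 2 * R by ring] at h1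
  exact h1

/-- summation of windows, upper bound -/
theorem windows_upper {n : ℕ} (hn : 2 ≤ n) {T U R H J : ℝ} (hH : 0 < H) (hR : 0 ≤ R) (hU : 0 ≤ U)
    (hJ : 0 ≤ J)
    (h : ∀ τ ∈ Icc (T - R) (T + U + R), VV (fJ n τ H) (2 / (n : ℝ)) (1 / 2) ≤ J) :
    (1 - 2 * Real.exp (-(R ^ 2 / (2 * H ^ 2)))) * ∫ t in T..(T + U), FZ n t ≤ (U + 2 * R) * J := by
  set E := Real.exp (-(R ^ 2 / (2 * H ^ 2))) with hE
  set I : Set ℝ := Ioc T (T + U) with hI
  set K : Set ℝ := Ioc (T - R) (T + U + R) with hK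
  have hmass : ∀ t ∈ I, 1 - 2 * E ≤ ∫ τ in K, gw τ H t := by
    intro t ht
    have h1 := gw_tail t H R hH hR
    have h2 := integral_add_compl (measurableSet_Ioc : MeasurableSet (Ioc (t - R) (t + R)))
      (gw_integrable t H hH)
    rw [gw_integral t H hH] at h2
    have h3 : ∫ τ in Ioc (t - R) (t + R), gw t H τ ≤ ∫ τ in K, gw t H τ := by
      refine setIntegral_mono_set (gw_integrable t H hH).integrableOn
        (Eventually.of_forall fun τ => gw_nonneg t H τ hH) ?_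
      refine HasSubset.Subset.eventuallyLE ?_
      exact Ioc_subset_Ioc (by linarith [ht.1]) (by linarith [ht.2])
    have e : ∀ τ, gw τ H t = gw t H τ := fun τ => gw_symm τ H t
    simp_rw [e]
    linarith
  have hc2 : Continuous (fun q : ℝ × ℝ => FZ n q.1 * gw q.2 H q.1) := by
    have := FZ_continuous (n := n)
    unfold gw
    fun_prop
  have hint : Integrable (fun q : ℝ × ℝ => FZ n q.1 * gw q.2 H q.1)
      ((volume.restrict I).prod (volume.restrict K)) := by
    rw [Measure.prod_restrict]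
    refine (hc2.continuousOn.integrableOn_compact (isCompact_Icc.prod isCompact_Icc)).mono_set
      (Set.prod_mono Ioc_subset_Icc_self Ioc_subset_Icc_self)
  have hFi : IntegrableOn (FZ n) I := (FZ_continuous.integrableOn_Icc).mono_set Ioc_subset_Icc_self
  rw [intervalIntegral.integral_of_le (by linarith)]
  calc (1 - 2 * E) * ∫ t in I, FZ n t = ∫ t in I, (1 - 2 * E) * FZ n t := (integral_const_mul _ _).symm
    _ ≤ ∫ t in I, ∫ τ in K, FZ n t * gw τ H t := by
        refine setIntegral_mono_on (hFi.const_mul _) hint.integral_prod_left measurableSet_Ioc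
          fun t ht => ?_
        rw [integral_const_mul, mul_comm]
        exact mul_le_mul_of_nonneg_left (hmass t ht) (FZ_nonneg n t)
    _ = ∫ τ in K, ∫ t in I, FZ n t * gw τ H t := integral_integral_swap hint
    _ ≤ ∫ _τ in K, J := by
        refine setIntegral_mono_on hint.integral_prod_right (by simp [hK]) measurableSet_Ioc
          fun τ hτ => ?_
        refine le_trans ?_ (h τ ⟨hτ.1.le, hτ.2⟩)
        rw [VV_half (by omega) τ H hH]
        exact setIntegral_le_integral (FZ_gw_integrable hn τ H hH)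
          (Eventually.of_forall fun t => mul_nonneg (FZ_nonneg n t) (gw_nonneg τ H t hH))
    _ = (U + 2 * R) * J := by
        rw [setIntegral_const, smul_eq_mul, hK, Real.volume_real_Ioc_of_le (by linarith)]
        ring

end

end Pool.Agent.Q255.FM
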