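import Pool.Agent.Q255.FM.Win

set_option autoImplicit false

/-!
Bounds on intervals.
-/

open Filter MeasureTheory Metric Set Topology
open Pool.Agent.H306R2

namespace Pool.Agent.Q255.FM

noncomputable section

/-- choice of the parameters -/
theorem params {η : ℝ} (hη : 0 < η) (hη1 : η < 1) (M : ℝ) :
    ∃ B : ℝ, 0 < B ∧ ∀ᶠ T : ℝ in atTop, ∀ U : ℝ, Real.log T ^ B ≤ U → U ≤ T →
      ∃ H N : ℝ, H = U / Real.log T ^ 2 ∧ 1 ≤ H ∧ 1 < N ∧ M ≤ N ∧ N ≤ U ∧ 4 * N * Real.log N ≤ H ∧
        8 * H * Real.log N ≤ T ∧ (1 - η) * Real.log U ≤ Real.log N ∧ 1 < U := by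
  set B : ℝ := 8 / η with hB
  have hB0 : 0 < B := by positivity
  refine ⟨B, hB0, ?_⟩
  -- conditions on `x = log U`
  have hx : ∀ᶠ x : ℝ in atTop, Real.log (4 * x) ≤ η / 2 * x ∧ Real.log (max M 1) ≤ (1 - η) * x ∧ 4 ≤ x := by
    refine ((?_ : ∀ᶠ x : ℝ in atTop, Real.log (4 * x) ≤ η / 2 * x).and ((?_ : ∀ᶠ x : ℝ in atTop,
      Real.log (max M 1) ≤ (1 - η) * x).and (eventually_ge_atTop 4)))
    · have h1 : Tendsto (fun x : ℝ => 4 * x) atTop atTop := tendsto_id.const_mul_atTop (by norm_num)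
      have h2 := (Real.isLittleO_log_id_atTop.comp_tendsto h1).bound (show (0 : ℝ) < η / 8 by positivity)
      filter_upwards [h2, eventually_ge_atTop 1] with x hx hx1
      simp only [Function.comp, id] at hx
      rw [Real.norm_eq_abs, Real.norm_eq_abs, abs_of_pos (by linarith : (0 : ℝ) < 4 * x)] at hx
      have := le_abs_self (Real.log (4 * x))
      linarith
    · have h1 : Tendsto (fun x : ℝ => (1 - η) * x) atTop atTop :=
        tendsto_id.const_mul_atTop (by linarith)
      exact h1.eventually_ge_atTop _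
  obtain ⟨X0, hX0⟩ := eventually_atTop.1 hx
  have hl1 : ∀ᶠ T : ℝ in atTop, max X0 1 ≤ B * Real.log (Real.log T) := by
    have : Tendsto (fun T : ℝ => B * Real.log (Real.log T)) atTop atTop :=
      (Real.tendsto_log_atTop.comp Real.tendsto_log_atTop).const_mul_atTop hB0
    exact this.eventually_ge_atTop _
  filter_upwards [hl1, Real.tendsto_log_atTop.eventually_ge_atTop 8] with T hT1 hT8 U hU hUT
  set l := Real.log T with hl
  have hl0 : 0 < l := by linarith
  have hlB : 0 < l ^ B := Real.rpow_pos_of_pos hl0 _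
  have hU0 : 0 < U := lt_of_lt_of_le hlB hU
  have hloglU : B * Real.log l ≤ Real.log U := by
    rw [← Real.log_rpow hl0]
    exact Real.log_le_log hlB hU
  obtain ⟨a1, a2, a3⟩ := hX0 (Real.log U) ((le_max_left _ _).trans (hT1.trans hloglU))
  set x := Real.log U with hxd
  have hx0 : 0 < x := by linarith
  have hll : Real.log l ≤ η / 8 * x := by
    have : B * Real.log l = (8 / η) * Real.log l := by rw [hB]
    rw [this, div_mul_eq_mul_div, div_le_iff₀ hη] at hloglU
    linarith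
  set H := U / l ^ 2 with hH
  have hH0 : 0 < H := by positivity
  have hlogH : Real.log H = x - 2 * Real.log l := by
    rw [hH, Real.log_div hU0.ne' (by positivity), Real.log_pow]
    push_cast; ring
  have hlogH1 : (1 - η / 4) * x ≤ Real.log H := by rw [hlogH]; linarith
  have hlogH2 : 3 ≤ Real.log H := by
    have : (3 / 4) * x ≤ (1 - η / 4) * x := by nlinarith
    linarith
  have hlogl0 : 0 ≤ Real.log l := Real.log_nonneg (by linarith)
  have hlogHx : Real.log H ≤ x := by rw [hlogH]; linarith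
  have hH1 : 1 ≤ H := by
    rw [← Real.exp_log hH0]
    exact Real.one_le_exp (by linarith)
  set N := H / (4 * Real.log H) with hN
  have hN0 : 0 < N := by positivity
  have hNH : N ≤ H := div_le_self hH0.le (by linarith)
  have hHU : H ≤ U := div_le_self hU0.le (by nlinarith)
  have hlogN : Real.log N = Real.log H - Real.log (4 * Real.log H) := by
    rw [hN, Real.log_div hH0.ne' (by positivity)]
  have h1 : Real.log (4 * Real.log H) ≤ η / 2 * x := by
    refine le_trans (Real.log_le_log (by positivity) ?_) a1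
    linarith
  have hlogN1 : (1 - η) * x ≤ Real.log N := by
    rw [hlogN]
    nlinarith
  have hN1 : 1 < N := by
    rw [← Real.exp_log hN0]
    apply Real.one_lt_exp_iff.mpr
    have : 0 < (1 - η) * x := mul_pos (by linarith) hx0
    linarith
  refine ⟨H, N, rfl, hH1, hN1, ?_, hNH.trans hHU, ?_, ?_, hlogN1, ?_⟩
  · have h2 : Real.log (max M 1) ≤ Real.log N := a2.trans hlogN1
    have h3 := (Real.log_le_log_iff (by positivity) hN0).mp h2
    exact (le_max_left _ _).trans h3
  · have h2 : Real.log N ≤ Real.log H := Real.log_le_log hN0 hNH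
    calc 4 * N * Real.log N ≤ 4 * N * Real.log H := by gcongr
      _ = H := by rw [hN]; field_simp
  · have h2 : Real.log N ≤ l := by
      rw [hl]
      exact Real.log_le_log hN0 (hNH.trans (hHU.trans hUT))
    calc 8 * H * Real.log N ≤ 8 * H * l := by gcongr
      _ = 8 * U / l := by rw [hH]; field_simp
      _ ≤ 8 * T / l := by gcongr
      _ ≤ T := by
          rw [div_le_iff₀ hl0]
          have : 0 < T := by linarith
          nlinarith
  · rw [← Real.exp_log hU0]
    exact Real.one_lt_exp_iff.mpr hx0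

lemma norm_half_zeta (n : ℕ) (t : ℝ) :
    FZ n t = ‖riemannZeta (1 / 2 + t * Complex.I)‖ ^ (2 / (n : ℝ)) *
      ‖rr (1 / 2 + t * Complex.I)‖ ^ (2 / (n : ℝ)) := by
  unfold FZ
  have e : (((1 / 2 : ℝ) : ℂ) + t * Complex.I) = 1 / 2 + t * Complex.I := by push_cast; ring
  rw [zr_eq (half_re t), norm_mul, Real.mul_rpow (norm_nonneg _) (norm_nonneg _), e]
  intro h
  have := congrArg Complex.re h
  rw [re_line] at this
  norm_num at this

lemma FZ_le {n : ℕ} (t : ℝ) : FZ n t ≤ ‖riemannZeta (1 / 2 + t * Complex.I)‖ ^ (2 / (n : ℝ)) := by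
  rw [norm_half_zeta]
  have e : (((1 / 2 : ℝ) : ℂ) + t * Complex.I) = 1 / 2 + t * Complex.I := by push_cast; ring
  have h1 := norm_rr_le (half_re t)
  rw [e] at h1
  have h2 : ‖rr (1 / 2 + t * Complex.I)‖ ^ (2 / (n : ℝ)) ≤ 1 :=
    Real.rpow_le_one (norm_nonneg _) h1 (by positivity)
  calc _ ≤ ‖riemannZeta (1 / 2 + t * Complex.I)‖ ^ (2 / (n : ℝ)) * 1 := by gcongr
    _ = _ := mul_one _

lemma FZ_ge {n : ℕ} (hn : 2 ≤ n) {T t : ℝ} (hT : 2 < T) (ht : T ≤ t) :
    (1 - 2 / T) * ‖riemannZeta (1 / 2 + t * Complex.I)‖ ^ (2 / (n : ℝ)) ≤ FZ n t := by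
  have hn2 : (2 : ℝ) ≤ n := by exact_mod_cast hn
  have hp1 : 2 / (n : ℝ) ≤ 1 := by rw [div_le_one (by linarith)]; exact hn2
  rw [norm_half_zeta]
  have e : (((1 / 2 : ℝ) : ℂ) + t * Complex.I) = 1 / 2 + t * Complex.I := by push_cast; ring
  have h1 := norm_rr_le (half_re t)
  have h2 := norm_rr_ge (half_re t)
  rw [e] at h1 h2
  have h3 : T ≤ ‖1 / 2 + (t : ℂ) * Complex.I + 1‖ := by
    have h8 := Complex.abs_im_le_norm (1 / 2 + (t : ℂ) * Complex.I + 1)
    have h9 : (1 / 2 + (t : ℂ) * Complex.I + 1).im = t := by simp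
    rw [h9] at h8
    have := le_abs_self t
    linarith
  have h4 : 1 - 2 / T ≤ ‖rr (1 / 2 + t * Complex.I)‖ := by
    refine le_trans ?_ h2
    have : 2 / ‖1 / 2 + (t : ℂ) * Complex.I + 1‖ ≤ 2 / T :=
      div_le_div_of_nonneg_left (by norm_num) (by linarith) h3
    linarith
  have h5 : ‖rr (1 / 2 + t * Complex.I)‖ ≤ ‖rr (1 / 2 + t * Complex.I)‖ ^ (2 / (n : ℝ)) := by
    have := Real.rpow_le_rpow_of_exponent_ge' (norm_nonneg _) h1 (by positivity) hp1
    rwa [Real.rpow_one] at this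
  rw [mul_comm]
  apply mul_le_mul_of_nonneg_left (h4.trans h5) (by positivity)

lemma zeta_half_continuous (p : ℝ) (hp : 0 ≤ p) :
    Continuous (fun t : ℝ => ‖riemannZeta (1 / 2 + t * Complex.I)‖ ^ p) := by
  have h : Continuous (fun t : ℝ => riemannZeta (1 / 2 + t * Complex.I)) := by
    rw [continuous_iff_continuousAt]
    intro t
    have h1 : (1 / 2 + (t : ℂ) * Complex.I) ≠ 1 := by
      intro h
      have := congrArg Complex.re h
      simp at this
    exact ContinuousAt.comp (f := fun t : ℝ => 1 / 2 + (t : ℂ) * Complex.I) (g := riemannZeta)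
      (differentiableAt_riemannZeta h1).continuousAt (by fun_prop)
  exact h.norm.rpow_const (fun _ => Or.inr hp)

/-- constant in the normalisation -/
def AA (n : ℕ) : ℝ := aF (1 / (n : ℝ)) / Real.Gamma ((1 / (n : ℝ)) ^ 2 + 1)

lemma AA_pos {n : ℕ} (hn : 0 < n) : 0 < AA n := by
  unfold AA
  have h1 := aF_pos (κ := 1 / (n : ℝ)) (by positivity)
  have h3 : 0 < Real.Gamma ((1 / (n : ℝ)) ^ 2 + 1) := Real.Gamma_pos_of_pos (by positivity)
  positivity

lemma UU_eq (n : ℕ) (N : ℝ) : UU n N = AA n * Real.log N ^ ((1 / (n : ℝ)) ^ 2) := rfl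

theorem win_lower {n : ℕ} (hn : 2 ≤ n) {x0 a b y : ℝ} (hx0 : 0 < x0) (ha : 0 < a) (hab : a < b)
    (hcond : x0 ^ (1 - a / b) * (FF n b + Real.exp (-(2 / (n : ℝ) * b)) * (x0 + 1)) ^ (a / b) <
      FF n a - Real.exp (-(2 / (n : ℝ) * a)) * (x0 + 1)) (hy : y < x0) :
    ∃ B : ℝ, 0 < B ∧ ∀ᶠ T : ℝ in atTop, ∀ U : ℝ, Real.log T ^ B ≤ U → U ≤ T →
      y * AA n * (U * Real.log U ^ ((1 / (n : ℝ)) ^ 2)) ≤
        ∫ t in T..(T + U), ‖riemannZeta (1 / 2 + t * Complex.I)‖ ^ (2 / (n : ℝ)) := by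
  have hn' : 0 < n := by omega
  have hA := AA_pos hn'
  set κ2 : ℝ := (1 / (n : ℝ)) ^ 2 with hκ2
  have hκ0 : 0 < κ2 := by positivity
  -- choice of `η`
  have hcont : ContinuousAt (fun η : ℝ => (1 - η) * (x0 - η) * (1 - η) ^ κ2) 0 := by
    refine ContinuousAt.mul (by fun_prop) (ContinuousAt.rpow_const (by fun_prop) (Or.inl (by norm_num)))
  have h0 : y < (fun η : ℝ => (1 - η) * (x0 - η) * (1 - η) ^ κ2) 0 := by
    simp only [sub_zero, Real.one_rpow, one_mul, mul_one]
    exact hy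
  have hev := (hcont.tendsto.mono_left (nhdsWithin_le_nhds (s := Ioi 0))).eventually_const_lt h0
  obtain ⟨η, ⟨hηy, hηI⟩⟩ := (hev.and (Ioo_mem_nhdsGT (show (0 : ℝ) < min 1 x0 by positivity))).exists
  have hη0 : 0 < η := hηI.1
  have hη1 : η < 1 := lt_of_lt_of_le hηI.2 (min_le_left _ _)
  have hηx : η < x0 := lt_of_lt_of_le hηI.2 (min_le_right _ _)
  obtain ⟨N0, hN0⟩ := F0_iff (P := fun N H τ => x0 * UU n N ≤ VV (fJ n τ H) (2 / (n : ℝ)) (1 / 2) ∧
    1 ≤ UU n N) ((local_lower hn hx0 ha hab hcond).and (UU_ge n hn' 1))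
  obtain ⟨B, hB, hpar⟩ := params hη0 hη1 N0
  refine ⟨B, hB, ?_⟩
  -- the tail
  have htail : Tendsto (fun T : ℝ => 10000 * (T ^ 4 * Real.exp (-((1 / 2) * Real.log T ^ 2)))) atTop (𝓝 0) := by
    have := (small0 4 (b := 1 / 2) (by norm_num)).const_mul 10000
    simpa using this
  filter_upwards [hpar, htail.eventually_le_const hη0, Real.tendsto_log_atTop.eventually_ge_atTop (2 / η),
    eventually_ge_atTop 1] with T hT htl hlog hT1 U hU hUT
  obtain ⟨H, N, hH, hH1, hN1, hNN0, hNU, hc1, hc2, hc3, hU1⟩ := hT U hU hUT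
  set l := Real.log T with hl
  have hl0 : 0 < l := lt_of_lt_of_le (by positivity) hlog
  have hl2 : 2 < l := by
    refine lt_of_lt_of_le ?_ hlog
    rw [lt_div_iff₀ hη0]; linarith
  set R : ℝ := H * l with hR
  have hR0 : 0 ≤ R := by positivity
  have hH0 : 0 < H := by linarith
  have hRU : R = U / l := by rw [hR, hH]; field_simp
  have h2R : 2 * R ≤ η * U := by
    rw [hRU]
    rw [← mul_div_assoc, div_le_iff₀ hl0]
    have : 2 ≤ η * l := by
      rw [div_le_iff₀ hη0] at hlog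
      linarith
    nlinarith
  have hUpos : 0 < U := by linarith
  have hHT : H ≤ T := by
    have : H ≤ U := by
      rw [hH]
      apply div_le_self hUpos.le
      nlinarith
    linarith
  have hRT : R ≤ T := by nlinarith
  have hlogN0 : 0 < Real.log N := Real.log_pos hN1
  have hlogU0 : 0 < Real.log U := Real.log_pos hU1
  have hU' := (hN0 N H T hNN0 hc1 (by
    have : 0 ≤ H * Real.log N := by positivity
    linarith)).2
  have hJ0 : 0 ≤ (x0 - η) * UU n N := mul_nonneg (by linarith) (by linarith)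
  have hwin := windows_lower (n := n) (T := T) (U := U) (R := R) (H := H) (J := (x0 - η) * UU n N) hH0 hR0
    (by nlinarith) hJ0 (by
      intro τ hτ
      have hτT : T ≤ τ := by linarith [hτ.1]
      have hτ2 : τ ≤ 2 * T := by linarith [hτ.2]
      have h1 := (hN0 N H τ hNN0 hc1 (by
        have : 0 ≤ H * Real.log N := by positivity
        linarith)).1
      have h2 := VV_half_le hn (τ := τ) hH0 hR0
      have h3 : 120 * (1 + |τ|) ^ 2 * (1 + 4 * H ^ 2) * Real.exp (-(R ^ 2 / (2 * H ^ 2))) ≤ η := by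
        refine le_trans ?_ htl
        have e1 : R ^ 2 / (2 * H ^ 2) = (1 / 2) * l ^ 2 := by
          rw [hR]; field_simp
        rw [e1, abs_of_nonneg (by linarith)]
        have h4 : (1 + τ) ^ 2 ≤ 9 * T ^ 2 := by nlinarith
        have h5 : 1 + 4 * H ^ 2 ≤ 5 * T ^ 2 := by nlinarith
        have h6 : (1 + τ) ^ 2 * (1 + 4 * H ^ 2) ≤ (9 * T ^ 2) * (5 * T ^ 2) :=
          mul_le_mul h4 h5 (by positivity) (by positivity)
        have hE := Real.exp_pos (-((1 / 2) * l ^ 2))
        calc 120 * (1 + τ) ^ 2 * (1 + 4 * H ^ 2) * Real.exp (-((1 / 2) * l ^ 2))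
            = 120 * ((1 + τ) ^ 2 * (1 + 4 * H ^ 2)) * Real.exp (-((1 / 2) * l ^ 2)) := by ring
          _ ≤ 120 * ((9 * T ^ 2) * (5 * T ^ 2)) * Real.exp (-((1 / 2) * l ^ 2)) := by gcongr
          _ ≤ 10000 * (T ^ 4 * Real.exp (-((1 / 2) * l ^ 2))) := by
              have : 0 ≤ T ^ 4 * Real.exp (-((1 / 2) * l ^ 2)) := by positivity
              nlinarith
      nlinarith)
  have hfin : ∫ t in T..(T + U), FZ n t ≤
      ∫ t in T..(T + U), ‖riemannZeta (1 / 2 + t * Complex.I)‖ ^ (2 / (n : ℝ)) :=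
    intervalIntegral.integral_mono_on (by linarith) (FZ_continuous.intervalIntegrable _ _)
      ((zeta_half_continuous _ (by positivity)).intervalIntegrable _ _) fun t _ => FZ_le t
  refine le_trans ?_ (hwin.trans hfin)
  have hpow : (1 - η) ^ κ2 * Real.log U ^ κ2 ≤ Real.log N ^ κ2 := by
    rw [← Real.mul_rpow (by linarith) hlogU0.le]
    exact Real.rpow_le_rpow (mul_nonneg (by linarith) hlogU0.le) hc3 hκ0.le
  rw [UU_eq]
  have h7 : (1 - η) * U ≤ U - 2 * R := by linarith
  have hLU : 0 < Real.log U ^ κ2 := Real.rpow_pos_of_pos hlogU0 _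
  calc y * AA n * (U * Real.log U ^ κ2)
      ≤ ((1 - η) * (x0 - η) * (1 - η) ^ κ2) * AA n * (U * Real.log U ^ κ2) := by
        have : y ≤ (1 - η) * (x0 - η) * (1 - η) ^ κ2 := hηy.le
        gcongr
    _ = ((1 - η) * U) * ((x0 - η) * (AA n * ((1 - η) ^ κ2 * Real.log U ^ κ2))) := by ring
    _ ≤ (U - 2 * R) * ((x0 - η) * (AA n * Real.log N ^ κ2)) := by
        have h8 : 0 ≤ x0 - η := by linarith
        have h9 : 0 ≤ 1 - η := by linarith
        have h10 : 0 ≤ (1 - η) ^ κ2 := by positivity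
        have h11 : 0 ≤ (1 - η) * U := by positivity
        have h12 : 0 ≤ U - 2 * R := by linarith
        have h13 : AA n * ((1 - η) ^ κ2 * Real.log U ^ κ2) ≤ AA n * Real.log N ^ κ2 :=
          mul_le_mul_of_nonneg_left hpow hA.le
        have h14 : 0 ≤ AA n * ((1 - η) ^ κ2 * Real.log U ^ κ2) := by positivity
        exact mul_le_mul h7 (mul_le_mul_of_nonneg_left h13 h8) (mul_nonneg h8 h14) h12

theorem win_upper {n : ℕ} (hn : 2 ≤ n) {β β' c d C : ℝ} (hβ0 : 0 < β) (hββ : 1 < β' * β)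
    (hβ' : β' < 2) (hc : 0 < c) (hd : 0 < d)
    (hC : Real.exp (1 / (n : ℝ) * c * β') * jc n β' c d < C) :
    ∀ᶠ T : ℝ in atTop, ∀ U : ℝ, T ^ β ≤ U → U ≤ T →
      ∫ t in T..(T + U), ‖riemannZeta (1 / 2 + t * Complex.I)‖ ^ (2 / (n : ℝ)) ≤
        C * AA n * (U * Real.log U ^ ((1 / (n : ℝ)) ^ 2)) := by
  have hn' : 0 < n := by omega
  have hA := AA_pos hn'
  set κ2 : ℝ := (1 / (n : ℝ)) ^ 2 with hκ2
  have hκ0 : 0 < κ2 := by positivity
  have hβ'0 : 0 < β' := by
    by_contra h
    push Not at h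
    nlinarith
  obtain ⟨C1, hC1, hC1C⟩ := exists_between hC
  have hC10 : 0 < C1 := by
    refine lt_of_le_of_lt ?_ hC1
    have hr1 : Real.exp (-(2 / (n : ℝ) * (d + d))) * Real.exp (2 / (n : ℝ) * d * β') < 1 := by
      rw [← Real.exp_add, Real.exp_lt_one_iff]
      have : 0 < 2 / (n : ℝ) * d := by positivity
      nlinarith
    have hjd0 : 0 ≤ jd n β' d := by
      unfold jd
      have := FF_nonneg hn' d
      have := FF_nonneg hn' (-d)
      apply div_nonneg (by positivity) (by linarith)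
    have : 0 ≤ jc n β' c d := by
      unfold jc
      have := FF_nonneg hn' c
      have := FF_nonneg hn' (-d)
      positivity
    positivity
  -- choice of `η`
  obtain ⟨η, hη0, hη1, hηβ⟩ : ∃ η : ℝ, 0 < η ∧ η < 1 ∧ 1 < β' * ((1 - η) * β) := by
    have hcont : ContinuousAt (fun η : ℝ => β' * ((1 - η) * β)) 0 := by fun_prop
    have h0 : 1 < (fun η : ℝ => β' * ((1 - η) * β)) 0 := by simp only [sub_zero, one_mul]; exact hββ
    have hev := (hcont.tendsto.mono_left (nhdsWithin_le_nhds (s := Ioi 0))).eventually_const_lt h0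
    obtain ⟨η, ⟨h1, h2⟩⟩ := (hev.and (Ioo_mem_nhdsGT (show (0 : ℝ) < 1 by norm_num))).exists
    exact ⟨η, h2.1, h2.2, h1⟩
  obtain ⟨N0, hN0⟩ := F1_iff (β := β')
    (P := fun N H τ => VV (fJ n τ H) (2 / (n : ℝ)) (1 / 2) ≤ C1 * UU n N)
    (local_upper hn hβ' hc hd hC1)
  obtain ⟨B, hB, hpar⟩ := params hη0 hη1 N0
  -- polylog is smaller than a power
  have hpl : ∀ᶠ T : ℝ in atTop, Real.log T ^ B ≤ T ^ β := by
    have h := (isLittleO_log_rpow_rpow_atTop B hβ0).bound (show (0 : ℝ) < 1 by norm_num)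
    filter_upwards [h, eventually_gt_atTop 1] with T hT hT1
    have hl : 0 ≤ Real.log T := Real.log_nonneg hT1.le
    rw [Real.norm_of_nonneg (by positivity), Real.norm_of_nonneg (by positivity), one_mul] at hT
    exact hT
  have hlogc : ∀ᶠ T : ℝ in atTop, Real.log 3 + Real.log T ≤ β' * ((1 - η) * β) * Real.log T := by
    have h1 : Tendsto (fun T : ℝ => (β' * ((1 - η) * β) - 1) * Real.log T) atTop atTop :=
      Real.tendsto_log_atTop.const_mul_atTop (by linarith)
    filter_upwards [h1.eventually_ge_atTop (Real.log 3)] with T hT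
    linarith
  have hconst : ∀ᶠ T : ℝ in atTop, C1 * (1 + 2 / Real.log T) ≤
      C * ((1 - 2 * Real.exp (-(Real.log T ^ 2 / 2))) * (1 - 2 / T)) := by
    have hi : Tendsto (fun T : ℝ => 2 / Real.log T) atTop (𝓝 0) :=
      tendsto_const_nhds.div_atTop Real.tendsto_log_atTop
    have h2 : Tendsto (fun T : ℝ => C1 * (1 + 2 / Real.log T)) atTop (𝓝 C1) := by
      have := (hi.const_add 1).const_mul C1
      simpa using this
    have h3 : Tendsto (fun T : ℝ => Real.exp (-(Real.log T ^ 2 / 2))) atTop (𝓝 0) := by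
      apply Real.tendsto_exp_neg_atTop_nhds_zero.comp
      apply Tendsto.atTop_div_const (by norm_num)
      exact (tendsto_pow_atTop (by norm_num)).comp Real.tendsto_log_atTop
    have h4 : Tendsto (fun T : ℝ => 2 / T) atTop (𝓝 0) := tendsto_const_nhds.div_atTop tendsto_id
    have h5 : Tendsto (fun T : ℝ => C * ((1 - 2 * Real.exp (-(Real.log T ^ 2 / 2))) * (1 - 2 / T)))
        atTop (𝓝 C) := by
      have := (((h3.const_mul 2).const_sub 1).mul (h4.const_sub 1)).const_mul C
      simpa using this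
    filter_upwards [h2.eventually_lt_const (show C1 < (C1 + C) / 2 by linarith),
      h5.eventually_const_lt (show (C1 + C) / 2 < C by linarith)] with T a1 a2
    linarith
  filter_upwards [hpar, hpl, hlogc, hconst, Real.tendsto_log_atTop.eventually_ge_atTop 4,
    eventually_gt_atTop 2] with T hT hTpl hTl hTc hlog hT2 U hU hUT
  obtain ⟨H, N, hH, hH1, hN1, hNN0, hNU, hc1, hc2, hc3, hU1⟩ := hT U (hTpl.trans hU) hUT
  set l := Real.log T with hl
  have hl0 : 0 < l := by linarith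
  have hT0 : 0 < T := by linarith
  set R : ℝ := H * l with hR
  have hR0 : 0 ≤ R := by positivity
  have hH0 : 0 < H := by linarith
  have hRU : R = U / l := by rw [hR, hH]; field_simp
  have hUpos : 0 < U := by linarith
  have hRT : R ≤ T / 2 := by
    rw [hRU, div_le_iff₀ hl0]
    nlinarith
  have hlogN0 : 0 < Real.log N := Real.log_pos hN1
  have hlogU0 : 0 < Real.log U := Real.log_pos hU1
  have hlogUT : β * l ≤ Real.log U := by
    rw [hl, ← Real.log_rpow hT0]
    exact Real.log_le_log (by positivity) hU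
  have hUU0 : 0 ≤ UU n N := (UU_pos hn' hN1).le
  have hwin := windows_upper hn (T := T) (U := U) (R := R) (H := H) (J := C1 * UU n N) hH0 hR0
    hUpos.le (by positivity) (by
      intro τ hτ
      have hτT : T / 2 ≤ τ := by linarith [hτ.1]
      have hτ3 : τ ≤ 3 * T := by linarith [hτ.2]
      apply hN0 N H τ hNN0 hc1
      · linarith
      · calc Real.log τ ≤ Real.log (3 * T) := Real.log_le_log (by linarith) hτ3
          _ = Real.log 3 + l := by rw [Real.log_mul (by norm_num) hT0.ne']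
          _ ≤ β' * ((1 - η) * β) * l := hTl
          _ = β' * ((1 - η) * (β * l)) := by ring
          _ ≤ β' * ((1 - η) * Real.log U) := by
              have : 0 ≤ 1 - η := by linarith
              gcongr
          _ ≤ β' * Real.log N := by gcongr)
  have e1 : R ^ 2 / (2 * H ^ 2) = l ^ 2 / 2 := by
    rw [hR]; field_simp
  rw [e1] at hwin
  have hfin : (1 - 2 / T) * ∫ t in T..(T + U), ‖riemannZeta (1 / 2 + t * Complex.I)‖ ^ (2 / (n : ℝ)) ≤
      ∫ t in T..(T + U), FZ n t := by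
    rw [← intervalIntegral.integral_const_mul]
    refine intervalIntegral.integral_mono_on (by linarith)
      (((zeta_half_continuous _ (by positivity)).const_mul _).intervalIntegrable _ _)
      (FZ_continuous.intervalIntegrable _ _) fun t ht => FZ_ge hn hT2 ht.1
  set I := ∫ t in T..(T + U), ‖riemannZeta (1 / 2 + t * Complex.I)‖ ^ (2 / (n : ℝ)) with hI
  have hI0 : 0 ≤ I := intervalIntegral.integral_nonneg (by linarith) fun t _ => by positivity
  have hE1 : 2 * Real.exp (-(l ^ 2 / 2)) < 1 := by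
    have h1 : Real.exp (-(l ^ 2 / 2)) ≤ Real.exp (-1) := Real.exp_le_exp.mpr (by nlinarith)
    have h2 : Real.exp (-1) < 1 / 2 := by
      rw [Real.exp_neg, inv_lt_comm₀ (Real.exp_pos _) (by norm_num)]
      have := Real.exp_one_gt_d9
      linarith
    linarith
  have hT3 : 2 / T < 1 := by rw [div_lt_one hT0]; exact hT2
  have hK : 0 < (1 - 2 * Real.exp (-(l ^ 2 / 2))) * (1 - 2 / T) :=
    mul_pos (by linarith) (by linarith)
  have hNle : UU n N ≤ AA n * Real.log U ^ κ2 := by
    rw [UU_eq]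
    have : Real.log N ≤ Real.log U := Real.log_le_log (by linarith) hNU
    gcongr
  have h8 : ((1 - 2 * Real.exp (-(l ^ 2 / 2))) * (1 - 2 / T)) * I ≤
      ((1 - 2 * Real.exp (-(l ^ 2 / 2))) * (1 - 2 / T)) * (C * AA n * (U * Real.log U ^ κ2)) := by
    calc ((1 - 2 * Real.exp (-(l ^ 2 / 2))) * (1 - 2 / T)) * I =
        (1 - 2 * Real.exp (-(l ^ 2 / 2))) * ((1 - 2 / T) * I) := by ring
      _ ≤ (1 - 2 * Real.exp (-(l ^ 2 / 2))) * ∫ t in T..(T + U), FZ n t := by
          apply mul_le_mul_of_nonneg_left hfin (by linarith)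
      _ ≤ (U + 2 * R) * (C1 * UU n N) := hwin
      _ ≤ (U + 2 * R) * (C1 * (AA n * Real.log U ^ κ2)) := by gcongr
      _ = (C1 * (1 + 2 / l)) * (AA n * (U * Real.log U ^ κ2)) := by rw [hRU]; field_simp
      _ ≤ (C * ((1 - 2 * Real.exp (-(l ^ 2 / 2))) * (1 - 2 / T))) * (AA n * (U * Real.log U ^ κ2)) := by
          have : 0 ≤ AA n * (U * Real.log U ^ κ2) := by positivity
          exact mul_le_mul_of_nonneg_right hTc this
      _ = _ := by ring
  exact le_of_mul_le_mul_left h8 hK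

end

end Pool.Agent.Q255.FM
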