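import Pool.Agent.Q255.FM.Dy
import Pool.Agent.Q255.FM.Loc4

set_option autoImplicit false

/-!
Bounds on intervals, from a given local upper bound; the moment with a shift.
-/

open Filter MeasureTheory Metric Set Topology
open Pool.Agent.H306R2

namespace Pool.Agent.Q255.FM

noncomputable section

theorem win_upper_gen {n : ℕ} (hn : 2 ≤ n) {β β' C1 C : ℝ} (hβ0 : 0 < β) (hββ : 1 < β' * β)
    (hC10 : 0 < C1) (hC1C : C1 < C)
    (hloc : ∀ᶠ q : ℝ × ℝ × ℝ in F1 β', VV (fJ n q.2.2 q.2.1) (2 / (n : ℝ)) (1 / 2) ≤ C1 * UU n q.1) :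
    ∀ᶠ T : ℝ in atTop, ∀ U : ℝ, T ^ β ≤ U → U ≤ T →
      ∫ t in T..(T + U), ‖riemannZeta (1 / 2 + t * Complex.I)‖ ^ (2 / (n : ℝ)) ≤
        C * AA n * (U * Real.log U ^ ((1 / (n : ℝ)) ^ 2)) := by
  have hn' : 0 < n := by omega
  have hA := AA_pos hn'
  set κ2 : ℝ := (1 / (n : ℝ)) ^ 2 with hκ2
  have hκ0 : 0 < κ2 := by positivity
  have hβ'0 : 0 < β' := by
    by_contra h
    push Not at h
    nlinarith
  -- choice of `η`
  obtain ⟨η, hη0, hη1, hηβ⟩ : ∃ η : ℝ, 0 < η ∧ η < 1 ∧ 1 < β' * ((1 - η) * β) := by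
    have hcont : ContinuousAt (fun η : ℝ => β' * ((1 - η) * β)) 0 := by fun_prop
    have h0 : 1 < (fun η : ℝ => β' * ((1 - η) * β)) 0 := by simp only [sub_zero, one_mul]; exact hββ
    have hev := (hcont.tendsto.mono_left (nhdsWithin_le_nhds (s := Ioi 0))).eventually_const_lt h0
    obtain ⟨η, ⟨h1, h2⟩⟩ := (hev.and (Ioo_mem_nhdsGT (show (0 : ℝ) < 1 by norm_num))).exists
    exact ⟨η, h2.1, h2.2, h1⟩
  obtain ⟨N0, hN0⟩ := F1_iff (β := β')
    (P := fun N H τ => VV (fJ n τ H) (2 / (n : ℝ)) (1 / 2) ≤ C1 * UU n N)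
    hloc
  obtain ⟨B, hB, hpar⟩ := params hη0 hη1 N0
  -- polylog is smaller than a power
  have hpl : ∀ᶠ T : ℝ in atTop, Real.log T ^ B ≤ T ^ β := by
    have h := (isLittleO_log_rpow_rpow_atTop B hβ0).bound (show (0 : ℝ) < 1 by norm_num)
    filter_upwards [h, eventually_gt_atTop 1] with T hT hT1
    have hl : 0 ≤ Real.log T := Real.log_nonneg hT1.le
    rw [Real.norm_of_nonneg (by positivity), Real.norm_of_nonneg (by positivity), one_mul] at hT
    exact hT
  have hlogc : ∀ᶠ T : ℝ in atTop, Real.log 3 + Real.log T ≤ β' * ((1 - η) * β) * Real.log T := by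
    have h1 : Tendsto (fun T : ℝ => (β' * ((1 - η) * β) - 1) * Real.log T) atTop atTop :=
      Real.tendsto_log_atTop.const_mul_atTop (by linarith)
    filter_upwards [h1.eventually_ge_atTop (Real.log 3)] with T hT
    linarith
  have hconst : ∀ᶠ T : ℝ in atTop, C1 * (1 + 2 / Real.log T) ≤
      C * ((1 - 2 * Real.exp (-(Real.log T ^ 2 / 2))) * (1 - 2 / T)) := by
    have hi : Tendsto (fun T : ℝ => 2 / Real.log T) atTop (𝓝 0) :=
      tendsto_const_nhds.div_atTop Real.tendsto_log_atTop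
    have h2 : Tendsto (fun T : ℝ => C1 * (1 + 2 / Real.log T)) atTop (𝓝 C1) := by
      have := (hi.const_add 1).const_mul C1
      simpa using this
    have h3 : Tendsto (fun T : ℝ => Real.exp (-(Real.log T ^ 2 / 2))) atTop (𝓝 0) := by
      apply Real.tendsto_exp_neg_atTop_nhds_zero.comp
      apply Tendsto.atTop_div_const (by norm_num)
      exact (tendsto_pow_atTop (by norm_num)).comp Real.tendsto_log_atTop
    have h4 : Tendsto (fun T : ℝ => 2 / T) atTop (𝓝 0) := tendsto_const_nhds.div_atTop tendsto_id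
    have h5 : Tendsto (fun T : ℝ => C * ((1 - 2 * Real.exp (-(Real.log T ^ 2 / 2))) * (1 - 2 / T)))
        atTop (𝓝 C) := by
      have := (((h3.const_mul 2).const_sub 1).mul (h4.const_sub 1)).const_mul C
      simpa using this
    filter_upwards [h2.eventually_lt_const (show C1 < (C1 + C) / 2 by linarith),
      h5.eventually_const_lt (show (C1 + C) / 2 < C by linarith)] with T a1 a2
    linarith
  filter_upwards [hpar, hpl, hlogc, hconst, Real.tendsto_log_atTop.eventually_ge_atTop 4,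
    eventually_gt_atTop 2] with T hT hTpl hTl hTc hlog hT2 U hU hUT
  obtain ⟨H, N, hH, hH1, hN1, hNN0, hNU, hc1, hc2, hc3, hU1⟩ := hT U (hTpl.trans hU) hUT
  set l := Real.log T with hl
  have hl0 : 0 < l := by linarith
  have hT0 : 0 < T := by linarith
  set R : ℝ := H * l with hR
  have hR0 : 0 ≤ R := by positivity
  have hH0 : 0 < H := by linarith
  have hRU : R = U / l := by rw [hR, hH]; field_simp
  have hUpos : 0 < U := by linarith
  have hRT : R ≤ T / 2 := by
    rw [hRU, div_le_iff₀ hl0]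
    nlinarith
  have hlogN0 : 0 < Real.log N := Real.log_pos hN1
  have hlogU0 : 0 < Real.log U := Real.log_pos hU1
  have hlogUT : β * l ≤ Real.log U := by
    rw [hl, ← Real.log_rpow hT0]
    exact Real.log_le_log (by positivity) hU
  have hUU0 : 0 ≤ UU n N := (UU_pos hn' hN1).le
  have hwin := windows_upper hn (T := T) (U := U) (R := R) (H := H) (J := C1 * UU n N) hH0 hR0
    hUpos.le (by positivity) (by
      intro τ hτ
      have hτT : T / 2 ≤ τ := by linarith [hτ.1]
      have hτ3 : τ ≤ 3 * T := by linarith [hτ.2]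
      apply hN0 N H τ hNN0 hc1
      · linarith
      · calc Real.log τ ≤ Real.log (3 * T) := Real.log_le_log (by linarith) hτ3
          _ = Real.log 3 + l := by rw [Real.log_mul (by norm_num) hT0.ne']
          _ ≤ β' * ((1 - η) * β) * l := hTl
          _ = β' * ((1 - η) * (β * l)) := by ring
          _ ≤ β' * ((1 - η) * Real.log U) := by
              have : 0 ≤ 1 - η := by linarith
              gcongr
          _ ≤ β' * Real.log N := by gcongr)
  have e1 : R ^ 2 / (2 * H ^ 2) = l ^ 2 / 2 := by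
    rw [hR]; field_simp
  rw [e1] at hwin
  have hfin : (1 - 2 / T) * ∫ t in T..(T + U), ‖riemannZeta (1 / 2 + t * Complex.I)‖ ^ (2 / (n : ℝ)) ≤
      ∫ t in T..(T + U), FZ n t := by
    rw [← intervalIntegral.integral_const_mul]
    refine intervalIntegral.integral_mono_on (by linarith)
      (((zeta_half_continuous _ (by positivity)).const_mul _).intervalIntegrable _ _)
      (FZ_continuous.intervalIntegrable _ _) fun t ht => FZ_ge hn hT2 ht.1
  set I := ∫ t in T..(T + U), ‖riemannZeta (1 / 2 + t * Complex.I)‖ ^ (2 / (n : ℝ)) with hI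
  have hI0 : 0 ≤ I := intervalIntegral.integral_nonneg (by linarith) fun t _ => by positivity
  have hE1 : 2 * Real.exp (-(l ^ 2 / 2)) < 1 := by
    have h1 : Real.exp (-(l ^ 2 / 2)) ≤ Real.exp (-1) := Real.exp_le_exp.mpr (by nlinarith)
    have h2 : Real.exp (-1) < 1 / 2 := by
      rw [Real.exp_neg, inv_lt_comm₀ (Real.exp_pos _) (by norm_num)]
      have := Real.exp_one_gt_d9
      linarith
    linarith
  have hT3 : 2 / T < 1 := by rw [div_lt_one hT0]; exact hT2
  have hK : 0 < (1 - 2 * Real.exp (-(l ^ 2 / 2))) * (1 - 2 / T) :=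
    mul_pos (by linarith) (by linarith)
  have hNle : UU n N ≤ AA n * Real.log U ^ κ2 := by
    rw [UU_eq]
    have : Real.log N ≤ Real.log U := Real.log_le_log (by linarith) hNU
    gcongr
  have h8 : ((1 - 2 * Real.exp (-(l ^ 2 / 2))) * (1 - 2 / T)) * I ≤
      ((1 - 2 * Real.exp (-(l ^ 2 / 2))) * (1 - 2 / T)) * (C * AA n * (U * Real.log U ^ κ2)) := by
    calc ((1 - 2 * Real.exp (-(l ^ 2 / 2))) * (1 - 2 / T)) * I =
        (1 - 2 * Real.exp (-(l ^ 2 / 2))) * ((1 - 2 / T) * I) := by ring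
      _ ≤ (1 - 2 * Real.exp (-(l ^ 2 / 2))) * ∫ t in T..(T + U), FZ n t := by
          apply mul_le_mul_of_nonneg_left hfin (by linarith)
      _ ≤ (U + 2 * R) * (C1 * UU n N) := hwin
      _ ≤ (U + 2 * R) * (C1 * (AA n * Real.log U ^ κ2)) := by gcongr
      _ = (C1 * (1 + 2 / l)) * (AA n * (U * Real.log U ^ κ2)) := by rw [hRU]; field_simp
      _ ≤ (C * ((1 - 2 * Real.exp (-(l ^ 2 / 2))) * (1 - 2 / T))) * (AA n * (U * Real.log U ^ κ2)) := by
          have : 0 ≤ AA n * (U * Real.log U ^ κ2) := by positivity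
          exact mul_le_mul_of_nonneg_right hTc this
      _ = _ := by ring
  exact le_of_mul_le_mul_left h8 hK

theorem moments_upper_gen {n : ℕ} (hn : 2 ≤ n) {β' C1 C : ℝ} (hβ1 : 1 < β')
    (hC10 : 0 < C1) (hC1C : C1 < C)
    (hloc : ∀ᶠ q : ℝ × ℝ × ℝ in F1 β', VV (fJ n q.2.2 q.2.1) (2 / (n : ℝ)) (1 / 2) ≤ C1 * UU n q.1) :
    ∀ᶠ T : ℝ in atTop, MM n T ≤ C * AA n * (T * Real.log T ^ ((1 / (n : ℝ)) ^ 2)) := by
  obtain ⟨C2, hC2, hC2C⟩ := exists_between hC1C
  have hn' : 0 < n := by omega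
  have hA := AA_pos hn'
  set m : ℝ := (1 / (n : ℝ)) ^ 2 with hm
  have hm0 : 0 < m := by positivity
  have hw := win_upper_gen hn (β := 1) (by norm_num) (by linarith) hC10 hC2 hloc
  obtain ⟨T1, hT1⟩ := eventually_atTop.1 hw
  set T0 := max T1 2 with hT0
  have hC20 : 0 < C2 := by linarith
  have hstep : ∀ T, T0 ≤ T → MM n (2 * T) - MM n T ≤ C2 * AA n * (T * Real.log T ^ m) := by
    intro T hT
    rw [MM_sub]
    exact hT1 T ((le_max_left _ _).trans hT) T (by rw [Real.rpow_one]) le_rfl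
  have hup := dyadic_upper (f := MM n) (le_max_right T1 2) hm0.le (by positivity) (MM_mono n) hstep
  have hlim : ∀ᶠ T : ℝ in atTop, MM n (2 * T0) ≤ ((C - C2) * AA n) * (Real.log T ^ m) := by
    have : Tendsto (fun T : ℝ => ((C - C2) * AA n) * (Real.log T ^ m)) atTop atTop :=
      ((tendsto_rpow_atTop hm0).comp Real.tendsto_log_atTop).const_mul_atTop
        (mul_pos (by linarith) hA)
    exact this.eventually_ge_atTop _
  filter_upwards [hlim, eventually_ge_atTop T0] with T h1 h2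
  have h3 := hup T h2
  have hT2 : 2 ≤ T := (le_max_right T1 2).trans h2
  have hl : 0 ≤ Real.log T ^ m := Real.rpow_nonneg (Real.log_nonneg (by linarith)) _
  have h4 : ((C - C2) * AA n) * (Real.log T ^ m) ≤ ((C - C2) * AA n) * (T * Real.log T ^ m) := by
    have : 0 ≤ (C - C2) * AA n := mul_nonneg (by linarith) hA.le
    apply mul_le_mul_of_nonneg_left _ this
    nlinarith
  linarith


/-- adding a shift -/
lemma shift_int (n : ℕ) (x T : ℝ) (hT : T ≠ 0) :
    ∫ u in (0 : ℝ)..1, ‖riemannZeta (1 / 2 + x * Complex.I + (u * T) * Complex.I)‖ ^ (2 / (n : ℝ)) =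
      T⁻¹ * (MM n (T + x) - MM n x) := by
  have hc := zeta_half_continuous (2 / (n : ℝ)) (by positivity)
  have e1 : MM n (T + x) - MM n x =
      ∫ t in x..(T + x), ‖riemannZeta (1 / 2 + t * Complex.I)‖ ^ (2 / (n : ℝ)) := by
    unfold MM
    rw [intervalIntegral.integral_interval_sub_left (hc.intervalIntegrable _ _)
      (hc.intervalIntegrable _ _)]
  have e2 := intervalIntegral.integral_comp_mul_add (a := 0) (b := 1)
    (fun t : ℝ => ‖riemannZeta (1 / 2 + t * Complex.I)‖ ^ (2 / (n : ℝ))) hT x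
  rw [mul_zero, zero_add, mul_one, smul_eq_mul] at e2
  rw [e1, ← e2]
  refine intervalIntegral.integral_congr fun u _ => ?_
  congr 3
  push_cast
  ring

lemma log_shift_tendsto (x : ℝ) (m : ℝ) :
    Tendsto (fun T : ℝ => (T + x) / T * (Real.log (T + x) / Real.log T) ^ m) atTop (𝓝 1) := by
  have h1 : Tendsto (fun T : ℝ => (T + x) / T) atTop (𝓝 1) := by
    have h := (tendsto_const_nhds (x := x)).div_atTop tendsto_id
    have h2 := h.const_add 1
    rw [add_zero] at h2
    refine h2.congr' ?_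
    filter_upwards [eventually_gt_atTop 0] with T hT
    simp only [id]
    field_simp
  have h2 : Tendsto (fun T : ℝ => Real.log (T + x) / Real.log T) atTop (𝓝 1) := by
    have h3 : Tendsto (fun T : ℝ => Real.log ((T + x) / T)) atTop (𝓝 0) := by
      have := (Real.continuousAt_log (one_ne_zero)).tendsto.comp h1
      rwa [Real.log_one] at this
    have h4 := (h3.div_atTop Real.tendsto_log_atTop).const_add 1
    rw [add_zero] at h4
    refine h4.congr' ?_
    filter_upwards [eventually_gt_atTop 1, eventually_gt_atTop (-x)] with T hT hTx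
    have hl := Real.log_pos hT
    rw [Real.log_div (by linarith) (by linarith)]
    field_simp
    ring
  have h5 := h1.mul (h2.rpow_const (p := m) (Or.inl one_ne_zero))
  simpa using h5

theorem shift_lower {n : ℕ} {y y' : ℝ} (hn : 0 < n) (hy' : 0 < y') (hyy : y < y')
    (h : ∀ᶠ T : ℝ in atTop, y' * AA n * (T * Real.log T ^ ((1 / (n : ℝ)) ^ 2)) ≤ MM n T) (x : ℝ) :
    ∀ᶠ T : ℝ in atTop, y * AA n * Real.log T ^ ((1 / (n : ℝ)) ^ 2) ≤
      ∫ u in (0 : ℝ)..1, ‖riemannZeta (1 / 2 + x * Complex.I + (u * T) * Complex.I)‖ ^ (2 / (n : ℝ)) := by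
  have hA := AA_pos hn
  set m : ℝ := (1 / (n : ℝ)) ^ 2 with hm
  have hm0 : 0 < m := by positivity
  obtain ⟨y1, hy1, hy2⟩ := exists_between (show max y 0 < y' from max_lt hyy hy')
  have hyy1 : y < y1 := lt_of_le_of_lt (le_max_left _ _) hy1
  have hy10 : 0 < y1 := lt_of_le_of_lt (le_max_right _ _) hy1
  have h1 : ∀ᶠ T : ℝ in atTop, y1 / y' ≤ (T + x) / T * (Real.log (T + x) / Real.log T) ^ m :=
    ((log_shift_tendsto x m).eventually_const_lt (by rwa [div_lt_one hy'])).mono fun T hT => hT.le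
  have h2 : Tendsto (fun T : ℝ => T + x) atTop atTop := tendsto_atTop_add_const_right _ _ tendsto_id
  have h3 : ∀ᶠ T : ℝ in atTop, MM n x ≤ (y1 - y) * AA n * (T * Real.log T ^ m) := by
    have : Tendsto (fun T : ℝ => (y1 - y) * AA n * (T * Real.log T ^ m)) atTop atTop := by
      apply Tendsto.const_mul_atTop (mul_pos (by linarith) hA)
      exact tendsto_id.atTop_mul_atTop₀ ((tendsto_rpow_atTop hm0).comp Real.tendsto_log_atTop)
    exact this.eventually_ge_atTop _
  filter_upwards [h1, h2.eventually h, h3, eventually_gt_atTop 1, h2.eventually_gt_atTop 1] with T a1 a2 a3 hT hTx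
  rw [shift_int n x T (by linarith)]
  have hT0 : 0 < T := by linarith
  have hl : 0 < Real.log T := Real.log_pos hT
  have hlx : 0 < Real.log (T + x) := Real.log_pos hTx
  have hlm : 0 < Real.log T ^ m := Real.rpow_pos_of_pos hl _
  have a4 : y1 * (T * Real.log T ^ m) ≤ y' * ((T + x) * Real.log (T + x) ^ m) := by
    rw [Real.div_rpow hlx.le hl.le, div_mul_div_comm, div_le_div_iff₀ hy' (by positivity)] at a1
    linarith
  rw [le_inv_mul_iff₀ hT0]
  have a5 : AA n * (y1 * (T * Real.log T ^ m)) ≤ AA n * (y' * ((T + x) * Real.log (T + x) ^ m)) :=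
    mul_le_mul_of_nonneg_left a4 hA.le
  nlinarith

theorem shift_upper {n : ℕ} {C C' : ℝ} (hn : 0 < n) (hC' : 0 < C') (hCC : C' < C)
    (h : ∀ᶠ T : ℝ in atTop, MM n T ≤ C' * AA n * (T * Real.log T ^ ((1 / (n : ℝ)) ^ 2))) (x : ℝ) :
    ∀ᶠ T : ℝ in atTop,
      ∫ u in (0 : ℝ)..1, ‖riemannZeta (1 / 2 + x * Complex.I + (u * T) * Complex.I)‖ ^ (2 / (n : ℝ)) ≤
        C * AA n * Real.log T ^ ((1 / (n : ℝ)) ^ 2) := by
  have hA := AA_pos hn
  set m : ℝ := (1 / (n : ℝ)) ^ 2 with hm
  have hm0 : 0 < m := by positivity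
  obtain ⟨C1, hC1, hC2⟩ := exists_between hCC
  have h1 : ∀ᶠ T : ℝ in atTop, (T + x) / T * (Real.log (T + x) / Real.log T) ^ m ≤ C1 / C' :=
    ((log_shift_tendsto x m).eventually_lt_const (by rwa [one_lt_div hC'])).mono fun T hT => hT.le
  have h2 : Tendsto (fun T : ℝ => T + x) atTop atTop := tendsto_atTop_add_const_right _ _ tendsto_id
  have h3 : ∀ᶠ T : ℝ in atTop, -MM n x ≤ (C - C1) * AA n * (T * Real.log T ^ m) := by
    have : Tendsto (fun T : ℝ => (C - C1) * AA n * (T * Real.log T ^ m)) atTop atTop := by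
      apply Tendsto.const_mul_atTop (mul_pos (by linarith) hA)
      exact tendsto_id.atTop_mul_atTop₀ ((tendsto_rpow_atTop hm0).comp Real.tendsto_log_atTop)
    exact this.eventually_ge_atTop _
  filter_upwards [h1, h2.eventually h, h3, eventually_gt_atTop 1, h2.eventually_gt_atTop 1] with T a1 a2 a3 hT hTx
  rw [shift_int n x T (by linarith)]
  have hT0 : 0 < T := by linarith
  have hl : 0 < Real.log T := Real.log_pos hT
  have hlx : 0 < Real.log (T + x) := Real.log_pos hTx
  have hlm : 0 < Real.log T ^ m := Real.rpow_pos_of_pos hl _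
  have a4 : C' * ((T + x) * Real.log (T + x) ^ m) ≤ C1 * (T * Real.log T ^ m) := by
    rw [Real.div_rpow hlx.le hl.le, div_mul_div_comm, div_le_div_iff₀ (by positivity) hC'] at a1
    linarith
  rw [inv_mul_le_iff₀ hT0]
  have a5 : AA n * (C' * ((T + x) * Real.log (T + x) ^ m)) ≤ AA n * (C1 * (T * Real.log T ^ m)) :=
    mul_le_mul_of_nonneg_left a4 hA.le
  nlinarith

end

end Pool.Agent.Q255.FM
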